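import Mathlib

/-!
# MP_90787a_nt: compositions of Möbius transformations, power maps and Dickson polynomials

Definitions.
-/

set_option autoImplicit false

namespace Pool.Agent.MP90787a.J

/-- Homogeneous coordinates of a point of the projective line. -/
def vec {K : Type} [Field K] : OnePoint K → K × K
  | none => (1, 0)
  | some t => (t, 1)

/-- The point of the projective line with homogeneous coordinates `x`. -/
def pt {K : Type} [Field K] [DecidableEq K] (x : K × K) : OnePoint K :=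
  if x.2 = 0 then none else some (x.1 / x.2)

/-- `(x₁ + x₂ √α) ^ n = U + V √α` for `(U, V) = redei α n x`. -/
def redei {K : Type} [Field K] (α : K) : ℕ → K × K → K × K
  | 0, _ => (1, 0)
  | n + 1, x => (x.1 * (redei α n x).1 + α * x.2 * (redei α n x).2,
      x.2 * (redei α n x).1 + x.1 * (redei α n x).2)

/-- `Comp D d F`: the self-map `F` of `ℙ¹(K) = K ∪ {∞}` is a composition of Möbius transformations
over `K`, of power maps `x ↦ x ^ m` whose exponent `m ≥ 2` has only prime factors greater than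
`D + 1`, of Dickson polynomials `D_m(x, a)`, `a ∈ K`, and of Rédei functions
`x ↦ U / V`, `(x + √α) ^ m = U + V √α`, `α ∈ K`, `α ≠ 0`, whose degree `m ≥ 2` has only prime
factors greater than `2 D + 1`; the number `d` is the product of the degrees `m`. -/
inductive Comp {K : Type} [Field K] [DecidableEq K] (D : ℕ) :
    ℕ → (OnePoint K → OnePoint K) → Prop
  | mobius (g : GL (Fin 2) K) : Comp D 1 (fun x => g • x)
  | power (m : ℕ) (hm : 2 ≤ m) (h : ∀ l : ℕ, l.Prime → l ∣ m → D + 1 < l) :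
      Comp D m (OnePoint.map (fun x => x ^ m))
  | dickson (m : ℕ) (a : K) (hm : 2 ≤ m) (h : ∀ l : ℕ, l.Prime → l ∣ m → 2 * D + 1 < l) :
      Comp D m (OnePoint.map (fun x => (Polynomial.dickson 1 a m).eval x))
  | redei (m : ℕ) (α : K) (hα : α ≠ 0) (hm : 2 ≤ m)
      (h : ∀ l : ℕ, l.Prime → l ∣ m → 2 * D + 1 < l) : Comp D m (fun x => pt (redei α m (vec x)))
  | comp {d e : ℕ} {F G : OnePoint K → OnePoint K} (hF : Comp D d F) (hG : Comp D e G) :
      Comp D (d * e) (F ∘ G)

/-- The determinant of two vectors. -/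
def wd {K : Type} [Field K] (x y : K × K) : K := x.1 * y.2 - x.2 * y.1

/-- Four pairwise distinct elements. -/
def D4 {ι : Type} (i l a b : ι) : Prop :=
  i ≠ l ∧ i ≠ a ∧ i ≠ b ∧ l ≠ a ∧ l ≠ b ∧ a ≠ b

/-- `u / w` is a principal unit. -/
def Near {K : Type} [Field K] (v : AbsoluteValue K ℝ) (u w : K) : Prop := v (u - w) < v w

/-- Sets of elements of the valuation ring in different residue classes have at most `q`
elements. -/
def ResBound {K : Type} [Field K] (v : AbsoluteValue K ℝ) (q : ℕ) : Prop :=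
  ∀ T : Finset K, (∀ s ∈ T, v s ≤ 1) → (∀ s ∈ T, ∀ t ∈ T, s ≠ t → v (s - t) = 1) → T.card ≤ q

/-- `x ↦ x ^ m` is injective on the residue field and `m` is a unit. -/
def GeomUnit {K : Type} [Field K] (v : AbsoluteValue K ℝ) (m : ℕ) : Prop :=
  ∀ t : K, v t ≤ 1 → v (∑ i ∈ Finset.range m, t ^ i) = 1

/-- A residue map. -/
structure Res {K : Type} [Field K] (v : AbsoluteValue K ℝ) (F : Type) [Field F] where
  O : Subring K
  mem : ∀ x, x ∈ O ↔ v x ≤ 1
  red : O →+* F
  red_eq : ∀ x : O, red x = 0 ↔ v (x : K) < 1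

/-- `v (P x y) = M x y ^ e`, where the size `M` is compatible with an injective and non-contracting
map of the tree of `v`. -/
structure Kernel {K : Type} [Field K] (v : AbsoluteValue K ℝ)
    (P : K × K → K × K → K) (M : K × K → K × K → ℝ) (e : ℕ) : Prop where
  he : 1 ≤ e
  symm : ∀ x y, P x y = P y x
  norm : ∀ x y, v (P x y) = M x y ^ e
  le : ∀ x y, v (wd x y) ≤ M x y
  exch : ∀ x y z w, v (wd x w) * v (wd y z) ≤ v (wd x y) * v (wd z w) →
    M x w * M y z ≤ M x y * M z w
  trans : ∀ x y z, v (wd x y) < M x y → v (wd y z) < M y z → v (wd x z) < M x z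
  cong : ∀ x y z w, v (wd x y) < M x y → wd x z ≠ 0 → wd x w ≠ 0 → wd y z ≠ 0 → wd y w ≠ 0 →
    v (P x z * P y w - P x w * P y z) < v (P x w * P y z)

/-- The map `E` of the projective line has the determinant quotient `P` (up to factors depending on
one variable), with a `Kernel` structure at `v`. -/
def IsLoc {K : Type} [Field K] (v : AbsoluteValue K ℝ) (E : OnePoint K → OnePoint K) : Prop :=
  ∃ (P : K × K → K × K → K) (M : K × K → K × K → ℝ) (e : ℕ), Kernel v P M e ∧
    ∃ (c : K) (ρ : OnePoint K → K), c ≠ 0 ∧ (∀ x, ρ x ≠ 0) ∧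
      ∀ x y, wd (vec (E x)) (vec (E y)) =
        c * ρ x * ρ y * (wd (vec x) (vec y) * P (vec x) (vec y))

/-- `v` extends to an algebraically closed field. -/
def HasExt {K : Type} [Field K] (v : AbsoluteValue K ℝ) : Prop :=
  ∃ (L : Type) (_ : Field L) (_ : IsAlgClosed L) (w : AbsoluteValue L ℝ) (ι : K →+* L),
    IsNonarchimedean w ∧ ∀ x, w (ι x) = v x

/-- The data attached to a cycle of length `N` of a composition of `k` injective maps: the
determinants `W j i l` of the `i`-th and `l`-th point at stage `j`, and the corresponding values of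
`P` and `M`. -/
structure CycData {K : Type} [Field K] (v : AbsoluteValue K ℝ) (N k : ℕ) where
  W : ℕ → ZMod N → ZMod N → K
  P : ℕ → ZMod N → ZMod N → K
  M : ℕ → ZMod N → ZMod N → ℝ
  e : ℕ → ℕ
  anti : ∀ j i l, W j i l = - W j l i
  ne : ∀ j ≤ k, ∀ i l, i ≠ l → W j i l ≠ 0
  pl : ∀ i l a b, W 0 i l * W 0 a b - W 0 i a * W 0 l b + W 0 i b * W 0 l a = 0
  he : ∀ j < k, 1 ≤ e j
  symm : ∀ j < k, ∀ i l, P j i l = P j l i
  norm : ∀ j < k, ∀ i l, v (P j i l) = M j i l ^ e j
  Msymm : ∀ j < k, ∀ i l, M j i l = M j l i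
  pos : ∀ j < k, ∀ i l, i ≠ l → 0 < M j i l
  le : ∀ j < k, ∀ i l, v (W j i l) ≤ M j i l
  exch : ∀ j < k, ∀ i l a b, v (W j i b) * v (W j l a) ≤ v (W j i l) * v (W j a b) →
    M j i b * M j l a ≤ M j i l * M j a b
  trans : ∀ j < k, ∀ i l a, v (W j i l) < M j i l → v (W j l a) < M j l a →
    v (W j i a) < M j i a
  cong : ∀ j < k, ∀ i l a b, D4 i l a b → v (W j i l) < M j i l →
    v (P j i a * P j l b - P j i b * P j l a) < v (P j i b * P j l a)
  step : ∀ j < k, ∃ (c : K) (ρ : ZMod N → K), c ≠ 0 ∧ (∀ i, ρ i ≠ 0) ∧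
    ∀ i l, W (j + 1) i l = c * ρ i * ρ l * (W j i l * P j i l)
  last : ∃ (c : K) (ρ : ZMod N → K), c ≠ 0 ∧ (∀ i, ρ i ≠ 0) ∧
    ∀ i l, W k i l = c * ρ i * ρ l * W 0 (i + 1) (l + 1)

/-- Cross ratio of four indices at stage `j`. -/
noncomputable def CycData.cr {K : Type} [Field K] {v : AbsoluteValue K ℝ} {N k : ℕ}
    (X : CycData v N k) (j : ℕ) (i l a b : ZMod N) : K :=
  X.W j i l * X.W j a b / (X.W j i a * X.W j l b)

/-- Two consecutive values `r < r'` of `δ` for which the point with the horofunction `β` lies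
on a path between the corresponding vertices. -/
def BadPair {G : Type} [AddCommGroup G] (δ β : G → ℝ) (r r' : ℝ) : Prop :=
  ∃ n b a g : G, b ≠ 0 ∧ a ≠ 0 ∧ g ≠ 0 ∧ δ b = r ∧ δ a = r' ∧ r < r' ∧ r' < δ g ∧
    δ g = β n * β (n + g) ∧ δ (a - b) = β (n + b) * β (n + a)

/-- The ultrametric inequality for `δ`. -/
def Ultra {G : Type} [AddCommGroup G] (δ : G → ℝ) : Prop :=
  ∀ s t : G, s ≠ 0 → t ≠ 0 → s + t ≠ 0 → δ (s + t) ≤ max (δ s) (δ t)

end Pool.Agent.MP90787a.J
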