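import Mathlib
import Pool.Agent.Lib.MP_90787a_nt.J.Defs

/-!
# A point of the tree meets at most two levels (module J5)
-/

set_option autoImplicit false

namespace Pool.Agent.MP90787a.J

namespace BadPairsAux

variable {G : Type} [AddCommGroup G] {δ β : G → ℝ}

theorem iso (hneg : ∀ c, δ (-c) = δ c) (hu : Ultra δ) {x y : G} (hx : x ≠ 0) (hy : y ≠ 0)
    (h : δ x < δ y) : δ (y - x) = δ y := by
  have hne : y - x ≠ 0 := by
    intro h0
    rw [sub_eq_zero] at h0
    rw [h0] at h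
    exact lt_irrefl _ h
  refine le_antisymm ?_ ?_
  · have h1 := hu y (-x) hy (neg_ne_zero.mpr hx) (by rwa [← sub_eq_add_neg])
    rw [hneg, max_eq_left h.le, ← sub_eq_add_neg] at h1
    exact h1
  · have h1 := hu (y - x) x hne hx (by rwa [sub_add_cancel])
    rw [sub_add_cancel] at h1
    rcases le_max_iff.mp h1 with h2 | h2
    · exact h2
    · exact absurd h (not_lt.mpr h2)

/-- the consequences of a bad pair -/
theorem info (hpos : ∀ c, 0 < δ c) (hβ : ∀ c, 0 < β c) (hneg : ∀ c, δ (-c) = δ c) (hu : Ultra δ)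
    (hle : ∀ i l, i ≠ l → δ (i - l) ≤ β i * β l)
    (htrans : ∀ i l a, i ≠ l → l ≠ a → i ≠ a → δ (i - l) < β i * β l → δ (l - a) < β l * β a →
      δ (i - a) < β i * β a) {r r' : ℝ} (h : BadPair δ β r r') :
    ∃ n a : G, a ≠ 0 ∧ δ a = r' ∧ 0 < r ∧ r < r' ∧ r ≤ β n ^ 2 ∧ β n ^ 2 ≤ r' ∧
      β n * β (n + a) = r' ∧ ∀ g' : G, g' ≠ 0 → r' < δ g' → β n * β (n + g') = δ g' := by
  obtain ⟨n, b, a, g, hb, ha, hg, hbr, har, hrr, hrg, hs, hab⟩ := h
  have e1 : ∀ x y : G, (n + x) - (n + y) = x - y := fun x y => by abel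
  have e2 : ∀ x : G, n - (n + x) = -x := fun x => by abel
  have hne : ∀ x y : G, x ≠ y → n + x ≠ n + y := fun x y hxy h => hxy (add_left_cancel h)
  have hne0 : ∀ x : G, x ≠ 0 → n ≠ n + x := fun x hx h => hx (by
    have : n + 0 = n + x := by rwa [add_zero]
    exact (add_left_cancel this).symm)
  have hdne : ∀ x y : G, δ x ≠ δ y → x ≠ y := fun x y hxy h => hxy (by rw [h])
  have h0 : ∀ x : G, x ≠ 0 → δ x ≤ β n * β (n + x) := fun x hx => by
    have := hle n (n + x) (hne0 x hx)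
    rwa [e2, hneg] at this
  -- step 1
  have hbg : δ (g - b) = δ g := iso hneg hu hb hg (by rw [hbr]; linarith)
  have h1 : β n ≤ β (n + b) := by
    have h2 := hle (n + g) (n + b) (hne g b (hdne _ _ (by rw [hbr]; linarith)))
    rw [e1, hbg, hs, mul_comm (β n)] at h2
    exact le_of_mul_le_mul_left h2 (hβ _)
  have hab' : δ (a - b) = δ a := iso hneg hu hb ha (by rw [hbr, har]; exact hrr)
  have h2 : β (n + b) ≤ β n := by
    have h3 := h0 a ha
    rw [← hab', hab] at h3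
    exact le_of_mul_le_mul_right h3 (hβ _)
  have hbn : β (n + b) = β n := le_antisymm h2 h1
  have hna : β n * β (n + a) = r' := by
    rw [← hbn, ← hab, hab', har]
  have hag : δ (g - a) = δ g := iso hneg hu ha hg (by rw [har]; exact hrg)
  have h3 : β n ≤ β (n + a) := by
    have h4 := hle (n + g) (n + a) (hne g a (hdne _ _ (by rw [har]; exact hrg.ne')))
    rw [e1, hag, hs, mul_comm (β n)] at h4
    exact le_of_mul_le_mul_left h4 (hβ _)
  have h4 : β n ^ 2 ≤ r' := by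
    rw [← hna, sq]
    exact mul_le_mul_of_nonneg_left h3 (hβ _).le
  have h5 : r ≤ β n ^ 2 := by
    have := h0 b hb
    rw [hbr, hbn] at this
    rwa [sq]
  have h6 : r' ≤ β (n + a) ^ 2 := by
    rw [← hna, sq]
    exact mul_le_mul_of_nonneg_right h3 (hβ _).le
  refine ⟨n, a, ha, har, hbr ▸ hpos b, hrr, h5, h4, hna, ?_⟩
  intro g' hg' hrg'
  refine le_antisymm ?_ (h0 g' hg')
  by_contra hlt
  rw [not_le] at hlt
  have hga : g' ≠ a := hdne _ _ (by rw [har]; exact hrg'.ne')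
  have hag' : δ (g' - a) = δ g' := iso hneg hu ha hg' (by rw [har]; exact hrg')
  have h7 : ¬ δ ((n + g') - (n + a)) < β (n + g') * β (n + a) := by
    intro h8
    have h9 := htrans n (n + g') (n + a) (hne0 g' hg') (hne g' a hga) (hne0 a ha)
      (by rw [e2, hneg]; exact hlt) h8
    rw [e2, hneg, hna, har] at h9
    exact lt_irrefl _ h9
  rw [not_lt, e1, hag'] at h7
  have hr' : 0 < r' := har ▸ hpos a
  have h8 : β (n + g') * β (n + a) * (β n * β (n + a)) ≤ δ g' * r' := by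
    rw [hna]
    exact mul_le_mul_of_nonneg_right h7 hr'.le
  have h9 : δ g' * r' < β n * β (n + g') * β (n + a) ^ 2 := by
    calc δ g' * r' ≤ δ g' * β (n + a) ^ 2 := mul_le_mul_of_nonneg_left h6 (hpos _).le
      _ < β n * β (n + g') * β (n + a) ^ 2 :=
        mul_lt_mul_of_pos_right hlt (by have := hβ (n + a); positivity)
  have h10 : β (n + g') * β (n + a) * (β n * β (n + a)) = β n * β (n + g') * β (n + a) ^ 2 := by
    ring
  linarith

end BadPairsAux

open BadPairsAux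

theorem bad_pairs {G : Type} [AddCommGroup G] (δ β : G → ℝ) (hpos : ∀ c, 0 < δ c)
    (hβ : ∀ c, 0 < β c) (hneg : ∀ c, δ (-c) = δ c) (hu : Ultra δ)
    (hle : ∀ i l, i ≠ l → δ (i - l) ≤ β i * β l)
    (htrans : ∀ i l a, i ≠ l → l ≠ a → i ≠ a → δ (i - l) < β i * β l → δ (l - a) < β l * β a →
      δ (i - a) < β i * β a)
    (r₁ r₁' r₂ r₂' : ℝ) (h1 : BadPair δ β r₁ r₁') (h2 : BadPair δ β r₂ r₂') : r₁ ≤ r₂' := by
  obtain ⟨n₁, a₁, ha₁, hδ₁, hr₁, hrr₁, hlow₁, hup₁, hna₁, hall₁⟩ :=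
    info hpos hβ hneg hu hle htrans h1
  obtain ⟨n₂, a₂, ha₂, hδ₂, hr₂, hrr₂, hlow₂, hup₂, hna₂, hall₂⟩ :=
    info hpos hβ hneg hu hle htrans h2
  by_contra hcon
  rw [not_le] at hcon
  by_cases hc : n₂ - n₁ = 0
  · have h3 : n₂ = n₁ := sub_eq_zero.mp hc
    rw [h3] at hup₂
    linarith
  · rcases le_or_gt r₁' (δ (n₂ - n₁)) with h3 | h3
    · have h4 := hall₂ (-(n₂ - n₁)) (neg_ne_zero.mpr hc) (by rw [hneg]; linarith)
      have h5 : n₂ + -(n₂ - n₁) = n₁ := by abel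
      rw [hneg, h5] at h4
      have hD : 0 < δ (n₂ - n₁) := hpos _
      have h6 : β n₂ ^ 2 * β n₁ ^ 2 = δ (n₂ - n₁) ^ 2 := by
        rw [← h4]
        ring
      have h7 : β n₂ ^ 2 < δ (n₂ - n₁) := by linarith
      have h8 : β n₁ ^ 2 ≤ δ (n₂ - n₁) := by linarith
      have h9 : 0 < β n₁ ^ 2 := by have := hβ n₁; positivity
      nlinarith
    · have h4 : δ (a₁ - (n₂ - n₁)) = δ a₁ := iso hneg hu hc ha₁ (by rw [hδ₁]; exact h3)
      have hne : a₁ - (n₂ - n₁) ≠ 0 := by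
        intro h0
        rw [sub_eq_zero] at h0
        rw [← h0, hδ₁] at h3
        exact lt_irrefl _ h3
      have h5 := hall₂ (a₁ - (n₂ - n₁)) hne (by rw [h4, hδ₁]; linarith)
      have h6 : n₂ + (a₁ - (n₂ - n₁)) = n₁ + a₁ := by abel
      rw [h6, h4, hδ₁, ← hna₁] at h5
      have h7 : β n₂ = β n₁ := mul_right_cancel₀ (hβ _).ne' h5
      rw [h7] at hup₂
      linarith

end Pool.Agent.MP90787a.J
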