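import Mathlib
import Pool.Agent.Lib.MP_90787a_nt.J.Defs

/-!
# MP_90787a_nt: further auxiliary definitions
-/

set_option autoImplicit false

namespace Pool.Agent.MP90787a.J

/-- homogenised Dickson polynomials -/
def hom {K : Type} [Field K] (a : K) : ℕ → K × K → K
  | 0, _ => 2
  | 1, x => x.1
  | n + 2, x => x.1 * hom a (n + 1) x - a * x.2 ^ 2 * hom a n x

/-- quotient of differences of Dickson polynomials, in the variables `A = x₁ y₂`, `B = x₂ y₁`,
`C = x₂ y₂` -/
def quo {K : Type} [Field K] (a : K) : ℕ → K → K → K → K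
  | 0, _, _, _ => 0
  | 1, _, _, _ => 1
  | n + 2, A, B, C => A * quo a (n + 1) A B C + hom a (n + 1) (B, C) - a * C ^ 2 * quo a n A B C

/-- residual injectivity of `D_m(x, a)` -/
def DickUnit {K : Type} [Field K] (v : AbsoluteValue K ℝ) (m : ℕ) : Prop :=
  ∀ a A B C : K, v (quo a m A B C) = max (max (v A) (v B)) (Real.sqrt (v a) * v C) ^ (m - 1)

/-- Dickson polynomials of the second kind: `(A ^ (n + 1) - B ^ (n + 1)) / (A - B)` in terms of
`S = A + B`, `N = A B` -/
def sec {K : Type} [Field K] (N : K) : ℕ → K → K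
  | 0, _ => 1
  | 1, S => S
  | n + 2, S => S * sec N (n + 1) S - N * sec N n S

/-- residual injectivity of Rédei functions -/
def SecUnit {K : Type} [Field K] (v : AbsoluteValue K ℝ) (m : ℕ) : Prop :=
  ∀ N S : K, v (sec N (m - 1) S) = max (v S) (Real.sqrt (v N)) ^ (m - 1)

/-- an elementary map: a power map, a Dickson polynomial or a Rédei function -/
inductive Elem {K : Type} [Field K] [DecidableEq K] (D : ℕ) :
    ℕ → (OnePoint K → OnePoint K) → Prop
  | power (m : ℕ) (hm : 2 ≤ m) (h : ∀ l : ℕ, l.Prime → l ∣ m → D + 1 < l) :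
      Elem D m (OnePoint.map (fun x => x ^ m))
  | dickson (m : ℕ) (a : K) (hm : 2 ≤ m) (h : ∀ l : ℕ, l.Prime → l ∣ m → 2 * D + 1 < l) :
      Elem D m (OnePoint.map (fun x => (Polynomial.dickson 1 a m).eval x))
  | redei (m : ℕ) (α : K) (hα : α ≠ 0) (hm : 2 ≤ m)
      (h : ∀ l : ℕ, l.Prime → l ∣ m → 2 * D + 1 < l) : Elem D m (fun x => pt (redei α m (vec x)))

/-- normal form: `k` elementary maps, each followed by a Möbius transformation, after a first
Möbius transformation -/
inductive NF {K : Type} [Field K] [DecidableEq K] (D : ℕ) :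
    ℕ → ℕ → (OnePoint K → OnePoint K) → Prop
  | base (g : GL (Fin 2) K) : NF D 0 1 (fun x => g • x)
  | snoc {k d m : ℕ} {F E : OnePoint K → OnePoint K} (hF : NF D k d F) (hE : Elem D m E)
      (g : GL (Fin 2) K) : NF D (k + 1) (m * d) (fun x => g • E (F x))

/-- all elementary maps of degree dividing `d` satisfy the local condition at `v` -/
def LocOK {K : Type} [Field K] [DecidableEq K] (v : AbsoluteValue K ℝ) (D d : ℕ) : Prop :=
  ∀ (m : ℕ) (E : OnePoint K → OnePoint K), m ∣ d → Elem D m E → IsLoc v E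

/-- quotient of differences of powers -/
def powP {K : Type} [Field K] (m : ℕ) (x y : K × K) : K :=
  ∑ i ∈ Finset.range m, (x.1 * y.2) ^ i * (x.2 * y.1) ^ (m - 1 - i)

/-- size of `powP` -/
noncomputable def powM {K : Type} [Field K] (v : AbsoluteValue K ℝ) (x y : K × K) : ℝ :=
  max (v (x.1 * y.2)) (v (x.2 * y.1))

end Pool.Agent.MP90787a.J
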