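import Mathlib
import Pool.Agent.Lib.MP_90787a_nt.J.Defs

/-!
# MP_90787a_nt: the class of maps of the final theorem
-/

set_option autoImplicit false

namespace Pool.Agent.MP90787a.J

/-- `Composite D d F`: the self-map `F` of `ℙ¹(K) = K ∪ {∞}` is a composition of Möbius
transformations over `K`, of power maps `x ↦ x ^ m` whose exponent `m ≥ 2` has only prime factors
greater than `D + 1`, of bicritical maps over `K` (maps which over some extension field `L` have
the form `μ ∘ x ^ m ∘ ν` with Möbius transformations `μ`, `ν` over `L`), and of polynomials over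
`K` which over some extension field `L` have the form `a T_m(c x + e) + b`, `T_m` the `m`-th
Chebyshev polynomial, `a c ≠ 0`, whose degree `m ≥ 2` has only prime factors greater than
`2 D + 1`; the number `d` is the product of the degrees `m`. -/
inductive Composite {K : Type} [Field K] [DecidableEq K] (D : ℕ) :
    ℕ → (OnePoint K → OnePoint K) → Prop
  | mobius (g : GL (Fin 2) K) : Composite D 1 (fun x => g • x)
  | power (m : ℕ) (hm : 2 ≤ m) (h : ∀ l : ℕ, l.Prime → l ∣ m → D + 1 < l) :
      Composite D m (OnePoint.map (fun x => x ^ m))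
  | bicritical (m : ℕ) (hm : 2 ≤ m) (h : ∀ l : ℕ, l.Prime → l ∣ m → 2 * D + 1 < l)
      (F : OnePoint K → OnePoint K) (L : Type) [Field L] [DecidableEq L] [Algebra K L]
      (μ ν : GL (Fin 2) L)
      (hF : ∀ x, OnePoint.map (algebraMap K L) (F x) =
        μ • OnePoint.map (fun t => t ^ m) (ν • OnePoint.map (algebraMap K L) x)) :
      Composite D m F
  | chebyshev (m : ℕ) (hm : 2 ≤ m) (h : ∀ l : ℕ, l.Prime → l ∣ m → 2 * D + 1 < l)
      (f : Polynomial K) (L : Type) [Field L] [Algebra K L] (a b c e : L) (ha : a ≠ 0)
      (hc : c ≠ 0)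
      (hf : f.map (algebraMap K L) = Polynomial.C a *
        (Polynomial.Chebyshev.T L m).comp (Polynomial.C c * Polynomial.X + Polynomial.C e) +
          Polynomial.C b) :
      Composite D m (OnePoint.map (fun x => f.eval x))
  | comp {d e : ℕ} {F G : OnePoint K → OnePoint K} (hF : Composite D d F)
      (hG : Composite D e G) : Composite D (d * e) (F ∘ G)

end Pool.Agent.MP90787a.J
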