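import Mathlib
import Pool.Agent.Lib.MP_90787a_nt.J.Defs
import Pool.Agent.Lib.MP_90787a_nt.J.Defs2

/-!
# MP_90787a_nt, module Fixed: number of fixed points of a composition
-/

set_option autoImplicit false

namespace Pool.Agent.MP90787a.J

open Polynomial

namespace FixedAux

variable {K : Type} [Field K]

/-- the value at `t` of the rational function `p / q` -/
noncomputable def val [DecidableEq K] (p q : K[X]) (t : K) : OnePoint K :=
  if q.eval t = 0 then OnePoint.infty else ((p.eval t / q.eval t : K) : OnePoint K)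

/-- `F` is given by a rational function of degree `d` at the finite points -/
def Rep [DecidableEq K] (d : ℕ) (F : OnePoint K → OnePoint K) : Prop :=
  ∃ p q : K[X], IsCoprime p q ∧ max p.natDegree q.natDegree = d ∧
    ∀ t : K, F (t : OnePoint K) = val p q t

theorem deg_comb (p q : K[X]) (a b : K) :
    (C a * p + C b * q).natDegree ≤ max p.natDegree q.natDegree :=
  (natDegree_add_le _ _).trans (max_le_max (natDegree_C_mul_le _ _) (natDegree_C_mul_le _ _))

theorem rep_mobius [DecidableEq K] {d : ℕ} {F : OnePoint K → OnePoint K} (hF : Rep d F)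
    (g : GL (Fin 2) K) : Rep d (fun x => g • F x) := by
  obtain ⟨p, q, hc, hd, hv⟩ := hF
  have hdet : g 0 0 * g 1 1 - g 0 1 * g 1 0 ≠ 0 := by
    have h1 := g.det_ne_zero
    rw [Matrix.det_fin_two] at h1
    exact h1
  set D : K := g 0 0 * g 1 1 - g 0 1 * g 1 0 with hD
  set p' : K[X] := C (g 0 0) * p + C (g 0 1) * q with hp'
  set q' : K[X] := C (g 1 0) * p + C (g 1 1) * q with hq'
  have e1 : C (D⁻¹ * g 1 1) * p' + C (-(D⁻¹ * g 0 1)) * q' = p := by
    have : C (D⁻¹ * g 1 1) * p' + C (-(D⁻¹ * g 0 1)) * q' = C (D⁻¹ * D) * p := by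
      rw [hp', hq', hD]
      simp only [map_mul, map_sub, map_neg]
      ring
    rw [this, inv_mul_cancel₀ hdet, map_one, one_mul]
  have e2 : C (-(D⁻¹ * g 1 0)) * p' + C (D⁻¹ * g 0 0) * q' = q := by
    have : C (-(D⁻¹ * g 1 0)) * p' + C (D⁻¹ * g 0 0) * q' = C (D⁻¹ * D) * q := by
      rw [hp', hq', hD]
      simp only [map_mul, map_sub, map_neg]
      ring
    rw [this, inv_mul_cancel₀ hdet, map_one, one_mul]
  refine ⟨p', q', ?_, ?_, ?_⟩
  · obtain ⟨u, w, huw⟩ := hc
    refine ⟨u * C (D⁻¹ * g 1 1) + w * C (-(D⁻¹ * g 1 0)),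
      u * C (-(D⁻¹ * g 0 1)) + w * C (D⁻¹ * g 0 0), ?_⟩
    calc _ = u * (C (D⁻¹ * g 1 1) * p' + C (-(D⁻¹ * g 0 1)) * q') +
          w * (C (-(D⁻¹ * g 1 0)) * p' + C (D⁻¹ * g 0 0) * q') := by ring
      _ = 1 := by rw [e1, e2, huw]
  · apply le_antisymm
    · rw [← hd]
      exact max_le (deg_comb _ _ _ _) (deg_comb _ _ _ _)
    · rw [← hd]
      apply max_le
      · conv_lhs => rw [← e1]
        exact deg_comb _ _ _ _
      · conv_lhs => rw [← e2]
        exact deg_comb _ _ _ _
  · intro t
    dsimp only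
    rw [hv t]
    unfold val
    have ep : p'.eval t = g 0 0 * p.eval t + g 0 1 * q.eval t := by simp [hp']
    have eq : q'.eval t = g 1 0 * p.eval t + g 1 1 * q.eval t := by simp [hq']
    by_cases hq0 : q.eval t = 0
    · have hp0 : p.eval t ≠ 0 := by
        intro hp0
        obtain ⟨u, w, huw⟩ := hc
        have := congrArg (eval t) huw
        simp [hp0, hq0] at this
      rw [if_pos hq0, OnePoint.smul_infty_eq_ite, ep, eq, hq0]
      simp only [mul_zero, add_zero]
      by_cases hg : g 1 0 = 0
      · simp [hg]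
      · rw [if_neg hg, if_neg (mul_ne_zero hg hp0), mul_div_mul_right _ _ hp0]
    · rw [if_neg hq0, OnePoint.smul_some_eq_ite, ep, eq]
      have k1 : g 1 0 * (p.eval t / q.eval t) + g 1 1 =
          (g 1 0 * p.eval t + g 1 1 * q.eval t) / q.eval t := by field_simp
      have k0 : g 0 0 * (p.eval t / q.eval t) + g 0 1 =
          (g 0 0 * p.eval t + g 0 1 * q.eval t) / q.eval t := by field_simp
      rw [k1, k0]
      by_cases hz : g 1 0 * p.eval t + g 1 1 * q.eval t = 0
      · rw [if_pos hz, if_pos (by rw [hz, zero_div])]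
      · rw [if_neg hz, if_neg (div_ne_zero hz hq0), div_div_div_cancel_right₀ hq0]

theorem rep_base [DecidableEq K] (g : GL (Fin 2) K) : Rep 1 (fun x : OnePoint K => g • x) := by
  refine rep_mobius (F := fun x => x) ⟨X, 1, isCoprime_one_right, ?_, ?_⟩ g
  · simp
  · intro t
    unfold val
    simp

theorem max_mul (m a b : ℕ) : max (m * a) (m * b) = m * max a b := by
  rcases le_total a b with h | h
  · rw [max_eq_right h, max_eq_right (Nat.mul_le_mul_left m h)]
  · rw [max_eq_left h, max_eq_left (Nat.mul_le_mul_left m h)]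

theorem rep_power [DecidableEq K] {d : ℕ} {F : OnePoint K → OnePoint K} (hF : Rep d F) (m : ℕ)
    (hm : 2 ≤ m) : Rep (m * d) (fun x => OnePoint.map (fun x => x ^ m) (F x)) := by
  obtain ⟨p, q, hc, hd, hv⟩ := hF
  refine ⟨p ^ m, q ^ m, hc.pow, ?_, ?_⟩
  · rw [natDegree_pow, natDegree_pow, max_mul, hd]
  · intro t
    dsimp only
    rw [hv t]
    unfold val
    by_cases hq0 : q.eval t = 0
    · rw [if_pos hq0, if_pos (by rw [eval_pow, hq0, zero_pow (by omega)])]
      rfl
    · rw [if_neg hq0, if_neg (by rw [eval_pow]; exact pow_ne_zero _ hq0), OnePoint.map_some,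
        eval_pow, eval_pow, div_pow]

/-- homogenised Dickson polynomials in two polynomials -/
noncomputable def hp (p q : K[X]) (a : K) : ℕ → K[X]
  | 0 => 2
  | 1 => p
  | n + 2 => p * hp p q a (n + 1) - C a * q ^ 2 * hp p q a n

theorem hp_eval (p q : K[X]) (a t : K) (hq : q.eval t ≠ 0) (m : ℕ) :
    (hp p q a m).eval t = q.eval t ^ m * (dickson 1 a m).eval (p.eval t / q.eval t) := by
  induction m using Nat.strong_induction_on with
  | _ m ih =>
    match m with
    | 0 =>
      rw [hp, dickson_zero]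
      simp only [eval_ofNat, pow_zero, eval_sub, Nat.cast_one, eval_one]
      norm_num
    | 1 =>
      rw [hp, dickson_one, eval_X, pow_one, mul_div_cancel₀ _ hq]
    | n + 2 =>
      rw [hp, dickson_add_two]
      simp only [eval_sub, eval_mul, eval_C, eval_pow, eval_X]
      rw [ih n (by omega), ih (n + 1) (by omega)]
      field_simp
      ring

theorem hp_mod (p q : K[X]) (a : K) (m : ℕ) : ∃ r : K[X], hp p q a (m + 1) = p ^ (m + 1) + q * r := by
  induction m with
  | zero => exact ⟨0, by rw [hp]; ring⟩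
  | succ m ih =>
    obtain ⟨r, hr⟩ := ih
    refine ⟨p * r - C a * q * hp p q a m, ?_⟩
    rw [hp, hr]
    ring

theorem hp_deg_le (p q : K[X]) (a : K) (m : ℕ) :
    (hp p q a m).natDegree ≤ m * max p.natDegree q.natDegree := by
  induction m using Nat.strong_induction_on with
  | _ m ih =>
    match m with
    | 0 =>
      rw [hp]
      have : (2 : K[X]) = C 2 := rfl
      rw [this, natDegree_C]
      exact Nat.zero_le _
    | 1 =>
      rw [hp, one_mul]
      exact le_max_left _ _
    | n + 2 =>
      rw [hp]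
      have h0 := ih n (by omega)
      have h1 := ih (n + 1) (by omega)
      have h2 : p.natDegree ≤ max p.natDegree q.natDegree := le_max_left _ _
      have h3 : q.natDegree ≤ max p.natDegree q.natDegree := le_max_right _ _
      set M := max p.natDegree q.natDegree
      refine (natDegree_sub_le _ _).trans (max_le ?_ ?_)
      · refine natDegree_mul_le.trans ?_
        have e : (n + 2) * M = M + (n + 1) * M := by ring
        rw [e]
        exact add_le_add h2 h1
      · refine natDegree_mul_le.trans ?_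
        have h4 : (C a * q ^ 2).natDegree ≤ 2 * q.natDegree :=
          (natDegree_C_mul_le _ _).trans (natDegree_pow_le)
        have e : (n + 2) * M = 2 * M + n * M := by ring
        rw [e]
        exact add_le_add (h4.trans (Nat.mul_le_mul_left 2 h3)) h0

theorem hp_deg_eq (p q : K[X]) (a : K) (h : q.natDegree < p.natDegree) (m : ℕ) :
    (hp p q a (m + 1)).natDegree = (m + 1) * p.natDegree := by
  have hp0 : p ≠ 0 := by
    rintro rfl
    simp at h
  induction m using Nat.strong_induction_on with
  | _ m ih =>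
    match m with
    | 0 => rw [hp]; ring
    | n + 1 =>
      have h1 := ih n (by omega)
      have hne : hp p q a (n + 1) ≠ 0 := by
        intro h0
        rw [h0, natDegree_zero] at h1
        have : 0 < (n + 1) * p.natDegree := Nat.mul_pos (by omega) (by omega)
        omega
      have e1 : (p * hp p q a (n + 1)).natDegree = (n + 1 + 1) * p.natDegree := by
        rw [natDegree_mul hp0 hne, h1]; ring
      have e2 : (C a * q ^ 2 * hp p q a n).natDegree < (n + 1 + 1) * p.natDegree := by
        have h4 : (C a * q ^ 2).natDegree ≤ 2 * q.natDegree :=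
          (natDegree_C_mul_le _ _).trans (natDegree_pow_le)
        have h5 := hp_deg_le p q a n
        rw [max_eq_left h.le] at h5
        calc (C a * q ^ 2 * hp p q a n).natDegree
            ≤ (C a * q ^ 2).natDegree + (hp p q a n).natDegree := natDegree_mul_le
          _ ≤ 2 * q.natDegree + n * p.natDegree := add_le_add h4 h5
          _ < 2 * p.natDegree + n * p.natDegree := by omega
          _ = (n + 1 + 1) * p.natDegree := by ring
      rw [hp, natDegree_sub_eq_left_of_natDegree_lt (by rw [e1]; exact e2), e1]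

theorem rep_dickson [DecidableEq K] {d : ℕ} {F : OnePoint K → OnePoint K} (hF : Rep d F) (m : ℕ)
    (a : K) (hm : 2 ≤ m) :
    Rep (m * d) (fun x => OnePoint.map (fun x => (Polynomial.dickson 1 a m).eval x) (F x)) := by
  obtain ⟨p, q, hc, hd, hv⟩ := hF
  obtain ⟨k, rfl⟩ : ∃ k, m = k + 1 := ⟨m - 1, by omega⟩
  refine ⟨hp p q a (k + 1), q ^ (k + 1), ?_, ?_, ?_⟩
  · obtain ⟨r, hr⟩ := hp_mod p q a k
    apply IsCoprime.pow_right
    rw [hr]
    exact (IsCoprime.add_mul_left_left (hc.pow_left) r)
  · rw [natDegree_pow, ← hd]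
    apply le_antisymm
    · apply max_le (hp_deg_le _ _ _ _)
      exact Nat.mul_le_mul_left _ (le_max_right _ _)
    · rcases lt_or_ge q.natDegree p.natDegree with h | h
      · rw [hp_deg_eq p q a h, max_eq_left h.le]
        exact le_max_left _ _
      · rw [max_eq_right h]
        exact le_max_right _ _
  · intro t
    dsimp only
    rw [hv t]
    unfold val
    by_cases hq0 : q.eval t = 0
    · rw [if_pos hq0, if_pos (by rw [eval_pow, hq0, zero_pow (by omega)])]
      rfl
    · rw [if_neg hq0, if_neg (by rw [eval_pow]; exact pow_ne_zero _ hq0), OnePoint.map_some,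
        hp_eval p q a t hq0, eval_pow, mul_div_cancel_left₀ _ (pow_ne_zero _ hq0)]

/-- the two components of `(p + s q) ^ n`, `s ^ 2 = a`, over `K[X]` -/
noncomputable def rp (p q : K[X]) (a : K) : ℕ → K[X] × K[X]
  | 0 => (1, 0)
  | n + 1 => (p * (rp p q a n).1 + C a * q * (rp p q a n).2,
      q * (rp p q a n).1 + p * (rp p q a n).2)

theorem rp_norm (p q : K[X]) (a : K) (n : ℕ) :
    (rp p q a n).1 ^ 2 - C a * (rp p q a n).2 ^ 2 = (p ^ 2 - C a * q ^ 2) ^ n := by
  induction n with
  | zero => simp [rp]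
  | succ n ih =>
    rw [pow_succ (p ^ 2 - C a * q ^ 2) n, ← ih]
    simp only [rp]
    ring

theorem rp_mod (p q : K[X]) (a : K) (n : ℕ) : ∃ r s : K[X],
    (rp p q a (n + 1)).1 = (2 * p) ^ n * p + (p ^ 2 - C a * q ^ 2) * r ∧
    (rp p q a (n + 1)).2 = (2 * p) ^ n * q + (p ^ 2 - C a * q ^ 2) * s := by
  induction n with
  | zero => exact ⟨0, 0, by simp [rp], by simp [rp]⟩
  | succ n ih =>
    obtain ⟨r, s, hr, hs⟩ := ih
    refine ⟨p * r + C a * q * s - (2 * p) ^ n, q * r + p * s, ?_, ?_⟩
    · rw [rp]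
      dsimp only
      rw [hr, hs]
      ring
    · rw [rp]
      dsimp only
      rw [hr, hs]
      ring

theorem rp_coprime [CharZero K] (p q : K[X]) (a : K) (ha : a ≠ 0) (hc : IsCoprime p q) (n : ℕ) :
    IsCoprime (rp p q a (n + 1)).1 (rp p q a (n + 1)).2 := by
  have hua : IsUnit (C a) := isUnit_C.mpr (isUnit_iff_ne_zero.mpr ha)
  have hu2 : IsUnit (2 : K[X]) := by
    have : (2 : K[X]) = C 2 := rfl
    rw [this]
    exact isUnit_C.mpr (isUnit_iff_ne_zero.mpr two_ne_zero)
  have h1 : IsCoprime p (p ^ 2 - C a * q ^ 2) := by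
    have h2 : IsCoprime p (-(C a * q ^ 2)) := by
      apply IsCoprime.neg_right
      rw [isCoprime_mul_unit_left_right hua]
      exact hc.pow_right
    have h3 := IsCoprime.add_mul_left_right h2 p
    have e : p ^ 2 - C a * q ^ 2 = -(C a * q ^ 2) + p * p := by ring
    rw [e]
    exact h3
  obtain ⟨r, s, hr, hs⟩ := rp_mod p q a n
  have h4 : IsCoprime (rp p q a (n + 1)).1 (p ^ 2 - C a * q ^ 2) := by
    rw [hr]
    apply IsCoprime.add_mul_left_left
    apply IsCoprime.mul_left _ h1
    apply IsCoprime.pow_left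
    rw [isCoprime_mul_unit_left_left hu2]
    exact h1
  have h5 : IsCoprime (rp p q a (n + 1)).1 ((p ^ 2 - C a * q ^ 2) ^ (n + 1)) := h4.pow_right
  rw [← rp_norm] at h5
  have h6 : IsCoprime (rp p q a (n + 1)).1 (-(C a * (rp p q a (n + 1)).2 ^ 2)) := by
    have h7 := IsCoprime.add_mul_left_right h5 (-(rp p q a (n + 1)).1)
    have e : -(C a * (rp p q a (n + 1)).2 ^ 2) = (rp p q a (n + 1)).1 ^ 2 -
      C a * (rp p q a (n + 1)).2 ^ 2 + (rp p q a (n + 1)).1 * -(rp p q a (n + 1)).1 := by ring
    rw [e]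
    exact h7
  have h8 := h6.neg_right
  rw [neg_neg, isCoprime_mul_unit_left_right hua] at h8
  exact (IsCoprime.pow_right_iff (by norm_num)).mp h8

theorem rp_deg_le (p q : K[X]) (a : K) (M : ℕ) (hp : p.natDegree ≤ M) (hq : q.natDegree ≤ M)
    (n : ℕ) : (rp p q a n).1.natDegree ≤ n * M ∧ (rp p q a n).2.natDegree ≤ n * M := by
  induction n with
  | zero => simp [rp]
  | succ n ih =>
    have e : (n + 1) * M = M + n * M := by ring
    have hq' : (C a * q).natDegree ≤ M := (natDegree_C_mul_le _ _).trans hq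
    rw [rp, e]
    dsimp only
    constructor
    · refine (natDegree_add_le _ _).trans (max_le ?_ ?_)
      · exact natDegree_mul_le.trans (add_le_add hp ih.1)
      · exact natDegree_mul_le.trans (add_le_add hq' ih.2)
    · refine (natDegree_add_le _ _).trans (max_le ?_ ?_)
      · exact natDegree_mul_le.trans (add_le_add hq ih.1)
      · exact natDegree_mul_le.trans (add_le_add hp ih.2)

theorem rp_coeff (p q : K[X]) (a : K) (M : ℕ) (hp : p.natDegree ≤ M) (hq : q.natDegree ≤ M)
    (n : ℕ) : ((rp p q a n).1.coeff (n * M), (rp p q a n).2.coeff (n * M)) =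
      redei a n (p.coeff M, q.coeff M) := by
  induction n with
  | zero => simp [rp, redei]
  | succ n ih =>
    have e : (n + 1) * M = M + n * M := by ring
    have hq' : (C a * q).natDegree ≤ M := (natDegree_C_mul_le _ _).trans hq
    obtain ⟨d1, d2⟩ := rp_deg_le p q a M hp hq n
    rw [rp, redei, ← ih, e]
    dsimp only
    rw [coeff_add, coeff_add, coeff_mul_add_eq_of_natDegree_le hp d1,
      coeff_mul_add_eq_of_natDegree_le hq' d2, coeff_mul_add_eq_of_natDegree_le hq d1,
      coeff_mul_add_eq_of_natDegree_le hp d2, coeff_C_mul]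

theorem rp_eval (p q : K[X]) (a t : K) (n : ℕ) :
    ((rp p q a n).1.eval t, (rp p q a n).2.eval t) = redei a n (p.eval t, q.eval t) := by
  induction n with
  | zero => simp [rp, redei]
  | succ n ih =>
    rw [rp, redei, ← ih]
    simp

theorem redei_norm (a : K) (x : K × K) (n : ℕ) :
    (redei a n x).1 ^ 2 - a * (redei a n x).2 ^ 2 = (x.1 ^ 2 - a * x.2 ^ 2) ^ n := by
  induction n with
  | zero => simp [redei]
  | succ n ih =>
    rw [pow_succ (x.1 ^ 2 - a * x.2 ^ 2) n, ← ih]
    simp only [redei]
    ring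

theorem redei_of_norm (a : K) (x : K × K) (h : x.1 ^ 2 - a * x.2 ^ 2 = 0) (n : ℕ) :
    (redei a (n + 1) x).1 = (2 * x.1) ^ n * x.1 ∧ (redei a (n + 1) x).2 = (2 * x.1) ^ n * x.2 := by
  induction n with
  | zero => simp [redei]
  | succ n ih =>
    rw [redei]
    dsimp only
    rw [ih.1, ih.2]
    constructor
    · linear_combination (-(2 * x.1) ^ n) * h
    · ring

theorem redei_ne [CharZero K] (a : K) (ha : a ≠ 0) (x : K × K) (hx : x ≠ 0) (n : ℕ) :
    redei a (n + 1) x ≠ 0 := by
  intro h0
  have h1 : (redei a (n + 1) x).1 = 0 := by rw [h0]; rfl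
  have h2 : (redei a (n + 1) x).2 = 0 := by rw [h0]; rfl
  have h3 := redei_norm a x (n + 1)
  rw [h1, h2] at h3
  have h4 : x.1 ^ 2 - a * x.2 ^ 2 = 0 := by
    have : (x.1 ^ 2 - a * x.2 ^ 2) ^ (n + 1) = 0 := by rw [← h3]; ring
    exact pow_eq_zero_iff (by omega) |>.mp this
  obtain ⟨h5, -⟩ := redei_of_norm a x h4 n
  rw [h1] at h5
  have h6 : x.1 = 0 := by
    by_contra hne
    exact mul_ne_zero (pow_ne_zero _ (mul_ne_zero two_ne_zero hne)) hne h5.symm
  rw [h6] at h4
  have h7 : x.2 = 0 := by
    have : a * x.2 ^ 2 = 0 := by linear_combination -h4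
    rcases mul_eq_zero.mp this with h | h
    · exact absurd h ha
    · exact pow_eq_zero_iff (by norm_num) |>.mp h
  exact hx (Prod.ext h6 h7)

theorem redei_smul (a c : K) (x : K × K) (n : ℕ) :
    redei a n (c * x.1, c * x.2) = (c ^ n * (redei a n x).1, c ^ n * (redei a n x).2) := by
  induction n with
  | zero => simp [redei]
  | succ n ih =>
    rw [redei, ih, redei]
    dsimp only
    refine Prod.ext ?_ ?_
    · dsimp only; ring
    · dsimp only; ring

theorem pt_of_eq [DecidableEq K] (x : K × K) (h : x.2 = 0) : pt x = OnePoint.infty := if_pos h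

theorem pt_of_ne [DecidableEq K] (x : K × K) (h : x.2 ≠ 0) :
    pt x = ((x.1 / x.2 : K) : OnePoint K) := if_neg h

theorem pt_smul [DecidableEq K] (c : K) (hc : c ≠ 0) (x : K × K) :
    pt (c * x.1, c * x.2) = pt x := by
  by_cases h : x.2 = 0
  · rw [pt_of_eq x h, pt_of_eq _ (by dsimp only; rw [h, mul_zero])]
  · rw [pt_of_ne x h, pt_of_ne _ (mul_ne_zero hc h)]
    dsimp only
    rw [mul_div_mul_left _ _ hc]

theorem vec_pt [DecidableEq K] (x : K × K) (hx : x ≠ 0) :
    ∃ c : K, c ≠ 0 ∧ vec (pt x) = (c * x.1, c * x.2) := by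
  by_cases h : x.2 = 0
  · have h1 : x.1 ≠ 0 := fun h1 => hx (Prod.ext h1 h)
    refine ⟨x.1⁻¹, inv_ne_zero h1, ?_⟩
    rw [pt_of_eq x h, h, inv_mul_cancel₀ h1, mul_zero]
    rfl
  · refine ⟨x.2⁻¹, inv_ne_zero h, ?_⟩
    rw [pt_of_ne x h, inv_mul_cancel₀ h, div_eq_inv_mul]
    rfl

theorem rep_redei [CharZero K] [DecidableEq K] {d : ℕ} {F : OnePoint K → OnePoint K}
    (hF : Rep d F) (m : ℕ) (a : K) (ha : a ≠ 0) (hm : 2 ≤ m) :
    Rep (m * d) (fun x => pt (redei a m (vec (F x)))) := by
  obtain ⟨p, q, hc, hd, hv⟩ := hF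
  obtain ⟨k, rfl⟩ : ∃ k, m = k + 1 := ⟨m - 1, by omega⟩
  have hp : p.natDegree ≤ d := by rw [← hd]; exact le_max_left _ _
  have hq : q.natDegree ≤ d := by rw [← hd]; exact le_max_right _ _
  refine ⟨(rp p q a (k + 1)).1, (rp p q a (k + 1)).2, rp_coprime p q a ha hc k, ?_, ?_⟩
  · obtain ⟨d1, d2⟩ := rp_deg_le p q a d hp hq (k + 1)
    apply le_antisymm (max_le d1 d2)
    have hne : (p.coeff d, q.coeff d) ≠ 0 := by
      intro h0
      have h1 : p.coeff d = 0 := congrArg Prod.fst h0
      have h2 : q.coeff d = 0 := congrArg Prod.snd h0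
      rcases le_total p.natDegree q.natDegree with h | h
      · rw [max_eq_right h] at hd
        rw [← hd] at h2
        have hq0 : q = 0 := leadingCoeff_eq_zero.mp h2
        rw [hq0, natDegree_zero] at hd h
        have hp0 : p = C (p.coeff 0) := eq_C_of_natDegree_le_zero h
        rw [← hd] at h1
        rw [h1, map_zero] at hp0
        rw [hp0, hq0] at hc
        exact not_isCoprime_zero_zero hc
      · rw [max_eq_left h] at hd
        rw [← hd] at h1
        have hp0 : p = 0 := leadingCoeff_eq_zero.mp h1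
        rw [hp0, natDegree_zero] at hd h
        have hq0 : q = C (q.coeff 0) := eq_C_of_natDegree_le_zero h
        rw [← hd] at h2
        rw [h2, map_zero] at hq0
        rw [hp0, hq0] at hc
        exact not_isCoprime_zero_zero hc
    have h3 := redei_ne a ha _ hne k
    rw [← rp_coeff p q a d hp hq (k + 1)] at h3
    by_cases h4 : (rp p q a (k + 1)).1.coeff ((k + 1) * d) = 0
    · by_cases h5 : (rp p q a (k + 1)).2.coeff ((k + 1) * d) = 0
      · exact absurd (Prod.ext h4 h5) h3
      · exact (le_natDegree_of_ne_zero h5).trans (le_max_right _ _)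
    · exact (le_natDegree_of_ne_zero h4).trans (le_max_left _ _)
  · intro t
    dsimp only
    rw [hv t]
    have hne : (p.eval t, q.eval t) ≠ 0 := by
      intro h0
      have h1 : p.eval t = 0 := congrArg Prod.fst h0
      have h2 : q.eval t = 0 := congrArg Prod.snd h0
      obtain ⟨u, w, huw⟩ := hc
      have := congrArg (eval t) huw
      simp [h1, h2] at this
    have e1 : val p q t = pt (p.eval t, q.eval t) := rfl
    have e2 : val (rp p q a (k + 1)).1 (rp p q a (k + 1)).2 t =
      pt ((rp p q a (k + 1)).1.eval t, (rp p q a (k + 1)).2.eval t) := rfl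
    rw [e1, e2, rp_eval]
    obtain ⟨c, hc0, hc1⟩ := vec_pt _ hne
    rw [hc1, redei_smul, pt_smul _ (pow_ne_zero _ hc0)]

theorem rep_nf [CharZero K] [DecidableEq K] (D k d : ℕ) (F : OnePoint K → OnePoint K)
    (hF : NF D k d F) : Rep d F := by
  induction hF with
  | base g => exact rep_base g
  | snoc hF hE g ih =>
    cases hE with
    | power hm h => exact rep_mobius (rep_power ih _ hm) g
    | dickson a hm h => exact rep_mobius (rep_dickson ih _ a hm) g
    | redei α hα hm h => exact rep_mobius (rep_redei ih _ α hα hm) g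

end FixedAux

open FixedAux in
theorem fixed_le {K : Type} [Field K] [CharZero K] [DecidableEq K] (D k d : ℕ) (F : OnePoint K → OnePoint K)
    (hF : NF D k d F) (hd : 2 ≤ d) : {x : OnePoint K | F x = x}.encard ≤ d + 2 := by
  obtain ⟨p, q, hc, hm, hv⟩ := rep_nf D k d F hF
  set r : K[X] := p - X * q with hr
  have hr0 : r ≠ 0 := by
    intro h0
    have hpq : p = X * q := by
      rw [hr] at h0
      exact sub_eq_zero.mp h0
    have hu : IsUnit q := by
      obtain ⟨u, w, huw⟩ := hc
      rw [hpq] at huw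
      refine IsUnit.of_mul_eq_one (u * X + w) ?_
      rw [← huw]; ring
    have h1 : q.natDegree = 0 := natDegree_eq_zero_of_isUnit hu
    have h2 : p.natDegree ≤ 1 := by
      rw [hpq]
      refine natDegree_mul_le.trans ?_
      rw [h1, natDegree_X]
    omega
  have hdeg : r.natDegree ≤ d + 1 := by
    refine (natDegree_sub_le _ _).trans (max_le ?_ ?_)
    · have := le_max_left p.natDegree q.natDegree
      omega
    · refine natDegree_mul_le.trans ?_
      have := le_max_right p.natDegree q.natDegree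
      rw [natDegree_X]
      omega
  have hsub : {x : OnePoint K | F x = x} ⊆
      insert OnePoint.infty ((fun t : K => (t : OnePoint K)) '' (r.roots.toFinset : Set K)) := by
    intro x hx
    induction x using OnePoint.rec with
    | infty => exact Or.inl rfl
    | coe t =>
      right
      refine ⟨t, ?_, rfl⟩
      have h1 : F (t : OnePoint K) = t := hx
      rw [hv t] at h1
      unfold val at h1
      by_cases hq0 : q.eval t = 0
      · rw [if_pos hq0] at h1
        exact absurd h1.symm (OnePoint.coe_ne_infty t)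
      · rw [if_neg hq0] at h1
        have h2 : p.eval t / q.eval t = t := OnePoint.coe_injective h1
        rw [div_eq_iff hq0] at h2
        simp only [Finset.mem_coe, Multiset.mem_toFinset]
        rw [mem_roots hr0]
        rw [IsRoot.def, hr]
        simp [h2]
  refine (Set.encard_le_encard hsub).trans ?_
  refine (Set.encard_insert_le _ _).trans ?_
  have h3 : ((fun t : K => (t : OnePoint K)) '' (r.roots.toFinset : Set K)).encard ≤ (d : ℕ∞) + 1 := by
    refine (Set.encard_image_le _ _).trans ?_
    rw [Set.encard_coe_eq_coe_finsetCard]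
    have h4 : r.roots.toFinset.card ≤ d + 1 :=
      (Multiset.toFinset_card_le _).trans ((card_roots' r).trans hdeg)
    exact_mod_cast h4
  calc _ ≤ ((d : ℕ∞) + 1) + 1 := by gcongr
    _ = d + 2 := by rw [add_assoc]; norm_num

end Pool.Agent.MP90787a.J
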