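import Mathlib
import Pool.Agent.Lib.MP_90787a_nt.J.Defs2
import Pool.Agent.Lib.MP_90787a_nt.J.Defs3
import Pool.Agent.Lib.MP_90787a_nt.J.Fixed

/-!
# MP_90787a_nt: bicritical maps over `K` are compositions of Möbius maps and Rédei functions
-/

set_option autoImplicit false

namespace Pool.Agent.MP90787a.J

open Polynomial

namespace BicriticalAux

open FixedAux

section Points

variable {K L : Type} [Field K] [Field L]

theorem vec_ne (x : OnePoint K) : vec x ≠ 0 := by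
  intro h
  cases x with
  | infty => exact one_ne_zero (congrArg Prod.fst h)
  | coe t => exact one_ne_zero (congrArg Prod.snd h)

theorem pt_vec [DecidableEq K] (x : OnePoint K) : pt (vec x) = x := by
  cases x with
  | infty => exact pt_of_eq (vec OnePoint.infty) rfl
  | coe t =>
    have h : vec (t : OnePoint K) = (t, 1) := rfl
    rw [h, pt_of_ne _ one_ne_zero]
    simp

theorem smul_pt [DecidableEq L] (g : GL (Fin 2) L) (x : L × L) (hx : x ≠ 0) :
    g • pt x = pt (g 0 0 * x.1 + g 0 1 * x.2, g 1 0 * x.1 + g 1 1 * x.2) := by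
  by_cases h : x.2 = 0
  · have h1 : x.1 ≠ 0 := fun h1 => hx (Prod.ext h1 h)
    rw [pt_of_eq x h, OnePoint.smul_infty_eq_ite, h]
    by_cases h2 : g 1 0 = 0
    · rw [if_pos h2, pt_of_eq _ (by simp [h2])]
    · rw [if_neg h2, pt_of_ne _ (by simp [h2, h1])]
      congr 1
      simp only [mul_zero, add_zero]
      rw [mul_div_mul_right _ _ h1]
  · rw [pt_of_ne x h, OnePoint.smul_some_eq_ite]
    have e1 : g 1 0 * (x.1 / x.2) + g 1 1 = (g 1 0 * x.1 + g 1 1 * x.2) / x.2 := by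
      field_simp
    have e2 : g 0 0 * (x.1 / x.2) + g 0 1 = (g 0 0 * x.1 + g 0 1 * x.2) / x.2 := by
      field_simp
    by_cases h2 : g 1 0 * x.1 + g 1 1 * x.2 = 0
    · rw [if_pos (by rw [e1, h2, zero_div]), pt_of_eq _ h2]
    · rw [if_neg (by rw [e1]; exact div_ne_zero h2 h), pt_of_ne _ h2]
      rw [e1, e2, div_div_div_cancel_right₀ h]

theorem map_pow_pt [DecidableEq L] (m : ℕ) (hm : m ≠ 0) (x : L × L) :
    OnePoint.map (fun t : L => t ^ m) (pt x) = pt (x.1 ^ m, x.2 ^ m) := by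
  by_cases h : x.2 = 0
  · rw [pt_of_eq x h, pt_of_eq _ (by simp [h, hm])]
    rfl
  · rw [pt_of_ne x h, pt_of_ne _ (pow_ne_zero m h)]
    rw [OnePoint.map_some, div_pow]

theorem map_pt [DecidableEq K] [DecidableEq L] (f : K →+* L) (x : K × K) :
    OnePoint.map f (pt x) = pt (f x.1, f x.2) := by
  by_cases h : x.2 = 0
  · rw [pt_of_eq x h, pt_of_eq _ (by simp [h])]
    rfl
  · rw [pt_of_ne x h, pt_of_ne _ (by simpa using h)]
    rw [OnePoint.map_some, map_div₀]

theorem wd_of_pt [DecidableEq K] (x y : K × K) (h : pt x = pt y) :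
    x.1 * y.2 = x.2 * y.1 := by
  by_cases h1 : x.2 = 0
  · by_cases h2 : y.2 = 0
    · rw [h1, h2, mul_zero, zero_mul]
    · rw [pt_of_eq x h1, pt_of_ne y h2] at h
      exact absurd h (OnePoint.infty_ne_coe _)
  · by_cases h2 : y.2 = 0
    · rw [pt_of_ne x h1, pt_of_eq y h2] at h
      exact absurd h (OnePoint.coe_ne_infty _)
    · rw [pt_of_ne x h1, pt_of_ne y h2] at h
      have h3 : x.1 / x.2 = y.1 / y.2 := OnePoint.coe_injective h
      rw [div_eq_div_iff h1 h2] at h3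
      rw [h3, mul_comm]

theorem map_inj (f : K →+* L) {x y : OnePoint K}
    (h : OnePoint.map f x = OnePoint.map f y) : x = y := by
  cases x with
  | infty =>
    cases y with
    | infty => rfl
    | coe t => exact absurd h.symm (OnePoint.coe_ne_infty _)
  | coe s =>
    cases y with
    | infty => exact absurd h (OnePoint.coe_ne_infty _)
    | coe t =>
      have h1 : f s = f t := OnePoint.coe_injective h
      rw [f.injective h1]

theorem redei_map (f : K →+* L) (a : K) (n : ℕ) (x : K × K) :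
    redei (f a) n (f x.1, f x.2) = (f (redei a n x).1, f (redei a n x).2) := by
  induction n with
  | zero => simp [redei]
  | succ n ih =>
    rw [redei, ih, redei]
    simp

theorem redei_split (s : L) (n : ℕ) (x : L × L) :
    (redei (s ^ 2) n x).1 + s * (redei (s ^ 2) n x).2 = (x.1 + s * x.2) ^ n ∧
      (redei (s ^ 2) n x).1 - s * (redei (s ^ 2) n x).2 = (x.1 - s * x.2) ^ n := by
  induction n with
  | zero => simp [redei]
  | succ n ih =>
    obtain ⟨h1, h2⟩ := ih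
    rw [redei]
    constructor
    · rw [pow_succ (x.1 + s * x.2) n, ← h1]
      ring
    · rw [pow_succ (x.1 - s * x.2) n, ← h2]
      ring

end Points

section Descent

variable {K L : Type} [Field K] [Field L] [Algebra K L]

theorem exists_pi (a : L) (ha : a ≠ 0) : ∃ π : L →ₗ[K] K, π a = 1 := by
  by_contra hcon
  apply ha
  rw [← Module.forall_dual_apply_eq_zero_iff K a]
  intro φ
  by_contra hφ
  exact hcon ⟨(φ a)⁻¹ • φ, by simp [inv_mul_cancel₀ hφ]⟩

/-- apply a linear map to all coefficients -/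
noncomputable def dsc (π : L →ₗ[K] K) (P : L[X]) : K[X] :=
  ∑ i ∈ Finset.range (P.natDegree + 1), C (π (P.coeff i)) * X ^ i

theorem dsc_coeff (π : L →ₗ[K] K) (P : L[X]) (n : ℕ) : (dsc π P).coeff n = π (P.coeff n) := by
  rw [dsc, finsetSum_coeff]
  simp only [coeff_C_mul_X_pow]
  by_cases h : n ∈ Finset.range (P.natDegree + 1)
  · rw [Finset.sum_eq_single_of_mem n h]
    · simp
    · intro b _ hb
      rw [if_neg (Ne.symm hb)]
  · rw [Finset.sum_eq_zero, coeff_eq_zero_of_natDegree_lt, map_zero]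
    · rw [Finset.mem_range] at h
      omega
    · intro b hb
      rw [if_neg]
      rintro rfl
      exact h hb

theorem dsc_mul (π : L →ₗ[K] K) (P : L[X]) (Q : K[X]) :
    dsc π (P * Q.map (algebraMap K L)) = dsc π P * Q := by
  ext n
  rw [dsc_coeff, coeff_mul, coeff_mul, map_sum]
  refine Finset.sum_congr rfl fun x _ => ?_
  rw [dsc_coeff, coeff_map, mul_comm, ← Algebra.smul_def, map_smul, smul_eq_mul, mul_comm]

theorem dsc_derivative (π : L →ₗ[K] K) (P : L[X]) :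
    dsc π (derivative P) = derivative (dsc π P) := by
  ext n
  rw [dsc_coeff, coeff_derivative, coeff_derivative, dsc_coeff]
  have h : P.coeff (n + 1) * ((n : L) + 1) = ((n : K) + 1) • P.coeff (n + 1) := by
    rw [Algebra.smul_def, mul_comm]
    simp
  rw [h, map_smul, smul_eq_mul, mul_comm]

theorem dsc_eval (π : L →ₗ[K] K) (P : L[X]) (t : K) :
    (dsc π P).eval t = π (P.eval (algebraMap K L t)) := by
  rw [dsc, eval_finsetSum, eval_eq_sum_range, map_sum]
  refine Finset.sum_congr rfl fun i _ => ?_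
  rw [← map_pow, mul_comm (P.coeff i), ← Algebra.smul_def, map_smul, smul_eq_mul, eval_mul,
    eval_C, eval_pow, eval_X, mul_comm]

theorem eval_map' (P : K[X]) (t : K) :
    (P.map (algebraMap K L)).eval (algebraMap K L t) = algebraMap K L (P.eval t) := by
  rw [eval_map, eval₂_at_apply]

theorem eq_of_forall [CharZero K] (P Q : L[X])
    (h : ∀ t : K, P.eval (algebraMap K L t) = Q.eval (algebraMap K L t)) : P = Q := by
  apply Polynomial.eq_of_infinite_eval_eq
  refine Set.Infinite.mono ?_ (Set.infinite_range_of_injective (algebraMap K L).injective)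
  rintro _ ⟨t, rfl⟩
  exact h t

theorem cross_zero [CharZero K] (π : L →ₗ[K] K) (A B : L[X])
    (hAB : ∀ t : K, ∃ q : K × K, q ≠ 0 ∧ algebraMap K L q.2 * A.eval (algebraMap K L t) =
      algebraMap K L q.1 * B.eval (algebraMap K L t)) :
    (dsc π A).map (algebraMap K L) * B = A * (dsc π B).map (algebraMap K L) := by
  apply eq_of_forall (K := K)
  intro t
  obtain ⟨q, hq, h⟩ := hAB t
  rw [eval_mul, eval_mul, eval_map', eval_map', dsc_eval, dsc_eval]
  set a := A.eval (algebraMap K L t)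
  set b := B.eval (algebraMap K L t)
  set f := algebraMap K L
  have h1 : q.2 * π a = q.1 * π b := by
    have h2 := congrArg π h
    rw [← Algebra.smul_def, ← Algebra.smul_def, map_smul, map_smul] at h2
    exact h2
  have h3 : f q.2 * f (π a) = f q.1 * f (π b) := by rw [← map_mul, ← map_mul, h1]
  have h4 : q.1 ≠ 0 ∨ q.2 ≠ 0 := by
    by_contra hc
    rw [not_or, not_not, not_not] at hc
    exact hq (Prod.ext hc.1 hc.2)
  rcases h4 with h4 | h4
  · have h5 : f q.1 ≠ 0 := by simpa using h4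
    apply mul_left_cancel₀ h5
    linear_combination (-f (π a)) * h + a * h3
  · have h5 : f q.2 ≠ 0 := by simpa using h4
    apply mul_left_cancel₀ h5
    linear_combination (-f (π b)) * h + b * h3

theorem descent [CharZero K] (A B : L[X]) (hA : A ≠ 0) (hc : IsCoprime A B)
    (hAB : ∀ t : K, ∃ q : K × K, q ≠ 0 ∧ algebraMap K L q.2 * A.eval (algebraMap K L t) =
      algebraMap K L q.1 * B.eval (algebraMap K L t)) :
    ∃ (s : L) (A' B' : K[X]), s ≠ 0 ∧ A'.map (algebraMap K L) = C s * A ∧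
      B'.map (algebraMap K L) = C s * B := by
  obtain ⟨π, hπ⟩ := exists_pi (K := K) A.leadingCoeff (leadingCoeff_ne_zero.mpr hA)
  have h1 := cross_zero π A B hAB
  have hne : (dsc π A).map (algebraMap K L) ≠ 0 := by
    intro h
    have h2 := congrArg (fun P => P.coeff A.natDegree) h
    simp only [coeff_map, dsc_coeff, coeff_natDegree, hπ, map_one, coeff_zero] at h2
    exact one_ne_zero h2
  have h2 : A ∣ (dsc π A).map (algebraMap K L) :=
    hc.dvd_of_dvd_mul_right (Dvd.intro _ h1.symm)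
  obtain ⟨q, hq⟩ := h2
  have hq0 : q ≠ 0 := by
    rintro rfl
    rw [mul_zero] at hq
    exact hne hq
  have h3 : ((dsc π A).map (algebraMap K L)).natDegree ≤ A.natDegree := by
    rw [natDegree_le_iff_coeff_eq_zero]
    intro N hN
    rw [coeff_map, dsc_coeff, coeff_eq_zero_of_natDegree_lt hN, map_zero, map_zero]
  have h4 : q.natDegree = 0 := by
    rw [hq, natDegree_mul hA hq0] at h3
    omega
  obtain ⟨s, hs⟩ : ∃ s, q = C s := ⟨_, eq_C_of_natDegree_eq_zero h4⟩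
  subst hs
  refine ⟨s, dsc π A, dsc π B, ?_, ?_, ?_⟩
  · rintro rfl
    exact hq0 (map_zero C)
  · rw [hq, mul_comm]
  · apply mul_left_cancel₀ hA
    rw [← h1, hq]
    ring

theorem coprime_comb (P Q : L[X]) (hc : IsCoprime P Q) (μ : GL (Fin 2) L) :
    IsCoprime (C (μ 0 0) * P + C (μ 0 1) * Q) (C (μ 1 0) * P + C (μ 1 1) * Q) := by
  have hdet : μ 0 0 * μ 1 1 - μ 0 1 * μ 1 0 ≠ 0 := by
    have h1 := μ.det_ne_zero
    rw [Matrix.det_fin_two] at h1
    exact h1
  set d : L := μ 0 0 * μ 1 1 - μ 0 1 * μ 1 0 with hd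
  obtain ⟨u, w, huw⟩ := hc
  refine ⟨C d⁻¹ * (u * C (μ 1 1) - w * C (μ 1 0)), C d⁻¹ * (w * C (μ 0 0) - u * C (μ 0 1)), ?_⟩
  have h1 : C d⁻¹ * C d = (1 : L[X]) := by
    rw [← map_mul, inv_mul_cancel₀ hdet, map_one]
  have h2 : C d = C (μ 0 0) * C (μ 1 1) - C (μ 0 1) * C (μ 1 0) := by
    rw [hd]
    simp only [map_sub, map_mul]
  calc _ = (C d⁻¹ * (C (μ 0 0) * C (μ 1 1) - C (μ 0 1) * C (μ 1 0))) * (u * P + w * Q) := by ring
    _ = 1 := by rw [← h2, h1, huw, one_mul]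

theorem det_ne (μ : GL (Fin 2) L) : μ 0 0 * μ 1 1 - μ 0 1 * μ 1 0 ≠ 0 := by
  have h1 := μ.det_ne_zero
  rw [Matrix.det_fin_two] at h1
  exact h1

theorem coprime_lin (ν : GL (Fin 2) L) :
    IsCoprime (C (ν 0 0) * X + C (ν 0 1)) (C (ν 1 0) * X + C (ν 1 1)) := by
  have h := coprime_comb (X : L[X]) 1 isCoprime_one_right ν
  simpa using h

theorem wronskian (μ ν : GL (Fin 2) L) (n : ℕ) (l₁ l₂ A B : L[X])
    (h1 : l₁ = C (ν 0 0) * X + C (ν 0 1)) (h2 : l₂ = C (ν 1 0) * X + C (ν 1 1))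
    (hA : A = C (μ 0 0) * l₁ ^ (n + 1) + C (μ 0 1) * l₂ ^ (n + 1))
    (hB : B = C (μ 1 0) * l₁ ^ (n + 1) + C (μ 1 1) * l₂ ^ (n + 1)) :
    derivative A * B - A * derivative B =
      C ((μ 0 0 * μ 1 1 - μ 0 1 * μ 1 0) * ((n + 1 : ℕ) : L) *
        (ν 0 0 * ν 1 1 - ν 0 1 * ν 1 0)) * (l₁ * l₂) ^ n := by
  have d1 : derivative l₁ = C (ν 0 0) := by rw [h1]; simp
  have d2 : derivative l₂ = C (ν 1 0) := by rw [h2]; simp
  have e : C (ν 0 0) * l₂ - C (ν 1 0) * l₁ = C (ν 0 0) * C (ν 1 1) - C (ν 0 1) * C (ν 1 0) := by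
    rw [h1, h2]
    ring
  have dA : derivative A = C (μ 0 0) * (C ((n + 1 : ℕ) : L) * l₁ ^ n * C (ν 0 0)) +
      C (μ 0 1) * (C ((n + 1 : ℕ) : L) * l₂ ^ n * C (ν 1 0)) := by
    rw [hA, derivative_add, derivative_C_mul, derivative_C_mul, derivative_pow, derivative_pow,
      d1, d2, Nat.add_sub_cancel]
  have dB : derivative B = C (μ 1 0) * (C ((n + 1 : ℕ) : L) * l₁ ^ n * C (ν 0 0)) +
      C (μ 1 1) * (C ((n + 1 : ℕ) : L) * l₂ ^ n * C (ν 1 0)) := by
    rw [hB, derivative_add, derivative_C_mul, derivative_C_mul, derivative_pow, derivative_pow,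
      d1, d2, Nat.add_sub_cancel]
  rw [dA, dB, hA, hB]
  simp only [map_mul, map_sub]
  rw [← e]
  ring

theorem quad_dsc (π : L →ₗ[K] K) (hπ : π 1 = 1) (u w : L) :
    dsc π (X ^ 2 + C u * X + C w) = X ^ 2 + C (π u) * X + C (π w) := by
  ext n
  rw [dsc_coeff]
  rcases n with _ | _ | _ | n
  · simp
  · simp [coeff_C]
  · simp [hπ]
  · simp [coeff_X_pow]

theorem quad_derivative {R : Type} [CommRing R] (a b : R) :
    derivative (X ^ 2 + C a * X + C b : R[X]) = 2 * X + C a := by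
  rw [derivative_add, derivative_add, derivative_C_mul, derivative_X, derivative_C, derivative_pow,
    derivative_X]
  have e2 : (C 2 : R[X]) = 2 := C_ofNat 2
  simp [e2]

theorem quad_coeff {R : Type} [CommRing R] (a b c : R)
    (h : C a * X ^ 2 + C b * X + C c = (0 : R[X])) : a = 0 ∧ b = 0 := by
  have c2 := congrArg (fun P => P.coeff 2) h
  have c1 := congrArg (fun P => P.coeff 1) h
  simp [coeff_C] at c2 c1
  exact ⟨c2, c1⟩

theorem quad_descent [CharZero K] (W : K[X]) (u w c : L) (hc : c ≠ 0) (k : ℕ)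
    (hW : W.map (algebraMap K L) = C c * (X ^ 2 + C u * X + C w) ^ (k + 1)) :
    ∃ u' w' : K, algebraMap K L u' = u ∧ algebraMap K L w' = w := by
  have hL : CharZero L := charZero_of_injective_algebraMap (algebraMap K L).injective
  obtain ⟨π, hπ⟩ := exists_pi (K := K) (1 : L) one_ne_zero
  set G : L[X] := X ^ 2 + C u * X + C w with hG
  set f := algebraMap K L with hf
  have hGne : G ≠ 0 := by
    intro h
    have h2 := quad_coeff (1 : L) u w (by rw [map_one, one_mul]; exact h)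
    exact one_ne_zero h2.1
  have hn : Polynomial.map f (C ((k + 1 : ℕ) : K)) = C ((k + 1 : ℕ) : L) := by
    rw [map_C]
    exact congrArg C (map_natCast f _)
  have hdW : derivative (W.map f) = C c * (C ((k + 1 : ℕ) : L) * G ^ k * derivative G) := by
    rw [hW, derivative_C_mul, derivative_pow, Nat.add_sub_cancel]
  have h1 : G * (derivative W).map f = derivative G * (C ((k + 1 : ℕ) : K) * W).map f := by
    rw [← derivative_map, hdW, Polynomial.map_mul, hW, hn]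
    ring
  have h2 := congrArg (dsc π) h1
  rw [dsc_mul, dsc_mul, dsc_derivative, quad_dsc π hπ] at h2
  set H : L[X] := Polynomial.map f (X ^ 2 + C (π u) * X + C (π w)) with hH
  have h3 : H * derivative (W.map f) = derivative H * (C ((k + 1 : ℕ) : L) * W.map f) := by
    have h := congrArg (Polynomial.map f) h2
    rw [Polynomial.map_mul, Polynomial.map_mul, Polynomial.map_mul, hn, ← derivative_map,
      ← derivative_map] at h
    exact h
  have hH2 : H = X ^ 2 + C (f (π u)) * X + C (f (π w)) := by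
    rw [hH]
    simp
  have h4 : (C c * C ((k + 1 : ℕ) : L) * G ^ k) * (H * derivative G) =
      (C c * C ((k + 1 : ℕ) : L) * G ^ k) * (derivative H * G) := by
    rw [hdW, hW] at h3
    linear_combination h3
  have hcne : (C c * C ((k + 1 : ℕ) : L) * G ^ k) ≠ 0 := by
    refine mul_ne_zero (mul_ne_zero ?_ ?_) (pow_ne_zero _ hGne)
    · rwa [Ne, C_eq_zero]
    · rw [Ne, C_eq_zero]
      exact Nat.cast_ne_zero.mpr (Nat.succ_ne_zero k)
  have h5 := mul_left_cancel₀ hcne h4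
  rw [hH2, hG, quad_derivative, quad_derivative] at h5
  obtain ⟨c2, c1⟩ := quad_coeff (f (π u) - u) (2 * f (π w) - 2 * w)
    (f (π w) * u - f (π u) * w) (by
      simp only [map_sub, map_mul]
      have e2 : (C 2 : L[X]) = 2 := C_ofNat 2
      rw [e2]
      linear_combination h5)
  refine ⟨π u, π w, sub_eq_zero.mp c2, ?_⟩
  have h7 : (2 : L) ≠ 0 := two_ne_zero
  apply mul_left_cancel₀ h7
  exact sub_eq_zero.mp c1

end Descent

section Main

variable {K L : Type} [Field K] [Field L]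

theorem mulVec_ne (g : GL (Fin 2) L) (x : L × L) (hx : x ≠ 0) :
    (g 0 0 * x.1 + g 0 1 * x.2, g 1 0 * x.1 + g 1 1 * x.2) ≠ (0 : L × L) := by
  intro h
  have h1 : g 0 0 * x.1 + g 0 1 * x.2 = 0 := congrArg Prod.fst h
  have h2 : g 1 0 * x.1 + g 1 1 * x.2 = 0 := congrArg Prod.snd h
  have hd := det_ne g
  apply hx
  refine Prod.ext ?_ ?_
  · apply mul_left_cancel₀ hd
    rw [Prod.fst_zero, mul_zero]
    linear_combination (g 1 1) * h1 - (g 0 1) * h2
  · apply mul_left_cancel₀ hd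
    rw [Prod.snd_zero, mul_zero]
    linear_combination (g 0 0) * h2 - (g 1 0) * h1

theorem pow_ne (m : ℕ) (x : L × L) (hx : x ≠ 0) : (x.1 ^ m, x.2 ^ m) ≠ (0 : L × L) := by
  intro h
  have h1 : x.1 ^ m = 0 := congrArg Prod.fst h
  have h2 : x.2 ^ m = 0 := congrArg Prod.snd h
  exact hx (Prod.ext (eq_zero_of_pow_eq_zero h1) (eq_zero_of_pow_eq_zero h2))

theorem map_vec_ne (f : K →+* L) (v : K × K) (hv : v ≠ 0) : (f v.1, f v.2) ≠ (0 : L × L) := by
  intro h
  have h1 : f v.1 = 0 := congrArg Prod.fst h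
  have h2 : f v.2 = 0 := congrArg Prod.snd h
  exact hv (Prod.ext (by simpa using h1) (by simpa using h2))

/-- the value in homogeneous coordinates -/
def phi (μ ν : GL (Fin 2) L) (m : ℕ) (y : L × L) : L × L :=
  (μ 0 0 * (ν 0 0 * y.1 + ν 0 1 * y.2) ^ m + μ 0 1 * (ν 1 0 * y.1 + ν 1 1 * y.2) ^ m,
    μ 1 0 * (ν 0 0 * y.1 + ν 0 1 * y.2) ^ m + μ 1 1 * (ν 1 0 * y.1 + ν 1 1 * y.2) ^ m)

theorem phi_ne (μ ν : GL (Fin 2) L) (m : ℕ) (y : L × L) (hy : y ≠ 0) : phi μ ν m y ≠ 0 :=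
  mulVec_ne μ _ (pow_ne m _ (mulVec_ne ν y hy))

theorem phi_eq [DecidableEq K] [DecidableEq L] (f : K →+* L) (μ ν : GL (Fin 2) L) (m : ℕ)
    (hm : m ≠ 0) (x : OnePoint K) :
    μ • OnePoint.map (fun t : L => t ^ m) (ν • OnePoint.map f x) =
      pt (phi μ ν m (f (vec x).1, f (vec x).2)) := by
  have h1 : OnePoint.map f x = pt (f (vec x).1, f (vec x).2) := by
    rw [← map_pt, pt_vec]
  have hv := map_vec_ne f (vec x) (vec_ne x)
  rw [h1, smul_pt ν _ hv, map_pow_pt m hm, smul_pt μ _ (pow_ne m _ (mulVec_ne ν _ hv))]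
  rfl

theorem phi_redei (μ ν : GL (Fin 2) L) (m : ℕ) (u δ : L) (h0 : ν 0 0 ≠ 0) (h1 : ν 1 0 ≠ 0)
    (hu : u = ν 0 1 / ν 0 0 + ν 1 1 / ν 1 0) (hδ : δ = (ν 0 1 / ν 0 0 - ν 1 1 / ν 1 0) / 2)
    (h2 : (2 : L) ≠ 0) (y R : L × L) (hR : R = redei (δ ^ 2) m (y.1 + u / 2 * y.2, y.2)) :
    phi μ ν m y = ((μ 0 0 * ν 0 0 ^ m + μ 0 1 * ν 1 0 ^ m) * R.1 +
        δ * (μ 0 0 * ν 0 0 ^ m - μ 0 1 * ν 1 0 ^ m) * R.2,
      (μ 1 0 * ν 0 0 ^ m + μ 1 1 * ν 1 0 ^ m) * R.1 +
        δ * (μ 1 0 * ν 0 0 ^ m - μ 1 1 * ν 1 0 ^ m) * R.2) := by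
  have e1 : ν 0 0 * y.1 + ν 0 1 * y.2 = ν 0 0 * ((y.1 + u / 2 * y.2) + δ * y.2) := by
    rw [hu, hδ]
    field_simp
    ring
  have e2 : ν 1 0 * y.1 + ν 1 1 * y.2 = ν 1 0 * ((y.1 + u / 2 * y.2) - δ * y.2) := by
    rw [hu, hδ]
    field_simp
    ring
  obtain ⟨r1, r2⟩ := redei_split δ m (y.1 + u / 2 * y.2, y.2)
  rw [← hR] at r1 r2
  dsimp only at r1 r2
  rw [phi, e1, e2, mul_pow, mul_pow, ← r1, ← r2]
  refine Prod.ext ?_ ?_
  · dsimp only
    ring
  · dsimp only
    ring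

theorem exists_good [Algebra K L] [CharZero K] (P : L[X]) (hP : P ≠ 0) :
    ∃ t : K, P.eval (algebraMap K L t) ≠ 0 := by
  by_contra hcon
  push Not at hcon
  apply hP
  apply eq_of_forall (K := K)
  intro t
  rw [hcon t, eval_zero]

/-- the polynomial `(X + δ) ^ m - (X - δ) ^ m` is not zero -/
theorem diff_ne [CharZero L] (δ : L) (hδ : δ ≠ 0) (m : ℕ) (hm : m ≠ 0) :
    ((X + C δ) ^ m - (X - C δ) ^ m : L[X]) ≠ 0 := by
  intro h
  have h1 := congrArg (eval δ) h
  simp only [eval_sub, eval_pow, eval_add, eval_X, eval_C, sub_self, eval_zero] at h1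
  rw [zero_pow hm, sub_zero] at h1
  have h2 := eq_zero_of_pow_eq_zero h1
  have h3 : (2 : L) * δ = 0 := by rw [two_mul]; exact h2
  rcases mul_eq_zero.mp h3 with h4 | h4
  · exact two_ne_zero h4
  · exact hδ h4

theorem coeff_lin_pow (a b : L) (m : ℕ) : ((C a * X + C b) ^ m : L[X]).coeff m = a ^ m := by
  have h : (C a * X + C b : L[X]).natDegree ≤ 1 := natDegree_linear_le
  have h2 := coeff_pow_of_natDegree_le (m := m) h
  rw [mul_one] at h2
  rw [h2]
  simp

theorem main_form [CharZero K] [DecidableEq K] [DecidableEq L] [Algebra K L] (m : ℕ) (hm : 2 ≤ m)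
    (F : OnePoint K → OnePoint K) (μ ν : GL (Fin 2) L) (h0 : ν 0 0 ≠ 0) (h1 : ν 1 0 ≠ 0)
    (hF : ∀ x, OnePoint.map (algebraMap K L) (F x) =
      μ • OnePoint.map (fun t => t ^ m) (ν • OnePoint.map (algebraMap K L) x)) :
    ∃ (g h : GL (Fin 2) K) (α : K), α ≠ 0 ∧
      ∀ x, F x = g • pt (redei α m (vec (h • x))) := by
  have hL : CharZero L := charZero_of_injective_algebraMap (algebraMap K L).injective
  obtain ⟨k, rfl⟩ : ∃ k, m = k + 1 + 1 := ⟨m - 2, by omega⟩
  set m := k + 1 + 1 with hmk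
  have hm0 : m ≠ 0 := by omega
  set f := algebraMap K L with hf
  have finj : Function.Injective f := f.injective
  have hF' : ∀ x, OnePoint.map f (F x) = pt (phi μ ν m (f (vec x).1, f (vec x).2)) := by
    intro x
    rw [hF x, phi_eq f μ ν m hm0 x]
  -- the polynomials
  obtain ⟨l₁, hl₁⟩ : ∃ l₁ : L[X], l₁ = C (ν 0 0) * X + C (ν 0 1) := ⟨_, rfl⟩
  obtain ⟨l₂, hl₂⟩ : ∃ l₂ : L[X], l₂ = C (ν 1 0) * X + C (ν 1 1) := ⟨_, rfl⟩
  obtain ⟨A, hA⟩ : ∃ A : L[X], A = C (μ 0 0) * l₁ ^ m + C (μ 0 1) * l₂ ^ m := ⟨_, rfl⟩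
  obtain ⟨B, hB⟩ : ∃ B : L[X], B = C (μ 1 0) * l₁ ^ m + C (μ 1 1) * l₂ ^ m := ⟨_, rfl⟩
  have hcop : IsCoprime A B := by
    rw [hA, hB]
    apply coprime_comb
    apply IsCoprime.pow
    rw [hl₁, hl₂]
    exact coprime_lin ν
  have hphi : ∀ t : L, phi μ ν m (t, 1) = (A.eval t, B.eval t) := by
    intro t
    rw [phi, hA, hB, hl₁, hl₂]
    simp
  have hAB : ∀ t : K, ∃ q : K × K, q ≠ 0 ∧ f q.2 * A.eval (f t) = f q.1 * B.eval (f t) := by
    intro t
    refine ⟨vec (F t), vec_ne _, ?_⟩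
    have h2 := hF' (t : OnePoint K)
    have h3 : vec (t : OnePoint K) = (t, 1) := rfl
    rw [h3, map_one, hphi, ← pt_vec (F t), map_pt] at h2
    have h4 := wd_of_pt _ _ h2
    dsimp only at h4
    rw [← h4]
  have hwr := wronskian μ ν (k + 1) l₁ l₂ A B hl₁ hl₂ hA hB
  have hdm := det_ne μ
  have hdn := det_ne ν
  have hAne : A ≠ 0 := by
    rintro hA0
    rw [hA0] at hwr
    rw [derivative_zero, zero_mul, zero_mul, sub_zero] at hwr
    have h2 : l₁ ≠ 0 := by
      intro h3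
      have h4 := congrArg (fun P => P.coeff 1) h3
      rw [hl₁] at h4
      simp [coeff_C] at h4
      exact h0 h4
    have h3 : l₂ ≠ 0 := by
      intro h3
      have h4 := congrArg (fun P => P.coeff 1) h3
      rw [hl₂] at h4
      simp [coeff_C] at h4
      exact h1 h4
    have h5 : C ((μ 0 0 * μ 1 1 - μ 0 1 * μ 1 0) * ((k + 1 + 1 : ℕ) : L) *
        (ν 0 0 * ν 1 1 - ν 0 1 * ν 1 0)) ≠ 0 := by
      rw [Ne, C_eq_zero]
      exact mul_ne_zero (mul_ne_zero hdm (Nat.cast_ne_zero.mpr hm0)) hdn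
    exact mul_ne_zero h5 (pow_ne_zero _ (mul_ne_zero h2 h3)) hwr.symm
  obtain ⟨s, A', B', hs, hA', hB'⟩ := descent A B hAne hcop hAB
  -- the quadratic form
  obtain ⟨u, hu⟩ : ∃ u : L, u = ν 0 1 / ν 0 0 + ν 1 1 / ν 1 0 := ⟨_, rfl⟩
  obtain ⟨w, hw⟩ : ∃ w : L, w = ν 0 1 * ν 1 1 / (ν 0 0 * ν 1 0) := ⟨_, rfl⟩
  have hquad : l₁ * l₂ = C (ν 0 0 * ν 1 0) * (X ^ 2 + C u * X + C w) := by
    have e1 : C (ν 0 0 * ν 1 0) * C u = (C (ν 0 0) * C (ν 1 1) + C (ν 0 1) * C (ν 1 0) : L[X]) := by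
      rw [← map_mul, ← map_mul, ← map_mul, ← map_add]
      congr 1
      rw [hu]
      field_simp
      ring
    have e2 : C (ν 0 0 * ν 1 0) * C w = (C (ν 0 1) * C (ν 1 1) : L[X]) := by
      rw [← map_mul, ← map_mul]
      congr 1
      rw [hw]
      field_simp
    have e3 : (C (ν 0 0 * ν 1 0) : L[X]) = C (ν 0 0) * C (ν 1 0) := map_mul _ _ _
    rw [hl₁, hl₂]
    calc _ = (C (ν 0 0) * C (ν 1 0)) * X ^ 2 +
          (C (ν 0 0) * C (ν 1 1) + C (ν 0 1) * C (ν 1 0)) * X + C (ν 0 1) * C (ν 1 1) := by ring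
      _ = _ := by
        rw [← e1, ← e2, ← e3]
        ring
  obtain ⟨c, hc⟩ : ∃ c : L, c = s ^ 2 * ((μ 0 0 * μ 1 1 - μ 0 1 * μ 1 0) *
      ((k + 1 + 1 : ℕ) : L) * (ν 0 0 * ν 1 1 - ν 0 1 * ν 1 0)) * (ν 0 0 * ν 1 0) ^ (k + 1) :=
    ⟨_, rfl⟩
  have hcne : c ≠ 0 := by
    rw [hc]
    exact mul_ne_zero (mul_ne_zero (pow_ne_zero 2 hs) (mul_ne_zero (mul_ne_zero hdm
      (Nat.cast_ne_zero.mpr hm0)) hdn)) (pow_ne_zero _ (mul_ne_zero h0 h1))
  have hW : (derivative A' * B' - A' * derivative B').map f =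
      C c * (X ^ 2 + C u * X + C w) ^ (k + 1) := by
    rw [Polynomial.map_sub, Polynomial.map_mul, Polynomial.map_mul, ← derivative_map,
      ← derivative_map, hA', hB', derivative_C_mul, derivative_C_mul, hc]
    calc _ = C s ^ 2 * (derivative A * B - A * derivative B) := by ring
      _ = _ := by
        rw [hwr, hquad]
        simp only [map_mul, map_pow, mul_pow]
        ring
  obtain ⟨u', w', hu', hw'⟩ := quad_descent _ u w c hcne k hW
  -- the parameter of the Rédei function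
  obtain ⟨δ, hδ⟩ : ∃ δ : L, δ = (ν 0 1 / ν 0 0 - ν 1 1 / ν 1 0) / 2 := ⟨_, rfl⟩
  have hδne : δ ≠ 0 := by
    intro h
    apply hdn
    have h2 : ν 0 1 / ν 0 0 - ν 1 1 / ν 1 0 = 0 := by
      rw [hδ] at h
      rcases div_eq_zero_iff.mp h with h | h
      · exact h
      · exact absurd h two_ne_zero
    rw [sub_eq_zero, div_eq_div_iff h0 h1] at h2
    rw [h2]
    ring
  obtain ⟨α, hα⟩ : ∃ α : K, α = (u' / 2) ^ 2 - w' := ⟨_, rfl⟩
  have hαf : f α = δ ^ 2 := by
    rw [hα, map_sub, map_pow, map_div₀, hu', hw', hu, hw, hδ, map_ofNat]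
    field_simp
    ring
  have hαne : α ≠ 0 := by
    rintro h
    rw [h, map_zero] at hαf
    exact hδne (eq_zero_of_pow_eq_zero hαf.symm)
  obtain ⟨M00, hM00⟩ : ∃ z, z = μ 0 0 * ν 0 0 ^ m + μ 0 1 * ν 1 0 ^ m := ⟨_, rfl⟩
  obtain ⟨M01, hM01⟩ : ∃ z, z = δ * (μ 0 0 * ν 0 0 ^ m - μ 0 1 * ν 1 0 ^ m) := ⟨_, rfl⟩
  obtain ⟨M10, hM10⟩ : ∃ z, z = μ 1 0 * ν 0 0 ^ m + μ 1 1 * ν 1 0 ^ m := ⟨_, rfl⟩
  obtain ⟨M11, hM11⟩ : ∃ z, z = δ * (μ 1 0 * ν 0 0 ^ m - μ 1 1 * ν 1 0 ^ m) := ⟨_, rfl⟩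
  obtain ⟨R, hR⟩ : ∃ R : K × K → K × K,
    R = fun v => redei α m (v.1 + u' / 2 * v.2, v.2) := ⟨_, rfl⟩
  have hPR : ∀ v : K × K, phi μ ν m (f v.1, f v.2) =
      (M00 * f (R v).1 + M01 * f (R v).2, M10 * f (R v).1 + M11 * f (R v).2) := by
    intro v
    rw [hM00, hM01, hM10, hM11]
    apply phi_redei μ ν m u δ h0 h1 hu hδ two_ne_zero (f v.1, f v.2) (f (R v).1, f (R v).2)
    rw [hR]
    dsimp only
    rw [← redei_map, hαf, map_add, map_mul, map_div₀, hu', map_ofNat]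
  -- the coefficients of the matrix are rational up to the factor `s`
  have hc0 : f (A'.coeff m) = s * M00 := by
    have h2 := congrArg (fun P => P.coeff m) hA'
    simp only [coeff_map, coeff_C_mul] at h2
    rw [h2, hA, hl₁, hl₂, coeff_add, coeff_C_mul, coeff_C_mul, coeff_lin_pow, coeff_lin_pow, hM00]
  have hc1 : f (B'.coeff m) = s * M10 := by
    have h2 := congrArg (fun P => P.coeff m) hB'
    simp only [coeff_map, coeff_C_mul] at h2
    rw [h2, hB, hl₁, hl₂, coeff_add, coeff_C_mul, coeff_C_mul, coeff_lin_pow, coeff_lin_pow, hM10]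
  obtain ⟨t₀, ht₀⟩ := exists_good (K := K) _ (diff_ne δ hδne m hm0)
  obtain ⟨t, ht⟩ : ∃ t : K, t = t₀ - u' / 2 := ⟨_, rfl⟩
  have hV : (R (t, 1)).2 ≠ 0 := by
    intro h2
    apply ht₀
    have h3 : R (t, 1) = redei α m (t₀, 1) := by
      rw [hR, ht]
      dsimp only
      rw [mul_one, sub_add_cancel]
    rw [h3] at h2
    obtain ⟨r1, r2⟩ := redei_split δ m (f t₀, 1)
    have h4 : redei (δ ^ 2) m (f t₀, 1) = (f (redei α m (t₀, 1)).1, f (redei α m (t₀, 1)).2) := by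
      rw [← redei_map, hαf, map_one]
    rw [h4, h2, map_zero] at r1 r2
    simp only [mul_zero, add_zero, sub_zero, mul_one] at r1 r2
    simp only [eval_sub, eval_pow, eval_add, eval_X, eval_C]
    rw [← hf, ← r1, ← r2, sub_self]
  have hA't : f (A'.eval t) = s * (M00 * f (R (t, 1)).1 + M01 * f (R (t, 1)).2) := by
    have h2 : f (A'.eval t) = s * A.eval (f t) := by
      rw [hf, ← eval_map', hA']
      simp
    have h3 := hPR (t, 1)
    dsimp only at h3
    rw [map_one, hphi] at h3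
    rw [h2, (Prod.mk.inj h3).1]
  have hB't : f (B'.eval t) = s * (M10 * f (R (t, 1)).1 + M11 * f (R (t, 1)).2) := by
    have h2 : f (B'.eval t) = s * B.eval (f t) := by
      rw [hf, ← eval_map', hB']
      simp
    have h3 := hPR (t, 1)
    dsimp only at h3
    rw [map_one, hphi] at h3
    rw [h2, (Prod.mk.inj h3).2]
  obtain ⟨g01, hg01⟩ : ∃ z : K, z = (A'.eval t - A'.coeff m * (R (t, 1)).1) / (R (t, 1)).2 :=
    ⟨_, rfl⟩
  obtain ⟨g11, hg11⟩ : ∃ z : K, z = (B'.eval t - B'.coeff m * (R (t, 1)).1) / (R (t, 1)).2 :=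
    ⟨_, rfl⟩
  have hfV : f (R (t, 1)).2 ≠ 0 := fun h => hV (finj (by rw [h, map_zero]))
  have hc01 : f g01 = s * M01 := by
    rw [hg01, map_div₀, map_sub, map_mul, hA't, hc0, div_eq_iff hfV]
    ring
  have hc11 : f g11 = s * M11 := by
    rw [hg11, map_div₀, map_sub, map_mul, hB't, hc1, div_eq_iff hfV]
    ring
  have hdet : (!![A'.coeff m, g01; B'.coeff m, g11] : Matrix (Fin 2) (Fin 2) K).det ≠ 0 := by
    rw [Matrix.det_fin_two_of]
    intro h2
    have h3 := congrArg f h2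
    rw [map_sub, map_mul, map_mul, hc0, hc1, hc01, hc11, map_zero, hM00, hM01, hM10, hM11] at h3
    have h4 : (-2 : L) * s ^ 2 * δ * (ν 0 0 ^ m * ν 1 0 ^ m) *
        (μ 0 0 * μ 1 1 - μ 0 1 * μ 1 0) = 0 := by
      linear_combination h3
    have h5 : (-2 : L) * s ^ 2 * δ * (ν 0 0 ^ m * ν 1 0 ^ m) *
        (μ 0 0 * μ 1 1 - μ 0 1 * μ 1 0) ≠ 0 := by
      refine mul_ne_zero (mul_ne_zero (mul_ne_zero (mul_ne_zero ?_ (pow_ne_zero 2 hs)) hδne)
        (mul_ne_zero (pow_ne_zero _ h0) (pow_ne_zero _ h1))) hdm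
      exact neg_ne_zero.mpr two_ne_zero
    exact h5 h4
  have hdeth : (!![(1 : K), u' / 2; 0, 1] : Matrix (Fin 2) (Fin 2) K).det ≠ 0 := by
    rw [Matrix.det_fin_two_of]
    simp
  refine ⟨Matrix.GeneralLinearGroup.mkOfDetNeZero _ hdet,
    Matrix.GeneralLinearGroup.mkOfDetNeZero _ hdeth, α, hαne, fun x => ?_⟩
  -- reduce to the vector
  have hhv : ((vec x).1 + u' / 2 * (vec x).2, (vec x).2) ≠ (0 : K × K) := by
    intro h2
    have h3 : (vec x).1 + u' / 2 * (vec x).2 = 0 := congrArg Prod.fst h2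
    have h4 : (vec x).2 = 0 := congrArg Prod.snd h2
    rw [h4, mul_zero, add_zero] at h3
    exact vec_ne x (Prod.ext h3 h4)
  have hhx : Matrix.GeneralLinearGroup.mkOfDetNeZero _ hdeth • x =
      pt ((vec x).1 + u' / 2 * (vec x).2, (vec x).2) := by
    conv_lhs => rw [← pt_vec x]
    rw [smul_pt _ _ (vec_ne x)]
    simp [Matrix.GeneralLinearGroup.mkOfDetNeZero]
  have hRR : pt (redei α m (vec (Matrix.GeneralLinearGroup.mkOfDetNeZero _ hdeth • x))) =
      pt (R (vec x)) := by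
    rw [hhx]
    obtain ⟨z, hz, hz2⟩ := vec_pt _ hhv
    rw [hz2]
    rw [redei_smul α z ((vec x).1 + u' / 2 * (vec x).2, (vec x).2) m, pt_smul _ (pow_ne_zero m hz), hR]
  have hRne : R (vec x) ≠ 0 := by
    rw [hR]
    exact redei_ne α hαne _ hhv (k + 1)
  rw [hRR, smul_pt _ _ hRne]
  apply map_inj f
  rw [hF' x, hPR (vec x), map_pt]
  rw [← pt_smul s hs]
  congr 1
  refine Prod.ext ?_ ?_
  · simp only [Matrix.GeneralLinearGroup.mkOfDetNeZero, map_add, map_mul]
    simp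
    rw [hc0, hc01]
    ring
  · simp only [Matrix.GeneralLinearGroup.mkOfDetNeZero, map_add, map_mul]
    simp
    rw [hc1, hc11]
    ring

end Main

end BicriticalAux

theorem comp_of_bicritical {K : Type} [Field K] [CharZero K] [DecidableEq K] (D m : ℕ)
    (hm : 2 ≤ m) (h : ∀ l : ℕ, l.Prime → l ∣ m → 2 * D + 1 < l)
    (F : OnePoint K → OnePoint K) (L : Type) [Field L] [DecidableEq L] [Algebra K L]
    (μ ν : GL (Fin 2) L)
    (hF : ∀ x, OnePoint.map (algebraMap K L) (F x) =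
      μ • OnePoint.map (fun t => t ^ m) (ν • OnePoint.map (algebraMap K L) x)) :
    Comp D m F := by
  -- a point which is not critical
  have hdn := BicriticalAux.det_ne ν
  have hP : ((C (ν 0 0) * X + C (ν 0 1)) * (C (ν 1 0) * X + C (ν 1 1)) : L[X]) ≠ 0 := by
    refine mul_ne_zero ?_ ?_
    · intro h1
      have c1 := congrArg (fun P => P.coeff 1) h1
      have c0 := congrArg (fun P => P.coeff 0) h1
      simp [coeff_C] at c1 c0
      exact hdn (by rw [c1, c0]; ring)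
    · intro h1
      have c1 := congrArg (fun P => P.coeff 1) h1
      have c0 := congrArg (fun P => P.coeff 0) h1
      simp [coeff_C] at c1 c0
      exact hdn (by rw [c1, c0]; ring)
  obtain ⟨t, ht⟩ := BicriticalAux.exists_good (K := K) _ hP
  rw [eval_mul] at ht
  have ht0 := left_ne_zero_of_mul ht
  have ht1 := right_ne_zero_of_mul ht
  simp only [eval_add, eval_mul, eval_C, eval_X] at ht0 ht1
  have hdet : (!![t, 1; 1, 0] : Matrix (Fin 2) (Fin 2) K).det ≠ 0 := by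
    rw [Matrix.det_fin_two_of]
    simp
  obtain ⟨g, hg⟩ : ∃ g : GL (Fin 2) K, g = Matrix.GeneralLinearGroup.mkOfDetNeZero _ hdet :=
    ⟨_, rfl⟩
  have g00 : g 0 0 = t := by rw [hg]; simp [Matrix.GeneralLinearGroup.mkOfDetNeZero]
  have g01 : g 0 1 = 1 := by rw [hg]; simp [Matrix.GeneralLinearGroup.mkOfDetNeZero]
  have g10 : g 1 0 = 1 := by rw [hg]; simp [Matrix.GeneralLinearGroup.mkOfDetNeZero]
  have g11 : g 1 1 = 0 := by rw [hg]; simp [Matrix.GeneralLinearGroup.mkOfDetNeZero]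
  have hF2 : ∀ x, OnePoint.map (algebraMap K L) (F (g • x)) =
      μ • OnePoint.map (fun t => t ^ m)
        ((ν * g.map (algebraMap K L)) • OnePoint.map (algebraMap K L) x) := by
    intro x
    rw [hF (g • x), OnePoint.map_smul, mul_smul]
  have e0 : (ν * g.map (algebraMap K L)) 0 0 = ν 0 0 * algebraMap K L t + ν 0 1 := by
    simp [Matrix.mul_apply, g00, g10]
  have e1 : (ν * g.map (algebraMap K L)) 1 0 = ν 1 0 * algebraMap K L t + ν 1 1 := by
    simp [Matrix.mul_apply, g00, g10]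
  obtain ⟨g', h', α, hα, hmain⟩ := BicriticalAux.main_form m hm (fun x => F (g • x)) μ
    (ν * g.map (algebraMap K L)) (by rw [e0]; exact ht0) (by rw [e1]; exact ht1) hF2
  have hc : Comp D (1 * (m * (1 * 1))) ((fun x : OnePoint K => g' • x) ∘
      ((fun x => pt (redei α m (vec x))) ∘ ((fun x : OnePoint K => h' • x) ∘
        (fun x : OnePoint K => g⁻¹ • x)))) :=
    Comp.comp (Comp.mobius g') (Comp.comp (Comp.redei m α hα hm h)
      (Comp.comp (Comp.mobius h') (Comp.mobius g⁻¹)))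
  have hd : 1 * (m * (1 * 1)) = m := by ring
  rw [hd] at hc
  have hfun : F = ((fun x : OnePoint K => g' • x) ∘
      ((fun x => pt (redei α m (vec x))) ∘ ((fun x : OnePoint K => h' • x) ∘
        (fun x : OnePoint K => g⁻¹ • x)))) := by
    funext x
    have h1 := hmain (g⁻¹ • x)
    rw [smul_inv_smul] at h1
    rw [h1]
    rfl
  rw [hfun]
  exact hc

end Pool.Agent.MP90787a.J
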