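import Mathlib
import Pool.Agent.Lib.MP_90787a_nt.J.Defs

set_option autoImplicit false

namespace Pool.Agent.MP90787a.J

namespace ChainAux

variable {G : Type} [AddCommGroup G]

/-- The elements of `H` below `r`. -/
def low (δ : G → ℝ) (hneg : ∀ c, δ (-c) = δ c) (hu : Ultra δ) (H : AddSubgroup G) (r : ℝ) :
    AddSubgroup G where
  carrier := {c | c ∈ H ∧ (c = 0 ∨ δ c < r)}
  zero_mem' := ⟨H.zero_mem, Or.inl rfl⟩
  add_mem' := by
    rintro a b ⟨ha, ha'⟩ ⟨hb, hb'⟩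
    refine ⟨H.add_mem ha hb, ?_⟩
    by_cases h0 : a + b = 0
    · exact Or.inl h0
    by_cases ha0 : a = 0
    · subst ha0
      rwa [zero_add]
    by_cases hb0 : b = 0
    · subst hb0
      rwa [add_zero]
    right
    exact (hu a b ha0 hb0 h0).trans_lt (max_lt (ha'.resolve_left ha0) (hb'.resolve_left hb0))
  neg_mem' := by
    rintro a ⟨ha, ha'⟩
    refine ⟨H.neg_mem ha, ?_⟩
    rcases ha' with rfl | ha'
    · left
      exact neg_zero
    · right
      rwa [hneg]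

theorem mem_low (δ : G → ℝ) (hneg : ∀ c, δ (-c) = δ c) (hu : Ultra δ) (H : AddSubgroup G)
    (r : ℝ) (c : G) : c ∈ low δ hneg hu H r ↔ c ∈ H ∧ (c = 0 ∨ δ c < r) := Iff.rfl

theorem main [Finite G] [IsAddCyclic G] (p q : ℕ) (hp : p.Prime) (δ : G → ℝ)
    (hneg : ∀ c, δ (-c) = δ c) (hu : Ultra δ) (Bd : Finset ℝ)
    (hidx : ∀ (r : ℝ) (T : Finset G),
      (∀ s ∈ T, ∀ t ∈ T, s ≠ t → δ (s - t) = r) → T.card ≤ q + 1)
    (hgood : ∀ r, (∃ c, c ≠ 0 ∧ δ c = r) → r ∉ Bd →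
      ∀ c, c ≠ 0 → δ c ≤ r → p • c = 0 ∨ δ (p • c) < r) (n : ℕ) :
    ∀ H : AddSubgroup G, Nat.card H = n →
      ∃ a j : ℕ, Nat.card H = a * p ^ j ∧
        a ≤ (q + 1) ^ {r | r ∈ Bd ∧ ∃ c ∈ H, c ≠ 0 ∧ δ c = r}.ncard := by
  classical
  induction n using Nat.strong_induction_on with
  | _ n ih =>
  intro H hn
  by_cases hbot : H = ⊥
  · subst hbot
    refine ⟨1, 0, by simp, ?_⟩
    exact Nat.one_le_pow _ _ (by omega)
  -- the maximum
  have hne : {c : G | c ∈ H ∧ c ≠ 0}.Nonempty := by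
    obtain ⟨c, hc, h0⟩ := (AddSubgroup.ne_bot_iff_exists_ne_zero).1 hbot |>.elim
      (fun c hc => (⟨c.1, c.2, fun h => hc (Subtype.ext h)⟩ : ∃ c : G, c ∈ H ∧ c ≠ 0))
    exact ⟨c, hc, h0⟩
  obtain ⟨m, ⟨hmH, hm0⟩, hmax⟩ :=
    (Set.toFinite {c : G | c ∈ H ∧ c ≠ 0}).exists_maximalFor δ _ hne
  have hmax' : ∀ c ∈ H, c ≠ 0 → δ c ≤ δ m := by
    intro c hc h0
    by_contra hlt
    push Not at hlt
    exact absurd (hmax ⟨hc, h0⟩ hlt.le) (not_le.2 hlt)
  set r := δ m with hr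
  set H' := low δ hneg hu H r with hH'
  have hle : H' ≤ H := fun c hc => hc.1
  have hmem : ∀ c, c ∈ H' ↔ c ∈ H ∧ (c = 0 ∨ δ c < r) := fun c => Iff.rfl
  have hmH' : m ∉ H' := by
    rintro ⟨_, h | h⟩
    · exact hm0 h
    · exact lt_irrefl _ h
  have hlt : Nat.card H' < n := by
    rw [← hn]
    have : (H' : Set G) ⊂ (H : Set G) := ⟨hle, fun h => hmH' (h hmH)⟩
    exact Set.ncard_lt_ncard this (Set.toFinite _)
  set K := H'.addSubgroupOf H with hK
  have hKc : Nat.card K = Nat.card H' :=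
    Nat.card_congr (AddSubgroup.addSubgroupOfEquivOfLe hle).toEquiv
  have hmul : Nat.card H' * Nat.card (H ⧸ K) = Nat.card H := by
    rw [← hKc]
    exact K.card_mul_index
  have hmemK : ∀ c : H, c ∈ K ↔ (c : G) ∈ H' := fun c => Iff.rfl
  obtain ⟨a, j, haj, ha⟩ := ih _ hlt H' rfl
  have hsub : {r | r ∈ Bd ∧ ∃ c ∈ H', c ≠ 0 ∧ δ c = r}
      ⊆ {r | r ∈ Bd ∧ ∃ c ∈ H, c ≠ 0 ∧ δ c = r} := by
    rintro x ⟨hx, c, hc, h0, h1⟩
    exact ⟨hx, c, hle hc, h0, h1⟩
  have hfin : {r | r ∈ Bd ∧ ∃ c ∈ H, c ≠ 0 ∧ δ c = r}.Finite :=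
    Bd.finite_toSet.subset fun x hx => hx.1
  by_cases hrB : r ∈ Bd
  · -- the index is at most `q + 1`
    have hindex : Nat.card (H ⧸ K) ≤ q + 1 := by
      haveI : Fintype (H ⧸ K) := Fintype.ofFinite _
      let f : H ⧸ K → G := fun x => ((Quotient.out x : H) : G)
      have hout : ∀ x : H ⧸ K, (QuotientAddGroup.mk (Quotient.out x : H) : H ⧸ K) = x :=
        fun x => Quotient.out_eq' x
      have hf : Function.Injective f := by
        intro x y hxy
        have : (Quotient.out x : H) = Quotient.out y := Subtype.ext hxy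
        rw [← hout x, ← hout y, this]
      have hT := hidx r (Finset.univ.image f) (by
        intro s hs t ht hst
        simp only [Finset.mem_image, Finset.mem_univ, true_and] at hs ht
        obtain ⟨x, rfl⟩ := hs
        obtain ⟨y, rfl⟩ := ht
        have hH : f x - f y ∈ H := H.sub_mem (Quotient.out x : H).2 (Quotient.out y : H).2
        have h0 : f x - f y ≠ 0 := fun h => hst (sub_eq_zero.1 h)
        have hnot : f x - f y ∉ H' := by
          intro h
          apply hst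
          have hxy : x = y := by
            rw [← hout x, ← hout y]
            refine (QuotientAddGroup.eq.2 ?_).symm
            rw [hmemK]
            have h2 : ((-(Quotient.out y : H) + (Quotient.out x : H) : H) : G)
                = f x - f y := by
              simp only [f, AddSubgroup.coe_add, AddSubgroup.coe_neg]
              abel
            rw [h2]
            exact h
          rw [hxy]
        rw [hmem] at hnot
        push Not at hnot
        exact le_antisymm (hmax' _ hH h0) ((hnot hH).2))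
      rw [Finset.card_image_of_injective _ hf, Finset.card_univ] at hT
      rwa [Nat.card_eq_fintype_card]
    refine ⟨a * Nat.card (H ⧸ K), j, ?_, ?_⟩
    · rw [← hmul, haj]
      ring
    · have hcard : {r | r ∈ Bd ∧ ∃ c ∈ H', c ≠ 0 ∧ δ c = r}.ncard + 1
          ≤ {r | r ∈ Bd ∧ ∃ c ∈ H, c ≠ 0 ∧ δ c = r}.ncard := by
        have hss : {r | r ∈ Bd ∧ ∃ c ∈ H', c ≠ 0 ∧ δ c = r}
            ⊂ {r | r ∈ Bd ∧ ∃ c ∈ H, c ≠ 0 ∧ δ c = r} := by
          refine ⟨hsub, fun h => ?_⟩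
          obtain ⟨_, c, hc, h0, h1⟩ := h ⟨hrB, m, hmH, hm0, rfl⟩
          rcases ((hmem c).1 hc).2 with h2 | h2
          · exact h0 h2
          · exact absurd h1 h2.ne
        exact Set.ncard_lt_ncard hss hfin
      calc a * Nat.card (H ⧸ K)
          ≤ (q + 1) ^ {r | r ∈ Bd ∧ ∃ c ∈ H', c ≠ 0 ∧ δ c = r}.ncard * (q + 1) :=
            Nat.mul_le_mul ha hindex
        _ = (q + 1) ^ ({r | r ∈ Bd ∧ ∃ c ∈ H', c ≠ 0 ∧ δ c = r}.ncard + 1) := by
            rw [pow_succ]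
        _ ≤ _ := Nat.pow_le_pow_right (by omega) hcard
  · -- the index divides `p`
    have hp' : ∀ x : H ⧸ K, p • x = 0 := by
      intro x
      induction x using QuotientAddGroup.induction_on with
      | H c =>
        rw [← QuotientAddGroup.mk_nsmul, QuotientAddGroup.eq_zero_iff, hmemK]
        by_cases hc : (c : G) = 0
        · have : p • c = 0 := by
            rw [show c = 0 from Subtype.ext hc, smul_zero]
          rw [this]
          exact H'.zero_mem
        · rw [hmem]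
          refine ⟨(p • c).2, ?_⟩
          exact hgood r ⟨m, hm0, rfl⟩ hrB c hc (hmax' _ c.2 hc)
    haveI : IsAddCyclic H := inferInstance
    haveI : IsAddCyclic (H ⧸ K) :=
      isAddCyclic_of_surjective (QuotientAddGroup.mk' K) (QuotientAddGroup.mk'_surjective K)
    have hdvd : Nat.card (H ⧸ K) ∣ p := by
      rw [← IsAddCyclic.exponent_eq_card]
      exact AddMonoid.exponent_dvd_of_forall_nsmul_eq_zero hp'
    have ha' : a ≤ (q + 1) ^ {r | r ∈ Bd ∧ ∃ c ∈ H, c ≠ 0 ∧ δ c = r}.ncard :=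
      ha.trans (Nat.pow_le_pow_right (by omega) (Set.ncard_le_ncard hsub hfin))
    rcases (Nat.dvd_prime hp).1 hdvd with h | h
    · refine ⟨a, j, ?_, ha'⟩
      rw [← hmul, haj, h, mul_one]
    · refine ⟨a, j + 1, ?_, ha'⟩
      rw [← hmul, haj, h]
      ring

end ChainAux

theorem chain {N : ℕ} [NeZero N] (p q m : ℕ) (hp : p.Prime) (δ : ZMod N → ℝ)
    (hneg : ∀ c, δ (-c) = δ c) (hu : Ultra δ) (Bd : Finset ℝ) (hBd : Bd.card ≤ m)
    (hidx : ∀ (r : ℝ) (T : Finset (ZMod N)),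
      (∀ s ∈ T, ∀ t ∈ T, s ≠ t → δ (s - t) = r) → T.card ≤ q + 1)
    (hgood : ∀ r, (∃ c, c ≠ 0 ∧ δ c = r) → r ∉ Bd →
      ∀ c, c ≠ 0 → δ c ≤ r → p • c = 0 ∨ δ (p • c) < r) :
    ∃ a j : ℕ, N = a * p ^ j ∧ a ≤ (q + 1) ^ m := by
  obtain ⟨a, j, h1, h2⟩ := ChainAux.main p q hp δ hneg hu Bd hidx hgood _ ⊤ rfl
  refine ⟨a, j, ?_, h2.trans ?_⟩
  · rw [← h1]
    simp
  · refine Nat.pow_le_pow_right (by omega) (le_trans ?_ hBd)
    rw [← Set.ncard_coe_finset]
    exact Set.ncard_le_ncard (fun x hx => hx.1) Bd.finite_toSet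

end Pool.Agent.MP90787a.J
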