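import Mathlib
import Pool.Agent.Lib.MP_90787a_nt.J.Defs

/-!
# MP_90787a_nt: descent of polynomials equivalent to power, Dickson and Chebyshev polynomials

A polynomial over `K` which over an extension field is (linear) ∘ `D_m(X, α)` ∘ (linear), where
`D_m` is a Dickson polynomial, has such a representation over `K`. The same holds for powers and for
Chebyshev polynomials.
-/

set_option autoImplicit false

namespace Pool.Agent.MP90787a.J

namespace ChebyshevAux

open Polynomial

theorem smul_affine {K : Type} [Field K] [DecidableEq K] (A B : K) (hA : A ≠ 0) :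
    ∃ g : GL (Fin 2) K, ∀ x : OnePoint K, g • x = OnePoint.map (fun t => A * t + B) x := by
  refine ⟨Matrix.GeneralLinearGroup.mkOfDetNeZero !![A, B; 0, 1]
    (by simpa [Matrix.det_fin_two] using hA), ?_⟩
  intro x
  cases x with
  | infty => simp [OnePoint.smul_infty_eq_ite, Matrix.GeneralLinearGroup.mkOfDetNeZero]
  | coe t => simp [OnePoint.smul_some_eq_ite, Matrix.GeneralLinearGroup.mkOfDetNeZero]

theorem comp_affine {K : Type} [Field K] [DecidableEq K] (D m : ℕ) (φ : K → K) (A B E G : K)
    (hA : A ≠ 0) (hE : E ≠ 0) (hφ : Comp D m (OnePoint.map φ)) :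
    Comp D m (OnePoint.map (fun x => A * φ (E * x + G) + B)) := by
  obtain ⟨g1, h1⟩ := smul_affine A B hA
  obtain ⟨g2, h2⟩ := smul_affine E G hE
  have h := Comp.comp (Comp.mobius (D := D) g1) (Comp.comp hφ (Comp.mobius (D := D) g2))
  rw [mul_one, one_mul] at h
  convert h using 1
  funext x
  simp only [Function.comp, h1, h2]
  cases x with
  | infty => simp
  | coe t => simp

theorem natDegree_dickson_le {R : Type} [CommRing R] (a : R) : ∀ n : ℕ,
    ∀ j, n < j → (dickson 1 a n).coeff j = 0
  | 0, j, hj => by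
    have h : dickson 1 a 0 = C (2 : R) := by
      rw [dickson_zero]; norm_num; rfl
    rw [h, coeff_C, if_neg (by omega)]
  | 1, j, hj => by
    rw [dickson_one, coeff_X, if_neg (by omega)]
  | n + 2, j, hj => by
    obtain ⟨i, rfl⟩ : ∃ i, j = i + 1 := ⟨j - 1, by omega⟩
    rw [dickson_add_two, coeff_sub, coeff_X_mul, coeff_C_mul,
      natDegree_dickson_le a (n + 1) i (by omega), natDegree_dickson_le a n (i + 1) (by omega)]
    simp

theorem coeff_dickson_top {R : Type} [CommRing R] (a : R) : ∀ n : ℕ,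
    (dickson 1 a (n + 1)).coeff (n + 1) = 1
  | 0 => by simp
  | n + 1 => by
    rw [dickson_add_two, coeff_sub, coeff_X_mul, coeff_C_mul, coeff_dickson_top a n,
      natDegree_dickson_le a n _ (by omega)]
    simp

theorem coeff_dickson_sub_one {R : Type} [CommRing R] (a : R) : ∀ n : ℕ,
    (dickson 1 a (n + 1)).coeff n = 0
  | 0 => by simp
  | n + 1 => by
    rw [dickson_add_two, coeff_sub, coeff_X_mul, coeff_C_mul, coeff_dickson_sub_one a n,
      natDegree_dickson_le a n _ (by omega)]
    simp

theorem coeff_dickson_sub_two {R : Type} [CommRing R] (a : R) : ∀ n : ℕ,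
    (dickson 1 a (n + 2)).coeff n = - ((n + 2 : ℕ) : R) * a
  | 0 => by
    rw [dickson_two]
    have h : (3 - ((1 : ℕ) : R[X])) = C (2 : R) := by norm_num; rfl
    rw [h, ← C_mul, coeff_sub, coeff_C_zero]
    simp
    ring
  | n + 1 => by
    rw [dickson_add_two, coeff_sub, coeff_X_mul, coeff_C_mul, coeff_dickson_sub_two a n,
      coeff_dickson_top a n]
    push_cast
    ring

theorem dickson_one_zero {R : Type} [CommRing R] : ∀ n : ℕ,
    dickson 1 (0 : R) (n + 1) = X ^ (n + 1)
  | 0 => by simp
  | n + 1 => by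
    rw [dickson_add_two, dickson_one_zero n, C_0, zero_mul, sub_zero]
    ring

theorem dickson_scale {R : Type} [CommRing R] (r β : R) (Y : R[X]) : ∀ n : ℕ,
    (dickson 1 (r ^ 2 * β) n).comp (C r * Y) = C (r ^ n) * (dickson 1 β n).comp Y
  | 0 => by
    have h : ∀ a : R, dickson 1 a 0 = C (2 : R) := by
      intro a
      rw [dickson_zero]; norm_num; rfl
    rw [h, h]
    simp
  | 1 => by simp
  | n + 2 => by
    rw [dickson_add_two, dickson_add_two]
    simp only [sub_comp, mul_comp, X_comp, C_comp]
    rw [dickson_scale r β Y n, dickson_scale r β Y (n + 1)]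
    simp only [C_mul, C_pow]
    ring

theorem natDegree_dickson_le' {R : Type} [CommRing R] (a : R) (n : ℕ) :
    (dickson 1 a n).natDegree ≤ n :=
  natDegree_le_iff_coeff_eq_zero.2 (natDegree_dickson_le a n)

theorem coeff_comp_top {R : Type} [CommRing R] (F : R[X]) (m : ℕ) (t : R)
    (hF : F.natDegree ≤ m) : (F.comp (X + C t)).coeff m = F.coeff m := by
  rw [← taylor_apply, taylor_coeff]
  have h1 : (hasseDeriv m F).natDegree ≤ 0 := (natDegree_hasseDeriv_le F m).trans (by omega)
  rw [eq_C_of_natDegree_le_zero h1, eval_C, hasseDeriv_coeff]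
  simp

theorem coeff_comp_sub_one {R : Type} [CommRing R] (F : R[X]) (m : ℕ) (t : R)
    (hF : F.natDegree ≤ m + 1) :
    (F.comp (X + C t)).coeff m = F.coeff m + ((m + 1 : ℕ) : R) * F.coeff (m + 1) * t := by
  rw [← taylor_apply, taylor_coeff]
  have h1 : (hasseDeriv m F).natDegree ≤ 1 := (natDegree_hasseDeriv_le F m).trans (by omega)
  rw [eq_X_add_C_of_natDegree_le_one h1]
  simp only [eval_add, eval_mul, eval_C, eval_X, hasseDeriv_coeff]
  rw [zero_add, Nat.choose_self, add_comm 1 m, Nat.choose_succ_self_right]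
  push_cast
  ring

theorem descent_core {K L : Type} [Field K] [CharZero K] [Field L] [Algebra K L] (m : ℕ)
    (hm : 2 ≤ m) (f : K[X]) (A' b' t' β : L) (hA : A' ≠ 0)
    (hf : f.map (algebraMap K L) = C A' * (dickson 1 β m).comp (X + C t') + C b') :
    ∃ A B t a0 : K, A ≠ 0 ∧ f = C A * (dickson 1 a0 m).comp (X + C t) + C B ∧
      (β = 0 → a0 = 0) := by
  have hinj : Function.Injective (algebraMap K L) := (algebraMap K L).injective
  have : CharZero L := charZero_of_injective_algebraMap hinj
  obtain ⟨n, rfl⟩ : ∃ n, m = n + 2 := ⟨m - 2, by omega⟩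
  have hnL : ((n + 2 : ℕ) : L) ≠ 0 := by exact_mod_cast (by omega : n + 2 ≠ 0)
  have hnK : ((n + 2 : ℕ) : K) ≠ 0 := by exact_mod_cast (by omega : n + 2 ≠ 0)
  -- the leading coefficient
  have hA1 : algebraMap K L (f.coeff (n + 2)) = A' := by
    rw [← coeff_map, hf, coeff_add, coeff_C_mul, coeff_comp_top _ _ _ (natDegree_dickson_le' _ _),
      coeff_dickson_top, coeff_C, if_neg (by omega)]
    ring
  -- the translation
  have ht1 : algebraMap K L (f.coeff (n + 1)) = A' * (((n + 2 : ℕ) : L) * t') := by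
    rw [← coeff_map, hf, coeff_add, coeff_C_mul,
      coeff_comp_sub_one _ _ _ (natDegree_dickson_le' _ _), coeff_dickson_top,
      coeff_dickson_sub_one, coeff_C, if_neg (by omega)]
    ring
  set A : K := f.coeff (n + 2) with hAdef
  have hA0 : A ≠ 0 := by
    intro h0
    rw [h0, map_zero] at hA1
    exact hA hA1.symm
  set t : K := f.coeff (n + 1) / (A * ((n + 2 : ℕ) : K)) with htdef
  have ht : algebraMap K L t = t' := by
    rw [htdef, map_div₀, ht1, map_mul, hA1, map_natCast]
    field_simp
  set f1 : K[X] := f.comp (X - C t) with hf1def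
  have hf1 : f1.map (algebraMap K L) = C A' * dickson 1 β (n + 2) + C b' := by
    rw [hf1def, Polynomial.map_comp, hf, Polynomial.map_sub, map_X, map_C, ht]
    simp only [add_comp, mul_comp, C_comp, comp_assoc, X_comp, sub_add_cancel, comp_X]
  have hff1 : f = f1.comp (X + C t) := by
    rw [hf1def, comp_assoc]
    simp
  -- it suffices to descend for f1
  have key : ∀ (b'' : L) (a0 : K),
      f1.map (algebraMap K L) = C A' * dickson 1 (algebraMap K L a0) (n + 2) + C b'' →
      ∃ B : K, f = C A * (dickson 1 a0 (n + 2)).comp (X + C t) + C B := by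
    intro b'' a0 h
    set B : K := f1.coeff 0 - A * (dickson 1 a0 (n + 2)).coeff 0 with hB
    refine ⟨B, ?_⟩
    have hb : algebraMap K L B = b'' := by
      rw [hB, map_sub, map_mul, ← coeff_map, h, hA1, coeff_add, coeff_C_mul, coeff_C_zero,
        ← coeff_map, map_dickson]
      ring
    have h2 : f1 = C A * dickson 1 a0 (n + 2) + C B := by
      apply map_injective (algebraMap K L) hinj
      rw [h, Polynomial.map_add, Polynomial.map_mul, map_C, map_C, map_dickson, hb, hA1]
    rw [hff1, h2]
    simp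
  rcases Nat.eq_zero_or_pos n with h0 | hpos
  · subst h0
    obtain ⟨B, hB⟩ := key (b' - 2 * A' * β) 0 (by
      rw [hf1, map_zero]
      have e : ∀ a : L, dickson 1 a (0 + 2) = X ^ 2 - C (2 * a) := by
        intro a
        have h3 : (3 - ((1 : ℕ) : L[X])) = C (2 : L) := by norm_num; rfl
        rw [zero_add, dickson_two, h3, ← C_mul, mul_comm]
      rw [e, e]
      simp only [C_sub, C_mul]
      simp
      ring)
    exact ⟨A, B, t, 0, hA0, hB, fun _ => rfl⟩
  · have hβ : algebraMap K L (f1.coeff n) = A' * (-((n + 2 : ℕ) : L) * β) := by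
      rw [← coeff_map, hf1, coeff_add, coeff_C_mul, coeff_dickson_sub_two, coeff_C,
        if_neg (by omega)]
      ring
    set a0 : K := - f1.coeff n / (A * ((n + 2 : ℕ) : K)) with ha0
    have ha0' : algebraMap K L a0 = β := by
      rw [ha0, map_div₀, map_neg, hβ, map_mul, hA1, map_natCast]
      field_simp
    obtain ⟨B, hB⟩ := key b' a0 (by rw [hf1, ha0'])
    refine ⟨A, B, t, a0, hA0, hB, ?_⟩
    intro hβ0
    apply hinj
    rw [ha0', hβ0, map_zero]

theorem descent {K L : Type} [Field K] [CharZero K] [Field L] [Algebra K L] (m : ℕ)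
    (hm : 2 ≤ m) (f : K[X]) (α p q r s : L) (hp : p ≠ 0) (hr : r ≠ 0)
    (hf : f.map (algebraMap K L) = C p * (dickson 1 α m).comp (C r * X + C s) + C q) :
    ∃ A B t a0 : K, A ≠ 0 ∧ f = C A * (dickson 1 a0 m).comp (X + C t) + C B ∧
      (α = 0 → a0 = 0) := by
  obtain ⟨A, B, t, a0, h1, h2, h3⟩ := descent_core m hm f (p * r ^ m) q (s / r) (α / r ^ 2)
    (mul_ne_zero hp (pow_ne_zero _ hr)) (by
      rw [hf]
      have e1 : C r * X + C s = C r * (X + C (s / r)) := by
        rw [mul_add, ← C_mul, mul_div_cancel₀ _ hr]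
      have e2 : α = r ^ 2 * (α / r ^ 2) := by field_simp
      rw [e1]
      conv_lhs => rw [e2]
      rw [dickson_scale, C_mul, mul_assoc])
  refine ⟨A, B, t, a0, h1, h2, ?_⟩
  intro h
  apply h3
  rw [h, zero_div]

end ChebyshevAux

open ChebyshevAux

theorem comp_of_linear {K : Type} [Field K] [DecidableEq K] (D : ℕ)
    (f : Polynomial K) (L : Type) [Field L] [Algebra K L] (p q : L) (hp : p ≠ 0)
    (hf : f.map (algebraMap K L) = Polynomial.C p * Polynomial.X + Polynomial.C q) :
    Comp D 1 (OnePoint.map (fun x => f.eval x)) := by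
  have hinj : Function.Injective (algebraMap K L) := (algebraMap K L).injective
  have h1 : algebraMap K L (f.coeff 1) = p := by
    rw [← Polynomial.coeff_map, hf]
    simp
  have h0 : algebraMap K L (f.coeff 0) = q := by
    rw [← Polynomial.coeff_map, hf]
    simp
  have hf' : f = Polynomial.C (f.coeff 1) * Polynomial.X + Polynomial.C (f.coeff 0) := by
    apply Polynomial.map_injective (algebraMap K L) hinj
    rw [Polynomial.map_add, Polynomial.map_mul, Polynomial.map_C, Polynomial.map_C,
      Polynomial.map_X, h1, h0, hf]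
  have hA : f.coeff 1 ≠ 0 := by
    intro h
    rw [h, map_zero] at h1
    exact hp h1.symm
  obtain ⟨g, hg⟩ := smul_affine (f.coeff 1) (f.coeff 0) hA
  have h := Comp.mobius (D := D) g
  convert h using 1
  funext x
  rw [hg]
  congr 1
  funext t
  conv_lhs => rw [hf']
  simp

theorem comp_of_dickson {K : Type} [Field K] [CharZero K] [DecidableEq K] (D m : ℕ)
    (hm : 2 ≤ m) (h : ∀ l : ℕ, l.Prime → l ∣ m → 2 * D + 1 < l)
    (f : Polynomial K) (L : Type) [Field L] [Algebra K L] (α p q r s : L) (hp : p ≠ 0)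
    (hr : r ≠ 0)
    (hf : f.map (algebraMap K L) = Polynomial.C p *
      (Polynomial.dickson 1 α m).comp (Polynomial.C r * Polynomial.X + Polynomial.C s) +
        Polynomial.C q) :
    Comp D m (OnePoint.map (fun x => f.eval x)) := by
  obtain ⟨A, B, t, a0, hA, h2, -⟩ := descent m hm f α p q r s hp hr hf
  have h3 := comp_affine D m (fun x => (Polynomial.dickson 1 a0 m).eval x) A B 1 t hA one_ne_zero
    (Comp.dickson m a0 hm h)
  convert h3 using 1
  congr 1
  funext x
  rw [h2]
  simp

theorem comp_of_power {K : Type} [Field K] [CharZero K] [DecidableEq K] (D m : ℕ)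
    (hm : 2 ≤ m) (h : ∀ l : ℕ, l.Prime → l ∣ m → D + 1 < l)
    (f : Polynomial K) (L : Type) [Field L] [Algebra K L] (p q r s : L) (hp : p ≠ 0)
    (hr : r ≠ 0)
    (hf : f.map (algebraMap K L) = Polynomial.C p *
      (Polynomial.C r * Polynomial.X + Polynomial.C s) ^ m + Polynomial.C q) :
    Comp D m (OnePoint.map (fun x => f.eval x)) := by
  have e : ∀ (R : Type) [CommRing R], Polynomial.dickson 1 (0 : R) m = Polynomial.X ^ m := by
    intro R _
    obtain ⟨n, rfl⟩ : ∃ n, m = n + 1 := ⟨m - 1, by omega⟩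
    exact dickson_one_zero n
  obtain ⟨A, B, t, a0, hA, h2, h3⟩ := descent m hm f 0 p q r s hp hr (by
    rw [hf, e, Polynomial.pow_comp, Polynomial.X_comp])
  rw [h3 rfl, e] at h2
  have h4 := comp_affine D m (fun x => x ^ m) A B 1 t hA one_ne_zero (Comp.power m hm h)
  convert h4 using 1
  congr 1
  funext x
  rw [h2]
  simp

theorem comp_of_chebyshev {K : Type} [Field K] [CharZero K] [DecidableEq K] (D m : ℕ)
    (hm : 2 ≤ m) (h : ∀ l : ℕ, l.Prime → l ∣ m → 2 * D + 1 < l)
    (f : Polynomial K) (L : Type) [Field L] [Algebra K L] (a b c e : L) (ha : a ≠ 0)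
    (hc : c ≠ 0)
    (hf : f.map (algebraMap K L) = Polynomial.C a *
      (Polynomial.Chebyshev.T L m).comp (Polynomial.C c * Polynomial.X + Polynomial.C e) +
        Polynomial.C b) :
    Comp D m (OnePoint.map (fun x => f.eval x)) := by
  have : CharZero L := charZero_of_injective_algebraMap (algebraMap K L).injective
  have h2 : (2 : L) ≠ 0 := two_ne_zero
  let _ : Invertible (2 : L) := invertibleOfNonzero h2
  refine comp_of_dickson D m hm h f L 1 (a * ⅟2) b (2 * c) (2 * e)
    (mul_ne_zero ha (by rw [invOf_eq_inv]; exact inv_ne_zero h2)) (mul_ne_zero h2 hc) ?_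
  rw [hf, Polynomial.chebyshev_T_eq_dickson_one_one, Polynomial.mul_comp, Polynomial.C_comp,
    Polynomial.comp_assoc, Polynomial.C_mul, mul_assoc]
  congr 4
  rw [Polynomial.mul_comp, Polynomial.X_comp, Polynomial.C_mul, Polynomial.C_mul,
    Polynomial.ofNat_comp]
  simp only [map_ofNat]
  ring

end Pool.Agent.MP90787a.J
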