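import Mathlib
import Pool.Agent.Lib.MP_90787a_nt.J.Defs
import Pool.Agent.Lib.MP_90787a_nt.J.Defs2

/-!
# MP_90787a_nt: from a cycle of a composition to the local data
-/

set_option autoImplicit false

namespace Pool.Agent.MP90787a.J

namespace CycOfNFAux

lemma wd_anti {K : Type} [Field K] (x y : K × K) : wd x y = - wd y x := by
  unfold wd; ring

lemma wd_pl {K : Type} [Field K] (x y z w : K × K) :
    wd x y * wd z w - wd x z * wd y w + wd x w * wd y z = 0 := by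
  unfold wd; ring

end CycOfNFAux

theorem wd_vec {K : Type} [Field K] (x y : OnePoint K) : wd (vec x) (vec y) = 0 ↔ x = y := by
  cases x with
  | infty =>
    cases y with
    | infty =>
      refine ⟨fun _ => rfl, fun _ => ?_⟩
      change (1 : K) * 0 - 0 * 1 = 0
      ring
    | coe t =>
      refine ⟨fun h => ?_, fun h => absurd h (OnePoint.infty_ne_coe t)⟩
      change (1 : K) * 1 - 0 * t = 0 at h
      exact absurd h (by rw [zero_mul, mul_one, sub_zero]; exact one_ne_zero)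
  | coe s =>
    cases y with
    | infty =>
      refine ⟨fun h => ?_, fun h => absurd h (OnePoint.coe_ne_infty s)⟩
      change s * 0 - 1 * (1 : K) = 0 at h
      exact absurd h (by rw [mul_zero, mul_one, zero_sub]; exact neg_ne_zero.2 one_ne_zero)
    | coe t =>
      change s * 1 - 1 * t = 0 ↔ _
      rw [mul_one, one_mul, sub_eq_zero, OnePoint.coe_eq_coe]

namespace CycOfNFAux

lemma vec_smul_one {K : Type} [Field K] [DecidableEq K] (g : GL (Fin 2) K) (x : OnePoint K) :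
    ∃ r : K, r ≠ 0 ∧
      (vec (g • x)).1 = r * (g 0 0 * (vec x).1 + g 0 1 * (vec x).2) ∧
      (vec (g • x)).2 = r * (g 1 0 * (vec x).1 + g 1 1 * (vec x).2) := by
  have hdet : g 0 0 * g 1 1 - g 0 1 * g 1 0 ≠ 0 := by
    have h := g.det_ne_zero
    rw [Matrix.det_fin_two] at h
    exact h
  cases x with
  | infty =>
    rw [OnePoint.smul_infty_eq_ite]
    by_cases h : g 1 0 = 0
    · rw [if_pos h]
      have ha : g 0 0 ≠ 0 := by
        intro h0
        apply hdet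
        rw [h, h0]; ring
      refine ⟨(g 0 0)⁻¹, inv_ne_zero ha, ?_, ?_⟩
      · change (1 : K) = (g 0 0)⁻¹ * (g 0 0 * 1 + g 0 1 * 0)
        field_simp
        ring
      · change (0 : K) = (g 0 0)⁻¹ * (g 1 0 * 1 + g 1 1 * 0)
        rw [h]; ring
    · rw [if_neg h]
      refine ⟨(g 1 0)⁻¹, inv_ne_zero h, ?_, ?_⟩
      · change g 0 0 / g 1 0 = (g 1 0)⁻¹ * (g 0 0 * 1 + g 0 1 * 0)
        field_simp
        ring
      · change (1 : K) = (g 1 0)⁻¹ * (g 1 0 * 1 + g 1 1 * 0)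
        field_simp
        ring
  | coe t =>
    rw [OnePoint.smul_some_eq_ite]
    by_cases h : g 1 0 * t + g 1 1 = 0
    · rw [if_pos h]
      have ha : g 0 0 * t + g 0 1 ≠ 0 := by
        intro h0
        apply hdet
        have h1 : g 1 1 = - (g 1 0 * t) := by linear_combination h
        have h2 : g 0 1 = - (g 0 0 * t) := by linear_combination h0
        rw [h1, h2]; ring
      refine ⟨(g 0 0 * t + g 0 1)⁻¹, inv_ne_zero ha, ?_, ?_⟩
      · change (1 : K) = (g 0 0 * t + g 0 1)⁻¹ * (g 0 0 * t + g 0 1 * 1)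
        rw [mul_one, inv_mul_cancel₀ ha]
      · change (0 : K) = (g 0 0 * t + g 0 1)⁻¹ * (g 1 0 * t + g 1 1 * 1)
        rw [mul_one, h, mul_zero]
    · rw [if_neg h]
      refine ⟨(g 1 0 * t + g 1 1)⁻¹, inv_ne_zero h, ?_, ?_⟩
      · change (g 0 0 * t + g 0 1) / (g 1 0 * t + g 1 1) =
          (g 1 0 * t + g 1 1)⁻¹ * (g 0 0 * t + g 0 1 * 1)
        rw [mul_one, div_eq_inv_mul]
      · change (1 : K) = (g 1 0 * t + g 1 1)⁻¹ * (g 1 0 * t + g 1 1 * 1)
        rw [mul_one, inv_mul_cancel₀ h]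

end CycOfNFAux

theorem vec_smul {K : Type} [Field K] [DecidableEq K] (g : GL (Fin 2) K) :
    ∃ (c : K) (ρ : OnePoint K → K), c ≠ 0 ∧ (∀ x, ρ x ≠ 0) ∧
      ∀ x y, wd (vec (g • x)) (vec (g • y)) = c * ρ x * ρ y * wd (vec x) (vec y) := by
  choose ρ hρ h1 h2 using CycOfNFAux.vec_smul_one g
  refine ⟨g 0 0 * g 1 1 - g 0 1 * g 1 0, ρ, ?_, hρ, fun x y => ?_⟩
  · have h := g.det_ne_zero
    rw [Matrix.det_fin_two] at h
    exact h
  · unfold wd
    rw [h1, h1, h2, h2]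
    ring

namespace CycOfNFAux

/-- stages of a composition in normal form -/
lemma stages {K : Type} [Field K] [DecidableEq K] (v : AbsoluteValue K ℝ) (D d₀ : ℕ)
    (hloc : LocOK v D d₀) (k d : ℕ) (F : OnePoint K → OnePoint K) (hF : NF D k d F) :
    d ∣ d₀ → ∃ (Y : ℕ → OnePoint K → OnePoint K), (∃ g : GL (Fin 2) K, ∀ x, Y 0 x = g • x) ∧
      (∀ x, Y k x = F x) ∧ ∀ j < k, ∃ (E : OnePoint K → OnePoint K) (g : GL (Fin 2) K),
        IsLoc v E ∧ ∀ x, Y (j + 1) x = g • E (Y j x) := by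
  induction hF with
  | base g =>
    intro _
    exact ⟨fun _ x => g • x, ⟨g, fun _ => rfl⟩, fun _ => rfl, fun j hj => absurd hj (Nat.not_lt_zero j)⟩
  | @snoc k d m F E hF hE g ih =>
    intro hd
    obtain ⟨Y, h0, hk, hst⟩ := ih ((Dvd.intro_left m rfl).trans hd)
    refine ⟨fun j x => if j ≤ k then Y j x else g • E (F x), ?_, ?_, ?_⟩
    · obtain ⟨g0, hg0⟩ := h0
      exact ⟨g0, fun x => by simp [hg0]⟩
    · intro x
      simp
    · intro j hj
      rcases Nat.lt_succ_iff_lt_or_eq.1 hj with h | h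
      · obtain ⟨E', g', hE', hY⟩ := hst j h
        refine ⟨E', g', hE', fun x => ?_⟩
        have h1 : j + 1 ≤ k := h
        have h2 : j ≤ k := h.le
        simp only [h1, h2, if_true]
        exact hY x
      · subst h
        refine ⟨E, g, hloc m E ((Dvd.intro d rfl).trans hd) hE, fun x => ?_⟩
        have h1 : ¬ (j + 1 ≤ j) := by omega
        simp only [h1, if_false, le_refl, if_true]
        rw [hk]

/-- the local data of one stage -/
lemma stage_data {K : Type} [Field K] [DecidableEq K] (v : AbsoluteValue K ℝ)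
    (E : OnePoint K → OnePoint K) (g : GL (Fin 2) K) (hE : IsLoc v E) :
    ∃ (P : K × K → K × K → K) (M : K × K → K × K → ℝ) (e : ℕ) (c : K) (ρ : OnePoint K → K),
      Kernel v P M e ∧ c ≠ 0 ∧ (∀ x, ρ x ≠ 0) ∧
      ∀ x y, wd (vec (g • E x)) (vec (g • E y)) =
        c * ρ x * ρ y * (wd (vec x) (vec y) * P (vec x) (vec y)) := by
  obtain ⟨P, M, e, hK, c, ρ, hc, hρ, h⟩ := hE
  obtain ⟨c', ρ', hc', hρ', h'⟩ := vec_smul g
  refine ⟨P, M, e, c' * c, fun x => ρ' (E x) * ρ x, hK, mul_ne_zero hc' hc,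
    fun x => mul_ne_zero (hρ' _) (hρ _), fun x y => ?_⟩
  rw [h', h]
  ring

lemma all_data {K : Type} [Field K] [DecidableEq K] (v : AbsoluteValue K ℝ)
    (D d k : ℕ) (F : OnePoint K → OnePoint K) (hF : NF D k d F)
    (hloc : LocOK v D d) :
    ∃ (Y : ℕ → OnePoint K → OnePoint K) (P : ℕ → K × K → K × K → K)
      (M : ℕ → K × K → K × K → ℝ) (e : ℕ → ℕ) (c : ℕ → K) (ρ : ℕ → OnePoint K → K)
      (c0 : K) (ρ0 : OnePoint K → K),
      (∀ x, Y k x = F x) ∧
      (∀ j < k, Kernel v (P j) (M j) (e j)) ∧ (∀ j < k, c j ≠ 0) ∧ (∀ j < k, ∀ x, ρ j x ≠ 0) ∧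
      (∀ j < k, ∀ x y, wd (vec (Y (j + 1) x)) (vec (Y (j + 1) y)) =
        c j * ρ j x * ρ j y * (wd (vec (Y j x)) (vec (Y j y)) *
          P j (vec (Y j x)) (vec (Y j y)))) ∧
      c0 ≠ 0 ∧ (∀ x, ρ0 x ≠ 0) ∧
      (∀ x y, wd (vec (Y 0 x)) (vec (Y 0 y)) = c0 * ρ0 x * ρ0 y * wd (vec x) (vec y)) := by
  obtain ⟨Y, ⟨g, h0⟩, hk, hst⟩ := stages v D d hloc k d F hF (dvd_refl d)
  obtain ⟨c0, ρ0, hc0, hρ0, h0'⟩ := vec_smul g
  have key : ∀ j, ∃ (P : K × K → K × K → K) (M : K × K → K × K → ℝ) (e : ℕ) (c : K)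
      (ρ : OnePoint K → K), j < k → (Kernel v P M e ∧ c ≠ 0 ∧ (∀ x, ρ x ≠ 0) ∧
      ∀ x y, wd (vec (Y (j + 1) x)) (vec (Y (j + 1) y)) =
        c * ρ x * ρ y * (wd (vec (Y j x)) (vec (Y j y)) * P (vec (Y j x)) (vec (Y j y)))) := by
    intro j
    by_cases hj : j < k
    · obtain ⟨E, g, hE, hY⟩ := hst j hj
      obtain ⟨P, M, e, c, ρ, h1, h2, h3, h4⟩ := stage_data v E g hE
      refine ⟨P, M, e, c, fun x => ρ (Y j x), fun _ => ⟨h1, h2, fun x => h3 _, fun x y => ?_⟩⟩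
      rw [hY, hY, h4]
    · exact ⟨fun _ _ => 0, fun _ _ => 0, 0, 0, fun _ => 0, fun h => absurd h hj⟩
  choose P M e c ρ h using key
  refine ⟨Y, P, M, e, c, ρ, c0, ρ0, hk, fun j hj => (h j hj).1, fun j hj => (h j hj).2.1,
    fun j hj => (h j hj).2.2.1, fun j hj => (h j hj).2.2.2, hc0, hρ0, fun x y => ?_⟩
  rw [h0, h0, h0']

lemma kernel_ne {K : Type} [Field K] (v : AbsoluteValue K ℝ) {P : K × K → K × K → K}
    {M : K × K → K × K → ℝ} {e : ℕ} (hK : Kernel v P M e) (x y : K × K) (h : wd x y ≠ 0) :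
    0 < M x y ∧ P x y ≠ 0 := by
  have h1 : 0 < M x y := lt_of_lt_of_le (v.pos h) (hK.le x y)
  refine ⟨h1, ?_⟩
  intro hP
  have h2 := hK.norm x y
  rw [hP, map_zero] at h2
  exact (pow_pos h1 e).ne h2

lemma kernel_Msymm {K : Type} [Field K] (v : AbsoluteValue K ℝ) {P : K × K → K × K → K}
    {M : K × K → K × K → ℝ} {e : ℕ} (hK : Kernel v P M e) (x y : K × K) : M x y = M y x := by
  have h1 : 0 ≤ M x y := (v.nonneg _).trans (hK.le x y)
  have h2 : 0 ≤ M y x := (v.nonneg _).trans (hK.le y x)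
  have h3 : M x y ^ e = M y x ^ e := by
    rw [← hK.norm, ← hK.norm, hK.symm]
  have he : e ≠ 0 := by have := hK.he; omega
  exact (pow_left_inj₀ h1 h2 he).1 h3

lemma stage_inj {K : Type} [Field K] [DecidableEq K] (v : AbsoluteValue K ℝ) (k : ℕ)
    (Y : ℕ → OnePoint K → OnePoint K) (P : ℕ → K × K → K × K → K)
    (M : ℕ → K × K → K × K → ℝ) (e : ℕ → ℕ) (c : ℕ → K) (ρ : ℕ → OnePoint K → K)
    (c0 : K) (ρ0 : OnePoint K → K)
    (hK : ∀ j < k, Kernel v (P j) (M j) (e j)) (hc : ∀ j < k, c j ≠ 0)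
    (hρ : ∀ j < k, ∀ x, ρ j x ≠ 0)
    (hst : ∀ j < k, ∀ x y, wd (vec (Y (j + 1) x)) (vec (Y (j + 1) y)) =
        c j * ρ j x * ρ j y * (wd (vec (Y j x)) (vec (Y j y)) *
          P j (vec (Y j x)) (vec (Y j y))))
    (hc0 : c0 ≠ 0) (hρ0 : ∀ x, ρ0 x ≠ 0)
    (h0 : ∀ x y, wd (vec (Y 0 x)) (vec (Y 0 y)) = c0 * ρ0 x * ρ0 y * wd (vec x) (vec y)) :
    ∀ j ≤ k, ∀ x y, x ≠ y → Y j x ≠ Y j y := by
  intro j
  induction j with
  | zero =>
    intro _ x y hxy h
    apply hxy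
    rw [← wd_vec] at h ⊢
    rw [h0] at h
    have h1 : c0 * ρ0 x * ρ0 y ≠ 0 := mul_ne_zero (mul_ne_zero hc0 (hρ0 _)) (hρ0 _)
    exact (mul_eq_zero.1 h).resolve_left h1
  | succ j ih =>
    intro hj x y hxy h
    have hjk : j < k := hj
    have h1 := ih hjk.le x y hxy
    rw [Ne, ← wd_vec] at h1
    rw [← wd_vec, hst j hjk] at h
    have h2 : c j * ρ j x * ρ j y ≠ 0 :=
      mul_ne_zero (mul_ne_zero (hc j hjk) (hρ j hjk _)) (hρ j hjk _)
    have h3 := (mul_eq_zero.1 h).resolve_left h2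
    exact (mul_ne_zero h1 (kernel_ne v (hK j hjk) _ _ h1).2) h3

end CycOfNFAux

theorem exists_cycData {K : Type} [Field K] [DecidableEq K] (v : AbsoluteValue K ℝ)
    (hv : IsNonarchimedean v) (D d k : ℕ) (F : OnePoint K → OnePoint K) (hF : NF D k d F)
    (hloc : LocOK v D d) (N : ℕ) (hN : 0 < N) (x : ZMod N → OnePoint K)
    (hx : Function.Injective x) (hFx : ∀ i, F (x i) = x (i + 1)) : Nonempty (CycData v N k) := by
  obtain ⟨Y, P, M, e, c, ρ, c0, ρ0, hYk, hK, hc, hρ, hst, hc0, hρ0, h0⟩ :=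
    CycOfNFAux.all_data v D d k F hF hloc
  have hinj := CycOfNFAux.stage_inj v k Y P M e c ρ c0 ρ0 hK hc hρ hst hc0 hρ0 h0
  have hne : ∀ j ≤ k, ∀ i l, i ≠ l → wd (vec (Y j (x i))) (vec (Y j (x l))) ≠ 0 := by
    intro j hj i l hil h
    rw [wd_vec] at h
    exact hinj j hj (x i) (x l) (fun h' => hil (hx h')) h
  exact ⟨{
    W := fun j i l => wd (vec (Y j (x i))) (vec (Y j (x l)))
    P := fun j i l => P j (vec (Y j (x i))) (vec (Y j (x l)))
    M := fun j i l => M j (vec (Y j (x i))) (vec (Y j (x l)))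
    e := e
    anti := fun j i l => CycOfNFAux.wd_anti _ _
    ne := hne
    pl := fun i l a b => CycOfNFAux.wd_pl _ _ _ _
    he := fun j hj => (hK j hj).he
    symm := fun j hj i l => (hK j hj).symm _ _
    norm := fun j hj i l => (hK j hj).norm _ _
    Msymm := fun j hj i l => CycOfNFAux.kernel_Msymm v (hK j hj) _ _
    pos := fun j hj i l hil => (CycOfNFAux.kernel_ne v (hK j hj) _ _ (hne j hj.le i l hil)).1
    le := fun j hj i l => (hK j hj).le _ _
    exch := fun j hj i l a b h => (hK j hj).exch _ _ _ _ h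
    trans := fun j hj i l a h1 h2 => (hK j hj).trans _ _ _ h1 h2
    cong := fun j hj i l a b hD h => (hK j hj).cong _ _ _ _ h
      (hne j hj.le _ _ hD.2.1) (hne j hj.le _ _ hD.2.2.1)
      (hne j hj.le _ _ hD.2.2.2.1) (hne j hj.le _ _ hD.2.2.2.2.1)
    step := fun j hj => ⟨c j, fun i => ρ j (x i), hc j hj, fun i => hρ j hj _,
      fun i l => hst j hj _ _⟩
    last := ⟨c0⁻¹, fun i => (ρ0 (x (i + 1)))⁻¹, inv_ne_zero hc0, fun i => inv_ne_zero (hρ0 _),
      fun i l => by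
        rw [h0, hYk, hYk, hFx, hFx]
        have h1 := hρ0 (x (i + 1))
        have h2 := hρ0 (x (l + 1))
        field_simp⟩ }⟩

theorem nf_injective {K : Type} [Field K] [DecidableEq K] (v : AbsoluteValue K ℝ)
    (D d k : ℕ) (F : OnePoint K → OnePoint K) (hF : NF D k d F)
    (hloc : LocOK v D d) : Function.Injective F := by
  obtain ⟨Y, P, M, e, c, ρ, c0, ρ0, hYk, hK, hc, hρ, hst, hc0, hρ0, h0⟩ :=
    CycOfNFAux.all_data v D d k F hF hloc
  have hinj := CycOfNFAux.stage_inj v k Y P M e c ρ c0 ρ0 hK hc hρ hst hc0 hρ0 h0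
  intro x y hxy
  by_contra hne
  exact hinj k le_rfl x y hne (by rw [hYk, hYk, hxy])

end Pool.Agent.MP90787a.J
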