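import Pool.Agent.Lib.MP_90787a_nt.J.Defs

/-!
Module J2: separable functions of pairs.
-/

set_option autoImplicit false

namespace Pool.Agent.MP90787a.J

namespace SeparableAux

variable {ι : Type}

theorem exists_third [Finite ι] (h3 : 3 ≤ Nat.card ι) (i l : ι) : ∃ r : ι, r ≠ i ∧ r ≠ l := by
  classical
  have := Fintype.ofFinite ι
  have h1 : ({i, l} : Finset ι).card < (Finset.univ : Finset ι).card := by
    have h2 : ({i, l} : Finset ι).card ≤ 2 := Finset.card_le_two
    rw [Finset.card_univ, ← Nat.card_eq_fintype_card]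
    omega
  obtain ⟨r, _, hr⟩ := Finset.exists_mem_notMem_of_card_lt_card h1
  simp only [Finset.mem_insert, Finset.mem_singleton, not_or] at hr
  exact ⟨r, hr.1, hr.2⟩

/-- The quotient which does not depend on the two auxiliary indices. -/
noncomputable def q (h : ι → ι → ℝ) (i r s : ι) : ℝ := h i r * h i s / h r s

theorem q_symm (h : ι → ι → ℝ) (hsymm : ∀ i l, h i l = h l i) (i r s : ι) :
    q h i r s = q h i s r := by
  unfold q
  rw [hsymm r s, mul_comm]

theorem q_change (h : ι → ι → ℝ)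
    (hpos : ∀ i l, i ≠ l → 0 < h i l) (hsymm : ∀ i l, h i l = h l i)
    (h4 : ∀ i l a b, D4 i l a b → h i l * h a b = h i b * h l a) (i r s t : ι)
    (hri : r ≠ i) (hsi : s ≠ i) (hsr : s ≠ r) (hti : t ≠ i) (htr : t ≠ r) :
    q h i r s = q h i r t := by
  by_cases hst : s = t
  · rw [hst]
  · have e := h4 i s r t ⟨hsi.symm, hri.symm, hti.symm, hsr, hst, htr.symm⟩
    unfold q
    rw [div_eq_div_iff (hpos r s hsr.symm).ne' (hpos r t htr.symm).ne']
    have e2 : h r s = h s r := hsymm r s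
    rw [e2]
    linear_combination h i r * e

theorem q_const (h : ι → ι → ℝ)
    (hpos : ∀ i l, i ≠ l → 0 < h i l) (hsymm : ∀ i l, h i l = h l i)
    (h4 : ∀ i l a b, D4 i l a b → h i l * h a b = h i b * h l a) (i r s r' s' : ι)
    (hri : r ≠ i) (hsi : s ≠ i) (hsr : s ≠ r) (hri' : r' ≠ i) (hsi' : s' ≠ i) (hsr' : s' ≠ r') :
    q h i r s = q h i r' s' := by
  by_cases hrs : r' = s
  · rw [q_symm h hsymm i r s, ← hrs]
    exact q_change h hpos hsymm h4 i r' r s' hri' hri (by rw [hrs]; exact hsr.symm) hsi' hsr'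
  · rw [q_symm h hsymm i r s, q_change h hpos hsymm h4 i s r r' hsi hri hsr.symm hri' hrs,
      q_symm h hsymm i s r']
    exact q_change h hpos hsymm h4 i r' s s' hri' hsi (Ne.symm hrs) hsi' hsr'

end SeparableAux

open SeparableAux in
theorem separable {ι : Type} [Finite ι] (h3 : 3 ≤ Nat.card ι) (h : ι → ι → ℝ)
    (hpos : ∀ i l, i ≠ l → 0 < h i l) (hsymm : ∀ i l, h i l = h l i)
    (h4 : ∀ i l a b, D4 i l a b → h i l * h a b = h i b * h l a) :
    ∃ f : ι → ℝ, (∀ i, 0 < f i) ∧ ∀ i l, i ≠ l → h i l = f i * f l := by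
  have hex : ∀ i : ι, ∃ p : ι × ι, p.1 ≠ i ∧ p.2 ≠ i ∧ p.2 ≠ p.1 := by
    intro i
    obtain ⟨r, hr, _⟩ := exists_third h3 i i
    obtain ⟨s, hs, hs'⟩ := exists_third h3 i r
    exact ⟨(r, s), hr, hs, hs'⟩
  choose p hp1 hp2 hp3 using hex
  have hq : ∀ i, 0 < q h i (p i).1 (p i).2 := fun i => by
    unfold q
    exact div_pos (mul_pos (hpos _ _ (hp1 i).symm) (hpos _ _ (hp2 i).symm))
      (hpos _ _ (hp3 i).symm)
  refine ⟨fun i => Real.sqrt (q h i (p i).1 (p i).2), fun i => Real.sqrt_pos.mpr (hq i), ?_⟩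
  intro i l hil
  obtain ⟨r, hri, hrl⟩ := exists_third h3 i l
  have e1 : q h i (p i).1 (p i).2 = q h i l r :=
    q_const h hpos hsymm h4 i _ _ l r (hp1 i) (hp2 i) (hp3 i) hil.symm hri hrl
  have e2 : q h l (p l).1 (p l).2 = q h l i r :=
    q_const h hpos hsymm h4 l _ _ i r (hp1 l) (hp2 l) (hp3 l) hil hrl hri
  have hil0 := hpos i l hil
  rw [← Real.sqrt_mul (hq i).le, e1, e2]
  have e3 : q h i l r * q h l i r = h i l ^ 2 := by
    unfold q
    have h1 := (hpos l r hrl.symm).ne'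
    have h2 := (hpos i r hri.symm).ne'
    rw [hsymm l i]
    field_simp
  rw [e3, Real.sqrt_sq hil0.le]

end Pool.Agent.MP90787a.J
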