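import Mathlib
import Pool.Agent.Lib.MP_90787a_nt.J.Defs
import Pool.Agent.Lib.MP_90787a_nt.J.Separable

/-!
# MP_90787a_nt, module J3: shift invariant normalisation
-/

set_option autoImplicit false

namespace Pool.Agent.MP90787a.J

namespace DeltaAux

/-- A function with `g (i + 1) = g i * f i` exists if the product of `f` is one. -/
theorem exists_primitive {N : ℕ} [NeZero N] (hN : 2 ≤ N) (f : ZMod N → ℝ) (hf : ∀ i, 0 < f i)
    (hprod : ∏ i, f i = 1) :
    ∃ g : ZMod N → ℝ, (∀ i, 0 < g i) ∧ ∀ i, g (i + 1) = g i * f i := by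
  have : Fact (1 < N) := ⟨by omega⟩
  refine ⟨fun i => ∏ n ∈ Finset.range i.val, f (n : ZMod N), ?_, ?_⟩
  · intro i
    exact Finset.prod_pos fun n _ => hf _
  · intro i
    have hval : (i + 1).val = (i.val + 1) % N := by
      rw [ZMod.val_add, ZMod.val_one]
    have hlt : i.val < N := ZMod.val_lt i
    have hcast : ((i.val : ℕ) : ZMod N) = i := ZMod.natCast_zmod_val i
    have hsucc : ∏ n ∈ Finset.range (i.val + 1), f (n : ZMod N) =
        (∏ n ∈ Finset.range i.val, f (n : ZMod N)) * f i := by
      rw [Finset.prod_range_succ, hcast]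
    rcases Nat.lt_or_ge (i.val + 1) N with h1 | h1
    · have : (i + 1).val = i.val + 1 := by rw [hval, Nat.mod_eq_of_lt h1]
      simp only [this]
      exact hsucc
    · have h2 : i.val + 1 = N := by omega
      have h3 : (i + 1).val = 0 := by rw [hval, h2, Nat.mod_self]
      simp only [h3, Finset.range_zero, Finset.prod_empty]
      rw [← hsucc, h2, ← hprod]
      symm
      refine Finset.prod_bij (fun n _ => (n : ZMod N)) (fun n _ => Finset.mem_univ _) ?_ ?_ ?_
      · intro a ha b hb hab
        have ha' := Finset.mem_range.mp ha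
        have hb' := Finset.mem_range.mp hb
        have := congrArg ZMod.val hab
        simpa [ZMod.val_natCast, Nat.mod_eq_of_lt ha', Nat.mod_eq_of_lt hb'] using this
      · intro b _
        exact ⟨b.val, Finset.mem_range.mpr (ZMod.val_lt b), ZMod.natCast_zmod_val b⟩
      · intro n _
        rfl

end DeltaAux

open DeltaAux

theorem exists_delta {N : ℕ} (hN : 4 ≤ N) (w : ZMod N → ZMod N → ℝ)
    (hpos : ∀ i l, i ≠ l → 0 < w i l) (hsymm : ∀ i l, w i l = w l i)
    (hshift : ∀ i l a b, D4 i l a b → w (i + 1) (l + 1) * w (a + 1) (b + 1) * (w i b * w l a) =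
      w (i + 1) (b + 1) * w (l + 1) (a + 1) * (w i l * w a b)) :
    ∃ g δ : ZMod N → ℝ, (∀ i, 0 < g i) ∧ (∀ c, 0 < δ c) ∧ (∀ c, δ (-c) = δ c) ∧
      ∀ i l, i ≠ l → w i l = g i * g l * δ (i - l) := by
  have : NeZero N := ⟨by omega⟩
  have : Fact (1 < N) := ⟨by omega⟩
  classical
  have hcard : 3 ≤ Nat.card (ZMod N) := by
    rw [Nat.card_zmod]; omega
  have hne1 : ∀ i l : ZMod N, i ≠ l → i + 1 ≠ l + 1 := fun i l h h' => h (add_right_cancel h')
  obtain ⟨f, hf, hfw⟩ := separable hcard
    (fun i l => if i = l then 1 else w (i + 1) (l + 1) / w i l)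
    (by
      intro i l hil
      simp only [if_neg hil]
      exact div_pos (hpos _ _ (hne1 i l hil)) (hpos _ _ hil))
    (by
      intro i l
      by_cases h : i = l
      · subst h; rfl
      · simp only [if_neg h, if_neg (Ne.symm h)]
        rw [hsymm (i + 1), hsymm i])
    (by
      intro i l a b hD
      obtain ⟨h1, h2, h3, h4, h5, h6⟩ := hD
      simp only [if_neg h1, if_neg h6, if_neg h3, if_neg h4]
      have e1 := (hpos i l h1).ne'
      have e2 := (hpos a b h6).ne'
      have e3 := (hpos i b h3).ne'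
      have e4 := (hpos l a h4).ne'
      have := hshift i l a b ⟨h1, h2, h3, h4, h5, h6⟩
      rw [div_mul_div_comm, div_mul_div_comm, div_eq_div_iff (mul_ne_zero e1 e2)
        (mul_ne_zero e3 e4)]
      exact this)
  have hw : ∀ i l, i ≠ l → w (i + 1) (l + 1) = f i * f l * w i l := by
    intro i l hil
    have := hfw i l hil
    simp only [if_neg hil] at this
    rw [div_eq_iff (hpos i l hil).ne'] at this
    exact this
  have hprod : ∏ i, f i = 1 := by
    have h1 : ∏ i : ZMod N, w (i + 1) (i + 1 + 1) = ∏ i : ZMod N, w i (i + 1) :=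
      Fintype.prod_equiv (Equiv.addRight (1 : ZMod N)) _ _ (fun i => rfl)
    have h2 : ∏ i : ZMod N, w (i + 1) (i + 1 + 1) =
        (∏ i, f i) * (∏ i, f i) * ∏ i : ZMod N, w i (i + 1) := by
      have h3 : ∏ i : ZMod N, f (i + 1) = ∏ i, f i :=
        Fintype.prod_equiv (Equiv.addRight (1 : ZMod N)) _ _ (fun i => rfl)
      calc ∏ i : ZMod N, w (i + 1) (i + 1 + 1)
          = ∏ i : ZMod N, (f i * f (i + 1) * w i (i + 1)) := by
            refine Finset.prod_congr rfl fun i _ => ?_
            refine hw i (i + 1) ?_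
            intro h
            have : (1 : ZMod N) = 0 := by
              have h' : i + 0 = i + 1 := by rw [add_zero]; exact h
              exact (add_left_cancel h').symm
            exact one_ne_zero this
        _ = (∏ i, f i) * (∏ i : ZMod N, f (i + 1)) * ∏ i : ZMod N, w i (i + 1) := by
            rw [Finset.prod_mul_distrib, Finset.prod_mul_distrib]
        _ = _ := by rw [h3]
    have hpp : 0 < ∏ i : ZMod N, w i (i + 1) := by
      refine Finset.prod_pos fun i _ => hpos _ _ ?_
      intro h
      have : (1 : ZMod N) = 0 := by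
        have h' : i + 0 = i + 1 := by rw [add_zero]; exact h
        exact (add_left_cancel h').symm
      exact one_ne_zero this
    have hfp : 0 < ∏ i, f i := Finset.prod_pos fun i _ => hf i
    have h4 : (∏ i, f i) * (∏ i, f i) = 1 := by
      have h5 : (∏ i, f i) * (∏ i, f i) * (∏ i : ZMod N, w i (i + 1)) =
          1 * ∏ i : ZMod N, w i (i + 1) := by rw [← h2, h1, one_mul]
      exact mul_right_cancel₀ hpp.ne' h5
    nlinarith [sq_nonneg ((∏ i, f i) - 1), hfp]
  obtain ⟨g, hg, hgs⟩ := exists_primitive (by omega) f hf hprod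
  have hu1 : ∀ i l, i ≠ l → w (i + 1) (l + 1) / (g (i + 1) * g (l + 1)) =
      w i l / (g i * g l) := by
    intro i l hil
    rw [hw i l hil, hgs, hgs]
    have a1 := (hf i).ne'
    have a2 := (hf l).ne'
    have a3 := (hg i).ne'
    have a4 := (hg l).ne'
    field_simp
  have hun : ∀ (n : ℕ) (i l : ZMod N), i ≠ l → w (i + n) (l + n) / (g (i + n) * g (l + n)) =
      w i l / (g i * g l) := by
    intro n
    induction n with
    | zero => intro i l _; simp
    | succ n ih =>
      intro i l hil
      have h1 : i + ((n + 1 : ℕ) : ZMod N) = (i + n) + 1 := by push_cast; ring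
      have h2 : l + ((n + 1 : ℕ) : ZMod N) = (l + n) + 1 := by push_cast; ring
      rw [h1, h2, hu1 _ _ (fun h => hil (add_right_cancel h))]
      exact ih i l hil
  have huc : ∀ (c i l : ZMod N), i ≠ l → w (i + c) (l + c) / (g (i + c) * g (l + c)) =
      w i l / (g i * g l) := by
    intro c i l hil
    have := hun c.val i l hil
    rwa [ZMod.natCast_zmod_val c] at this
  refine ⟨g, fun c => if c = 0 then 1 else w c 0 / (g c * g 0), hg, ?_, ?_, ?_⟩
  · intro c
    by_cases hc : c = 0
    · simp [hc]
    · simp only [if_neg hc]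
      exact div_pos (hpos _ _ hc) (mul_pos (hg _) (hg _))
  · intro c
    by_cases hc : c = 0
    · simp [hc]
    · have hc' : -c ≠ 0 := neg_ne_zero.mpr hc
      simp only [if_neg hc, if_neg hc']
      have h1 := huc c (-c) 0 hc'
      rw [neg_add_cancel, zero_add] at h1
      rw [← h1, hsymm 0 c, mul_comm (g 0)]
  · intro i l hil
    have hc : i - l ≠ 0 := sub_ne_zero.mpr hil
    simp only [if_neg hc]
    have h1 := huc (-l) i l hil
    rw [add_neg_cancel, ← sub_eq_add_neg] at h1
    rw [h1]
    have a3 := (hg i).ne'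
    have a4 := (hg l).ne'
    field_simp

end Pool.Agent.MP90787a.J
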