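import Mathlib
import Pool.Agent.Lib.MP_90787a_nt.J.Defs
import Pool.Agent.Lib.MP_90787a_nt.J.Defs2

/-!
# MP_90787a_nt: residual injectivity of Dickson polynomials
-/

set_option autoImplicit false

namespace Pool.Agent.MP90787a.J

namespace DickUnitAux

/-- Dickson polynomials over a commutative ring. -/
def H {R : Type} [CommRing R] (c : R) : ℕ → R → R
  | 0, _ => 2
  | 1, x => x
  | n + 2, x => x * H c (n + 1) x - c * H c n x

/-- Divided differences of Dickson polynomials over a commutative ring. -/
def Q {R : Type} [CommRing R] (c : R) : ℕ → R → R → R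
  | 0, _, _ => 0
  | 1, _, _ => 1
  | n + 2, x, y => x * Q c (n + 1) x y + H c (n + 1) y - c * Q c n x y

theorem H_succ {R : Type} [CommRing R] (c : R) (n : ℕ) (x : R) :
    H c (n + 2) x = x * H c (n + 1) x - c * H c n x := rfl

theorem Q_succ {R : Type} [CommRing R] (c : R) (n : ℕ) (x y : R) :
    Q c (n + 2) x y = x * Q c (n + 1) x y + H c (n + 1) y - c * Q c n x y := rfl

theorem hom_eq {K : Type} [Field K] (a A C : K) (n : ℕ) : hom a n (A, C) = H (a * C ^ 2) n A := by
  induction n using Nat.strong_induction_on with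
  | _ n ih =>
    match n with
    | 0 => rfl
    | 1 => rfl
    | n + 2 =>
      have e : hom a (n + 2) (A, C) = A * hom a (n + 1) (A, C) - a * C ^ 2 * hom a n (A, C) := rfl
      rw [e, H_succ, ih (n + 1) (by omega), ih n (by omega)]

theorem quo_eq {K : Type} [Field K] (a A B C : K) (n : ℕ) :
    quo a n A B C = Q (a * C ^ 2) n A B := by
  induction n using Nat.strong_induction_on with
  | _ n ih =>
    match n with
    | 0 => rfl
    | 1 => rfl
    | n + 2 =>
      have e : quo a (n + 2) A B C = A * quo a (n + 1) A B C + hom a (n + 1) (B, C) -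
        a * C ^ 2 * quo a n A B C := rfl
      rw [e, Q_succ, ih (n + 1) (by omega), ih n (by omega), hom_eq]

theorem H_map {R S : Type} [CommRing R] [CommRing S] (φ : R →+* S) (c : R) (n : ℕ) (x : R) :
    φ (H c n x) = H (φ c) n (φ x) := by
  induction n using Nat.strong_induction_on with
  | _ n ih =>
    match n with
    | 0 => exact map_ofNat φ 2
    | 1 => rfl
    | n + 2 =>
      rw [H_succ, H_succ, map_sub, map_mul, map_mul, ih (n + 1) (by omega), ih n (by omega)]

theorem Q_map {R S : Type} [CommRing R] [CommRing S] (φ : R →+* S) (c : R) (n : ℕ) (x y : R) :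
    φ (Q c n x y) = Q (φ c) n (φ x) (φ y) := by
  induction n using Nat.strong_induction_on with
  | _ n ih =>
    match n with
    | 0 => simp [Q]
    | 1 => simp [Q]
    | n + 2 =>
      rw [Q_succ, Q_succ, map_sub, map_add, map_mul, map_mul, ih (n + 1) (by omega),
        ih n (by omega), H_map]

theorem sub_mul_Q {R : Type} [CommRing R] (c : R) (n : ℕ) (x y : R) :
    (x - y) * Q c n x y = H c n x - H c n y := by
  induction n using Nat.strong_induction_on with
  | _ n ih =>
    match n with
    | 0 => simp [Q, H]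
    | 1 => simp [Q, H]
    | n + 2 =>
      have h1 := ih (n + 1) (by omega)
      have h2 := ih n (by omega)
      rw [Q_succ, H_succ, H_succ]
      linear_combination x * h1 - c * h2

theorem Q_comm {K : Type} [Field K] (c : K) (n : ℕ) (x y : K) : Q c n x y = Q c n y x := by
  by_cases h : x = y
  · rw [h]
  · have h1 := sub_mul_Q c n x y
    have h2 := sub_mul_Q c n y x
    have h3 : x - y ≠ 0 := sub_ne_zero.2 h
    apply mul_left_cancel₀ h3
    linear_combination h1 + h2

theorem H_scale {R : Type} [CommRing R] (c t : R) (n : ℕ) (x : R) :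
    H (c * t ^ 2) n (t * x) = t ^ n * H c n x := by
  induction n using Nat.strong_induction_on with
  | _ n ih =>
    match n with
    | 0 => simp [H]
    | 1 => simp [H]
    | n + 2 =>
      rw [H_succ, H_succ, ih (n + 1) (by omega), ih n (by omega)]
      ring

theorem Q_scale {R : Type} [CommRing R] (c t : R) (n : ℕ) (x y : R) :
    t * Q (c * t ^ 2) n (t * x) (t * y) = t ^ n * Q c n x y := by
  induction n using Nat.strong_induction_on with
  | _ n ih =>
    match n with
    | 0 => simp [Q]
    | 1 => simp [Q]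
    | n + 2 =>
      have h1 := ih (n + 1) (by omega)
      have h2 := ih n (by omega)
      rw [Q_succ, Q_succ, H_scale]
      linear_combination t * x * h1 - c * t ^ 2 * h2

/-! ### Over a field: closed formulas -/

theorem H_root {K : Type} [Field K] (c x u w : K) (hx : x = u + w) (hc : c = u * w) (n : ℕ) :
    H c n x = u ^ n + w ^ n := by
  induction n using Nat.strong_induction_on with
  | _ n ih =>
    match n with
    | 0 => simp [H]; norm_num
    | 1 => simp [H, hx]
    | n + 2 =>
      rw [H_succ, ih (n + 1) (by omega), ih n (by omega), hx, hc]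
      ring

theorem Q_root {K : Type} [Field K] (c x u w : K) (hx : x = u + w) (hc : c = u * w) (n : ℕ) :
    Q c n x x * (u - w) = n * (u ^ n - w ^ n) := by
  induction n using Nat.strong_induction_on with
  | _ n ih =>
    match n with
    | 0 => simp [Q]
    | 1 => simp [Q]
    | n + 2 =>
      have h1 := ih (n + 1) (by omega)
      have h2 := ih n (by omega)
      rw [Q_succ, H_root c x u w hx hc]
      push_cast at h1 h2 ⊢
      subst hx
      subst hc
      linear_combination (u + w) * h1 - u * w * h2

theorem Q_double {K : Type} [Field K] (u : K) (n : ℕ) :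
    u * Q (u * u) n (u + u) (u + u) = (n : K) ^ 2 * u ^ n := by
  induction n using Nat.strong_induction_on with
  | _ n ih =>
    match n with
    | 0 => simp [Q]
    | 1 => simp [Q]
    | n + 2 =>
      have h1 := ih (n + 1) (by omega)
      have h2 := ih n (by omega)
      rw [Q_succ, H_root (u * u) (u + u) u u rfl rfl]
      push_cast at h1 h2 ⊢
      linear_combination (u + u) * h1 - u * u * h2

theorem Q_zero_self {K : Type} [Field K] (x : K) (n : ℕ) :
    x * Q 0 n x x = (n : K) * x ^ n := by
  induction n using Nat.strong_induction_on with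
  | _ n ih =>
    match n with
    | 0 => simp [Q]
    | 1 => simp [Q]
    | n + 2 =>
      have h1 := ih (n + 1) (by omega)
      have hH : H 0 (n + 1) x = x ^ (n + 1) := by
        rw [H_root 0 x x 0 (by ring) (by ring)]
        simp
      rw [Q_succ, hH]
      push_cast at h1 ⊢
      linear_combination x * h1

/-- An element whose order divides two coprime numbers is trivial. -/
theorem eq_one_of_coprime {K : Type} [Field K] (z : K) (m n : ℕ) (h : m.Coprime n)
    (h1 : z ^ m = 1) (h2 : z ^ n = 1) : z = 1 := by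
  have h3 := orderOf_dvd_of_pow_eq_one h1
  have h4 := orderOf_dvd_of_pow_eq_one h2
  have h5 := Nat.dvd_gcd h3 h4
  rw [h] at h5
  exact orderOf_eq_one_iff.1 (Nat.dvd_one.1 h5)

/-- Roots of quadratics over `F` in an extension. -/
theorem root_pow {F E : Type} [Field F] [Fintype F] [Field E] [Algebra F E] (x c : F) (hc : c ≠ 0)
    (u w : E) (hx : algebraMap F E x = u + w) (hcu : algebraMap F E c = u * w) :
    u ^ (Fintype.card F ^ 2 - 1) = 1 := by
  set q := Fintype.card F with hq
  obtain ⟨p, hp⟩ := CharP.exists F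
  have := hp
  have hpp : Fact p.Prime := ⟨CharP.char_is_prime F p⟩
  obtain ⟨n, hn, hcard⟩ := FiniteField.card F p
  have : CharP E p := charP_of_injective_algebraMap (algebraMap F E).injective p
  have hu0 : u ≠ 0 := by
    rintro rfl
    rw [zero_mul] at hcu
    exact hc ((map_eq_zero (algebraMap F E)).1 hcu)
  have hfrob : ∀ a b : E, (a + b) ^ q = a ^ q + b ^ q := by
    intro a b
    rw [hq, hcard]
    exact add_pow_char_pow a b p n
  have hxq : (algebraMap F E x) ^ q = algebraMap F E x := by
    rw [← map_pow, FiniteField.pow_card]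
  have hcq : (algebraMap F E c) ^ q = algebraMap F E c := by
    rw [← map_pow, FiniteField.pow_card]
  have h1 : u ^ q + w ^ q = u + w := by
    rw [← hfrob, ← hx, hxq]
  have h2 : u ^ q * w ^ q = u * w := by
    rw [← mul_pow, ← hcu, hcq]
  have h3 : (u ^ q - u) * (u ^ q - w) = 0 := by
    linear_combination (u ^ q) * h1 - h2
  have h4 : u ^ (q ^ 2) = u := by
    rcases mul_eq_zero.1 h3 with h | h
    · have h5 : u ^ q = u := sub_eq_zero.1 h
      rw [pow_two, pow_mul, h5, h5]
    · have h5 : u ^ q = w := sub_eq_zero.1 h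
      have h6 : w ^ q = u := by linear_combination h1 - h5
      rw [pow_two, pow_mul, h5, h6]
  have hq1 : 1 ≤ q ^ 2 := Nat.one_le_pow _ _ Fintype.card_pos
  have h7 : u ^ (q ^ 2 - 1) * u = 1 * u := by
    rw [← pow_succ, Nat.sub_add_cancel hq1, h4, one_mul]
  exact mul_right_cancel₀ hu0 h7

/-- The key statement over a finite field. -/
theorem key {F : Type} [Field F] [Fintype F] (m : ℕ) (h1 : (m : F) ≠ 0)
    (h2 : m.Coprime (Fintype.card F ^ 2 - 1)) (c x y : F) (hQ : Q c m x y = 0) : x = 0 := by
  set q := Fintype.card F with hq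
  have hm0 : m ≠ 0 := by
    rintro rfl
    simp at h1
  by_cases hc : c = 0
  · subst hc
    have hH : ∀ z : F, H 0 m z = z ^ m := by
      intro z
      rw [H_root 0 z z 0 (by ring) (by ring), zero_pow hm0, add_zero]
    by_cases hxy : x = y
    · subst hxy
      have h3 := Q_zero_self x m
      rw [hQ, mul_zero] at h3
      rcases mul_eq_zero.1 h3.symm with h | h
      · exact absurd h h1
      · exact pow_eq_zero_iff hm0 |>.1 h
    · exfalso
      have h3 := sub_mul_Q (0 : F) m x y
      rw [hQ, mul_zero, hH, hH] at h3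
      have h4 : x ^ m = y ^ m := (sub_eq_zero.1 h3.symm)
      by_cases hy : y = 0
      · rw [hy, zero_pow hm0] at h4
        exact hxy ((pow_eq_zero_iff hm0).1 h4 |>.trans hy.symm)
      · have h5 : (x / y) ^ m = 1 := by
          rw [div_pow, h4, div_self (pow_ne_zero _ hy)]
        have hx : x ≠ 0 := by
          rintro rfl
          rw [zero_pow hm0] at h4
          exact hy ((pow_eq_zero_iff hm0).1 h4.symm)
        have h6 : (x / y) ^ (q ^ 2 - 1) = 1 := by
          have h7 : (x / y) ^ (q - 1) = 1 := FiniteField.pow_card_sub_one_eq_one _ (div_ne_zero hx hy)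
          have h8 : q ^ 2 - 1 = (q - 1) * (q + 1) := by
            have : 1 ≤ q := Fintype.card_pos
            obtain ⟨k, hk⟩ := Nat.exists_eq_add_of_le this
            rw [hk]
            have : (1 + k) ^ 2 - 1 = (1 + k) ^ 2 - 1 := rfl
            have e : (1 + k) ^ 2 = k * (k + 2) + 1 := by ring
            rw [e, Nat.add_sub_cancel, Nat.add_sub_cancel_left]
            ring
          rw [h8, pow_mul, h7, one_pow]
        have h9 := eq_one_of_coprime (x / y) m _ h2 h5 h6
        rw [div_eq_one_iff_eq hy] at h9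
        exact hxy h9
  · exfalso
    let E := AlgebraicClosure F
    let φ : F →+* E := algebraMap F E
    have hφc : φ c ≠ 0 := by
      rw [Ne, map_eq_zero]; exact hc
    have hroot : ∀ z : F, ∃ u w : E, φ z = u + w ∧ φ c = u * w := by
      intro z
      obtain ⟨u, hu⟩ := IsAlgClosed.exists_root
        (Polynomial.X ^ 2 - Polynomial.C (φ z) * Polynomial.X + Polynomial.C (φ c) : Polynomial E)
        (by
          have : (Polynomial.X ^ 2 - Polynomial.C (φ z) * Polynomial.X + Polynomial.C (φ c) :
            Polynomial E).degree = 2 := by compute_degree!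
          rw [this]; norm_num)
      refine ⟨u, φ z - u, by ring, ?_⟩
      rw [Polynomial.IsRoot.def] at hu
      simp only [Polynomial.eval_add, Polynomial.eval_sub, Polynomial.eval_pow, Polynomial.eval_X,
        Polynomial.eval_mul, Polynomial.eval_C] at hu
      linear_combination hu
    obtain ⟨u, u', hu, hcu⟩ := hroot x
    have hQE : Q (φ c) m (φ x) (φ y) = 0 := by rw [← Q_map, hQ, map_zero]
    have hu0 : u ≠ 0 := by
      rintro rfl; rw [zero_mul] at hcu; exact hφc hcu
    have hu'0 : u' ≠ 0 := by
      rintro rfl; rw [mul_zero] at hcu; exact hφc hcu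
    have hpu := root_pow x c hc u u' hu hcu
    have hpu' := root_pow x c hc u' u (by rw [hu]; ring) (by rw [hcu]; ring)
    by_cases hxy : x = y
    · subst hxy
      have h3 := Q_root (φ c) (φ x) u u' hu hcu m
      rw [hQE, zero_mul] at h3
      have hmE : (m : E) ≠ 0 := by
        intro h
        apply h1
        have : φ (m : F) = 0 := by rw [map_natCast]; exact h
        exact (map_eq_zero φ).1 this
      have h4 : u ^ m = u' ^ m := by
        rcases mul_eq_zero.1 h3.symm with h | h
        · exact absurd h hmE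
        · exact sub_eq_zero.1 h
      have h5 : (u / u') ^ m = 1 := by rw [div_pow, h4, div_self (pow_ne_zero _ hu'0)]
      have h6 : (u / u') ^ (q ^ 2 - 1) = 1 := by rw [div_pow, hpu, hpu', div_one]
      have h7 := eq_one_of_coprime _ m _ h2 h5 h6
      rw [div_eq_one_iff_eq hu'0] at h7
      subst h7
      have h8 := Q_double u m
      rw [← hcu, ← hu, hQE, mul_zero] at h8
      have h9 : (m : E) ^ 2 * u ^ m ≠ 0 := mul_ne_zero (pow_ne_zero _ hmE) (pow_ne_zero _ hu0)
      exact h9 h8.symm
    · obtain ⟨w, w', hw, hcw⟩ := hroot y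
      have hw0 : w ≠ 0 := by
        rintro rfl; rw [zero_mul] at hcw; exact hφc hcw
      have hw'0 : w' ≠ 0 := by
        rintro rfl; rw [mul_zero] at hcw; exact hφc hcw
      have hpw := root_pow y c hc w w' hw hcw
      have hpw' := root_pow y c hc w' w (by rw [hw]; ring) (by rw [hcw]; ring)
      have h3 := sub_mul_Q (φ c) m (φ x) (φ y)
      rw [hQE, mul_zero, H_root _ _ u u' hu hcu, H_root _ _ w w' hw hcw] at h3
      have h4 : u ^ m * u' ^ m = w ^ m * w' ^ m := by
        rw [← mul_pow, ← mul_pow, ← hcu, ← hcw]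
      have h5 : (u ^ m - w ^ m) * (u ^ m - w' ^ m) = 0 := by
        linear_combination (-u ^ m) * h3 - h4
      rcases mul_eq_zero.1 h5 with h | h
      · have h6 : (u / w) ^ m = 1 := by
          rw [div_pow, sub_eq_zero.1 h, div_self (pow_ne_zero _ hw0)]
        have h7 : (u / w) ^ (q ^ 2 - 1) = 1 := by rw [div_pow, hpu, hpw, div_one]
        have h8 := eq_one_of_coprime _ m _ h2 h6 h7
        rw [div_eq_one_iff_eq hw0] at h8
        subst h8
        have h9 : u' = w' := mul_left_cancel₀ hu0 (hcu.symm.trans hcw)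
        apply hxy
        apply φ.injective
        rw [hu, hw, h9]
      · have h6 : (u / w') ^ m = 1 := by
          rw [div_pow, sub_eq_zero.1 h, div_self (pow_ne_zero _ hw'0)]
        have h7 : (u / w') ^ (q ^ 2 - 1) = 1 := by rw [div_pow, hpu, hpw', div_one]
        have h8 := eq_one_of_coprime _ m _ h2 h6 h7
        rw [div_eq_one_iff_eq hw'0] at h8
        subst h8
        have h9 : u' = w := by
          apply mul_left_cancel₀ hu0
          rw [← hcu, hcw]; ring
        apply hxy
        apply φ.injective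
        rw [hu, hw, h9]; ring

/-! ### Ultrametric estimates -/

section val

variable {K : Type} [Field K] (v : AbsoluteValue K ℝ) (hv : IsNonarchimedean v)

include hv

theorem v_sub_le (x y : K) : v (x - y) ≤ max (v x) (v y) := by
  have h := hv x (-y)
  rwa [v.map_neg, ← sub_eq_add_neg] at h

theorem v_nat (n : ℕ) : v (n : K) ≤ 1 := by
  induction n with
  | zero => simp
  | succ n ih =>
    have h := hv (n : K) 1
    rw [v.map_one] at h
    push_cast
    exact h.trans (max_le ih le_rfl)

theorem v_eq (x y : K) (h : v (x - y) < v y) : v x = v y := by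
  have h1 := hv (x - y) y
  rw [sub_add_cancel, max_eq_right h.le] at h1
  refine le_antisymm h1 ?_
  have h2 := v_sub_le v hv x (x - y)
  rw [sub_sub_cancel] at h2
  rcases le_max_iff.1 h2 with h3 | h3
  · exact h3
  · exact absurd h3 (not_le.2 h)

theorem H_le (c : K) (r : ℝ) (hr : 0 < r) (hc : v c = r ^ 2) (B : K) (hB : v B ≤ r) (n : ℕ) :
    v (H c n B) ≤ r ^ n := by
  induction n using Nat.strong_induction_on with
  | _ n ih =>
    match n with
    | 0 =>
      have h := v_nat v hv 2
      simpa [H] using h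
    | 1 => simpa [H] using hB
    | n + 2 =>
      rw [H_succ]
      refine (v_sub_le v hv _ _).trans (max_le ?_ ?_)
      · rw [v.map_mul]
        calc v B * v (H c (n + 1) B) ≤ r * r ^ (n + 1) :=
              mul_le_mul hB (ih (n + 1) (by omega)) (v.nonneg _) hr.le
          _ = r ^ (n + 2) := by ring
      · rw [v.map_mul, hc]
        calc r ^ 2 * v (H c n B) ≤ r ^ 2 * r ^ n :=
              mul_le_mul_of_nonneg_left (ih n (by omega)) (by positivity)
          _ = r ^ (n + 2) := by ring

theorem Q_le (c : K) (r : ℝ) (hr : 0 < r) (hc : v c = r ^ 2) (A B : K) (hA : v A ≤ r)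
    (hB : v B ≤ r) (n : ℕ) : v (Q c (n + 1) A B) ≤ r ^ n := by
  induction n using Nat.strong_induction_on with
  | _ n ih =>
    match n with
    | 0 => simp [Q]
    | 1 =>
      have e : Q c (1 + 1) A B = A + B := by
        rw [Q_succ]
        simp [Q, H]
      rw [e, pow_one]
      exact (hv A B).trans (max_le hA hB)
    | n + 2 =>
      rw [Q_succ]
      refine (v_sub_le v hv _ _).trans (max_le ?_ ?_)
      · refine (hv _ _).trans (max_le ?_ ?_)
        · rw [v.map_mul]
          calc v A * v (Q c (n + 1 + 1) A B) ≤ r * r ^ (n + 1) :=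
                mul_le_mul hA (ih (n + 1) (by omega)) (v.nonneg _) hr.le
            _ = r ^ (n + 2) := by ring
        · exact H_le v hv c r hr hc B hB (n + 1 + 1)
      · rw [v.map_mul, hc]
        calc r ^ 2 * v (Q c (n + 1) A B) ≤ r ^ 2 * r ^ n :=
              mul_le_mul_of_nonneg_left (ih n (by omega)) (by positivity)
          _ = r ^ (n + 2) := by ring

theorem H_lt (c : K) (r : ℝ) (hr : 0 < r) (hc : v c = r ^ 2) (B : K) (hB : v B < r) (n : ℕ) :
    v (H c n B - H c n 0) < r ^ n := by
  induction n using Nat.strong_induction_on with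
  | _ n ih =>
    match n with
    | 0 => simp [H]
    | 1 => simpa [H] using hB
    | n + 2 =>
      have e : H c (n + 2) B - H c (n + 2) 0 = B * H c (n + 1) B - c * (H c n B - H c n 0) := by
        rw [H_succ, H_succ]
        ring
      rw [e]
      refine (v_sub_le v hv _ _).trans_lt (max_lt ?_ ?_)
      · rw [v.map_mul]
        calc v B * v (H c (n + 1) B) ≤ v B * r ^ (n + 1) :=
              mul_le_mul_of_nonneg_left (H_le v hv c r hr hc B hB.le (n + 1)) (v.nonneg _)
          _ < r * r ^ (n + 1) := mul_lt_mul_of_pos_right hB (by positivity)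
          _ = r ^ (n + 2) := by ring
      · rw [v.map_mul, hc]
        calc r ^ 2 * v (H c n B - H c n 0) < r ^ 2 * r ^ n :=
              mul_lt_mul_of_pos_left (ih n (by omega)) (by positivity)
          _ = r ^ (n + 2) := by ring

theorem Q_lt (c : K) (r : ℝ) (hr : 0 < r) (hc : v c = r ^ 2) (A B : K) (hA : v A < r)
    (hB : v B < r) (n : ℕ) : v (Q c (n + 1) A B - Q c (n + 1) 0 0) < r ^ n := by
  induction n using Nat.strong_induction_on with
  | _ n ih =>
    match n with
    | 0 => simp [Q]
    | 1 =>
      have e : Q c (1 + 1) A B - Q c (1 + 1) 0 0 = A + B := by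
        rw [Q_succ, Q_succ]
        simp [Q, H]
      rw [e, pow_one]
      exact (hv A B).trans_lt (max_lt hA hB)
    | n + 2 =>
      have e : Q c (n + 2 + 1) A B - Q c (n + 2 + 1) 0 0 =
          (A * Q c (n + 1 + 1) A B + (H c (n + 2) B - H c (n + 2) 0)) -
          c * (Q c (n + 1) A B - Q c (n + 1) 0 0) := by
        have e1 : Q c (n + 2 + 1) A B = A * Q c (n + 1 + 1) A B + H c (n + 2) B -
          c * Q c (n + 1) A B := rfl
        have e2 : Q c (n + 2 + 1) 0 0 = 0 * Q c (n + 1 + 1) 0 0 + H c (n + 2) 0 -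
          c * Q c (n + 1) 0 0 := rfl
        rw [e1, e2]
        ring
      rw [e]
      refine (v_sub_le v hv _ _).trans_lt (max_lt ?_ ?_)
      · refine (hv _ _).trans_lt (max_lt ?_ ?_)
        · rw [v.map_mul]
          calc v A * v (Q c (n + 1 + 1) A B) ≤ v A * r ^ (n + 1) :=
                mul_le_mul_of_nonneg_left (Q_le v hv c r hr hc A B hA.le hB.le (n + 1))
                  (v.nonneg _)
            _ < r * r ^ (n + 1) := mul_lt_mul_of_pos_right hA (by positivity)
            _ = r ^ (n + 2) := by ring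
        · exact H_lt v hv c r hr hc B hB (n + 2)
      · rw [v.map_mul, hc]
        calc r ^ 2 * v (Q c (n + 1) A B - Q c (n + 1) 0 0) < r ^ 2 * r ^ n :=
              mul_lt_mul_of_pos_left (ih n (by omega)) (by positivity)
          _ = r ^ (n + 2) := by ring

end val

theorem H_zero {R : Type} [CommRing R] (c : R) (k : ℕ) :
    H c (2 * k) 0 = 2 * (-c) ^ k ∧ H c (2 * k + 1) 0 = 0 := by
  induction k with
  | zero => simp [H]
  | succ k ih =>
    obtain ⟨h1, h2⟩ := ih
    have e1 : H c (2 * (k + 1)) 0 = 0 * H c (2 * k + 1) 0 - c * H c (2 * k) 0 := rfl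
    have e2 : H c (2 * (k + 1) + 1) 0 = 0 * H c (2 * k + 1 + 1) 0 - c * H c (2 * k + 1) 0 := rfl
    rw [e1, e2, h1, h2]
    constructor <;> ring

theorem Q_zero {R : Type} [CommRing R] (c : R) (k : ℕ) :
    Q c (2 * k + 1) 0 0 = ((2 * k + 1 : ℕ) : R) * (-c) ^ k := by
  induction k with
  | zero => simp [Q]
  | succ k ih =>
    have e : Q c (2 * (k + 1) + 1) 0 0 = 0 * Q c (2 * k + 1 + 1) 0 0 + H c (2 * (k + 1)) 0 -
      c * Q c (2 * k + 1) 0 0 := rfl
    rw [e, ih, (H_zero c (k + 1)).1]
    push_cast
    ring

/-- The residual statement. -/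
theorem unit_of_res {K : Type} [Field K] (v : AbsoluteValue K ℝ)
    (F : Type) [Field F] [Fintype F] (R : Res v F) (m : ℕ) (h1 : (m : F) ≠ 0)
    (h2 : m.Coprime (Fintype.card F ^ 2 - 1)) (c x y : K) (hc : v c ≤ 1) (hx : v x = 1)
    (hy : v y ≤ 1) : v (Q c m x y) = 1 := by
  let c' : R.O := ⟨c, (R.mem c).2 hc⟩
  let x' : R.O := ⟨x, (R.mem x).2 hx.le⟩
  let y' : R.O := ⟨y, (R.mem y).2 hy⟩
  have e : ((Q c' m x' y' : R.O) : K) = Q c m x y := Q_map R.O.subtype c' m x' y'
  have h3 : R.red x' ≠ 0 := by
    intro h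
    have h4 := (R.red_eq x').1 h
    exact absurd hx (ne_of_lt h4)
  have h4 : R.red (Q c' m x' y') ≠ 0 := by
    rw [Q_map]
    intro h
    exact h3 (key m h1 h2 _ _ _ h)
  rw [← e]
  refine le_antisymm ((R.mem _).1 (Q c' m x' y').2) ?_
  by_contra h5
  exact h4 ((R.red_eq _).2 (not_le.1 h5))

theorem case3 {K : Type} [Field K] (v : AbsoluteValue K ℝ)
    (F : Type) [Field F] [Fintype F] (R : Res v F) (m : ℕ) (hm : 1 ≤ m) (h1 : (m : F) ≠ 0)
    (h2 : m.Coprime (Fintype.card F ^ 2 - 1)) (c A B : K) (hA : A ≠ 0) (hB : v B ≤ v A)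
    (hc : v c ≤ v A ^ 2) : v (Q c m A B) = v A ^ (m - 1) := by
  have hvA : 0 < v A := v.pos hA
  have h3 := Q_scale c A⁻¹ m A B
  rw [inv_mul_cancel₀ hA] at h3
  have h4 := unit_of_res v F R m h1 h2 (c * A⁻¹ ^ 2) 1 (A⁻¹ * B)
    (by
      rw [v.map_mul, v.map_pow, map_inv₀, inv_pow, ← div_eq_mul_inv, div_le_one (by positivity)]
      exact hc)
    v.map_one
    (by
      rw [v.map_mul, map_inv₀, mul_comm, ← div_eq_mul_inv, div_le_one hvA]
      exact hB)
  have h5 := congrArg v h3
  rw [v.map_mul, v.map_mul, h4, mul_one, v.map_pow, map_inv₀] at h5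
  obtain ⟨k, rfl⟩ := Nat.exists_eq_add_of_le hm
  rw [Nat.add_sub_cancel_left]
  have hne : v A ≠ 0 := hvA.ne'
  rw [inv_pow] at h5
  field_simp at h5
  have h6 : v A * v A ^ k = v A * v (Q c (1 + k) A B) := by
    rw [← h5]
    ring
  exact (mul_left_cancel₀ hne h6).symm

end DickUnitAux

open DickUnitAux in
/-- Residual injectivity of the Dickson polynomials `D_m(x, a)`. -/
theorem dickUnit_of_res {K : Type} [Field K] (v : AbsoluteValue K ℝ) (hv : IsNonarchimedean v)
    (F : Type) [Field F] [Fintype F] (R : Res v F) (m : ℕ) (hm : Odd m) (h1 : (m : F) ≠ 0)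
    (h2 : m.Coprime (Fintype.card F ^ 2 - 1)) : DickUnit v m := by
  intro a A B C
  rw [quo_eq]
  set c := a * C ^ 2 with hcdef
  set r := Real.sqrt (v a) * v C with hr
  have hr0 : 0 ≤ r := mul_nonneg (Real.sqrt_nonneg _) (v.nonneg _)
  have hvc : v c = r ^ 2 := by
    rw [hcdef, hr, mul_pow, Real.sq_sqrt (v.nonneg _), v.map_mul, v.map_pow]
  have hm1 : 1 ≤ m := hm.pos
  have hvm : v (m : K) = 1 := by
    refine le_antisymm (v_nat v hv m) ?_
    by_contra h
    have h3 : R.red (m : R.O) = 0 := (R.red_eq _).2 (by simpa using not_le.1 h)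
    rw [map_natCast] at h3
    exact h1 h3
  by_cases hA : r ≤ v A ∧ v B ≤ v A
  · by_cases hA0 : A = 0
    · -- everything vanishes
      subst hA0
      rw [v.map_zero] at hA
      have hB0 : B = 0 := by
        have := le_antisymm hA.2 (v.nonneg _)
        exact v.eq_zero.1 this
      have hr00 : r = 0 := le_antisymm hA.1 hr0
      have hc0 : c = 0 := by
        rw [hr00] at hvc
        exact v.eq_zero.1 (by rw [hvc]; norm_num)
      rw [hB0, hc0, hr00, v.map_zero, max_self, max_self]
      obtain ⟨k, hk⟩ := hm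
      subst hk
      rw [Q_zero, Nat.add_sub_cancel]
      rcases Nat.eq_zero_or_pos k with hk | hk
      · subst hk
        simp
      · rw [neg_zero, zero_pow hk.ne', mul_zero, v.map_zero, zero_pow (by omega)]
    · rw [case3 v F R m hm1 h1 h2 c A B hA0 hA.2 (by rw [hvc]; exact pow_le_pow_left₀ hr0 hA.1 2),
        max_eq_left hA.2, max_eq_left hA.1]
  · by_cases hB : r ≤ v B ∧ v A ≤ v B
    · have hB0 : B ≠ 0 := by
        rintro rfl
        rw [v.map_zero] at hB
        apply hA
        rw [v.map_zero]
        exact ⟨hB.1.trans (v.nonneg _), v.nonneg _⟩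
      rw [Q_comm, case3 v F R m hm1 h1 h2 c B A hB0 hB.2
        (by rw [hvc]; exact pow_le_pow_left₀ hr0 hB.1 2), max_eq_right hB.2, max_eq_left hB.1]
    · have hAr : v A < r := by
        by_contra h
        rw [not_lt] at h
        rcases le_total (v B) (v A) with h3 | h3
        · exact hA ⟨h, h3⟩
        · exact hB ⟨h.trans h3, h3⟩
      have hBr : v B < r := by
        by_contra h
        rw [not_lt] at h
        rcases le_total (v B) (v A) with h3 | h3
        · exact hA ⟨h.trans h3, h3⟩
        · exact hB ⟨h, h3⟩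
      have hrpos : 0 < r := lt_of_le_of_lt (v.nonneg _) hAr
      rw [max_eq_right (max_lt hAr hBr).le]
      obtain ⟨k, hk⟩ := hm
      subst hk
      rw [Nat.add_sub_cancel]
      have h3 := Q_lt v hv c r hrpos hvc A B hAr hBr (2 * k)
      have h4 : v (Q c (2 * k + 1) 0 0) = r ^ (2 * k) := by
        rw [Q_zero, v.map_mul, hvm, one_mul, v.map_pow, v.map_neg, hvc, ← pow_mul]
      rw [← h4] at h3 ⊢
      exact v_eq v hv _ _ h3

end Pool.Agent.MP90787a.J
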