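import Mathlib
import Pool.Agent.Lib.MP_90787a_nt.J.Defs
import Pool.Agent.Lib.MP_90787a_nt.J.Defs2

/-!
# Dickson polynomials are kernels (module J12)
-/

set_option autoImplicit false

namespace Pool.Agent.MP90787a.J

namespace DicksonKernelAux

variable {K : Type} [Field K]

theorem hom_smul (a c : K) (p q : K) :
    ∀ n : ℕ, hom a n (c * p, c * q) = c ^ n * hom a n (p, q) ∧
      hom a (n + 1) (c * p, c * q) = c ^ (n + 1) * hom a (n + 1) (p, q)
  | 0 => by simp [hom]
  | n + 1 => by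
    obtain ⟨h1, h2⟩ := hom_smul a c p q n
    refine ⟨h2, ?_⟩
    simp only [hom]
    rw [h1, h2]
    ring

theorem sub_mul_quo (a A B C : K) :
    ∀ n : ℕ, (A - B) * quo a n A B C = hom a n (A, C) - hom a n (B, C) ∧
      (A - B) * quo a (n + 1) A B C = hom a (n + 1) (A, C) - hom a (n + 1) (B, C)
  | 0 => by simp [hom, quo]
  | n + 1 => by
    obtain ⟨h1, h2⟩ := sub_mul_quo a A B C n
    refine ⟨h2, ?_⟩
    simp only [hom, quo]
    linear_combination A * h2 - a * C ^ 2 * h1

theorem quo_two (a : K) (n : ℕ) (A B C : K) : quo a (n + 2) A B C =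
    A * quo a (n + 1) A B C + hom a (n + 1) (B, C) - a * C ^ 2 * quo a n A B C := rfl

theorem quo_comm (a A B C : K) (n : ℕ) : quo a n A B C = quo a n B A C := by
  by_cases h : A = B
  · rw [h]
  · have h1 := (sub_mul_quo a A B C n).1
    have h2 := (sub_mul_quo a B A C n).1
    have h3 : A - B ≠ 0 := sub_ne_zero.mpr h
    apply mul_left_cancel₀ h3
    linear_combination h1 + h2

theorem quo_smul (a c A B C : K) :
    ∀ n : ℕ, quo a (n + 1) (c * A) (c * B) (c * C) = c ^ n * quo a (n + 1) A B C ∧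
      quo a (n + 2) (c * A) (c * B) (c * C) = c ^ (n + 1) * quo a (n + 2) A B C
  | 0 => by
    simp [hom, quo]
    ring
  | n + 1 => by
    obtain ⟨h1, h2⟩ := quo_smul a c A B C n
    refine ⟨h2, ?_⟩
    have h3 := (hom_smul a c B C (n + 1)).2
    rw [quo, h1, h2, h3]
    conv_rhs => rw [quo]
    ring

variable {v : AbsoluteValue K ℝ}

theorem v_sub_le (hv : IsNonarchimedean v) (x y : K) : v (x - y) ≤ max (v x) (v y) := by
  have h := hv x (-y)
  rwa [← sub_eq_add_neg, AbsoluteValue.map_neg] at h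

theorem v_sub_eq (hv : IsNonarchimedean v) {x y : K} (h : v y < v x) : v (x - y) = v x := by
  have h1 := v_sub_le hv x y
  rw [max_eq_left h.le] at h1
  have h2 := hv (x - y) y
  rw [sub_add_cancel] at h2
  rcases le_max_iff.1 h2 with h3 | h3
  · exact le_antisymm h1 h3
  · exact absurd h3 (not_le.2 h)

theorem v_sub_eq' (hv : IsNonarchimedean v) {x y : K} (h : v x < v y) : v (x - y) = v y := by
  rw [← neg_sub, AbsoluteValue.map_neg]
  exact v_sub_eq hv h

theorem v_two_le (hv : IsNonarchimedean v) : v 2 ≤ 1 := by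
  have h := hv (1 : K) 1
  rw [one_add_one_eq_two, AbsoluteValue.map_one, max_self] at h
  exact h

theorem v_add_lt (hv : IsNonarchimedean v) {x y : K} {T : ℝ} (hx : v x < T) (hy : v y < T) :
    v (x + y) < T := (hv x y).trans_lt (max_lt hx hy)

theorem v_sub_lt (hv : IsNonarchimedean v) {x y : K} {T : ℝ} (hx : v x < T) (hy : v y < T) :
    v (x - y) < T := (v_sub_le hv x y).trans_lt (max_lt hx hy)

theorem v_add_le (hv : IsNonarchimedean v) {x y : K} {T : ℝ} (hx : v x ≤ T) (hy : v y ≤ T) :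
    v (x + y) ≤ T := (hv x y).trans (max_le hx hy)

theorem v_sub_le' (hv : IsNonarchimedean v) {x y : K} {T : ℝ} (hx : v x ≤ T) (hy : v y ≤ T) :
    v (x - y) ≤ T := (v_sub_le hv x y).trans (max_le hx hy)

theorem v_aC (a C : K) {D : ℝ} (hC : Real.sqrt (v a) * v C ≤ D) : v (a * C ^ 2) ≤ D ^ 2 := by
  have h1 : v (a * C ^ 2) = (Real.sqrt (v a) * v C) ^ 2 := by
    rw [mul_pow, Real.sq_sqrt (v.nonneg a), map_mul, map_pow]
  rw [h1]
  exact pow_le_pow_left₀ (mul_nonneg (Real.sqrt_nonneg _) (v.nonneg _)) hC 2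

theorem v_hom_le (hv : IsNonarchimedean v) (a B C : K) {D : ℝ} (hD : 0 < D) (hB : v B ≤ D)
    (hC : Real.sqrt (v a) * v C ≤ D) :
    ∀ n : ℕ, v (hom a n (B, C)) ≤ D ^ n ∧ v (hom a (n + 1) (B, C)) ≤ D ^ (n + 1)
  | 0 => by
    refine ⟨?_, ?_⟩
    · simpa [hom] using v_two_le hv
    · simpa [hom] using hB
  | n + 1 => by
    obtain ⟨h1, h2⟩ := v_hom_le hv a B C hD hB hC n
    refine ⟨h2, ?_⟩
    simp only [hom]
    apply v_sub_le' hv
    · rw [map_mul]
      calc v B * v (hom a (n + 1) (B, C)) ≤ D * D ^ (n + 1) :=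
            mul_le_mul hB h2 (v.nonneg _) hD.le
        _ = D ^ (n + 1 + 1) := by ring
    · rw [map_mul]
      calc v (a * C ^ 2) * v (hom a n (B, C)) ≤ D ^ 2 * D ^ n :=
            mul_le_mul (v_aC a C hC) h1 (v.nonneg _) (pow_nonneg hD.le 2)
        _ = D ^ (n + 1 + 1) := by ring

theorem v_quo_le (hv : IsNonarchimedean v) (a A B C : K) {D : ℝ} (hD : 0 < D) (hA : v A ≤ D)
    (hB : v B ≤ D) (hC : Real.sqrt (v a) * v C ≤ D) :
    ∀ n : ℕ, v (quo a (n + 1) A B C) ≤ D ^ n ∧ v (quo a (n + 2) A B C) ≤ D ^ (n + 1)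
  | 0 => by
    refine ⟨?_, ?_⟩
    · simp [quo]
    · have h : quo a 2 A B C = A + B := by simp [quo, hom]
      rw [h]
      simpa using v_add_le hv hA hB
  | n + 1 => by
    obtain ⟨h1, h2⟩ := v_quo_le hv a A B C hD hA hB hC n
    refine ⟨h2, ?_⟩
    have h3 := (v_hom_le hv a B C hD hB hC (n + 1)).2
    rw [quo]
    apply v_sub_le' hv
    · apply v_add_le hv
      · rw [map_mul]
        calc v A * v (quo a (n + 2) A B C) ≤ D * D ^ (n + 1) :=
              mul_le_mul hA h2 (v.nonneg _) hD.le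
          _ = D ^ (n + 1 + 1) := by ring
      · exact h3
    · rw [map_mul]
      calc v (a * C ^ 2) * v (quo a (n + 1) A B C) ≤ D ^ 2 * D ^ n :=
            mul_le_mul (v_aC a C hC) h1 (v.nonneg _) (pow_nonneg hD.le 2)
        _ = D ^ (n + 1 + 1) := by ring

theorem v_quo_diff (hv : IsNonarchimedean v) (a A B C η : K) {D : ℝ} (hD : 0 < D) (hA : v A ≤ D)
    (hB : v B ≤ D) (hC : Real.sqrt (v a) * v C ≤ D) (hη : v η < D) :
    ∀ n : ℕ, v (quo a (n + 1) (A + η) B C - quo a (n + 1) A B C) < D ^ n ∧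
      v (quo a (n + 2) (A + η) B C - quo a (n + 2) A B C) < D ^ (n + 1)
  | 0 => by
    refine ⟨?_, ?_⟩
    · simp [quo]
    · have h : quo a 2 (A + η) B C - quo a 2 A B C = η := by
        simp [quo, hom]
      rw [h]
      simpa using hη
  | n + 1 => by
    obtain ⟨h1, h2⟩ := v_quo_diff hv a A B C η hD hA hB hC hη n
    refine ⟨h2, ?_⟩
    have hA' : v (A + η) ≤ D := v_add_le hv hA hη.le
    have h3 := (v_quo_le hv a (A + η) B C hD hA' hB hC n).2
    have h4 : quo a (n + 1 + 2) (A + η) B C - quo a (n + 1 + 2) A B C =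
        η * quo a (n + 2) (A + η) B C +
          A * (quo a (n + 2) (A + η) B C - quo a (n + 2) A B C) -
          a * C ^ 2 * (quo a (n + 1) (A + η) B C - quo a (n + 1) A B C) := by
      rw [quo_two, quo_two a (n + 1) A B C]
      ring
    rw [h4]
    have e1 : D ^ (n + 1 + 1) = D * D ^ (n + 1) := by ring
    have e2 : D ^ (n + 1 + 1) = D ^ 2 * D ^ n := by ring
    apply v_sub_lt hv
    · apply v_add_lt hv
      · rw [map_mul, e1]
        exact (mul_le_mul_of_nonneg_left h3 (v.nonneg _)).trans_lt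
          (mul_lt_mul_of_pos_right hη (pow_pos hD _))
      · rw [map_mul, e1]
        exact (mul_le_mul_of_nonneg_right hA (v.nonneg _)).trans_lt
          (mul_lt_mul_of_pos_left h2 hD)
    · rw [map_mul, e2]
      exact (mul_le_mul_of_nonneg_right (v_aC a C hC) (v.nonneg _)).trans_lt
        (mul_lt_mul_of_pos_left h1 (pow_pos hD 2))

/-- the size -/
noncomputable def MM (v : AbsoluteValue K ℝ) (a : K) (x y : K × K) : ℝ :=
  max (max (v (x.1 * y.2)) (v (x.2 * y.1))) (Real.sqrt (v a) * v (x.2 * y.2))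

theorem wd_le (hv : IsNonarchimedean v) (a : K) (x y : K × K) : v (wd x y) ≤ MM v a x y :=
  (v_sub_le hv _ _).trans (le_max_left _ _)

theorem le1 (a : K) (x y : K × K) : v (x.1 * y.2) ≤ MM v a x y :=
  (le_max_left _ _).trans (le_max_left _ _)

theorem le2 (a : K) (x y : K × K) : v (x.2 * y.1) ≤ MM v a x y :=
  (le_max_right _ _).trans (le_max_left _ _)

theorem le3 (a : K) (x y : K × K) : Real.sqrt (v a) * v (x.2 * y.2) ≤ MM v a x y :=
  le_max_right _ _

theorem MM_nonneg (a : K) (x y : K × K) : 0 ≤ MM v a x y := (v.nonneg _).trans (le1 a x y)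

/-- if `x` is related to `y` then the second coordinate of `x` is not zero -/
theorem snd_ne (a : K) {x y : K × K} (h : v (wd x y) < MM v a x y) : x.2 ≠ 0 ∧ y.2 ≠ 0 := by
  constructor
  · intro h0
    apply absurd h (not_lt.2 _)
    have h1 : 0 ≤ v x.1 * v y.2 := mul_nonneg (v.nonneg _) (v.nonneg _)
    simp [MM, wd, h0, h1]
  · intro h0
    apply absurd h (not_lt.2 _)
    have h1 : 0 ≤ v x.2 * v y.1 := mul_nonneg (v.nonneg _) (v.nonneg _)
    simp [MM, wd, h0, h1]

/-- the relation in affine coordinates -/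
theorem rel_iff (a : K) {x y : K × K} (hx : x.2 ≠ 0) (hy : y.2 ≠ 0) :
    v (wd x y) < MM v a x y ↔
      v (x.1 / x.2 - y.1 / y.2) <
        max (max (v (x.1 / x.2)) (v (y.1 / y.2))) (Real.sqrt (v a)) := by
  have hq : 0 < v (x.2 * y.2) := v.pos (mul_ne_zero hx hy)
  have h1 : wd x y = (x.2 * y.2) * (x.1 / x.2 - y.1 / y.2) := by
    rw [wd]
    field_simp
  have h2 : MM v a x y = v (x.2 * y.2) *
      max (max (v (x.1 / x.2)) (v (y.1 / y.2))) (Real.sqrt (v a)) := by
    rw [mul_max_of_nonneg _ _ hq.le, mul_max_of_nonneg _ _ hq.le, ← map_mul, ← map_mul, MM]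
    congr 1
    · congr 1
      · congr 1
        field_simp
      · congr 1
        field_simp
    · ring
  rw [h1, h2, map_mul]
  exact mul_lt_mul_iff_right₀ hq

theorem aff_trans (hv : IsNonarchimedean v) {X Y Z : K} {s : ℝ}
    (h1 : v (X - Y) < max (max (v X) (v Y)) s) (h2 : v (Y - Z) < max (max (v Y) (v Z)) s) :
    v (X - Z) < max (max (v X) (v Z)) s := by
  have h3 : X - Z = (X - Y) + (Y - Z) := by ring
  -- `v X` is at most `max (v Y) s` and so on
  have key : ∀ U V : K, v (U - V) < max (max (v U) (v V)) s → v U ≤ max (v V) s := by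
    intro U V h
    by_contra hc
    rw [not_le, max_lt_iff] at hc
    rw [v_sub_eq hv hc.1, lt_max_iff, lt_max_iff] at h
    rcases h with (h | h) | h
    · exact lt_irrefl _ h
    · exact absurd h (not_lt.2 hc.1.le)
    · exact absurd h (not_lt.2 hc.2.le)
  have h1' : v (Y - X) < max (max (v Y) (v X)) s := by
    rw [← neg_sub, AbsoluteValue.map_neg, max_comm (v Y)]
    exact h1
  have h2' : v (Z - Y) < max (max (v Z) (v Y)) s := by
    rw [← neg_sub, AbsoluteValue.map_neg, max_comm (v Z)]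
    exact h2
  have a1 := key X Y h1
  have a2 := key Y X h1'
  have a4 := key Z Y h2'
  have a3 := key Y Z h2
  have e1 : max (v X) s = max (v Y) s :=
    le_antisymm (max_le a1 (le_max_right _ _)) (max_le a2 (le_max_right _ _))
  have e2 : max (v Z) s = max (v Y) s :=
    le_antisymm (max_le a4 (le_max_right _ _)) (max_le a3 (le_max_right _ _))
  have b1 : max (max (v X) (v Y)) s = max (v Y) s := by
    apply le_antisymm
    · exact max_le (max_le a1 (le_max_left _ _)) (le_max_right _ _)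
    · exact max_le ((le_max_right _ _).trans (le_max_left _ _)) (le_max_right _ _)
  have b2 : max (max (v Y) (v Z)) s = max (v Y) s := by
    apply le_antisymm
    · exact max_le (max_le (le_max_left _ _) a4) (le_max_right _ _)
    · exact max_le ((le_max_left _ _).trans (le_max_left _ _)) (le_max_right _ _)
  have b3 : max (max (v X) (v Z)) s = max (v Y) s := by
    apply le_antisymm
    · exact max_le (max_le a1 a4) (le_max_right _ _)
    · rw [← e1]
      exact max_le ((le_max_left _ _).trans (le_max_left _ _)) (le_max_right _ _)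
  rw [b1] at h1
  rw [b2] at h2
  rw [b3, h3]
  exact v_add_lt hv h1 h2

theorem exch (hv : IsNonarchimedean v) (a : K) (x y z w : K × K)
    (h : v (wd x w) * v (wd y z) ≤ v (wd x y) * v (wd z w)) :
    MM v a x w * MM v a y z ≤ MM v a x y * MM v a z w := by
  by_contra hc
  rw [not_le] at hc
  set s := Real.sqrt (v a) with hs
  have hs0 : 0 ≤ s := Real.sqrt_nonneg _
  set T := MM v a x y * MM v a z w with hT
  have hT1 : v (wd x w) * v (wd y z) ≤ T :=
    h.trans (mul_le_mul (wd_le hv a x y) (wd_le hv a z w) (v.nonneg _) (MM_nonneg a x y))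
  have pr : ∀ {α β : ℝ}, 0 ≤ β → α ≤ MM v a x y → β ≤ MM v a z w → α * β ≤ T := by
    intro α β hβ hα hβ'
    exact mul_le_mul hα hβ' hβ (MM_nonneg a x y)
  have n3 : ∀ u : K, 0 ≤ s * v u := fun u => mul_nonneg hs0 (v.nonneg _)
  have p2 : v (x.1 * w.2) * v (y.2 * z.1) ≤ T := by
    have := pr (v.nonneg _) (le1 a x y) (le1 a z w)
    calc v (x.1 * w.2) * v (y.2 * z.1) = v (x.1 * y.2) * v (z.1 * w.2) := by
          simp only [map_mul]; ring
      _ ≤ T := this
  have p4 : v (x.2 * w.1) * v (y.1 * z.2) ≤ T := by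
    have := pr (v.nonneg _) (le2 a x y) (le2 a z w)
    calc v (x.2 * w.1) * v (y.1 * z.2) = v (x.2 * y.1) * v (z.2 * w.1) := by
          simp only [map_mul]; ring
      _ ≤ T := this
  have p3 : v (x.1 * w.2) * (s * v (y.2 * z.2)) ≤ T := by
    have := pr (n3 _) (le1 a x y) (le3 a z w)
    calc v (x.1 * w.2) * (s * v (y.2 * z.2)) = v (x.1 * y.2) * (s * v (z.2 * w.2)) := by
          simp only [map_mul]; ring
      _ ≤ T := this
  have p6 : v (x.2 * w.1) * (s * v (y.2 * z.2)) ≤ T := by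
    have := pr (v.nonneg _) (le3 a x y) (le2 a z w)
    calc v (x.2 * w.1) * (s * v (y.2 * z.2)) = (s * v (x.2 * y.2)) * v (z.2 * w.1) := by
          simp only [map_mul]; ring
      _ ≤ T := this
  have p7 : (s * v (x.2 * w.2)) * v (y.1 * z.2) ≤ T := by
    have := pr (n3 _) (le2 a x y) (le3 a z w)
    calc (s * v (x.2 * w.2)) * v (y.1 * z.2) = v (x.2 * y.1) * (s * v (z.2 * w.2)) := by
          simp only [map_mul]; ring
      _ ≤ T := this
  have p8 : (s * v (x.2 * w.2)) * v (y.2 * z.1) ≤ T := by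
    have := pr (v.nonneg _) (le3 a x y) (le1 a z w)
    calc (s * v (x.2 * w.2)) * v (y.2 * z.1) = (s * v (x.2 * y.2)) * v (z.1 * w.2) := by
          simp only [map_mul]; ring
      _ ≤ T := this
  have p9 : (s * v (x.2 * w.2)) * (s * v (y.2 * z.2)) ≤ T := by
    have := pr (n3 _) (le3 a x y) (le3 a z w)
    calc (s * v (x.2 * w.2)) * (s * v (y.2 * z.2)) =
          (s * v (x.2 * y.2)) * (s * v (z.2 * w.2)) := by
          simp only [map_mul]; ring
      _ ≤ T := this
  have p1 : v (x.1 * w.2) * v (y.1 * z.2) ≤ T := by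
    by_contra hcc
    rw [not_le] at hcc
    have h1 : v (x.2 * w.1) < v (x.1 * w.2) := by
      by_contra h2
      rw [not_lt] at h2
      exact absurd (hcc.trans_le ((mul_le_mul_of_nonneg_right h2 (v.nonneg _)).trans p4))
        (lt_irrefl _)
    have h2 : v (y.2 * z.1) < v (y.1 * z.2) := by
      by_contra h2
      rw [not_lt] at h2
      exact absurd (hcc.trans_le ((mul_le_mul_of_nonneg_left h2 (v.nonneg _)).trans p2))
        (lt_irrefl _)
    have h3 : v (wd x w) = v (x.1 * w.2) := v_sub_eq hv h1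
    have h4 : v (wd y z) = v (y.1 * z.2) := v_sub_eq hv h2
    rw [h3, h4] at hT1
    exact absurd hcc (not_lt.2 hT1)
  have p5 : v (x.2 * w.1) * v (y.2 * z.1) ≤ T := by
    by_contra hcc
    rw [not_le] at hcc
    have h1 : v (x.1 * w.2) < v (x.2 * w.1) := by
      by_contra h2
      rw [not_lt] at h2
      exact absurd (hcc.trans_le ((mul_le_mul_of_nonneg_right h2 (v.nonneg _)).trans p2))
        (lt_irrefl _)
    have h2 : v (y.1 * z.2) < v (y.2 * z.1) := by
      by_contra h2
      rw [not_lt] at h2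
      exact absurd (hcc.trans_le ((mul_le_mul_of_nonneg_left h2 (v.nonneg _)).trans p4))
        (lt_irrefl _)
    have h3 : v (wd x w) = v (x.2 * w.1) := v_sub_eq' hv h1
    have h4 : v (wd y z) = v (y.2 * z.1) := v_sub_eq' hv h2
    rw [h3, h4] at hT1
    exact absurd hcc (not_lt.2 hT1)
  apply absurd hc (not_lt.2 _)
  have g1 : ∀ α : ℝ, 0 ≤ α → α * v (y.1 * z.2) ≤ T → α * v (y.2 * z.1) ≤ T →
      α * (s * v (y.2 * z.2)) ≤ T → α * MM v a y z ≤ T := by
    intro α hα q1 q2 q3
    rw [MM, mul_max_of_nonneg _ _ hα, mul_max_of_nonneg _ _ hα]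
    exact max_le (max_le q1 q2) q3
  have hM := MM_nonneg (v := v) a y z
  rw [show MM v a x w = max (max (v (x.1 * w.2)) (v (x.2 * w.1))) (s * v (x.2 * w.2)) from rfl,
    max_mul_of_nonneg _ _ hM, max_mul_of_nonneg _ _ hM]
  exact max_le (max_le (g1 _ (v.nonneg _) p1 p2 p3) (g1 _ (v.nonneg _) p4 p5 p6))
    (g1 _ (n3 _) p7 p8 p9)

/-- comparison of the values of `quo` at two related points -/
theorem quo_near (hv : IsNonarchimedean v) (a : K) (m : ℕ) (x y z : K × K)
    (h : v (wd x y) < MM v a x y) (hD : 0 < MM v a x z) :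
    v (quo a (m + 1) (y.1 * z.2) (y.2 * z.1) (y.2 * z.2) - (y.2 / x.2) ^ m *
      quo a (m + 1) (x.1 * z.2) (x.2 * z.1) (x.2 * z.2)) <
      v (y.2 / x.2) ^ m * MM v a x z ^ m := by
  obtain ⟨hx, hy⟩ := snd_ne a h
  have h1 := (rel_iff a hx hy).1 h
  set X := x.1 / x.2 with hX
  set Y := y.1 / y.2 with hY
  set s := Real.sqrt (v a) with hs
  have h2 : v (Y - X) < max (v X) s := by
    have h3 : v (Y - X) = v (X - Y) := by rw [← neg_sub, AbsoluteValue.map_neg]
    have h4 : v Y ≤ max (v X) s := by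
      by_contra hc
      rw [not_le, max_lt_iff] at hc
      rw [← h3, v_sub_eq hv hc.1, lt_max_iff, lt_max_iff] at h1
      rcases h1 with (h1 | h1) | h1
      · exact absurd h1 (not_lt.2 hc.1.le)
      · exact lt_irrefl _ h1
      · exact absurd h1 (not_lt.2 hc.2.le)
    rw [h3]
    exact h1.trans_le (max_le (max_le (le_max_left _ _) h4) (le_max_right _ _))
  have hη : v ((Y - X) * (x.2 * z.2)) < MM v a x z := by
    by_cases hz : z.2 = 0
    · rw [hz]
      simpa using hD
    · have hq : 0 < v (x.2 * z.2) := v.pos (mul_ne_zero hx hz)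
      have h5 : max (v X) s * v (x.2 * z.2) ≤ MM v a x z := by
        rw [max_mul_of_nonneg _ _ hq.le]
        refine max_le ?_ (le3 a x z)
        rw [← map_mul]
        have h6 : X * (x.2 * z.2) = x.1 * z.2 := by
          rw [hX]
          field_simp
        rw [h6]
        exact le1 a x z
      rw [map_mul]
      exact (mul_lt_mul_of_pos_right h2 hq).trans_le h5
  have h7 := (v_quo_diff hv a (x.1 * z.2) (x.2 * z.1) (x.2 * z.2) ((Y - X) * (x.2 * z.2)) hD
    (le1 a x z) (le2 a x z) (le3 a x z) hη m).1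
  have h8 := (quo_smul a (y.2 / x.2) (x.1 * z.2 + (Y - X) * (x.2 * z.2)) (x.2 * z.1)
    (x.2 * z.2) m).1
  have e1 : y.2 / x.2 * (x.1 * z.2 + (Y - X) * (x.2 * z.2)) = y.1 * z.2 := by
    rw [hX, hY]
    field_simp
    ring
  have e2 : y.2 / x.2 * (x.2 * z.1) = y.2 * z.1 := by
    field_simp
  have e3 : y.2 / x.2 * (x.2 * z.2) = y.2 * z.2 := by
    field_simp
  rw [e1, e2, e3] at h8
  rw [h8, ← mul_sub, map_mul, map_pow]
  exact mul_lt_mul_of_pos_left h7 (pow_pos (v.pos (div_ne_zero hy hx)) m)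

end DicksonKernelAux

open DicksonKernelAux in
theorem dickson_kernel {K : Type} [Field K] (v : AbsoluteValue K ℝ) (hv : IsNonarchimedean v)
    (m : ℕ) (hm : 2 ≤ m) (h : DickUnit v m) (a : K) :
    Kernel v (fun x y => quo a m (x.1 * y.2) (x.2 * y.1) (x.2 * y.2)) (MM v a) (m - 1) := by
  have hnorm : ∀ x y : K × K, v (quo a m (x.1 * y.2) (x.2 * y.1) (x.2 * y.2)) =
      MM v a x y ^ (m - 1) := fun x y => h a _ _ _
  have hpos : ∀ x y : K × K, wd x y ≠ 0 → 0 < MM v a x y := fun x y hxy =>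
    (v.pos hxy).trans_le (wd_le hv a x y)
  refine ⟨by omega, ?_, hnorm, wd_le hv a, exch hv a, ?_, ?_⟩
  · intro x y
    rw [quo_comm, mul_comm x.2 y.1, mul_comm x.1 y.2, mul_comm x.2 y.2]
  · intro x y z h1 h2
    obtain ⟨hx, hy⟩ := snd_ne a h1
    obtain ⟨_, hz⟩ := snd_ne a h2
    rw [rel_iff a hx hz]
    rw [rel_iff a hx hy] at h1
    rw [rel_iff a hy hz] at h2
    exact aff_trans hv h1 h2
  · intro x y z w h1 hxz hxw hyz hyw
    obtain ⟨n, rfl⟩ : ∃ n, m = n + 1 := ⟨m - 1, by omega⟩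
    obtain ⟨hx, hy⟩ := snd_ne a h1
    have hz := quo_near hv a n x y z h1 (hpos x z hxz)
    have hw := quo_near hv a n x y w h1 (hpos x w hxw)
    have nz := hnorm x z
    have nw := hnorm x w
    have nyz := hnorm y z
    simp only [Nat.add_sub_cancel] at nz nw nyz
    have pz : 0 < MM v a x z ^ n := pow_pos (hpos x z hxz) n
    have pw : 0 < MM v a x w ^ n := pow_pos (hpos x w hxw) n
    have pl : 0 < v (y.2 / x.2) ^ n := pow_pos (v.pos (div_ne_zero hy hx)) n
    set Pxz := quo a (n + 1) (x.1 * z.2) (x.2 * z.1) (x.2 * z.2) with hPxz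
    set Pxw := quo a (n + 1) (x.1 * w.2) (x.2 * w.1) (x.2 * w.2) with hPxw
    set Pyz := quo a (n + 1) (y.1 * z.2) (y.2 * z.1) (y.2 * z.2) with hPyz
    set Pyw := quo a (n + 1) (y.1 * w.2) (y.2 * w.1) (y.2 * w.2) with hPyw
    set l := (y.2 / x.2) ^ n with hl
    have vl : v l = v (y.2 / x.2) ^ n := by rw [hl, map_pow]
    rw [← vl] at hz hw pl
    have hyz' : v Pyz = v l * MM v a x z ^ n := by
      have h3 : Pyz = (Pyz - l * Pxz) - (-(l * Pxz)) := by ring
      have h4 : v (-(l * Pxz)) = v l * MM v a x z ^ n := by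
        rw [AbsoluteValue.map_neg, map_mul, nz]
      rw [h3, v_sub_eq' hv (by rw [h4]; exact hz), h4]
    have h5 : Pxz * Pyw - Pxw * Pyz = Pxz * (Pyw - l * Pxw) - Pxw * (Pyz - l * Pxz) := by ring
    rw [h5, map_mul v Pxw Pyz, nw, hyz']
    apply v_sub_lt hv
    · rw [map_mul, nz]
      calc MM v a x z ^ n * v (Pyw - l * Pxw) < MM v a x z ^ n * (v l * MM v a x w ^ n) :=
            mul_lt_mul_of_pos_left hw pz
        _ = MM v a x w ^ n * (v l * MM v a x z ^ n) := by ring
    · rw [map_mul, nw]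
      exact mul_lt_mul_of_pos_left hz pw

theorem hom_eq {K : Type} [Field K] (a : K) (m : ℕ) (t : K) :
    hom a m (t, 1) = (Polynomial.dickson 1 a m).eval t := by
  have key : ∀ n : ℕ, hom a n (t, 1) = (Polynomial.dickson 1 a n).eval t ∧
      hom a (n + 1) (t, 1) = (Polynomial.dickson 1 a (n + 1)).eval t := by
    intro n
    induction n with
    | zero =>
      refine ⟨?_, ?_⟩
      · rw [Polynomial.dickson_zero]
        simp [hom]
        norm_num
      · rw [Polynomial.dickson_one]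
        simp [hom]
    | succ n ih =>
      refine ⟨ih.2, ?_⟩
      rw [Polynomial.dickson_add_two]
      simp only [hom, Polynomial.eval_sub, Polynomial.eval_mul, Polynomial.eval_X,
        Polynomial.eval_C]
      rw [ih.1, ih.2]
      ring
  exact (key m).1

theorem hom_infty {K : Type} [Field K] (a : K) (m : ℕ) (hm : 1 ≤ m) : hom a m (1, 0) = 1 := by
  have key : ∀ n : ℕ, hom a (n + 1) (1, 0) = 1 ∧ hom a (n + 2) (1, 0) = 1 := by
    intro n
    induction n with
    | zero => simp [hom]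
    | succ n ih =>
      refine ⟨ih.2, ?_⟩
      rw [hom]
      simp [ih.2]
  obtain ⟨n, rfl⟩ : ∃ n, m = n + 1 := ⟨m - 1, by omega⟩
  exact (key n).1

open DicksonKernelAux in
theorem dickson_isLoc {K : Type} [Field K] (v : AbsoluteValue K ℝ) (hv : IsNonarchimedean v)
    (m : ℕ) (hm : 2 ≤ m) (h : DickUnit v m) (a : K) :
    IsLoc v (OnePoint.map (fun x : K => (Polynomial.dickson 1 a m).eval x)) := by
  refine ⟨_, _, _, dickson_kernel v hv m hm h a, 1, fun _ => 1, one_ne_zero,
    fun _ => one_ne_zero, ?_⟩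
  have hvec : ∀ x : OnePoint K,
      vec (OnePoint.map (fun x : K => (Polynomial.dickson 1 a m).eval x) x) =
        (hom a m (vec x), (vec x).2 ^ m) := by
    intro x
    induction x using OnePoint.rec with
    | infty =>
      rw [OnePoint.map_infty]
      show ((1 : K), (0 : K)) = (hom a m (1, 0), (0 : K) ^ m)
      rw [hom_infty a m (by omega), zero_pow (by omega)]
    | coe t =>
      rw [OnePoint.map_some]
      show ((Polynomial.dickson 1 a m).eval t, (1 : K)) = (hom a m (t, 1), (1 : K) ^ m)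
      rw [hom_eq, one_pow]
  intro u w
  rw [hvec, hvec]
  generalize vec u = x
  generalize vec w = y
  have h1 := (sub_mul_quo a (x.1 * y.2) (x.2 * y.1) (x.2 * y.2) m).1
  have h2 := (hom_smul a y.2 x.1 x.2 m).1
  have h3 := (hom_smul a x.2 y.1 y.2 m).1
  have e1 : y.2 * x.1 = x.1 * y.2 := mul_comm _ _
  have e2 : y.2 * x.2 = x.2 * y.2 := mul_comm _ _
  rw [e1, e2] at h2
  simp only [wd]
  rw [h1, h2, h3]
  ring

end Pool.Agent.MP90787a.J
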