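import Mathlib
import Pool.Agent.Lib.MP_90787a_nt.J.Defs
import Pool.Agent.Lib.MP_90787a_nt.Places

/-!
# MP_90787a_nt, project INJ, module J15: finite places with their residue fields
-/

set_option autoImplicit false

namespace Pool.Agent.MP90787a.J

open NumberField IsDedekindDomain

namespace ExistsResAux

variable {K : Type} [Field K]

/-- The valuation ring of a nonarchimedean absolute value. -/
def valRing (v : AbsoluteValue K ℝ) (hv : IsNonarchimedean v) : Subring K where
  carrier := {x | v x ≤ 1}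
  mul_mem' := by
    intro a b ha hb
    simp only [Set.mem_ofPred_eq] at ha hb ⊢
    rw [map_mul]
    exact mul_le_one₀ ha (v.nonneg b) hb
  one_mem' := by
    simp only [Set.mem_ofPred_eq, map_one, le_refl]
  add_mem' := by
    intro a b ha hb
    simp only [Set.mem_ofPred_eq] at ha hb ⊢
    exact (hv a b).trans (max_le ha hb)
  zero_mem' := by
    simp only [Set.mem_ofPred_eq, map_zero, zero_le_one]
  neg_mem' := by
    intro a ha
    simp only [Set.mem_ofPred_eq] at ha ⊢
    rwa [AbsoluteValue.map_neg]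

theorem mem_valRing (v : AbsoluteValue K ℝ) (hv : IsNonarchimedean v) (x : K) :
    x ∈ valRing v hv ↔ v x ≤ 1 := Iff.rfl

theorem add_lt (v : AbsoluteValue K ℝ) (hv : IsNonarchimedean v) {x y : K} (hx : v x < 1)
    (hy : v y < 1) : v (x + y) < 1 := lt_of_le_of_lt (hv x y) (max_lt hx hy)

theorem sub_lt (v : AbsoluteValue K ℝ) (hv : IsNonarchimedean v) {x y : K} (hx : v x < 1)
    (hy : v y < 1) : v (x - y) < 1 := by
  rw [sub_eq_add_neg]
  exact add_lt v hv hx (by rwa [AbsoluteValue.map_neg])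

/-- The residue map of an absolute value on the fraction field of a ring whose elements are dense
in the valuation ring. -/
theorem exists_red (v : AbsoluteValue K ℝ) (hv : IsNonarchimedean v) {A : Type} [CommRing A]
    (g : A →+* K) (P : Ideal A) (F : Type) [Field F] (q : A →+* F) (hq : ∀ a, q a = 0 ↔ a ∈ P)
    (h1 : ∀ a, v (g a) ≤ 1) (h2 : ∀ a, v (g a) < 1 ↔ a ∈ P)
    (h3 : ∀ x, v x ≤ 1 → ∃ a, v (g a - x) < 1) : Nonempty (Res v F) := by
  classical
  have huniq : ∀ a b (x : K), v (g a - x) < 1 → v (g b - x) < 1 → q a = q b := by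
    intro a b x ha hb
    rw [← sub_eq_zero, ← map_sub, hq, ← h2, map_sub]
    have e : g a - g b = (g a - x) - (g b - x) := by ring
    rw [e]
    exact sub_lt v hv ha hb
  choose! c hc using h3
  refine ⟨{ O := valRing v hv
            mem := fun x => Iff.rfl
            red :=
              { toFun := fun x => q (c x)
                map_one' := ?_
                map_mul' := ?_
                map_zero' := ?_
                map_add' := ?_ }
            red_eq := ?_ }⟩
  · have h := huniq (c 1) 1 1 (hc 1 (by simp)) (by simp)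
    change q (c 1) = 1
    rw [h, map_one]
  · rintro ⟨x, hx⟩ ⟨y, hy⟩
    change q (c (x * y)) = q (c x) * q (c y)
    rw [← map_mul]
    apply huniq _ _ (x * y) (hc _ ?_)
    · rw [map_mul]
      have e : g (c x) * g (c y) - x * y = g (c x) * (g (c y) - y) + y * (g (c x) - x) := by ring
      rw [e]
      apply add_lt v hv
      · rw [map_mul]
        exact mul_lt_one_of_nonneg_of_lt_one_right (h1 _) (v.nonneg _) (hc y hy)
      · rw [map_mul]
        exact mul_lt_one_of_nonneg_of_lt_one_right hy (v.nonneg _) (hc x hx)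
    · exact (valRing v hv).mul_mem hx hy
  · have h := huniq (c 0) 0 0 (hc 0 (by simp)) (by simp)
    change q (c 0) = 0
    rw [h, map_zero]
  · rintro ⟨x, hx⟩ ⟨y, hy⟩
    change q (c (x + y)) = q (c x) + q (c y)
    rw [← map_add]
    apply huniq _ _ (x + y) (hc _ ?_)
    · rw [map_add]
      have e : g (c x) + g (c y) - (x + y) = (g (c x) - x) + (g (c y) - y) := by ring
      rw [e]
      exact add_lt v hv (hc x hx) (hc y hy)
    · exact (valRing v hv).add_mem hx hy
  · rintro ⟨x, hx⟩
    change q (c x) = 0 ↔ v x < 1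
    rw [hq, ← h2]
    constructor
    · intro h
      have e : x = g (c x) - (g (c x) - x) := by ring
      rw [e]
      exact sub_lt v hv h (hc x hx)
    · intro h
      have e : g (c x) = (g (c x) - x) + x := by ring
      rw [e]
      exact add_lt v hv (hc x hx) h

/-- The absolute values of the prime ideals of a number field extend to an algebraically closed
field. -/
theorem hasExt_adicAbv {K : Type} [Field K] [NumberField K] (w : HeightOneSpectrum (𝓞 K)) :
    HasExt (NumberField.HeightOneSpectrum.adicAbv K w) := by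
  obtain ⟨L, nL, uL, aL, ι, hι⟩ := Pool.Agent.UBC90787a.exists_ultra_field (FinitePlace.mk w)
  let w' : AbsoluteValue L ℝ :=
    { toFun := fun x => ‖x‖
      map_mul' := norm_mul
      nonneg' := norm_nonneg
      eq_zero' := fun x => norm_eq_zero
      add_le' := norm_add_le }
  refine ⟨L, nL.toField, aL, w', ι, ?_, ?_⟩
  · intro x y
    exact IsUltrametricDist.norm_add_le_max x y
  · intro x
    have h1 : w' (ι x) = ‖ι x‖ := rfl
    rw [h1, hι x, FinitePlace.mk_apply, FinitePlace.norm_embedding]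

end ExistsResAux

open ExistsResAux

theorem exists_res (K : Type) [Field K] [NumberField K] (p : ℕ) (hp : p.Prime) :
    ∃ (v : AbsoluteValue K ℝ) (F : Type) (_ : Field F) (_ : Fintype F) (_ : Res v F) (f : ℕ),
      IsNonarchimedean v ∧ v (p : K) < 1 ∧ Fintype.card F = p ^ f ∧ 1 ≤ f ∧
        f ≤ Module.finrank ℚ K ∧ HasExt v := by
  classical
  -- a prime ideal over `p`
  have hnorm : Ideal.absNorm (Ideal.span {(p : 𝓞 K)}) = p ^ Module.finrank ℚ K := by
    rw [Ideal.absNorm_span_singleton]
    have e : (p : 𝓞 K) = algebraMap ℤ (𝓞 K) (p : ℤ) := by simp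
    rw [e, Algebra.norm_algebraMap, RingOfIntegers.rank, Int.natAbs_pow, Int.natAbs_natCast]
  have hD : 0 < Module.finrank ℚ K := Module.finrank_pos
  have htop : Ideal.span {(p : 𝓞 K)} ≠ ⊤ := by
    intro h
    rw [h, Ideal.absNorm_top] at hnorm
    have h2 : 1 < p ^ Module.finrank ℚ K := Nat.one_lt_pow hD.ne' hp.one_lt
    omega
  obtain ⟨P, hP, hPle⟩ := Ideal.exists_le_maximal _ htop
  have hpP : (p : 𝓞 K) ∈ P := hPle (Ideal.mem_span_singleton_self _)
  have hp0 : (p : 𝓞 K) ≠ 0 := by exact_mod_cast hp.ne_zero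
  have hPbot : P ≠ ⊥ := by
    rintro rfl
    exact hp0 hpP
  let w : HeightOneSpectrum (𝓞 K) := ⟨P, hP.isPrime, hPbot⟩
  have hb := NumberField.HeightOneSpectrum.one_lt_absNorm_nnreal w
  let v : AbsoluteValue K ℝ := w.adicAbv hb
  have hv : IsNonarchimedean v := w.isNonarchimedean_adicAbv hb
  letI : Field (𝓞 K ⧸ P) := Ideal.Quotient.field P
  letI : Finite (𝓞 K ⧸ P) := Ideal.finiteQuotientOfFreeOfNeBot P hPbot
  letI : Fintype (𝓞 K ⧸ P) := Fintype.ofFinite _
  have hres : Nonempty (Res v (𝓞 K ⧸ P)) := by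
    refine exists_red v hv (algebraMap (𝓞 K) K) P (𝓞 K ⧸ P) (Ideal.Quotient.mk P)
      (fun a => Ideal.Quotient.eq_zero_iff_mem) (fun a => w.adicAbv_coe_le_one hb a)
      (fun a => w.adicAbv_coe_lt_one_iff hb a) ?_
    intro x hx
    have hx' : w.valuation K x ≤ 1 := by
      have h1 : (WithZeroMulInt.toNNReal (ne_zero_of_lt hb) (w.valuation K x) : ℝ) ≤ 1 := hx
      rw [NNReal.coe_le_one] at h1
      exact (WithZeroMulInt.toNNReal_le_one_iff hb).mp h1
    obtain ⟨a, ha⟩ := HeightOneSpectrum.exists_valuation_sub_lt_of_integer w hx' 1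
    refine ⟨a, ?_⟩
    change (WithZeroMulInt.toNNReal (ne_zero_of_lt hb)
      (w.valuation K (algebraMap (𝓞 K) K a - x)) : ℝ) < 1
    rw [NNReal.coe_lt_one]
    exact (WithZeroMulInt.toNNReal_lt_one_iff hb).mpr ha
  obtain ⟨R⟩ := hres
  have hpF : ((p : ℕ) : 𝓞 K ⧸ P) = 0 := by
    have h1 : Ideal.Quotient.mk P (p : 𝓞 K) = 0 := Ideal.Quotient.eq_zero_iff_mem.mpr hpP
    rwa [map_natCast] at h1
  have hchar : CharP (𝓞 K ⧸ P) p := by
    have h1 : ringChar (𝓞 K ⧸ P) ∣ p := ringChar.dvd hpF
    rcases (Nat.dvd_prime hp).mp h1 with h2 | h2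
    · exact absurd h2 (CharP.ringChar_ne_one)
    · exact ringChar.of_eq h2
  obtain ⟨n, _, hn⟩ := FiniteField.card (𝓞 K ⧸ P) p
  refine ⟨v, 𝓞 K ⧸ P, inferInstance, inferInstance, R, n, hv, ?_, hn, n.2, ?_, ?_⟩
  · have h1 := (w.adicAbv_coe_lt_one_iff (K := K) hb (p : 𝓞 K)).mpr hpP
    have e : algebraMap (𝓞 K) K (p : 𝓞 K) = (p : K) := by simp
    rw [e] at h1
    exact h1
  · have h1 : Ideal.absNorm P ∣ p ^ Module.finrank ℚ K := by
      rw [← hnorm]
      exact Ideal.absNorm_dvd_absNorm_of_le hPle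
    have h2 : Ideal.absNorm P = p ^ (n : ℕ) := by
      rw [← hn, Ideal.absNorm_apply, Submodule.cardQuot_apply, Nat.card_eq_fintype_card]
    rw [h2] at h1
    exact (Nat.pow_dvd_pow_iff_le_right hp.one_lt).mp h1
  · exact hasExt_adicAbv w

end Pool.Agent.MP90787a.J
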