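import Mathlib
import Pool.Agent.Lib.MP_90787a_nt.J.Defs
import Pool.Agent.Lib.MP_90787a_nt.J.Defs2

/-!
# MP_90787a_nt, project INJ, module J11: power maps
-/

set_option autoImplicit false

namespace Pool.Agent.MP90787a.J

namespace PowerKernelAux

variable {K : Type} [Field K] {v : AbsoluteValue K ℝ}

theorem v_sub_le (hv : IsNonarchimedean v) (a b : K) : v (a - b) ≤ max (v a) (v b) := by
  have h := hv a (-b)
  rwa [← sub_eq_add_neg, v.map_neg] at h

/-- the dominant term -/
theorem v_sub_eq (hv : IsNonarchimedean v) (a b : K) (h : v b < v a) : v (a - b) = v a := by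
  refine le_antisymm ((v_sub_le hv a b).trans (max_eq_left h.le).le) ?_
  have h1 := hv (a - b) b
  rw [sub_add_cancel] at h1
  rcases le_max_iff.1 h1 with h2 | h2
  · exact h2
  · exact absurd h2 (not_le.2 h)

theorem v_sub_eq' (hv : IsNonarchimedean v) (a b : K) (h : v a < v b) : v (a - b) = v b := by
  rw [v.map_sub]
  exact v_sub_eq hv b a h

/-- a nontrivial cancellation -/
theorem eq_of_lt (hv : IsNonarchimedean v) (a b : K) (h : v (a - b) < max (v a) (v b)) :
    v a = v b ∧ 0 < v a := by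
  rcases lt_trichotomy (v a) (v b) with h1 | h1 | h1
  · rw [v_sub_eq' hv a b h1, max_eq_right h1.le] at h
    exact absurd h (lt_irrefl _)
  · refine ⟨h1, ?_⟩
    rw [← h1, max_self] at h
    exact (v.nonneg _).trans_lt h
  · rw [v_sub_eq hv a b h1, max_eq_left h1.le] at h
    exact absurd h (lt_irrefl _)

theorem v_sum_le (hv : IsNonarchimedean v) (s : Finset ℕ) (f : ℕ → K) (C : ℝ) (hC : 0 ≤ C)
    (h : ∀ i ∈ s, v (f i) ≤ C) : v (∑ i ∈ s, f i) ≤ C := by
  classical
  induction s using Finset.induction_on with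
  | empty => simpa using hC
  | insert i s hi ih =>
    rw [Finset.sum_insert hi]
    refine (hv _ _).trans (max_le (h i (Finset.mem_insert_self i s)) ?_)
    exact ih fun j hj => h j (Finset.mem_insert_of_mem hj)

theorem v_one_add_pow (hv : IsNonarchimedean v) (e : K) (he : v e < 1) (i : ℕ) :
    v (1 + e) ≤ 1 ∧ v ((1 + e) ^ i - 1) ≤ v e := by
  have h1 : v (1 + e) ≤ 1 := (hv 1 e).trans (max_le (by rw [v.map_one]) he.le)
  refine ⟨h1, ?_⟩
  induction i with
  | zero => simp
  | succ i ih =>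
    have h2 : (1 + e) ^ (i + 1) - 1 = ((1 + e) ^ i - 1) + e * (1 + e) ^ i := by ring
    rw [h2]
    refine (hv _ _).trans (max_le ih ?_)
    rw [v.map_mul, v.map_pow]
    exact mul_le_of_le_one_right (v.nonneg _) (pow_le_one₀ (v.nonneg _) h1)

/-- the monomials of `powP` -/
theorem v_mono_le (m : ℕ) (a b : K) (i : ℕ) (hi : i ∈ Finset.range m) :
    v (a ^ i * b ^ (m - 1 - i)) ≤ max (v a) (v b) ^ (m - 1) := by
  have h1 : m - 1 = i + (m - 1 - i) := by
    have := Finset.mem_range.1 hi
    omega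
  rw [v.map_mul, v.map_pow, v.map_pow]
  conv_rhs => rw [h1, pow_add]
  exact mul_le_mul (pow_le_pow_left₀ (v.nonneg _) (le_max_left _ _) _)
    (pow_le_pow_left₀ (v.nonneg _) (le_max_right _ _) _) (pow_nonneg (v.nonneg _) _)
    (pow_nonneg ((v.nonneg _).trans (le_max_left _ _)) _)

theorem powP_le (hv : IsNonarchimedean v) (m : ℕ) (x z : K × K) :
    v (powP m x z) ≤ powM v x z ^ (m - 1) := by
  unfold powP powM
  exact v_sum_le hv _ _ _ (pow_nonneg ((v.nonneg _).trans (le_max_left _ _)) _)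
    fun i hi => v_mono_le m _ _ i hi

/-- the effect of a small change of the first argument -/
theorem powP_change (hv : IsNonarchimedean v) (m : ℕ) (x : K × K) (lam e : K) (he : v e < 1)
    (z : K × K) :
    v (powP m (lam * x.1 * (1 + e), lam * x.2) z - lam ^ (m - 1) * powP m x z) ≤
      v lam ^ (m - 1) * (v e * powM v x z ^ (m - 1)) := by
  have h1 : powP m (lam * x.1 * (1 + e), lam * x.2) z - lam ^ (m - 1) * powP m x z =
      lam ^ (m - 1) * ∑ i ∈ Finset.range m,
        ((1 + e) ^ i - 1) * ((x.1 * z.2) ^ i * (x.2 * z.1) ^ (m - 1 - i)) := by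
    unfold powP
    rw [Finset.mul_sum, Finset.mul_sum, ← Finset.sum_sub_distrib]
    refine Finset.sum_congr rfl fun i hi => ?_
    have h2 : m - 1 = i + (m - 1 - i) := by
      have := Finset.mem_range.1 hi
      omega
    obtain ⟨j, hj⟩ : ∃ j, j = m - 1 - i := ⟨_, rfl⟩
    rw [← hj] at h2 ⊢
    have h3 : (lam * x.1 * (1 + e) * z.2) ^ i = lam ^ i * (1 + e) ^ i * (x.1 * z.2) ^ i := by
      rw [← mul_pow, ← mul_pow]
      congr 1
      ring
    have h4 : (lam * x.2 * z.1) ^ j = lam ^ j * (x.2 * z.1) ^ j := by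
      rw [← mul_pow]
      congr 1
      ring
    rw [h2, pow_add, h3, h4]
    ring
  rw [h1, v.map_mul, v.map_pow]
  refine mul_le_mul_of_nonneg_left ?_ (pow_nonneg (v.nonneg _) _)
  refine v_sum_le hv _ _ _ (mul_nonneg (v.nonneg _)
    (pow_nonneg ((v.nonneg _).trans (le_max_left _ _)) _)) fun i hi => ?_
  rw [v.map_mul]
  exact mul_le_mul (v_one_add_pow hv e he i).2 (v_mono_le m _ _ i hi) (v.nonneg _) (v.nonneg _)

theorem geom_eq (m : ℕ) (a b : K) (hb : b ≠ 0) :
    ∑ i ∈ Finset.range m, a ^ i * b ^ (m - 1 - i) =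
      b ^ (m - 1) * ∑ i ∈ Finset.range m, (a / b) ^ i := by
  rw [Finset.mul_sum]
  refine Finset.sum_congr rfl fun i hi => ?_
  have h2 : m - 1 = i + (m - 1 - i) := by
    have := Finset.mem_range.1 hi
    omega
  obtain ⟨j, hj⟩ : ∃ j, j = m - 1 - i := ⟨_, rfl⟩
  rw [← hj] at h2 ⊢
  rw [h2, pow_add, div_pow]
  field_simp

theorem sum_symm (m : ℕ) (a b : K) :
    ∑ i ∈ Finset.range m, a ^ i * b ^ (m - 1 - i) =
      ∑ i ∈ Finset.range m, b ^ i * a ^ (m - 1 - i) := by
  rw [← Finset.sum_range_reflect]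
  refine Finset.sum_congr rfl fun i hi => ?_
  have h2 : m - 1 - (m - 1 - i) = i := by
    have := Finset.mem_range.1 hi
    omega
  rw [h2, mul_comm]

theorem powP_symm (m : ℕ) (x y : K × K) : powP m x y = powP m y x := by
  unfold powP
  rw [sum_symm]
  refine Finset.sum_congr rfl fun i _ => ?_
  rw [mul_comm x.2 y.1, mul_comm x.1 y.2]

theorem norm_aux (m : ℕ) (hm : 2 ≤ m) (h : GeomUnit v m) (a b : K) (hab : v a ≤ v b) :
    v (∑ i ∈ Finset.range m, a ^ i * b ^ (m - 1 - i)) = max (v a) (v b) ^ (m - 1) := by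
  rw [max_eq_right hab]
  by_cases hb : b = 0
  · have ha : a = 0 := by
      rw [hb, v.map_zero] at hab
      exact v.eq_zero.1 (le_antisymm hab (v.nonneg _))
    rw [ha, hb, v.map_zero]
    have h1 : ∑ i ∈ Finset.range m, (0 : K) ^ i * 0 ^ (m - 1 - i) = 0 := by
      refine Finset.sum_eq_zero fun i hi => ?_
      rw [← pow_add]
      refine zero_pow ?_
      have := Finset.mem_range.1 hi
      omega
    rw [h1, v.map_zero, zero_pow (by omega)]
  · rw [geom_eq m a b hb, v.map_mul, v.map_pow, h, mul_one]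
    rw [map_div₀]
    exact div_le_one_of_le₀ hab (v.nonneg _)

theorem powP_norm (m : ℕ) (hm : 2 ≤ m) (h : GeomUnit v m) (x y : K × K) :
    v (powP m x y) = powM v x y ^ (m - 1) := by
  unfold powP powM
  rcases le_total (v (x.1 * y.2)) (v (x.2 * y.1)) with h1 | h1
  · exact norm_aux m hm h _ _ h1
  · rw [sum_symm, max_comm]
    exact norm_aux m hm h _ _ h1

theorem vec_power (m : ℕ) (hm : 2 ≤ m) (x : OnePoint K) :
    vec (OnePoint.map (fun x : K => x ^ m) x) = ((vec x).1 ^ m, (vec x).2 ^ m) := by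
  cases x with
  | infty =>
    change ((1 : K), (0 : K)) = (1 ^ m, 0 ^ m)
    rw [one_pow, zero_pow (by omega)]
  | coe t =>
    change (t ^ m, (1 : K)) = (t ^ m, 1 ^ m)
    rw [one_pow]

end PowerKernelAux

open PowerKernelAux

theorem powM_le {K : Type} [Field K] (v : AbsoluteValue K ℝ) (hv : IsNonarchimedean v)
    (x y : K × K) : v (wd x y) ≤ powM v x y :=
  v_sub_le hv _ _

theorem powM_exch {K : Type} [Field K] (v : AbsoluteValue K ℝ) (hv : IsNonarchimedean v)
    (x y z w : K × K) (h : v (wd x w) * v (wd y z) ≤ v (wd x y) * v (wd z w)) :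
    powM v x w * powM v y z ≤ powM v x y * powM v z w := by
  have hR : v (wd x y) * v (wd z w) ≤ powM v x y * powM v z w :=
    mul_le_mul (powM_le v hv x y) (powM_le v hv z w) (v.nonneg _)
      ((v.nonneg _).trans (powM_le v hv x y))
  have hR0 : 0 ≤ powM v x y := (v.nonneg _).trans (powM_le v hv x y)
  have hR1 : 0 ≤ powM v z w := (v.nonneg _).trans (powM_le v hv z w)
  have e1 : v (x.1 * w.2) * v (y.2 * z.1) ≤ powM v x y * powM v z w := by
    have h1 : v (x.1 * w.2) * v (y.2 * z.1) = v (x.1 * y.2) * v (z.1 * w.2) := by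
      simp only [map_mul]
      ring
    rw [h1]
    exact mul_le_mul (le_max_left _ _) (le_max_left _ _) (v.nonneg _) hR0
  have e2 : v (x.2 * w.1) * v (y.1 * z.2) ≤ powM v x y * powM v z w := by
    have h1 : v (x.2 * w.1) * v (y.1 * z.2) = v (x.2 * y.1) * v (z.2 * w.1) := by
      simp only [map_mul]
      ring
    rw [h1]
    exact mul_le_mul (le_max_right _ _) (le_max_right _ _) (v.nonneg _) hR0
  have e3 : v (x.1 * w.2) * v (y.1 * z.2) ≤ powM v x y * powM v z w := by
    by_contra hc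
    rw [not_le] at hc
    have h1 : v (y.2 * z.1) < v (y.1 * z.2) :=
      lt_of_mul_lt_mul_left (e1.trans_lt hc) (v.nonneg _)
    have h2 : v (x.2 * w.1) < v (x.1 * w.2) :=
      lt_of_mul_lt_mul_right (e2.trans_lt hc) (v.nonneg _)
    have h3 : v (wd y z) = v (y.1 * z.2) := v_sub_eq hv _ _ h1
    have h4 : v (wd x w) = v (x.1 * w.2) := v_sub_eq hv _ _ h2
    rw [h3, h4] at h
    exact absurd (h.trans hR) (not_le.2 hc)
  have e4 : v (x.2 * w.1) * v (y.2 * z.1) ≤ powM v x y * powM v z w := by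
    by_contra hc
    rw [not_le] at hc
    have h1 : v (y.1 * z.2) < v (y.2 * z.1) :=
      lt_of_mul_lt_mul_left (e2.trans_lt hc) (v.nonneg _)
    have h2 : v (x.1 * w.2) < v (x.2 * w.1) :=
      lt_of_mul_lt_mul_right (e1.trans_lt hc) (v.nonneg _)
    have h3 : v (wd y z) = v (y.2 * z.1) := v_sub_eq' hv _ _ h1
    have h4 : v (wd x w) = v (x.2 * w.1) := v_sub_eq' hv _ _ h2
    rw [h3, h4] at h
    exact absurd (h.trans hR) (not_le.2 hc)
  change max (v (x.1 * w.2)) (v (x.2 * w.1)) * max (v (y.1 * z.2)) (v (y.2 * z.1)) ≤ _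
  rcases max_choice (v (x.1 * w.2)) (v (x.2 * w.1)) with h1 | h1 <;>
    rcases max_choice (v (y.1 * z.2)) (v (y.2 * z.1)) with h2 | h2 <;>
    rw [h1, h2] <;> assumption

theorem powM_trans {K : Type} [Field K] (v : AbsoluteValue K ℝ) (hv : IsNonarchimedean v)
    (x y z : K × K) (h : v (wd x y) < powM v x y) (h' : v (wd y z) < powM v y z) :
    v (wd x z) < powM v x z := by
  obtain ⟨h1, h2⟩ := eq_of_lt hv _ _ h
  obtain ⟨h3, h4⟩ := eq_of_lt hv _ _ h'
  have ha : v (wd x y) < v (x.1 * y.2) := by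
    have h5 : powM v x y = v (x.1 * y.2) := by
      unfold powM
      rw [← h1, max_self]
    rwa [h5] at h
  have hb : v (wd y z) < v (y.2 * z.1) := by
    have h5 : powM v y z = v (y.2 * z.1) := by
      unfold powM
      rw [h3, max_self]
    rwa [h5] at h'
  have hb0 : 0 < v (y.2 * z.1) := h3 ▸ h4
  rw [h1] at h2
  rw [v.map_mul] at h2 h4 hb0
  have hx2 : 0 < v x.2 := pos_of_mul_pos_left h2 (v.nonneg _)
  have hy2 : 0 < v y.2 := pos_of_mul_pos_left hb0 (v.nonneg _)
  have hz2 : 0 < v z.2 := pos_of_mul_pos_right h4 (v.nonneg _)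
  have key : y.2 * wd x z = z.2 * wd x y + x.2 * wd y z := by
    unfold wd
    ring
  have h5 : v y.2 * v (wd x z) < v y.2 * powM v x z := by
    rw [← v.map_mul, key]
    refine (hv _ _).trans_lt (max_lt ?_ ?_)
    · rw [v.map_mul]
      calc v z.2 * v (wd x y) < v z.2 * v (x.1 * y.2) := mul_lt_mul_of_pos_left ha hz2
        _ = v y.2 * v (x.1 * z.2) := by
          simp only [map_mul]
          ring
        _ ≤ v y.2 * powM v x z := mul_le_mul_of_nonneg_left (le_max_left _ _) (v.nonneg _)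
    · rw [v.map_mul]
      calc v x.2 * v (wd y z) < v x.2 * v (y.2 * z.1) := mul_lt_mul_of_pos_left hb hx2
        _ = v y.2 * v (x.2 * z.1) := by
          simp only [map_mul]
          ring
        _ ≤ v y.2 * powM v x z := mul_le_mul_of_nonneg_left (le_max_right _ _) (v.nonneg _)
  exact lt_of_mul_lt_mul_left h5 (v.nonneg _)

theorem powP_cong {K : Type} [Field K] (v : AbsoluteValue K ℝ) (hv : IsNonarchimedean v) (m : ℕ)
    (hm : 2 ≤ m) (x y z w : K × K) (h : v (wd x y) < powM v x y)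
    (h1 : v (powP m x w) = powM v x w ^ (m - 1)) (h2 : v (powP m y z) = powM v y z ^ (m - 1))
    (hxz : wd x z ≠ 0) (hxw : wd x w ≠ 0) (hyz : wd y z ≠ 0) (hyw : wd y w ≠ 0) :
    v (powP m x z * powP m y w - powP m x w * powP m y z) < v (powP m x w * powP m y z) := by
  obtain ⟨h3, h4⟩ := eq_of_lt hv _ _ h
  have h5 : 0 < v (x.2 * y.1) := h3 ▸ h4
  have hx1 : x.1 ≠ 0 := fun h0 => by
    rw [h0, zero_mul, v.map_zero] at h4
    exact lt_irrefl _ h4
  have hy2 : y.2 ≠ 0 := fun h0 => by
    rw [h0, mul_zero, v.map_zero] at h4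
    exact lt_irrefl _ h4
  have hx2 : x.2 ≠ 0 := fun h0 => by
    rw [h0, zero_mul, v.map_zero] at h5
    exact lt_irrefl _ h5
  have hy1 : y.1 ≠ 0 := fun h0 => by
    rw [h0, mul_zero, v.map_zero] at h5
    exact lt_irrefl _ h5
  obtain ⟨lam, hlam⟩ : ∃ lam, lam = y.2 / x.2 := ⟨_, rfl⟩
  obtain ⟨e, he⟩ : ∃ e, e = - wd x y / (x.1 * y.2) := ⟨_, rfl⟩
  have hlam0 : lam ≠ 0 := by
    rw [hlam]
    exact div_ne_zero hy2 hx2
  have hy : y = (lam * x.1 * (1 + e), lam * x.2) := by
    refine Prod.ext ?_ ?_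
    · change y.1 = lam * x.1 * (1 + e)
      rw [he, hlam, wd]
      field_simp
      ring
    · change y.2 = lam * x.2
      rw [hlam]
      field_simp
  have hve : v e < 1 := by
    rw [he, map_div₀, v.map_neg]
    refine (div_lt_one h4).2 ?_
    have h6 : powM v x y = v (x.1 * y.2) := by
      unfold powM
      rw [← h3, max_self]
    rwa [h6] at h
  have hvl : 0 < v lam := v.pos hlam0
  have hv1 : v (1 + e) = 1 := by
    have h6 := v_sub_eq hv (1 : K) (-e) (by rw [v.map_neg, v.map_one]; exact hve)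
    rwa [sub_neg_eq_add, v.map_one] at h6
  -- sizes
  have hDz : 0 < powM v x z := (v.pos hxz).trans_le (powM_le v hv x z)
  have hDw : 0 < powM v x w := (v.pos hxw).trans_le (powM_le v hv x w)
  have hMz : powM v y z = v lam * powM v x z := by
    unfold powM
    rw [mul_max_of_nonneg _ _ (v.nonneg _)]
    rw [hy]
    simp only [map_mul, hv1]
    congr 1 <;> ring
  have hch : ∀ z : K × K, v (powP m y z - lam ^ (m - 1) * powP m x z) ≤
      v lam ^ (m - 1) * (v e * powM v x z ^ (m - 1)) := by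
    intro z
    have h6 := powP_change hv m x lam e hve z
    rwa [← hy] at h6
  have hlt : ∀ z : K × K, 0 < powM v x z →
      v (powP m y z - lam ^ (m - 1) * powP m x z) < v lam ^ (m - 1) * powM v x z ^ (m - 1) := by
    intro z hz
    refine (hch z).trans_lt (mul_lt_mul_of_pos_left ?_ (pow_pos hvl _))
    exact mul_lt_of_lt_one_left (pow_pos hz _) hve
  have key : powP m x z * powP m y w - powP m x w * powP m y z =
      powP m x z * (powP m y w - lam ^ (m - 1) * powP m x w) -
        powP m x w * (powP m y z - lam ^ (m - 1) * powP m x z) := by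
    ring
  rw [key, v.map_mul (powP m x w) (powP m y z), h1, h2, hMz, mul_pow]
  refine (v_sub_le hv _ _).trans_lt (max_lt ?_ ?_)
  · rw [v.map_mul]
    calc v (powP m x z) * v (powP m y w - lam ^ (m - 1) * powP m x w)
        ≤ powM v x z ^ (m - 1) * v (powP m y w - lam ^ (m - 1) * powP m x w) :=
          mul_le_mul_of_nonneg_right (powP_le hv m x z) (v.nonneg _)
      _ < powM v x z ^ (m - 1) * (v lam ^ (m - 1) * powM v x w ^ (m - 1)) :=
          mul_lt_mul_of_pos_left (hlt w hDw) (pow_pos hDz _)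
      _ = powM v x w ^ (m - 1) * (v lam ^ (m - 1) * powM v x z ^ (m - 1)) := by ring
  · rw [v.map_mul]
    calc v (powP m x w) * v (powP m y z - lam ^ (m - 1) * powP m x z)
        ≤ powM v x w ^ (m - 1) * v (powP m y z - lam ^ (m - 1) * powP m x z) :=
          mul_le_mul_of_nonneg_right (powP_le hv m x w) (v.nonneg _)
      _ < powM v x w ^ (m - 1) * (v lam ^ (m - 1) * powM v x z ^ (m - 1)) :=
          mul_lt_mul_of_pos_left (hlt z hDz) (pow_pos hDw _)

theorem power_isLoc {K : Type} [Field K] (v : AbsoluteValue K ℝ) (hv : IsNonarchimedean v)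
    (m : ℕ) (hm : 2 ≤ m) (h : GeomUnit v m) :
    IsLoc v (OnePoint.map (fun x : K => x ^ m)) := by
  refine ⟨powP m, powM v, m - 1, ?_, 1, fun _ => 1, one_ne_zero, fun _ => one_ne_zero, ?_⟩
  · exact
      { he := by omega
        symm := powP_symm m
        norm := powP_norm m hm h
        le := powM_le v hv
        exch := powM_exch v hv
        trans := powM_trans v hv
        cong := fun x y z w h0 h1 h2 h3 h4 => powP_cong v hv m hm x y z w h0
          (powP_norm m hm h x w) (powP_norm m hm h y z) h1 h2 h3 h4 }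
  · intro x y
    rw [vec_power m hm, vec_power m hm]
    unfold wd powP
    rw [one_mul, one_mul, one_mul, mul_comm ((vec x).1 * (vec y).2 - (vec x).2 * (vec y).1),
      geom_sum₂_mul, mul_pow, mul_pow]

end Pool.Agent.MP90787a.J
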