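import Mathlib
import Pool.Agent.Lib.MP_90787a_nt.J.Defs
import Pool.Agent.Lib.MP_90787a_nt.J.Defs2
import Pool.Agent.Lib.MP_90787a_nt.J.PowerKernel

/-!
# MP_90787a_nt, project INJ, module J22: Redei functions
-/

set_option autoImplicit false

namespace Pool.Agent.MP90787a.J

namespace RedeiKernelAux

variable {K : Type} [Field K]

/-- the sums `A ^ n + A ^ (n - 1) B + ... + B ^ n` in terms of `A + B` and `A B` -/
theorem geo (A B : K) (n : ℕ) :
    ∑ j ∈ Finset.range (n + 1), A ^ j * B ^ (n - j) = sec (A * B) n (A + B) := by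
  have hrec : ∀ n : ℕ, ∑ j ∈ Finset.range (n + 1 + 1), A ^ j * B ^ (n + 1 - j) =
      A * (∑ j ∈ Finset.range (n + 1), A ^ j * B ^ (n - j)) + B ^ (n + 1) := by
    intro n
    rw [Finset.sum_range_succ' _ (n + 1), Finset.mul_sum]
    congr 1
    · refine Finset.sum_congr rfl fun j _ => ?_
      have h : n + 1 - (j + 1) = n - j := by omega
      rw [h, pow_succ]
      ring
    · simp
  induction n using Nat.strong_induction_on with
  | _ n ih =>
    match n, ih with
    | 0, _ => simp [sec]
    | 1, _ => simp [sec, Finset.sum_range_succ, add_comm]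
    | n + 2, ih =>
      rw [hrec (n + 1)]
      have h1 := ih (n + 1) (by omega)
      have h2 := ih n (by omega)
      have h3 := hrec n
      rw [sec, ← h1, ← h2]
      rw [h3]
      ring

/-- the new coordinates -/
def nu {L : Type} [Field L] (i : K →+* L) (s : L) (x : K × K) : L × L :=
  (i x.1 + i x.2 * s, i x.1 - i x.2 * s)

/-- `x₁ y₁ - α x₂ y₂`, times two -/
def SS (α : K) (x y : K × K) : K := 2 * (x.1 * y.1 - α * (x.2 * y.2))

/-- the product of the norms -/
def NN (α : K) (x y : K × K) : K :=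
  (x.1 ^ 2 - α * x.2 ^ 2) * (y.1 ^ 2 - α * y.2 ^ 2)

variable {L : Type} [Field L] (i : K →+* L) (s : L) {α : K}

theorem wd_nu (x y : K × K) : wd (nu i s x) (nu i s y) = (-2 * s) * i (wd x y) := by
  unfold wd nu
  rw [map_sub, map_mul, map_mul]
  ring

theorem add_nu (hs : s ^ 2 = i α) (x y : K × K) :
    (nu i s x).1 * (nu i s y).2 + (nu i s x).2 * (nu i s y).1 = i (SS α x y) := by
  unfold SS nu
  simp only [map_sub, map_mul, map_ofNat]
  rw [← hs]
  ring

theorem mul_nu (hs : s ^ 2 = i α) (x y : K × K) :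
    ((nu i s x).1 * (nu i s y).2) * ((nu i s x).2 * (nu i s y).1) = i (NN α x y) := by
  unfold NN nu
  simp only [map_sub, map_mul, map_pow]
  rw [← hs]
  ring

theorem map_sec (N S : K) (n : ℕ) : i (sec N n S) = sec (i N) n (i S) := by
  induction n using Nat.strong_induction_on with
  | _ n ih =>
    match n, ih with
    | 0, _ => simp [sec]
    | 1, _ => simp [sec]
    | n + 2, ih =>
      rw [sec, sec, map_sub, map_mul, map_mul, ih (n + 1) (by omega), ih n (by omega)]

theorem powP_nu (hs : s ^ 2 = i α) (m : ℕ) (hm : 1 ≤ m) (x y : K × K) :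
    powP m (nu i s x) (nu i s y) = i (sec (NN α x y) (m - 1) (SS α x y)) := by
  rw [map_sec, ← add_nu i s hs, ← mul_nu i s hs, ← geo]
  unfold powP
  obtain ⟨k, rfl⟩ : ∃ k, m = k + 1 := ⟨m - 1, by omega⟩
  rfl

theorem nu_redei (hs : s ^ 2 = i α) (n : ℕ) (x : K × K) :
    nu i s (redei α n x) = ((nu i s x).1 ^ n, (nu i s x).2 ^ n) := by
  induction n with
  | zero =>
    unfold nu
    simp [redei]
  | succ n ih =>
    have h1 : (nu i s (redei α n x)).1 = (nu i s x).1 ^ n := by rw [ih]
    have h2 : (nu i s (redei α n x)).2 = (nu i s x).2 ^ n := by rw [ih]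
    have h3 : (nu i s (redei α (n + 1) x)).1 = (nu i s x).1 * (nu i s (redei α n x)).1 := by
      unfold nu
      simp only [redei, map_add, map_mul]
      rw [← hs]
      ring
    have h4 : (nu i s (redei α (n + 1) x)).2 = (nu i s x).2 * (nu i s (redei α n x)).2 := by
      unfold nu
      simp only [redei, map_add, map_mul]
      rw [← hs]
      ring
    refine Prod.ext ?_ ?_
    · change _ = (nu i s x).1 ^ (n + 1)
      rw [h3, h1, pow_succ']
    · change _ = (nu i s x).2 ^ (n + 1)
      rw [h4, h2, pow_succ']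

/-- the maximum in terms of sum and product -/
theorem max_eq {w : AbsoluteValue L ℝ} (hw : IsNonarchimedean w) (A B : L) :
    max (w A) (w B) = max (w (A + B)) (Real.sqrt (w (A * B))) := by
  have h0 : A + B = A - (-B) := by ring
  have hB : w (-B) = w B := w.map_neg B
  rw [w.map_mul]
  rcases lt_trichotomy (w A) (w B) with h | h | h
  · have h1 : w (A + B) = w B := by
      rw [h0, PowerKernelAux.v_sub_eq' hw A (-B) (by rw [hB]; exact h), hB]
    rw [h1, max_eq_right h.le]
    symm
    refine max_eq_left ?_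
    rw [Real.sqrt_le_left (w.nonneg _), sq]
    exact mul_le_mul_of_nonneg_right h.le (w.nonneg _)
  · rw [h, max_self, Real.sqrt_mul_self (w.nonneg _)]
    symm
    refine max_eq_right ?_
    have h1 := hw A B
    rwa [h, max_self] at h1
  · have h1 : w (A + B) = w A := by
      rw [h0, PowerKernelAux.v_sub_eq hw A (-B) (by rw [hB]; exact h)]
    rw [h1, max_eq_left h.le]
    symm
    refine max_eq_left ?_
    rw [Real.sqrt_le_left (w.nonneg _), sq]
    exact mul_le_mul_of_nonneg_left h.le (w.nonneg _)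

theorem vec_pt [DecidableEq K] (u : K × K) (hu : u ≠ (0, 0)) :
    ∃ r : K, r ≠ 0 ∧ vec (pt u) = (r * u.1, r * u.2) := by
  unfold pt
  by_cases h : u.2 = 0
  · have h1 : u.1 ≠ 0 := fun h1 => hu (Prod.ext h1 h)
    refine ⟨u.1⁻¹, inv_ne_zero h1, ?_⟩
    rw [if_pos h]
    change ((1 : K), (0 : K)) = _
    rw [h, mul_zero, inv_mul_cancel₀ h1]
  · refine ⟨u.2⁻¹, inv_ne_zero h, ?_⟩
    rw [if_neg h]
    change (u.1 / u.2, (1 : K)) = _
    rw [inv_mul_cancel₀ h, div_eq_inv_mul]

theorem vec_ne (x : OnePoint K) : vec x ≠ (0, 0) := by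
  cases x with
  | infty =>
    intro h
    have h1 := congrArg Prod.fst h
    exact one_ne_zero h1
  | coe t =>
    intro h
    have h1 := congrArg Prod.snd h
    exact one_ne_zero h1

end RedeiKernelAux

open RedeiKernelAux in
theorem redei_isLoc {K : Type} [Field K] [CharZero K] [DecidableEq K] (v : AbsoluteValue K ℝ)
    (hv : IsNonarchimedean v) (hext : HasExt v) (m : ℕ) (hm : 2 ≤ m) (hodd : Odd m)
    (h : SecUnit v m) (α : K) (hα : α ≠ 0) :
    IsLoc v (fun x => pt (redei α m (vec x))) := by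
  obtain ⟨L, _, _, w, i, hw, hwi⟩ := hext
  obtain ⟨s, hs⟩ : ∃ s : L, s ^ 2 = i α := IsAlgClosed.exists_pow_nat_eq (i α) (by norm_num)
  have hiα : i α ≠ 0 := (map_ne_zero i).2 hα
  have hs0 : s ≠ 0 := by
    rintro rfl
    rw [zero_pow (by norm_num)] at hs
    exact hiα hs.symm
  have h2 : (2 : L) ≠ 0 := by
    have := (map_ne_zero i).2 (two_ne_zero : (2 : K) ≠ 0)
    rwa [map_ofNat] at this
  have h2s : -2 * s ≠ 0 := mul_ne_zero (neg_ne_zero.2 h2) hs0
  -- the constants
  set κ : K := (4 * α) ^ ((m - 1) / 2) with hκ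
  set τ : ℝ := w (-2 * s) with hτ
  have hτ0 : 0 < τ := w.pos h2s
  have hκ0 : κ ≠ 0 := pow_ne_zero _ (mul_ne_zero (by norm_num) hα)
  have hτκ : τ ^ (m - 1) = v κ := by
    obtain ⟨k, hk⟩ := hodd
    have h3 : m - 1 = 2 * k := by omega
    have h4 : (m - 1) / 2 = k := by omega
    have h5 : (-2 * s) ^ 2 = i (4 * α) := by
      rw [map_mul, map_ofNat, ← hs]
      ring
    have h6 : τ ^ 2 = v (4 * α) := by
      rw [hτ, ← hwi, ← h5, map_pow]
    rw [hκ, h4, h3, pow_mul, h6, map_pow]
  have hκv : 0 < v κ := v.pos hκ0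
  -- the norm formula
  have hnorm : ∀ x y : K × K, w (powP m (nu i s x) (nu i s y)) =
      powM w (nu i s x) (nu i s y) ^ (m - 1) := by
    intro x y
    rw [powP_nu i s hs m (by omega), hwi, h]
    congr 1
    unfold powM
    rw [RedeiKernelAux.max_eq hw, add_nu i s hs, mul_nu i s hs, hwi, hwi]
  have hwd : ∀ x y : K × K, w (wd (nu i s x) (nu i s y)) = τ * v (wd x y) := by
    intro x y
    rw [wd_nu, map_mul, hwi]
  have hlt : ∀ x y : K × K, v (wd x y) < powM w (nu i s x) (nu i s y) / τ ↔
      w (wd (nu i s x) (nu i s y)) < powM w (nu i s x) (nu i s y) := by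
    intro x y
    rw [hwd, lt_div_iff₀ hτ0, mul_comm]
  have hne : ∀ x y : K × K, wd x y ≠ 0 → wd (nu i s x) (nu i s y) ≠ 0 := by
    intro x y hxy
    rw [wd_nu]
    exact mul_ne_zero h2s ((map_ne_zero i).2 hxy)
  have hP : ∀ x y : K × K, i (sec (NN α x y) (m - 1) (SS α x y)) =
      powP m (nu i s x) (nu i s y) := fun x y => (powP_nu i s hs m (by omega) x y).symm
  refine ⟨fun x y => sec (NN α x y) (m - 1) (SS α x y) / κ,
    fun x y => powM w (nu i s x) (nu i s y) / τ, m - 1, ⟨by omega, ?_, ?_, ?_, ?_, ?_, ?_⟩, ?_⟩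
  · intro x y
    have e1 : NN α x y = NN α y x := by unfold NN; ring
    have e2 : SS α x y = SS α y x := by unfold SS; ring
    rw [e1, e2]
  · intro x y
    rw [map_div₀, div_pow, hτκ, ← hnorm, ← hP, hwi]
  · intro x y
    rw [le_div_iff₀ hτ0, mul_comm, ← hwd]
    exact powM_le w hw _ _
  · intro x y z u hle
    have e1 : w (wd (nu i s x) (nu i s u)) * w (wd (nu i s y) (nu i s z)) ≤
        w (wd (nu i s x) (nu i s y)) * w (wd (nu i s z) (nu i s u)) := by
      rw [hwd, hwd, hwd, hwd]
      calc τ * v (wd x u) * (τ * v (wd y z)) = τ ^ 2 * (v (wd x u) * v (wd y z)) := by ring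
        _ ≤ τ ^ 2 * (v (wd x y) * v (wd z u)) :=
          mul_le_mul_of_nonneg_left hle (by positivity)
        _ = τ * v (wd x y) * (τ * v (wd z u)) := by ring
    have e2 := powM_exch w hw _ _ _ _ e1
    rw [div_mul_div_comm, div_mul_div_comm]
    exact div_le_div_of_nonneg_right e2 (by positivity)
  · intro x y z h1 h3
    rw [hlt] at h1 h3 ⊢
    exact powM_trans w hw _ _ _ h1 h3
  · intro x y z u h1 hxz hxu hyz hyu
    rw [hlt] at h1
    have e1 := powP_cong w hw m hm _ _ _ _ h1 (hnorm x u) (hnorm y z) (hne _ _ hxz) (hne _ _ hxu)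
      (hne _ _ hyz) (hne _ _ hyu)
    rw [← hP, ← hP, ← hP, ← hP, ← map_mul i, ← map_mul i, ← map_sub i, hwi, hwi] at e1
    rw [div_mul_div_comm, div_mul_div_comm, ← sub_div, map_div₀, map_div₀]
    exact div_lt_div_of_pos_right e1 (v.pos (mul_ne_zero hκ0 hκ0))
  · -- the maps
    have hredei : ∀ x : OnePoint K, redei α m (vec x) ≠ (0, 0) := by
      intro x hx
      have e1 := nu_redei i s hs m (vec x)
      rw [hx] at e1
      have e2 : nu i s ((0 : K), (0 : K)) = (0, 0) := by
        unfold nu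
        simp
      rw [e2] at e1
      have e3 : (nu i s (vec x)).1 = 0 := by
        have := congrArg Prod.fst e1
        exact pow_eq_zero_iff (by omega) |>.1 this.symm
      have e4 : (nu i s (vec x)).2 = 0 := by
        have := congrArg Prod.snd e1
        exact pow_eq_zero_iff (by omega) |>.1 this.symm
      unfold nu at e3 e4
      dsimp only at e3 e4
      have e5 : (2 : L) * i (vec x).1 = 0 := by linear_combination e3 + e4
      have e6 : (2 * s) * i (vec x).2 = 0 := by linear_combination e3 - e4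
      have e7 : (vec x).1 = 0 := (map_eq_zero i).1 ((mul_eq_zero.1 e5).resolve_left h2)
      have e8 : (vec x).2 = 0 :=
        (map_eq_zero i).1 ((mul_eq_zero.1 e6).resolve_left (mul_ne_zero h2 hs0))
      exact vec_ne x (Prod.ext e7 e8)
    choose ρ hρ0 hρ using fun x : OnePoint K => vec_pt (redei α m (vec x)) (hredei x)
    refine ⟨κ, ρ, hκ0, hρ0, ?_⟩
    intro x y
    have e1 : wd (redei α m (vec x)) (redei α m (vec y)) =
        wd (vec x) (vec y) * sec (NN α (vec x) (vec y)) (m - 1) (SS α (vec x) (vec y)) := by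
      apply i.injective
      have e2 := wd_nu i s (redei α m (vec x)) (redei α m (vec y))
      rw [nu_redei i s hs, nu_redei i s hs] at e2
      set A := (nu i s (vec x)).1 * (nu i s (vec y)).2 with hA
      set B := (nu i s (vec x)).2 * (nu i s (vec y)).1 with hB
      have e3 : wd ((nu i s (vec x)).1 ^ m, (nu i s (vec x)).2 ^ m)
          ((nu i s (vec y)).1 ^ m, (nu i s (vec y)).2 ^ m) = A ^ m - B ^ m := by
        rw [hA, hB, mul_pow, mul_pow]
        rfl
      have e4 : A - B = (-2 * s) * i (wd (vec x) (vec y)) := wd_nu i s (vec x) (vec y)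
      have e5 : A ^ m - B ^ m = (A - B) * powP m (nu i s (vec x)) (nu i s (vec y)) := by
        unfold powP
        rw [← hA, ← hB, mul_comm, ← Commute.mul_geom_sum₂ (Commute.all A B) m, mul_comm]
      rw [e3, e5, e4] at e2
      have e6 : (-2 * s) * (i (wd (vec x) (vec y)) * powP m (nu i s (vec x)) (nu i s (vec y))) =
          (-2 * s) * i (wd (redei α m (vec x)) (redei α m (vec y))) := by
        rw [← e2]
        ring
      have e7 := mul_left_cancel₀ h2s e6
      rw [map_mul, hP, e7]
    dsimp only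
    rw [hρ x, hρ y]
    have e8 : wd (ρ x * (redei α m (vec x)).1, ρ x * (redei α m (vec x)).2)
        (ρ y * (redei α m (vec y)).1, ρ y * (redei α m (vec y)).2) =
        ρ x * ρ y * wd (redei α m (vec x)) (redei α m (vec y)) := by
      unfold wd
      ring
    rw [e8, e1]
    field_simp

end Pool.Agent.MP90787a.J
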