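import Mathlib
import Pool.Agent.Lib.MP_90787a_nt.J.Defs

/-!
# MP_90787a_nt, J13: facts from the residue map
-/

set_option autoImplicit false
set_option linter.all false

namespace Pool.Agent.MP90787a.J

namespace ResBasicAux

variable {K : Type} [Field K] {v : AbsoluteValue K ℝ} {F : Type} [Field F]

theorem geom_ne_zero [Fintype F] (m : ℕ) (h1 : (m : F) ≠ 0)
    (h2 : m.Coprime (Fintype.card F - 1)) (τ : F) :
    ∑ i ∈ Finset.range m, τ ^ i ≠ 0 := by
  intro h
  by_cases hτ : τ = 1
  · subst hτ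
    simp at h
    exact h1 h
  · have h3 : τ ^ m = 1 := by
      have h4 := geom_sum_mul τ m
      rw [h, zero_mul] at h4
      exact (sub_eq_zero.mp h4.symm)
    have hm : m ≠ 0 := by
      rintro rfl
      simp at h1
    have h0 : τ ≠ 0 := by
      rintro rfl
      rw [zero_pow hm] at h3
      exact zero_ne_one h3
    have h5 : τ ^ (Fintype.card F - 1) = 1 := FiniteField.pow_card_sub_one_eq_one τ h0
    have h6 : orderOf τ ∣ m := orderOf_dvd_of_pow_eq_one h3
    have h7 : orderOf τ ∣ Fintype.card F - 1 := orderOf_dvd_of_pow_eq_one h5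
    have h8 : orderOf τ ∣ 1 := by
      have := Nat.dvd_gcd h6 h7
      rwa [h2] at this
    have h9 : orderOf τ = 1 := Nat.dvd_one.mp h8
    exact hτ (orderOf_eq_one_iff.mp h9)

end ResBasicAux

open ResBasicAux

theorem resBound_of_res {K : Type} [Field K] (v : AbsoluteValue K ℝ) (F : Type) [Field F]
    [Fintype F] (R : Res v F) : ResBound v (Fintype.card F) := by
  classical
  intro T hT hsep
  let f : T → F := fun s => R.red ⟨s.1, (R.mem s.1).mpr (hT s.1 s.2)⟩
  have hf : Function.Injective f := by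
    intro s t hst
    by_contra hne
    have hne' : s.1 ≠ t.1 := fun h => hne (Subtype.ext h)
    have h0 : R.red (⟨s.1, (R.mem s.1).mpr (hT s.1 s.2)⟩ - ⟨t.1, (R.mem t.1).mpr (hT t.1 t.2)⟩)
        = 0 := by
      rw [map_sub]
      exact sub_eq_zero.mpr hst
    have h1 := (R.red_eq _).mp h0
    have h2 := hsep s.1 s.2 t.1 t.2 hne'
    have h3 : v (s.1 - t.1) < 1 := h1
    rw [h2] at h3
    exact lt_irrefl _ h3
  have h := Fintype.card_le_of_injective f hf
  rwa [Fintype.card_coe] at h

theorem geomUnit_of_res {K : Type} [Field K] (v : AbsoluteValue K ℝ) (F : Type) [Field F]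
    [Fintype F] (R : Res v F) (m : ℕ) (h1 : (m : F) ≠ 0)
    (h2 : m.Coprime (Fintype.card F - 1)) : GeomUnit v m := by
  intro t ht
  let t' : R.O := ⟨t, (R.mem t).mpr ht⟩
  have h3 : ((∑ i ∈ Finset.range m, t' ^ i : R.O) : K) = ∑ i ∈ Finset.range m, t ^ i := by
    push_cast
    rfl
  have h4 : v (∑ i ∈ Finset.range m, t ^ i) ≤ 1 := by
    rw [← h3]
    exact (R.mem _).mp (Subtype.property _)
  have h5 : ¬ v (∑ i ∈ Finset.range m, t ^ i) < 1 := by
    rw [← h3]
    intro h6
    have h7 := (R.red_eq _).mpr h6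
    rw [map_sum] at h7
    simp only [map_pow] at h7
    exact geom_ne_zero m h1 h2 _ h7
  exact le_antisymm h4 (not_lt.mp h5)

end Pool.Agent.MP90787a.J
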