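import Mathlib
import Pool.Agent.Lib.MP_90787a_nt.J.Defs
import Pool.Agent.Lib.MP_90787a_nt.J.Defs2

/-!
# MP_90787a_nt: residual injectivity of Redei functions
-/

set_option autoImplicit false

namespace Pool.Agent.MP90787a.J

namespace SecUnitAux

theorem sec_zero {K : Type} [Field K] (N S : K) : sec N 0 S = 1 := rfl

theorem sec_one {K : Type} [Field K] (N S : K) : sec N 1 S = S := rfl

theorem sec_two {K : Type} [Field K] (N S : K) (n : ℕ) :
    sec N (n + 2) S = S * sec N (n + 1) S - N * sec N n S := rfl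

/-- two-step induction -/
theorem ind2 {C : ℕ → Prop} (h0 : C 0) (h1 : C 1) (h : ∀ n, C n → C (n + 1) → C (n + 2)) (n : ℕ) :
    C n := by
  have : C n ∧ C (n + 1) := by
    induction n with
    | zero => exact ⟨h0, h1⟩
    | succ n ih => exact ⟨ih.2, h n ih.1 ih.2⟩
  exact this.1

theorem sec_map {K L : Type} [Field K] [Field L] (f : K →+* L) (N S : K) (n : ℕ) :
    f (sec N n S) = sec (f N) n (f S) := by
  induction n using ind2 with
  | h0 => rw [sec_zero, sec_zero, map_one]
  | h1 => rw [sec_one, sec_one]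
  | h n h1 h2 => rw [sec_two, sec_two, map_sub, map_mul, map_mul, h1, h2]

theorem sec_scale {K : Type} [Field K] (t N S : K) (n : ℕ) :
    sec (t ^ 2 * N) n (t * S) = t ^ n * sec N n S := by
  induction n using ind2 with
  | h0 => rw [sec_zero, sec_zero, pow_zero, one_mul]
  | h1 => rw [sec_one, sec_one, pow_one]
  | h n h1 h2 => rw [sec_two, sec_two, h1, h2]; ring

theorem sec_roots {K : Type} [Field K] (A B : K) (n : ℕ) :
    (A - B) * sec (A * B) n (A + B) = A ^ (n + 1) - B ^ (n + 1) := by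
  induction n using ind2 with
  | h0 => rw [sec_zero]; ring
  | h1 => rw [sec_one]; ring
  | h n h1 h2 =>
    rw [sec_two]
    calc (A - B) * ((A + B) * sec (A * B) (n + 1) (A + B) - A * B * sec (A * B) n (A + B))
        = (A + B) * ((A - B) * sec (A * B) (n + 1) (A + B))
          - A * B * ((A - B) * sec (A * B) n (A + B)) := by ring
      _ = _ := by rw [h1, h2]; ring

theorem sec_double {K : Type} [Field K] (A : K) (n : ℕ) :
    sec (A * A) n (A + A) = ((n + 1 : ℕ) : K) * A ^ n := by
  induction n using ind2 with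
  | h0 => rw [sec_zero]; simp
  | h1 => rw [sec_one]; push_cast; ring
  | h n h1 h2 => rw [sec_two, h1, h2]; push_cast; ring

/-- the residue field computation -/
theorem sec_ne {F : Type} [Field F] [Fintype F] (m : ℕ) (hm : Odd m) (h1 : (m : F) ≠ 0)
    (h2 : m.Coprime (Fintype.card F ^ 2 - 1)) (N : F) : sec N (m - 1) 1 ≠ 0 := by
  classical
  intro h0
  have hm1 : m - 1 + 1 = m := Nat.sub_add_cancel hm.pos
  set Ω := AlgebraicClosure F with hΩ
  set φ : F →+* Ω := algebraMap F Ω with hφ
  obtain ⟨A, hA⟩ : ∃ A : Ω, A ^ 2 - A + φ N = 0 := by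
    have hdeg : (Polynomial.X ^ 2 - Polynomial.X + Polynomial.C (φ N) : Polynomial Ω).degree ≠ 0 := by
      have : (Polynomial.X ^ 2 - Polynomial.X + Polynomial.C (φ N) : Polynomial Ω).degree = 2 := by
        compute_degree!
      rw [this]
      norm_num
    obtain ⟨A, hA⟩ := IsAlgClosed.exists_root _ hdeg
    refine ⟨A, ?_⟩
    simpa [Polynomial.IsRoot.def] using hA
  set B : Ω := 1 - A with hB
  have hAB : A + B = 1 := by rw [hB]; ring
  have hABm : A * B = φ N := by
    rw [hB]
    linear_combination (-1 : Ω) * hA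
  -- Frobenius
  set q := Fintype.card F with hq
  let σ : Ω →ₐ[F] Ω := FiniteField.frobeniusAlgHom F Ω
  have hσ : ∀ x : Ω, σ x = x ^ q := fun x => rfl
  have hσN : σ (φ N) = φ N := σ.commutes N
  have hσA : (σ A - A) * (σ A - B) = 0 := by
    have e1 : (σ A) ^ 2 - σ A + φ N = 0 := by
      have := congrArg σ hA
      rw [map_add, map_sub, map_pow, hσN, map_zero] at this
      exact this
    have e2 : (σ A - A) * (σ A - B) = (σ A) ^ 2 - (A + B) * σ A + A * B := by ring
    rw [e2, hAB, hABm, one_mul]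
    exact e1
  have hσB : σ B = 1 - σ A := by rw [hB, map_sub, map_one]
  have hσσA : σ (σ A) = A := by
    rcases mul_eq_zero.mp hσA with h | h
    · have e1 : σ A = A := sub_eq_zero.mp h
      rw [e1, e1]
    · have e1 : σ A = B := sub_eq_zero.mp h
      rw [e1, hσB, e1, hB]
      ring
  have hσσB : σ (σ B) = B := by
    rw [hσB, map_sub, map_one, hσσA]
  have hpow : ∀ x : Ω, σ (σ x) = x ^ (q ^ 2) := by
    intro x
    rw [hσ, hσ, ← pow_mul, sq]
  have hq1 : 1 ≤ q ^ 2 := Nat.one_le_pow _ _ Fintype.card_pos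
  have hq2 : q ^ 2 - 1 + 1 = q ^ 2 := Nat.sub_add_cancel hq1
  have hunit : ∀ x : Ω, x ≠ 0 → σ (σ x) = x → x ^ (q ^ 2 - 1) = 1 := by
    intro x hx h
    rw [hpow, ← hq2, pow_succ] at h
    exact mul_right_cancel₀ hx (by rw [h, one_mul])
  have hsec : sec (A * B) (m - 1) (A + B) = 0 := by
    rw [hABm, hAB, ← map_one φ, ← sec_map, h0, map_zero]
  by_cases hne : A = B
  · have e1 := sec_double A (m - 1)
    rw [← hne] at hsec
    rw [hsec, hm1] at e1
    have e2 : ((m : ℕ) : Ω) ≠ 0 := by
      rw [← map_natCast φ]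
      exact (map_ne_zero φ).mpr h1
    have e3 : A ^ (m - 1) = 0 := (mul_eq_zero.mp e1.symm).resolve_left e2
    have e4 : A = 0 := by
      by_contra hA0
      exact pow_ne_zero _ hA0 e3
    rw [← hne, e4, add_zero] at hAB
    exact zero_ne_one hAB
  · have e1 := sec_roots A B (m - 1)
    rw [hsec, mul_zero, hm1] at e1
    have e2 : A ^ m = B ^ m := (sub_eq_zero.mp e1.symm)
    have hmpos : m ≠ 0 := hm.pos.ne'
    have hA0 : A ≠ 0 := by
      intro hA0
      rw [hA0, zero_pow hmpos] at e2
      have : B = 0 := by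
        by_contra hB0
        exact pow_ne_zero m hB0 e2.symm
      exact hne (hA0.trans this.symm)
    have hB0 : B ≠ 0 := by
      intro hB0
      rw [hB0, zero_pow hmpos] at e2
      exact hA0 (by
        by_contra hA1
        exact pow_ne_zero m hA1 e2)
    have e3 : (A / B) ^ m = 1 := by
      rw [div_pow, e2, div_self (pow_ne_zero m hB0)]
    have e4 : (A / B) ^ (q ^ 2 - 1) = 1 := by
      rw [div_pow, hunit A hA0 hσσA, hunit B hB0 hσσB, div_one]
    have e5 : (A / B) ^ (m.gcd (q ^ 2 - 1)) = 1 := pow_gcd_eq_one.mpr ⟨e3, e4⟩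
    rw [h2, pow_one, div_eq_one_iff_eq hB0] at e5
    exact hne e5

theorem sub_val {K : Type} [Field K] (v : AbsoluteValue K ℝ) (hv : IsNonarchimedean v) (x y : K) :
    v (x - y) ≤ max (v x) (v y) := by
  rw [sub_eq_add_neg]
  refine (hv x (-y)).trans ?_
  rw [v.map_neg]

theorem sub_val_eq {K : Type} [Field K] (v : AbsoluteValue K ℝ) (hv : IsNonarchimedean v) {x y : K}
    (h : v x < v y) : v (x - y) = v y := by
  refine le_antisymm ((sub_val v hv x y).trans (max_le h.le le_rfl)) ?_
  have h1 : v y ≤ max (v x) (v (x - y)) := by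
    have := sub_val v hv x (x - y)
    rwa [sub_sub_cancel] at this
  rcases le_max_iff.mp h1 with h2 | h2
  · exact absurd h2 (not_le.mpr h)
  · exact h2

/-- the case of large `N` -/
theorem sec_large {K : Type} [Field K] (v : AbsoluteValue K ℝ) (hv : IsNonarchimedean v)
    (N S : K) (h : v S ^ 2 < v N) (k : ℕ) :
    v (sec N (2 * k) S) = v N ^ k ∧ v (sec N (2 * k + 1) S) ≤ v S * v N ^ k := by
  have hN : 0 < v N := lt_of_le_of_lt (sq_nonneg _) h
  induction k with
  | zero =>
    rw [mul_zero, sec_zero, zero_add, sec_one, map_one, pow_zero, mul_one]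
    exact ⟨rfl, le_rfl⟩
  | succ k ih =>
    have e1 : sec N (2 * (k + 1)) S = S * sec N (2 * k + 1) S - N * sec N (2 * k) S := rfl
    have e2 : sec N (2 * (k + 1) + 1) S = S * sec N (2 * (k + 1)) S - N * sec N (2 * k + 1) S := rfl
    have h1 : v (sec N (2 * (k + 1)) S) = v N ^ (k + 1) := by
      rw [e1, sub_val_eq v hv, v.map_mul, ih.1, pow_succ', ]
      rw [v.map_mul, v.map_mul, ih.1]
      have h2 : v S * v (sec N (2 * k + 1) S) ≤ v S * (v S * v N ^ k) :=
        mul_le_mul_of_nonneg_left ih.2 (v.nonneg _)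
      refine lt_of_le_of_lt h2 ?_
      have h3 : v S * (v S * v N ^ k) = v S ^ 2 * v N ^ k := by ring
      rw [h3]
      exact mul_lt_mul_of_pos_right h (pow_pos hN k)
    refine ⟨h1, ?_⟩
    rw [e2]
    refine (sub_val v hv _ _).trans (max_le ?_ ?_)
    · rw [v.map_mul, h1]
    · rw [v.map_mul, pow_succ]
      have h2 : v N * v (sec N (2 * k + 1) S) ≤ v N * (v S * v N ^ k) :=
        mul_le_mul_of_nonneg_left ih.2 (v.nonneg _)
      refine h2.trans (le_of_eq ?_)
      ring

end SecUnitAux

open SecUnitAux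

theorem secUnit_of_res {K : Type} [Field K] (v : AbsoluteValue K ℝ) (hv : IsNonarchimedean v)
    (F : Type) [Field F] [Fintype F] (R : Res v F) (m : ℕ) (hm : Odd m) (h1 : (m : F) ≠ 0)
    (h2 : m.Coprime (Fintype.card F ^ 2 - 1)) : SecUnit v m := by
  intro N S
  obtain ⟨k, hk⟩ := hm
  have hm1 : m - 1 = 2 * k := by omega
  rcases lt_or_ge (v S) (Real.sqrt (v N)) with h | h
  · rw [max_eq_right h.le, hm1, pow_mul, Real.sq_sqrt (v.nonneg N)]
    have h3 : v S ^ 2 < v N := by
      have h4 := (Real.lt_sqrt (v.nonneg S)).mp h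
      exact h4
    exact (sec_large v hv N S h3 k).1
  · rw [max_eq_left h]
    have hN : v N ≤ v S ^ 2 := by
      have h4 := (Real.sqrt_le_left (v.nonneg S)).mp h
      exact h4
    by_cases hS : S = 0
    · subst hS
      have hN0 : N = 0 := by
        rw [v.map_zero] at hN
        have h5 : v N = 0 := le_antisymm (by simpa using hN) (v.nonneg N)
        exact v.eq_zero.mp h5
      subst hN0
      rw [hm1, v.map_zero]
      rcases Nat.eq_zero_or_pos k with hk0 | hk0
      · subst hk0
        rw [mul_zero, sec_zero, map_one, pow_zero]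
      · obtain ⟨j, rfl⟩ : ∃ j, k = j + 1 := ⟨k - 1, by omega⟩
        have e1 : sec (0 : K) (2 * (j + 1)) 0 = 0 * sec (0 : K) (2 * j + 1) 0
          - 0 * sec (0 : K) (2 * j) 0 := rfl
        rw [e1, zero_mul, zero_mul, sub_zero, v.map_zero, zero_pow (by omega)]
    · have hvS : 0 < v S := v.pos hS
      have e1 : sec N (m - 1) S = S ^ (m - 1) * sec (N / S ^ 2) (m - 1) 1 := by
        rw [← sec_scale S (N / S ^ 2) 1, mul_one, mul_div_cancel₀ _ (pow_ne_zero 2 hS)]
      rw [e1, v.map_mul, v.map_pow]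
      have hN' : v (N / S ^ 2) ≤ 1 := by
        rw [map_div₀, v.map_pow, div_le_one (pow_pos hvS 2)]
        exact hN
      set N' : R.O := ⟨N / S ^ 2, (R.mem _).mpr hN'⟩ with hN'
      -- sec in the valuation ring
      have e2 : ∀ n, ∃ y : R.O, (y : K) = sec (N / S ^ 2) n 1 ∧ R.red y = sec (R.red N') n 1 := by
        intro n
        induction n using ind2 with
        | h0 => exact ⟨1, by rw [sec_zero]; rfl, by rw [sec_zero, map_one]⟩
        | h1 => exact ⟨1, by rw [sec_one]; rfl, by rw [sec_one, map_one]⟩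
        | h n h1 h2 =>
          obtain ⟨y, hy1, hy2⟩ := h1
          obtain ⟨z, hz1, hz2⟩ := h2
          refine ⟨1 * z - N' * y, ?_, ?_⟩
          · rw [sec_two, ← hy1, ← hz1]
            push_cast
            rfl
          · rw [sec_two, map_sub, map_mul, map_mul, hy2, hz2, map_one]
      obtain ⟨y, hy1, hy2⟩ := e2 (m - 1)
      have e3 : v (sec (N / S ^ 2) (m - 1) 1) = 1 := by
        rw [← hy1]
        refine le_antisymm ((R.mem _).mp y.2) ?_
        by_contra hlt
        push Not at hlt
        have h6 := (R.red_eq y).mpr hlt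
        rw [hy2] at h6
        exact sec_ne m ⟨k, hk⟩ h1 h2 _ h6
      rw [e3, mul_one]

end Pool.Agent.MP90787a.J
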