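import Mathlib
import Pool.Agent.Lib.MP_90787a_nt.J.Defs2
import Pool.Agent.Lib.MP_90787a_nt.J.PowerKernel
import Pool.Agent.Lib.MP_90787a_nt.J.DicksonKernel
import Pool.Agent.Lib.MP_90787a_nt.J.RedeiKernel
import Pool.Agent.Lib.MP_90787a_nt.J.ResBasic
import Pool.Agent.Lib.MP_90787a_nt.J.DickUnit
import Pool.Agent.Lib.MP_90787a_nt.J.SecUnit

/-!
# MP_90787a_nt: the local condition holds at a primitive prime
-/

set_option autoImplicit false

namespace Pool.Agent.MP90787a.J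

namespace LocOKAux

theorem cast_ne_zero (F : Type) [Field F] [Fintype F] (d m p f : ℕ) (hp : p.Prime) (hpd : d < p)
    (hd : 0 < d) (hcard : Fintype.card F = p ^ f) (hmd : m ∣ d) : (m : F) ≠ 0 := by
  intro h0
  have hm0 : 0 < m := Nat.pos_of_dvd_of_pos hmd hd
  have hml : m < p := (Nat.le_of_dvd hd hmd).trans_lt hpd
  have h1 : addOrderOf (1 : F) ∣ m := by
    rw [addOrderOf_dvd_iff_nsmul_eq_zero, nsmul_one]
    exact h0
  have h2 : addOrderOf (1 : F) ∣ p ^ f := hcard ▸ addOrderOf_dvd_card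
  have h3 : Nat.Coprime m (p ^ f) := by
    refine Nat.Coprime.pow_right f ?_
    rw [Nat.coprime_comm, hp.coprime_iff_not_dvd]
    exact fun h => absurd (Nat.le_of_dvd hm0 h) (not_le.2 hml)
  have h4 : addOrderOf (1 : F) = 1 := Nat.eq_one_of_dvd_coprimes h3 h1 h2
  rw [AddMonoid.addOrderOf_eq_one_iff] at h4
  exact one_ne_zero h4

/-- coprimality from primitivity -/
theorem coprime_pred (d m p f B : ℕ) (hmd : m ∣ d) (hf : 1 ≤ f) (hfB : f ≤ B)
    (h : ∀ l : ℕ, l.Prime → l ∣ m → B + 1 < l)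
    (hprim : ∀ l : ℕ, l.Prime → l ∣ d → ∀ f : ℕ, 1 ≤ f → l ∣ p ^ f - 1 → l - 1 ∣ f) :
    Nat.Coprime m (p ^ f - 1) := by
  refine Nat.coprime_of_dvd fun l hl hlm hlp => ?_
  have h1 := hprim l hl (hlm.trans hmd) f hf hlp
  have h2 := Nat.le_of_dvd hf h1
  have h3 := h l hl hlm
  omega

theorem odd_of (m D : ℕ) (hD : 1 ≤ D) (h : ∀ l : ℕ, l.Prime → l ∣ m → 2 * D + 1 < l) : Odd m := by
  rw [← Nat.not_even_iff_odd]
  intro he
  have := h 2 Nat.prime_two he.two_dvd
  omega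

end LocOKAux

open LocOKAux in
theorem locOK_of_res {K : Type} [Field K] [CharZero K] [DecidableEq K] (v : AbsoluteValue K ℝ)
    (hv : IsNonarchimedean v) (hext : HasExt v)
    (F : Type) [Field F] [Fintype F] (R : Res v F) (D d p f : ℕ) (hp : p.Prime) (hpd : d < p)
    (hd : 0 < d) (hcard : Fintype.card F = p ^ f) (hf : 1 ≤ f) (hfD : f ≤ D)
    (hprim : ∀ l : ℕ, l.Prime → l ∣ d → ∀ f : ℕ, 1 ≤ f → l ∣ p ^ f - 1 → l - 1 ∣ f) :
    LocOK v D d := by
  intro m E hmd hE
  have hmF : (m : F) ≠ 0 := cast_ne_zero F d m p f hp hpd hd hcard hmd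
  cases hE with
  | power hm h =>
    refine power_isLoc v hv m hm (geomUnit_of_res v F R m hmF ?_)
    rw [hcard]
    exact coprime_pred d m p f D hmd hf hfD h hprim
  | dickson a hm h =>
    refine dickson_isLoc v hv m hm (dickUnit_of_res v hv F R m (odd_of m D (hf.trans hfD) h) hmF ?_) a
    rw [hcard, ← pow_mul]
    exact coprime_pred d m p (f * 2) (2 * D) hmd (by omega) (by omega) h hprim
  | redei α hα hm h =>
    refine redei_isLoc v hv hext m hm (odd_of m D (hf.trans hfD) h)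
      (secUnit_of_res v hv F R m (odd_of m D (hf.trans hfD) h) hmF ?_) α hα
    rw [hcard, ← pow_mul]
    exact coprime_pred d m p (f * 2) (2 * D) hmd (by omega) (by omega) h hprim

end Pool.Agent.MP90787a.J
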