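import Mathlib
import Pool.Agent.Lib.MP_90787a_nt.J.Defs

set_option autoImplicit false

namespace Pool.Agent.MP90787a.J

theorem index_bound {K : Type} [Field K] (v : AbsoluteValue K ℝ) (q : ℕ) (h2 : 2 ≤ q)
    (hq : ResBound v q) {G : Type} [AddCommGroup G] (W : G → G → K) (γ δ : G → ℝ)
    (hγ : ∀ i, 0 < γ i) (hpos : ∀ c, 0 < δ c)
    (hanti : ∀ i l, W i l = - W l i)
    (hpl : ∀ i l a b, W i l * W a b - W i a * W l b + W i b * W l a = 0)
    (hW : ∀ i l, i ≠ l → v (W i l) = γ i * γ l * δ (i - l))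
    (r : ℝ) (T : Finset G) (hT : ∀ s ∈ T, ∀ t ∈ T, s ≠ t → δ (s - t) = r) : T.card ≤ q + 1 := by
  classical
  by_cases hcard : 2 < T.card
  swap
  · omega
  obtain ⟨c1, h1, c2, h2', c3, h3, h12, h13, h23⟩ := Finset.two_lt_card.1 hcard
  have hr : 0 < r := by
    rw [← hT c1 h1 c2 h2' h12]
    exact hpos _
  have hWr : ∀ i ∈ T, ∀ l ∈ T, i ≠ l → v (W i l) = γ i * γ l * r := by
    intro i hi l hl hil
    rw [hW i l hil, hT i hi l hl hil]
  have hW0 : ∀ i ∈ T, ∀ l ∈ T, i ≠ l → W i l ≠ 0 := by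
    intro i hi l hl hil h
    have := hWr i hi l hl hil
    rw [h, map_zero] at this
    have h' := mul_pos (mul_pos (hγ i) (hγ l)) hr
    linarith
  have hself : ∀ i, W i i = 0 := by
    intro i
    have := hpl i i i i
    have h' : W i i * W i i = 0 := by
      have h'' : W i i * W i i - W i i * W i i + W i i * W i i = W i i * W i i := by ring
      rw [h''] at this
      exact this
    exact mul_self_eq_zero.1 h'
  let t : G → K := fun s => W c1 s * W c2 c3 / (W c1 c2 * W s c3)
  have hdiff : ∀ s ∈ T, ∀ s' ∈ T, s ≠ c3 → s' ≠ c3 → s ≠ s' → v (t s - t s') = 1 := by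
    intro s hs s' hs' hs3 hs3' hss
    have n12 := hW0 c1 h1 c2 h2' h12
    have ns := hW0 s hs c3 h3 hs3
    have ns' := hW0 s' hs' c3 h3 hs3'
    have hp := hpl c1 s s' c3
    have e1 : t s - t s' = -(W c2 c3 * W c1 c3 * W s s') / (W c1 c2 * W s c3 * W s' c3) := by
      simp only [t]
      rw [div_sub_div _ _ (mul_ne_zero n12 ns) (mul_ne_zero n12 ns'),
        div_eq_div_iff (mul_ne_zero (mul_ne_zero n12 ns) (mul_ne_zero n12 ns'))
          (mul_ne_zero (mul_ne_zero n12 ns) ns')]
      linear_combination (W c2 c3 * W c1 c2 * (W c1 c2 * W s c3 * W s' c3)) * hp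
    rw [e1, map_div₀, map_neg_eq_map, map_mul, map_mul, map_mul, map_mul,
      hWr c2 h2' c3 h3 h23, hWr c1 h1 c3 h3 h13, hWr s hs s' hs' hss, hWr c1 h1 c2 h2' h12,
      hWr s hs c3 h3 hs3, hWr s' hs' c3 h3 hs3']
    have g1 := (hγ c1).ne'
    have g2 := (hγ c2).ne'
    have g3 := (hγ c3).ne'
    have gs := (hγ s).ne'
    have gs' := (hγ s').ne'
    have hr' := hr.ne'
    rw [div_eq_one_iff_eq (by positivity)]
    ring
  have hle : ∀ s ∈ T, s ≠ c3 → v (t s) ≤ 1 := by
    intro s hs hs3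
    by_cases hs1 : s = c1
    · have : t s = 0 := by
        simp only [t]
        rw [hs1, hself, zero_mul, zero_div]
      rw [this, map_zero]
      exact zero_le_one
    · have g1 := (hγ c1).ne'
      have g2 := (hγ c2).ne'
      have g3 := (hγ c3).ne'
      have gs := (hγ s).ne'
      have hr' := hr.ne'
      simp only [t]
      rw [map_div₀, map_mul, map_mul, hWr c1 h1 s hs (Ne.symm hs1), hWr c2 h2' c3 h3 h23,
        hWr c1 h1 c2 h2' h12, hWr s hs c3 h3 hs3]
      apply le_of_eq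
      rw [div_eq_one_iff_eq (by positivity)]
      ring
  have hinj : Set.InjOn t ((T.erase c3 : Finset G) : Set G) := by
    intro s hs s' hs' heq
    by_contra hne
    rw [Finset.mem_coe, Finset.mem_erase] at hs hs'
    have := hdiff s hs.2 s' hs'.2 hs.1 hs'.1 hne
    rw [heq, sub_self, map_zero] at this
    exact zero_ne_one this
  have hc := hq ((T.erase c3).image t) (by
      intro x hx
      obtain ⟨s, hs, rfl⟩ := Finset.mem_image.1 hx
      rw [Finset.mem_erase] at hs
      exact hle s hs.2 hs.1) (by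
      intro x hx y hy hxy
      obtain ⟨s, hs, rfl⟩ := Finset.mem_image.1 hx
      obtain ⟨s', hs', rfl⟩ := Finset.mem_image.1 hy
      rw [Finset.mem_erase] at hs hs'
      exact hdiff s hs.2 s' hs'.2 hs.1 hs'.1 fun h => hxy (by rw [h]))
  rw [Finset.card_image_of_injOn hinj, Finset.card_erase_of_mem h3] at hc
  omega

end Pool.Agent.MP90787a.J
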