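import Mathlib
import Pool.Agent.Lib.MP_90787a_nt.J.Defs

set_option autoImplicit false

/-!
# INJ module J6: cross ratios are residually shift invariant
-/

namespace Pool.Agent.MP90787a.J

namespace NearShiftAux

variable {K : Type} [Field K] (v : AbsoluteValue K ℝ) (hv : IsNonarchimedean v)

include hv

theorem near_val {u w : K} (h : Near v u w) : v u = v w := by
  unfold Near at h
  apply le_antisymm
  · have h1 := hv (u - w) w
    rw [sub_add_cancel] at h1
    exact h1.trans (max_le h.le le_rfl)
  · by_contra hc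
    push Not at hc
    have h1 := hv (w - u) u
    rw [sub_add_cancel, v.map_sub] at h1
    exact absurd h1 (not_le.2 (max_lt h hc))

theorem near_mul {u w u' w' : K} (h : Near v u w) (h' : Near v u' w') :
    Near v (u * u') (w * w') := by
  have h1 := near_val v hv h'
  unfold Near at h h' ⊢
  have h2 : 0 < v w' := lt_of_le_of_lt (v.nonneg _) h'
  have h3 : 0 < v w := lt_of_le_of_lt (v.nonneg _) h
  have e : u * u' - w * w' = (u - w) * u' + w * (u' - w') := by ring
  rw [e]
  refine lt_of_le_of_lt (hv _ _) ?_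
  rw [map_mul, map_mul, map_mul, h1]
  exact max_lt (mul_lt_mul_of_pos_right h h2) (mul_lt_mul_of_pos_left h' h3)

theorem near_trans {u w z : K} (h : Near v u w) (h' : Near v w z) : Near v u z := by
  have h1 := near_val v hv h'
  unfold Near at h h' ⊢
  have e : u - z = (u - w) + (w - z) := by ring
  rw [e]
  refine lt_of_le_of_lt (hv _ _) ?_
  rw [h1] at h
  exact max_lt h h'

omit hv in
theorem near_refl {u : K} (h : u ≠ 0) : Near v u u := by
  unfold Near
  rw [sub_self, map_zero]
  exact v.pos h

omit hv in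
theorem near_one {a b : K} (hb : b ≠ 0) (h : v (a - b) < v b) : Near v (a / b) 1 := by
  unfold Near
  have e : a / b - 1 = (a - b) / b := by field_simp
  rw [e, map_div₀, map_one, div_lt_one (v.pos hb)]
  exact h

theorem factor_near {N k : ℕ} (X : CycData v N k) (i l a g : ZMod N) (hd : D4 i l a g) (j : ℕ)
    (hj : j < k)
    (h : v (X.W j i g) < X.M j i g ∨ v (X.W j l a) < X.M j l a) :
    Near v (X.P j i l * X.P j a g / (X.P j i a * X.P j l g)) 1 := by
  obtain ⟨h1, h2, h3, h4, h5, h6⟩ := hd
  have hP : ∀ s t, s ≠ t → X.P j s t ≠ 0 := by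
    intro s t hst h0
    have h7 := X.norm j hj s t
    rw [h0, map_zero] at h7
    have h8 := pow_pos (X.pos j hj s t hst) (X.e j)
    linarith
  apply near_one v (mul_ne_zero (hP i a h2) (hP l g h5))
  rcases h with h | h
  · have h7 := X.cong j hj i g l a ⟨h3, h1, h2, h5.symm, h6.symm, h4⟩ h
    rw [X.symm j hj g a, X.symm j hj g l] at h7
    exact h7
  · have h7 := X.cong j hj l a i g ⟨h4, h1.symm, h5, h2.symm, h6, h3⟩ h
    rw [X.symm j hj l i, X.symm j hj a i, mul_comm (X.P j l g)] at h7
    exact h7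

theorem cr_near {N k : ℕ} (X : CycData v N k) (i l a g : ZMod N) (hd : D4 i l a g)
    (h : ∀ j < k, v (X.W j i g) < X.M j i g ∨ v (X.W j l a) < X.M j l a) :
    ∀ j ≤ k, Near v (X.cr j i l a g) (X.cr 0 i l a g) := by
  have hd' := hd
  obtain ⟨h1, h2, h3, h4, h5, h6⟩ := hd'
  intro j
  induction j with
  | zero =>
    intro _
    apply near_refl
    unfold CycData.cr
    have hn := X.ne 0 (Nat.zero_le k)
    exact div_ne_zero (mul_ne_zero (hn i l h1) (hn a g h6)) (mul_ne_zero (hn i a h2) (hn l g h5))
  | succ j ih =>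
    intro hj
    have hj' : j < k := hj
    have h7 := ih hj'.le
    have h8 := factor_near v hv X i l a g hd j hj' (h j hj')
    have h9 := near_mul v hv h7 h8
    rw [mul_one] at h9
    obtain ⟨c, ρ, hc, hρ, hs⟩ := X.step j hj'
    have hn := X.ne j hj'.le
    have hn1 := X.ne (j + 1) hj
    have hW1 := hn i a h2
    have hW2 := hn l g h5
    have hP1 : X.P j i a ≠ 0 := by
      intro h0
      have := hn1 i a h2
      rw [hs, h0, mul_zero, mul_zero] at this
      exact this rfl
    have hP2 : X.P j l g ≠ 0 := by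
      intro h0
      have := hn1 l g h5
      rw [hs, h0, mul_zero, mul_zero] at this
      exact this rfl
    have e : X.cr (j + 1) i l a g = X.cr j i l a g *
        (X.P j i l * X.P j a g / (X.P j i a * X.P j l g)) := by
      unfold CycData.cr
      rw [hs, hs, hs, hs]
      have r1 := hρ i
      have r2 := hρ l
      have r3 := hρ a
      have r4 := hρ g
      field_simp
    rw [e]
    exact h9

theorem cr_last {N k : ℕ} (X : CycData v N k) (i l a g : ZMod N) (hd : D4 i l a g) :
    X.cr k i l a g = X.cr 0 (i + 1) (l + 1) (a + 1) (g + 1) := by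
  obtain ⟨h1, h2, h3, h4, h5, h6⟩ := hd
  obtain ⟨c, ρ, hc, hρ, hs⟩ := X.last
  have hn := X.ne 0 (Nat.zero_le k)
  have e1 : i + 1 ≠ a + 1 := fun h => h2 (add_right_cancel h)
  have e2 : l + 1 ≠ g + 1 := fun h => h5 (add_right_cancel h)
  have hW1 := hn _ _ e1
  have hW2 := hn _ _ e2
  unfold CycData.cr
  rw [hs, hs, hs, hs]
  have r1 := hρ i
  have r2 := hρ l
  have r3 := hρ a
  have r4 := hρ g
  field_simp

end NearShiftAux

theorem near_shift {K : Type} [Field K] (v : AbsoluteValue K ℝ) (hv : IsNonarchimedean v)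
    {N k : ℕ} (X : CycData v N k) (i l a g : ZMod N) (hd : D4 i l a g)
    (h : ∀ j < k, ∀ n : ZMod N,
      v (X.W j (i + n) (g + n)) < X.M j (i + n) (g + n) ∨
      v (X.W j (l + n) (a + n)) < X.M j (l + n) (a + n)) (n : ℕ) :
    Near v (X.cr 0 (i + n) (l + n) (a + n) (g + n)) (X.cr 0 i l a g) := by
  induction n with
  | zero =>
    rw [Nat.cast_zero, add_zero, add_zero, add_zero, add_zero]
    apply NearShiftAux.near_refl
    obtain ⟨h1, h2, h3, h4, h5, h6⟩ := hd
    unfold CycData.cr
    have hn := X.ne 0 (Nat.zero_le k)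
    exact div_ne_zero (mul_ne_zero (hn i l h1) (hn a g h6)) (mul_ne_zero (hn i a h2) (hn l g h5))
  | succ n ih =>
    have hD : D4 (i + (n : ZMod N)) (l + (n : ZMod N)) (a + (n : ZMod N)) (g + (n : ZMod N)) := by
      obtain ⟨h1, h2, h3, h4, h5, h6⟩ := hd
      exact ⟨fun h => h1 (add_right_cancel h), fun h => h2 (add_right_cancel h),
        fun h => h3 (add_right_cancel h), fun h => h4 (add_right_cancel h),
        fun h => h5 (add_right_cancel h), fun h => h6 (add_right_cancel h)⟩
    have h1 := NearShiftAux.cr_near v hv X _ _ _ _ hD (fun j hj => h j hj (n : ZMod N)) k le_rfl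
    rw [NearShiftAux.cr_last v hv X _ _ _ _ hD] at h1
    have h2 := NearShiftAux.near_trans v hv h1 ih
    have e : ∀ s : ZMod N, s + ((n + 1 : ℕ) : ZMod N) = s + (n : ZMod N) + 1 := by
      intro s
      push_cast
      ring
    rw [e, e, e, e]
    exact h2

end Pool.Agent.MP90787a.J
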