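import Mathlib
import Pool.Agent.Lib.MP_90787a_nt.J.Defs

/-!
# MP_90787a_nt: the quotient of consecutive subgroups is killed by `p`
-/

set_option autoImplicit false

namespace Pool.Agent.MP90787a.J

namespace PTorsionAux

section delta

variable {G : Type} [AddCommGroup G] {δ : G → ℝ}

omit [AddCommGroup G] in
theorem ne_of_lt {x y : G} (h : δ x < δ y) : x ≠ y := fun e => by
  rw [e] at h
  exact lt_irrefl _ h

/-- isosceles triangles, difference -/
theorem iso_sub (hneg : ∀ c, δ (-c) = δ c) (hu : Ultra δ) {x y : G} (hx : x ≠ 0) (hy : y ≠ 0)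
    (h : δ x < δ y) : δ (y - x) = δ y := by
  have hne : y - x ≠ 0 := fun e => ne_of_lt h (sub_eq_zero.1 e).symm
  apply le_antisymm
  · have h1 := hu y (-x) hy (neg_ne_zero.2 hx) (by rwa [← sub_eq_add_neg])
    rw [← sub_eq_add_neg, hneg, max_eq_left h.le] at h1
    exact h1
  · have h1 := hu (y - x) x hne hx (by rwa [sub_add_cancel])
    rw [sub_add_cancel] at h1
    rcases le_max_iff.1 h1 with h2 | h2
    · exact h2
    · exact absurd h (not_lt.2 h2)

/-- isosceles triangles, sum -/
theorem iso_add (hneg : ∀ c, δ (-c) = δ c) (hu : Ultra δ) {x y : G} (hx : x ≠ 0) (hy : y ≠ 0)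
    (h : δ x < δ y) : δ (y + x) = δ y := by
  have := iso_sub hneg hu (neg_ne_zero.2 hx) hy (by rwa [hneg])
  rwa [sub_neg_eq_add] at this

/-- multiples -/
theorem nsmul_le (hu : Ultra δ) {c : G} (hc : c ≠ 0) (m : ℕ) : m • c = 0 ∨ δ (m • c) ≤ δ c := by
  induction m with
  | zero => left; simp
  | succ m ih =>
    by_cases h0 : (m + 1) • c = 0
    · exact Or.inl h0
    · right
      rw [succ_nsmul] at h0 ⊢
      rcases ih with ih | ih
      · rw [ih, zero_add]
      · by_cases hm : m • c = 0
        · rw [hm, zero_add]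
        · exact (hu _ _ hm hc h0).trans (max_le ih le_rfl)

end delta

section near

variable {K : Type} [Field K] (v : AbsoluteValue K ℝ)

theorem v_sub_lt (hv : IsNonarchimedean v) {x y : K} {r : ℝ} (hx : v x < r) (hy : v y < r) :
    v (x - y) < r := by
  have := hv x (-y)
  rw [← sub_eq_add_neg, v.map_neg] at this
  exact this.trans_lt (max_lt hx hy)

theorem v_add_lt (hv : IsNonarchimedean v) {x y : K} {r : ℝ} (hx : v x < r) (hy : v y < r) :
    v (x + y) < r :=
  (hv x y).trans_lt (max_lt hx hy)

theorem v_eq_one (hv : IsNonarchimedean v) {c : K} (h : v (1 - c) < 1) : v c ≤ 1 := by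
  have h1 : c = 1 + (-(1 - c)) := by ring
  rw [h1]
  refine (hv _ _).trans (max_le ?_ ?_)
  · rw [v.map_one]
  · rw [v.map_neg]; exact h.le

theorem one_sub_mul (hv : IsNonarchimedean v) {c d : K} (h : v (1 - c) < 1) (h' : v (1 - d) < 1) :
    v (1 - c * d) < 1 := by
  have e : 1 - c * d = (1 - c) + c * (1 - d) := by ring
  rw [e]
  refine v_add_lt v hv h ?_
  rw [v.map_mul]
  exact (mul_le_of_le_one_left (v.nonneg _) (v_eq_one v hv h)).trans_lt h'

/-- `1 - n / d` when `d - n = e` -/
theorem one_sub_div {n d e : K} (hd : d ≠ 0) (h : d - n = e) (hlt : v e < v d) :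
    v (1 - n / d) < 1 := by
  have : 1 - n / d = e / d := by
    rw [← h]
    field_simp
  rw [this, map_div₀, div_lt_one (v.pos hd)]
  exact hlt

end near

end PTorsionAux

open PTorsionAux in
theorem p_torsion {K : Type} [Field K] (v : AbsoluteValue K ℝ) (hv : IsNonarchimedean v) (p : ℕ)
    (hp : v (p : K) < 1) {G : Type} [AddCommGroup G] (W : G → G → K) (γ δ : G → ℝ)
    (hγ : ∀ i, 0 < γ i) (hpos : ∀ c, 0 < δ c) (hneg : ∀ c, δ (-c) = δ c) (hu : Ultra δ)
    (hanti : ∀ i l, W i l = - W l i)
    (hpl : ∀ i l a b, W i l * W a b - W i a * W l b + W i b * W l a = 0)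
    (hW : ∀ i l, i ≠ l → v (W i l) = γ i * γ l * δ (i - l))
    (r : ℝ) (a z : G) (ha : a ≠ 0) (hz : z ≠ 0) (hra : r < δ a) (haz : δ a < δ z)
    (hnear : ∀ b n : G, b ≠ 0 → δ b = r →
      Near v (W n (n + b) * W (n + a) (n + z) / (W n (n + a) * W (n + b) (n + z)))
        (W 0 b * W a z / (W 0 a * W b z)))
    (c : G) (hc : c ≠ 0) (hcr : δ c ≤ r) : p • c = 0 ∨ δ (p • c) < r := by
  rcases lt_or_eq_of_le hcr with hlt | heq
  · rcases nsmul_le hu hc p with h | h
    · exact Or.inl h
    · exact Or.inr (h.trans_lt hlt)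
  by_cases hpc : p • c = 0
  · exact Or.inl hpc
  right
  have hr : 0 < r := heq ▸ hpos c
  have hWd : ∀ i, W i i = 0 := by
    intro i
    have h := hpl i i i i
    have h2 : W i i * W i i = 0 := by linear_combination h
    exact mul_self_eq_zero.1 h2
  have hWne : ∀ i l, i ≠ l → W i l ≠ 0 := by
    intro i l hil h0
    have h := hW i l hil
    rw [h0, v.map_zero] at h
    exact absurd h (mul_pos (mul_pos (hγ i) (hγ l)) (hpos _)).ne
  -- the subgroup
  have hSz : ∀ s : G, (s = 0 ∨ δ s ≤ r) → s ≠ z := by
    rintro s (h | h) e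
    · exact hz (e ▸ h)
    · rw [e] at h; linarith
  have hSa : ∀ s : G, (s = 0 ∨ δ s ≤ r) → s ≠ a := by
    rintro s (h | h) e
    · exact ha (e ▸ h)
    · rw [e] at h; linarith
  have hδsz : ∀ s : G, (s = 0 ∨ δ s ≤ r) → δ (s - z) = δ z := by
    intro s hs
    rw [← hneg, neg_sub]
    by_cases h0 : s = 0
    · rw [h0, sub_zero]
    · exact iso_sub hneg hu h0 hz (((hs.resolve_left h0).trans_lt hra).trans haz)
  have hδsa : ∀ s : G, (s = 0 ∨ δ s ≤ r) → δ (s - a) = δ a := by
    intro s hs
    rw [← hneg, neg_sub]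
    by_cases h0 : s = 0
    · rw [h0, sub_zero]
    · exact iso_sub hneg hu h0 ha ((hs.resolve_left h0).trans_lt hra)
  have hδsa' : ∀ s : G, (s = 0 ∨ δ s ≤ r) → δ (s + a) = δ a := by
    intro s hs
    rw [add_comm]
    by_cases h0 : s = 0
    · rw [h0, add_zero]
    · exact iso_add hneg hu h0 ha ((hs.resolve_left h0).trans_lt hra)
  have hδaz : δ (a - z) = δ z := by
    rw [← hneg, neg_sub]
    exact iso_sub hneg hu ha hz haz
  have haz' : a ≠ z := ne_of_lt haz
  have hδ0z : δ (0 - z) = δ z := by rw [zero_sub, hneg]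
  have hδ0a : δ (0 - a) = δ a := by rw [zero_sub, hneg]
  obtain ⟨t, ht⟩ : ∃ t : G → K, ∀ s, t s = W 0 s * W a z / (W 0 a * W s z) := ⟨_, fun _ => rfl⟩
  have hdiff : ∀ s s' : G, (s = 0 ∨ δ s ≤ r) → (s' = 0 ∨ δ s' ≤ r) →
      t s' - t s = W a z / W 0 a * W 0 z * W s s' / (W s' z * W s z) := by
    intro s s' hs hs'
    have h1 := hWne s z (hSz s hs)
    have h2 := hWne s' z (hSz s' hs')
    have h3 := hWne 0 a (Ne.symm ha)
    have h4 := hpl 0 s' s z
    have h5 := hanti s s'
    rw [ht, ht]
    field_simp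
    rw [h5]
    linear_combination W a z * h4
  have hvt : ∀ s s' : G, (s = 0 ∨ δ s ≤ r) → (s' = 0 ∨ δ s' ≤ r) → s ≠ s' →
      v (t s' - t s) = δ (s - s') / δ a := by
    intro s s' hs hs' hne
    rw [hdiff s s' hs hs']
    simp only [map_div₀, v.map_mul]
    rw [hW a z haz', hW 0 a (Ne.symm ha), hW 0 z (Ne.symm hz), hW s s' hne,
      hW s' z (hSz s' hs'), hW s z (hSz s hs), hδaz, hδ0a, hδ0z, hδsz s' hs', hδsz s hs]
    have := hγ 0
    have := hγ a
    have := hγ z
    have := hγ s
    have := hγ s'
    have := hpos a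
    have := hpos z
    field_simp
  have ht0 : t 0 = 0 := by rw [ht, hWd]; simp
  have hvt' : ∀ s : G, s ≠ 0 → δ s ≤ r → v (t s) = δ s / δ a := by
    intro s hs hs'
    have := hvt 0 s (Or.inl rfl) (Or.inr hs') (Ne.symm hs)
    rwa [ht0, sub_zero, zero_sub, hneg] at this
  -- the key step
  have key : ∀ b s : G, b ≠ 0 → δ b = r → (s = 0 ∨ δ s ≤ r) →
      v (t (b + s) - t s - t b) < r / δ a := by
    intro b s hb hbr hs
    by_cases h0 : s = 0
    · rw [h0, ht0, add_zero, sub_zero, sub_self, v.map_zero]
      exact div_pos hr (hpos a)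
    have hsr : δ s ≤ r := hs.resolve_left h0
    have hbs : b + s = 0 ∨ δ (b + s) ≤ r := by
      by_cases h : b + s = 0
      · exact Or.inl h
      · exact Or.inr ((hu b s hb h0 h).trans (max_le hbr.le hsr))
    have hbS : b = 0 ∨ δ b ≤ r := Or.inr hbr.le
    have hsb : s ≠ b + s := fun e => hb (by simpa using e.symm)
    have hsaz : s + a ≠ z := fun e => by
      have := hδsa' s hs
      rw [e] at this
      linarith
    have hδsaz : δ (s + a - z) = δ z := by
      rw [← hneg, neg_sub]
      refine iso_sub hneg hu ?_ hz ?_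
      · intro e
        exact hSa (-s) (Or.inr ((hneg s).le.trans hsr)) (by rw [← sub_eq_zero, ← neg_eq_zero]; rw [← e]; abel)
      · rw [hδsa' s hs]; exact haz
    have e1 := hWne 0 a (Ne.symm ha)
    have e2 := hWne 0 z (Ne.symm hz)
    have e3 := hWne s z (hSz s hs)
    have e4 := hWne s a (hSa s hs)
    have e5 := hWne a z haz'
    have e6 := hWne (s + a) z hsaz
    have hssa : s ≠ s + a := fun e => ha (by simpa using e)
    have e7 := hWne s (s + a) hssa
    have hsasz : s + a ≠ s + z := fun e => haz' (add_left_cancel e)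
    have e8 := hWne (s + a) (s + z) hsasz
    have hbsz : b + s ≠ s + z := fun e => hSz b hbS (by
      rw [add_comm] at e; exact add_left_cancel e)
    have e9 := hWne (b + s) (s + z) hbsz
    have e10 := hWne (b + s) z (hSz _ hbs)
    have e11 := hWne s (b + s) hsb
    -- three principal units
    have c1 : v (1 - W 0 a * W s z / (W s a * W 0 z)) < 1 := by
      refine one_sub_div v (mul_ne_zero e4 e2) (e := - (W 0 s * W a z)) ?_ ?_
      · linear_combination hpl 0 s a z
      · rw [v.map_neg, v.map_mul, v.map_mul, hW 0 s (Ne.symm h0), hW a z haz',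
          hW s a (hSa s hs), hW 0 z (Ne.symm hz), hδaz, hδ0z, hδsa s hs, zero_sub, hneg]
        have h1 := hγ 0
        have h2 := hγ s
        have h3 := hγ a
        have h4 := hγ z
        have h5 := hpos z
        have h6 : δ s < δ a := hsr.trans_lt hra
        have : 0 < γ 0 * γ s * (γ a * γ z) * δ z := by positivity
        nlinarith [mul_lt_mul_of_pos_left h6 this]
    have c2 : v (1 - W s a * W (s + a) z / (W s (s + a) * W a z)) < 1 := by
      refine one_sub_div v (mul_ne_zero e7 e5) (e := - (W s z * W (s + a) a)) ?_ ?_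
      · linear_combination hpl s (s + a) a z
      · have hsaa : s + a ≠ a := fun e => h0 (by simpa using e)
        rw [v.map_neg, v.map_mul, v.map_mul, hW s z (hSz s hs), hW (s + a) a hsaa,
          hW s (s + a) hssa, hW a z haz', hδaz, hδsz s hs]
        have e12 : s + a - a = s := by abel
        have e13 : s - (s + a) = -a := by abel
        rw [e12, e13, hneg]
        have h2 := hγ s
        have h3 := hγ a
        have h4 := hγ z
        have h1 := hγ (s + a)
        have h5 := hpos z
        have h6 : δ s < δ a := hsr.trans_lt hra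
        have : 0 < γ (s + a) * γ s * (γ a * γ z) * δ z := by positivity
        nlinarith [mul_lt_mul_of_pos_left h6 this]
    have c3 : v (1 - W (s + a) (s + z) * W (b + s) z / (W (s + a) z * W (b + s) (s + z))) < 1 := by
      refine one_sub_div v (mul_ne_zero e6 e9) (e := W (s + a) (b + s) * W z (s + z)) ?_ ?_
      · linear_combination - hpl (s + a) (b + s) z (s + z)
      · have hab : s + a ≠ b + s := fun e => hSa b hbS (by
          rw [add_comm b s] at e; exact (add_left_cancel e).symm)
        have hzsz : z ≠ s + z := fun e => h0 (by simpa using e.symm)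
        rw [v.map_mul, v.map_mul, hW (s + a) (b + s) hab, hW z (s + z) hzsz,
          hW (s + a) z hsaz, hW (b + s) (s + z) hbsz, hδsaz]
        have e12 : s + a - (b + s) = - (b - a) := by abel
        have e13 : z - (s + z) = -s := by abel
        have e14 : b + s - (s + z) = b - z := by abel
        rw [e12, e13, e14, hneg, hneg, hδsa b hbS, hδsz b hbS]
        have h2 := hγ (b + s)
        have h3 := hγ (s + a)
        have h4 := hγ z
        have h1 := hγ (s + z)
        have h5 := hpos z
        have h7 := hpos a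
        have h8 := hpos s
        have h6 : δ s < δ z := (hsr.trans_lt hra).trans haz
        have h9 : δ a * δ s < δ z * δ z := mul_lt_mul'' haz h6 h7.le h8.le
        have : 0 < γ (b + s) * γ (s + a) * (γ z * γ (s + z)) := by positivity
        nlinarith [mul_lt_mul_of_pos_left h9 this]
    have c123 := one_sub_mul v hv (one_sub_mul v hv c1 c2) c3
    have hT := hdiff s (b + s) hs hbs
    have hvT := hvt s (b + s) hs hbs hsb
    have e15 : s - (b + s) = -b := by abel
    rw [e15, hneg, hbr] at hvT
    have hN := hnear b s hb hbr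
    rw [← ht b] at hN
    unfold Near at hN
    rw [hvt' b hb hbr.le, hbr, add_comm s b] at hN
    have hBk : W s (b + s) * W (s + a) (s + z) / (W s (s + a) * W (b + s) (s + z)) =
        (t (b + s) - t s) * (W 0 a * W s z / (W s a * W 0 z) *
          (W s a * W (s + a) z / (W s (s + a) * W a z)) *
          (W (s + a) (s + z) * W (b + s) z / (W (s + a) z * W (b + s) (s + z)))) := by
      rw [hT]
      field_simp
    have h1 : v ((t (b + s) - t s) -
        W s (b + s) * W (s + a) (s + z) / (W s (s + a) * W (b + s) (s + z))) < r / δ a := by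
      rw [hBk]
      have e16 : ∀ x y : K, x - x * y = x * (1 - y) := fun x y => by ring
      rw [e16, v.map_mul, hvT]
      exact mul_lt_of_lt_one_right (div_pos hr (hpos a)) c123
    have e17 : t (b + s) - t s - t b = ((t (b + s) - t s) -
        W s (b + s) * W (s + a) (s + z) / (W s (s + a) * W (b + s) (s + z))) +
        (W s (b + s) * W (s + a) (s + z) / (W s (s + a) * W (b + s) (s + z)) - t b) := by ring
    rw [e17]
    exact v_add_lt v hv h1 hN
  -- induction
  have hmS : ∀ m : ℕ, m • c = 0 ∨ δ (m • c) ≤ r := by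
    intro m
    rcases nsmul_le hu hc m with h | h
    · exact Or.inl h
    · exact Or.inr (h.trans hcr)
  have hind : ∀ m : ℕ, v (t (m • c) - (m : K) * t c) < r / δ a := by
    intro m
    induction m with
    | zero =>
      rw [zero_nsmul, ht0, Nat.cast_zero, zero_mul, sub_zero, v.map_zero]
      exact div_pos hr (hpos a)
    | succ m ih =>
      have h1 := key c (m • c) hc heq (hmS m)
      have e : t ((m + 1) • c) - ((m + 1 : ℕ) : K) * t c =
          (t (c + m • c) - t (m • c) - t c) + (t (m • c) - (m : K) * t c) := by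
        rw [succ_nsmul, add_comm (m • c) c]
        push_cast
        ring
      rw [e]
      exact v_add_lt v hv h1 ih
  have hfin : v (t (p • c)) < r / δ a := by
    have h1 := hind p
    have h2 : v ((p : K) * t c) < r / δ a := by
      rw [v.map_mul, hvt' c hc hcr, heq]
      exact mul_lt_of_lt_one_left (div_pos hr (hpos a)) hp
    have e : t (p • c) = (t (p • c) - (p : K) * t c) + (p : K) * t c := by ring
    rw [e]
    exact v_add_lt v hv h1 h2
  rw [hvt' (p • c) hpc ((hmS p).resolve_left hpc)] at hfin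
  exact (div_lt_div_iff_of_pos_right (hpos a)).1 hfin

end Pool.Agent.MP90787a.J
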