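import Mathlib
import Pool.Agent.Lib.MP_90787a_nt.J.Defs2

/-!
# MP_90787a_nt: cross ratios are preserved around a cycle
-/

set_option autoImplicit false

namespace Pool.Agent.MP90787a.J

namespace PreserveAux

theorem d4_add {N : ℕ} {i l a b : ZMod N} (h : D4 i l a b) (n : ZMod N) :
    D4 (i + n) (l + n) (a + n) (b + n) := by
  obtain ⟨h1, h2, h3, h4, h5, h6⟩ := h
  refine ⟨?_, ?_, ?_, ?_, ?_, ?_⟩ <;> intro h0 <;> have := add_right_cancel h0 <;> contradiction

theorem d4_swap {N : ℕ} {i l a b : ZMod N} (h : D4 i l a b) : D4 i b a l := by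
  obtain ⟨h1, h2, h3, h4, h5, h6⟩ := h
  exact ⟨h3, h2, h1, h6.symm, h5.symm, h4.symm⟩

/-- The real cross ratio at stage `j`. -/
noncomputable def R {N : ℕ} (w : ℕ → ZMod N → ZMod N → ℝ) (j : ℕ) (i l a b : ZMod N) : ℝ :=
  w j i l * w j a b / (w j i b * w j l a)

theorem one {N : ℕ} [NeZero N] (k : ℕ) (w M : ℕ → ZMod N → ZMod N → ℝ) (e : ℕ → ℕ)
    (c : ℕ → ℝ) (ρ : ℕ → ZMod N → ℝ) (c' : ℝ) (μ : ZMod N → ℝ)
    (he : ∀ j < k, 1 ≤ e j) (hc : ∀ j < k, 0 < c j) (hρ : ∀ j < k, ∀ i, 0 < ρ j i)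
    (hc' : 0 < c') (hμ : ∀ i, 0 < μ i)
    (hw : ∀ j ≤ k, ∀ i l, i ≠ l → 0 < w j i l)
    (hM : ∀ j < k, ∀ i l, i ≠ l → 0 < M j i l)
    (hstep : ∀ j < k, ∀ i l, i ≠ l →
      w (j + 1) i l = c j * ρ j i * ρ j l * (w j i l * M j i l ^ e j))
    (hexch : ∀ j < k, ∀ i l a b, D4 i l a b → w j i b * w j l a ≤ w j i l * w j a b →
      M j i b * M j l a ≤ M j i l * M j a b)
    (hend : ∀ i l, i ≠ l → w k i l = c' * μ i * μ l * w 0 (i + 1) (l + 1))
    (i l a b : ZMod N) (hd : D4 i l a b) (h0 : w 0 i b * w 0 l a ≤ w 0 i l * w 0 a b) :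
    (∀ j < k, M j i l * M j a b = M j i b * M j l a) ∧
    (∀ j ≤ k, R w j i l a b = R w 0 i l a b) ∧
    R w 0 (i + 1) (l + 1) (a + 1) (b + 1) = R w 0 i l a b := by
  -- positivity
  have hpos : ∀ j ≤ k, ∀ i l a b, D4 i l a b → 0 < w j i l * w j a b ∧ 0 < w j i b * w j l a := by
    intro j hj i l a b hd
    obtain ⟨h1, h2, h3, h4, h5, h6⟩ := hd
    exact ⟨mul_pos (hw j hj _ _ h1) (hw j hj _ _ h6), mul_pos (hw j hj _ _ h3) (hw j hj _ _ h4)⟩
  -- one step
  have hR : ∀ j < k, ∀ i l a b, D4 i l a b →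
      R w (j + 1) i l a b =
        R w j i l a b * ((M j i l * M j a b) / (M j i b * M j l a)) ^ e j := by
    intro j hj i l a b hd
    have hp := hpos j hj.le i l a b hd
    obtain ⟨h1, h2, h3, h4, h5, h6⟩ := hd
    unfold R
    rw [hstep j hj i l h1, hstep j hj a b h6, hstep j hj i b h3, hstep j hj l a h4]
    have := hc j hj
    have := hρ j hj i
    have := hρ j hj l
    have := hρ j hj a
    have := hρ j hj b
    have := hw j hj.le i l h1
    have := hw j hj.le a b h6
    have := hw j hj.le i b h3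
    have := hw j hj.le l a h4
    have := hM j hj i l h1
    have := hM j hj a b h6
    have := hM j hj i b h3
    have := hM j hj l a h4
    rw [div_pow, mul_pow, mul_pow]
    field_simp
  have hone : ∀ j ≤ k, ∀ i l a b, D4 i l a b → 1 ≤ R w j i l a b →
      w j i b * w j l a ≤ w j i l * w j a b := by
    intro j hj i l a b hd h
    have hp := hpos j hj i l a b hd
    unfold R at h
    rwa [le_div_iff₀ hp.2, one_mul] at h
  have hX : ∀ j < k, ∀ i l a b, D4 i l a b → 1 ≤ R w j i l a b →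
      1 ≤ (M j i l * M j a b) / (M j i b * M j l a) := by
    intro j hj i l a b hd h
    have h1 := hexch j hj i l a b hd (hone j hj.le i l a b hd h)
    have : 0 < M j i b * M j l a := mul_pos (hM j hj _ _ hd.2.2.1) (hM j hj _ _ hd.2.2.2.1)
    rwa [le_div_iff₀ this, one_mul]
  -- monotone in j
  have hmono1 : ∀ j < k, ∀ i l a b, D4 i l a b → 1 ≤ R w j i l a b →
      R w j i l a b ≤ R w (j + 1) i l a b := by
    intro j hj i l a b hd h
    rw [hR j hj i l a b hd]
    have h1 := hX j hj i l a b hd h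
    have h2 : 1 ≤ ((M j i l * M j a b) / (M j i b * M j l a)) ^ e j := one_le_pow₀ h1
    nlinarith
  have hmono : ∀ i l a b, D4 i l a b → 1 ≤ R w 0 i l a b →
      ∀ j ≤ k, ∀ j' ≤ j, 1 ≤ R w j' i l a b ∧ R w j' i l a b ≤ R w j i l a b := by
    intro i l a b hd h j
    induction j with
    | zero =>
      intro _ j' hj'
      have : j' = 0 := by omega
      subst this
      exact ⟨h, le_refl _⟩
    | succ j ih =>
      intro hj j' hj'
      have ih' := ih (by omega)
      have hj1 := (ih' j le_rfl).1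
      have hm := hmono1 j (by omega) i l a b hd hj1
      rcases Nat.lt_or_ge j' (j + 1) with hlt | hge
      · have := ih' j' (by omega)
        exact ⟨this.1, this.2.trans hm⟩
      · have : j' = j + 1 := by omega
        subst this
        exact ⟨hj1.trans hm, le_refl _⟩
  -- the end
  have hlast : ∀ i l a b, D4 i l a b →
      R w k i l a b = R w 0 (i + 1) (l + 1) (a + 1) (b + 1) := by
    intro i l a b hd
    obtain ⟨h1, h2, h3, h4, h5, h6⟩ := hd
    unfold R
    rw [hend i l h1, hend a b h6, hend i b h3, hend l a h4]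
    have hne : ∀ x y : ZMod N, x ≠ y → 0 < w 0 (x + 1) (y + 1) := fun x y hxy =>
      hw 0 (Nat.zero_le _) _ _ (fun h => hxy (add_right_cancel h))
    have := hne i l h1
    have := hne a b h6
    have := hne i b h3
    have := hne l a h4
    have := hμ i
    have := hμ l
    have := hμ a
    have := hμ b
    field_simp
  -- once around the cycle
  have hZ : ∀ i l a b, D4 i l a b → 1 ≤ R w 0 i l a b → ∀ n : ℕ,
      R w 0 i l a b ≤ R w 0 (i + n) (l + n) (a + n) (b + n) := by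
    intro i l a b hd h n
    induction n with
    | zero => simp
    | succ n ih =>
      have hdn := d4_add hd (n : ZMod N)
      have h1 := (hmono _ _ _ _ hdn (h.trans ih) k le_rfl 0 (Nat.zero_le _)).2
      rw [hlast _ _ _ _ hdn] at h1
      refine ih.trans ?_
      have e1 : ∀ x : ZMod N, x + ((n + 1 : ℕ) : ZMod N) = x + n + 1 := by
        intro x; push_cast; ring
      rw [e1, e1, e1, e1]
      exact h1
  have hp0 := hpos 0 (Nat.zero_le _) i l a b hd
  have hR0 : 1 ≤ R w 0 i l a b := by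
    unfold R
    rw [le_div_iff₀ hp0.2, one_mul]
    exact h0
  have hNpos : 0 < N := Nat.pos_of_ne_zero (NeZero.ne N)
  have hk0 : R w k i l a b ≤ R w 0 i l a b := by
    have hd1 := d4_add hd (1 : ZMod N)
    have h1 := (hmono _ _ _ _ hd hR0 k le_rfl 0 (Nat.zero_le _)).2
    rw [hlast _ _ _ _ hd] at h1 ⊢
    have h2 := hZ _ _ _ _ hd1 (hR0.trans h1) (N - 1)
    have e1 : ∀ x : ZMod N, x + 1 + ((N - 1 : ℕ) : ZMod N) = x := by
      intro x
      rw [Nat.cast_sub hNpos, ZMod.natCast_self]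
      push_cast
      ring
    rw [e1, e1, e1, e1] at h2
    exact h2
  have hall : ∀ j ≤ k, R w j i l a b = R w 0 i l a b := by
    intro j hj
    apply le_antisymm
    · exact (hmono _ _ _ _ hd hR0 k le_rfl j hj).2.trans hk0
    · exact (hmono _ _ _ _ hd hR0 j hj 0 (Nat.zero_le _)).2
  refine ⟨?_, hall, ?_⟩
  · intro j hj
    have hRj1 := (hmono _ _ _ _ hd hR0 j hj.le j le_rfl).1
    have h1 := hX j hj i l a b hd hRj1
    have h2 := hR j hj i l a b hd
    rw [hall (j + 1) hj, ← hall j hj.le] at h2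
    have h3 : ((M j i l * M j a b) / (M j i b * M j l a)) ^ e j = 1 := by
      have : 0 < R w j i l a b := lt_of_lt_of_le one_pos hRj1
      have h4 : R w j i l a b * 1 =
        R w j i l a b * ((M j i l * M j a b) / (M j i b * M j l a)) ^ e j := by
        rw [mul_one]; exact h2
      exact (mul_left_cancel₀ this.ne' h4).symm
    have h4 : (M j i l * M j a b) / (M j i b * M j l a) = 1 := by
      have he' := he j hj
      exact (pow_eq_one_iff_of_nonneg (le_trans zero_le_one h1) (by omega)).1 h3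
    have : 0 < M j i b * M j l a := mul_pos (hM j hj _ _ hd.2.2.1) (hM j hj _ _ hd.2.2.2.1)
    rwa [div_eq_one_iff_eq this.ne'] at h4
  · rw [← hlast _ _ _ _ hd]
    exact hall k le_rfl

end PreserveAux

open PreserveAux in
theorem preserved {N : ℕ} [NeZero N] (k : ℕ) (w M : ℕ → ZMod N → ZMod N → ℝ) (e : ℕ → ℕ)
    (c : ℕ → ℝ) (ρ : ℕ → ZMod N → ℝ) (c' : ℝ) (μ : ZMod N → ℝ)
    (he : ∀ j < k, 1 ≤ e j) (hc : ∀ j < k, 0 < c j) (hρ : ∀ j < k, ∀ i, 0 < ρ j i)
    (hc' : 0 < c') (hμ : ∀ i, 0 < μ i)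
    (hw : ∀ j ≤ k, ∀ i l, i ≠ l → 0 < w j i l)
    (hM : ∀ j < k, ∀ i l, i ≠ l → 0 < M j i l)
    (hws : ∀ j ≤ k, ∀ i l, w j i l = w j l i) (hMs : ∀ j < k, ∀ i l, M j i l = M j l i)
    (hstep : ∀ j < k, ∀ i l, i ≠ l →
      w (j + 1) i l = c j * ρ j i * ρ j l * (w j i l * M j i l ^ e j))
    (hexch : ∀ j < k, ∀ i l a b, D4 i l a b → w j i b * w j l a ≤ w j i l * w j a b →
      M j i b * M j l a ≤ M j i l * M j a b)
    (hend : ∀ i l, i ≠ l → w k i l = c' * μ i * μ l * w 0 (i + 1) (l + 1)) :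
    (∀ j < k, ∀ i l a b, D4 i l a b → M j i l * M j a b = M j i b * M j l a) ∧
    (∀ j ≤ k, ∀ i l a b, D4 i l a b →
      w j i l * w j a b * (w 0 i b * w 0 l a) = w j i b * w j l a * (w 0 i l * w 0 a b)) ∧
    (∀ i l a b, D4 i l a b → w 0 (i + 1) (l + 1) * w 0 (a + 1) (b + 1) * (w 0 i b * w 0 l a) =
      w 0 (i + 1) (b + 1) * w 0 (l + 1) (a + 1) * (w 0 i l * w 0 a b)) := by
  have key : ∀ i l a b, D4 i l a b →
      (∀ j < k, M j i l * M j a b = M j i b * M j l a) ∧
      (∀ j ≤ k,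
        w j i l * w j a b * (w 0 i b * w 0 l a) = w j i b * w j l a * (w 0 i l * w 0 a b)) ∧
      (w 0 (i + 1) (l + 1) * w 0 (a + 1) (b + 1) * (w 0 i b * w 0 l a) =
        w 0 (i + 1) (b + 1) * w 0 (l + 1) (a + 1) * (w 0 i l * w 0 a b)) := by
    have conv : ∀ j ≤ k, ∀ i l a b i' l' a' b', D4 i l a b → D4 i' l' a' b' →
        R w j i' l' a' b' = R w 0 i l a b →
        w j i' l' * w j a' b' * (w 0 i b * w 0 l a) =
          w j i' b' * w j l' a' * (w 0 i l * w 0 a b) := by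
      intro j hj i l a b i' l' a' b' hd hd' h
      unfold R at h
      have h1 : 0 < w j i' b' * w j l' a' := mul_pos (hw j hj _ _ hd'.2.2.1) (hw j hj _ _ hd'.2.2.2.1)
      have h2 : 0 < w 0 i b * w 0 l a :=
        mul_pos (hw 0 (Nat.zero_le _) _ _ hd.2.2.1) (hw 0 (Nat.zero_le _) _ _ hd.2.2.2.1)
      rw [div_eq_div_iff h1.ne' h2.ne'] at h
      rw [h]; ring
    intro i l a b hd
    rcases le_total (w 0 i b * w 0 l a) (w 0 i l * w 0 a b) with h0 | h0
    · obtain ⟨g1, g2, g3⟩ := one k w M e c ρ c' μ he hc hρ hc' hμ hw hM hstep hexch hend i l a b hd h0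
      exact ⟨g1, fun j hj => conv j hj i l a b i l a b hd hd (g2 j hj),
        conv 0 (Nat.zero_le _) i l a b _ _ _ _ hd (d4_add hd 1) g3⟩
    · have hd' := d4_swap hd
      have h0' : w 0 i l * w 0 b a ≤ w 0 i b * w 0 a l := by
        rw [hws 0 (Nat.zero_le _) b a, hws 0 (Nat.zero_le _) a l]; exact h0
      obtain ⟨g1, g2, g3⟩ :=
        one k w M e c ρ c' μ he hc hρ hc' hμ hw hM hstep hexch hend i b a l hd' h0'
      refine ⟨?_, ?_, ?_⟩
      · intro j hj
        have := g1 j hj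
        rw [hMs j hj a l, hMs j hj b a] at this
        exact this.symm
      · intro j hj
        have := conv j hj i b a l i b a l hd' hd' (g2 j hj)
        rw [hws j hj a l, hws j hj b a, hws 0 (Nat.zero_le _) a l,
          hws 0 (Nat.zero_le _) b a] at this
        exact this.symm
      · have := conv 0 (Nat.zero_le _) i b a l _ _ _ _ hd' (d4_add hd' 1) g3
        rw [hws 0 (Nat.zero_le _) (a + 1) (l + 1), hws 0 (Nat.zero_le _) (b + 1) (a + 1),
          hws 0 (Nat.zero_le _) a l, hws 0 (Nat.zero_le _) b a] at this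
        exact this.symm
  exact ⟨fun j hj i l a b hd => (key i l a b hd).1 j hj,
    fun j hj i l a b hd => (key i l a b hd).2.1 j hj,
    fun i l a b hd => (key i l a b hd).2.2⟩

end Pool.Agent.MP90787a.J
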