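import Pool.Agent.Lib.MP_90787a_nt.J.Defs

/-!
Module J4: the ultrametric inequality from the four point condition.
-/

set_option autoImplicit false

namespace Pool.Agent.MP90787a.J

namespace UltraFourAux

theorem step {G : Type} [AddCommGroup G] [Finite G] (δ : G → ℝ) (hpos : ∀ c, 0 < δ c)
    (hneg : ∀ c, δ (-c) = δ c)
    (h4 : ∀ i l a b, D4 i l a b →
      δ (i - l) * δ (a - b) ≤ max (δ (i - a) * δ (l - b)) (δ (i - b) * δ (l - a))) :
    ∀ (n : ℕ) (H : AddSubgroup G), (H : Set G).ncard ≤ n → ∀ s ∈ H, ∀ t ∈ H, s ≠ 0 → t ≠ 0 →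
      s + t ≠ 0 → δ (s + t) ≤ max (δ s) (δ t) := by
  intro n
  induction n with
  | zero =>
    intro H hH s hs
    exfalso
    have h1 : (H : Set G).ncard = 0 := Nat.le_zero.mp hH
    rw [Set.ncard_eq_zero (Set.toFinite _)] at h1
    have : s ∈ (H : Set G) := hs
    rw [h1] at this
    exact this
  | succ n ih =>
    intro H hH s hs t ht hs0 ht0 hst0
    obtain ⟨m, hm, hmax⟩ := Set.exists_max_image {c : G | c ∈ H ∧ c ≠ 0} δ (Set.toFinite _)
      ⟨s, hs, hs0⟩
    have hstR : δ (s + t) ≤ δ m := hmax _ ⟨H.add_mem hs ht, hst0⟩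
    by_cases h1 : δ s < δ m
    swap
    · exact hstR.trans ((not_lt.mp h1).trans (le_max_left _ _))
    by_cases h2 : δ t < δ m
    swap
    · exact hstR.trans ((not_lt.mp h2).trans (le_max_right _ _))
    let H' : AddSubgroup G :=
      { carrier := {c | c ∈ H ∧ (c = 0 ∨ δ c < δ m)}
        zero_mem' := ⟨H.zero_mem, Or.inl rfl⟩
        neg_mem' := by
          rintro c ⟨hc, hc'⟩
          refine ⟨H.neg_mem hc, ?_⟩
          rcases hc' with hc' | hc'
          · exact Or.inl (by rw [hc', neg_zero])
          · exact Or.inr (by rw [hneg]; exact hc')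
        add_mem' := by
          rintro x y ⟨hx, hx'⟩ ⟨hy, hy'⟩
          refine ⟨H.add_mem hx hy, ?_⟩
          by_cases hx0 : x = 0
          · rw [hx0, zero_add]
            exact hy'
          by_cases hy0 : y = 0
          · rw [hy0, add_zero]
            exact hx'
          by_cases hxy : x + y = 0
          · exact Or.inl hxy
          right
          have hxR : δ x < δ m := hx'.resolve_left hx0
          have hyR : δ y < δ m := hy'.resolve_left hy0
          by_contra hcon
          have hge : δ m ≤ δ (x + y) := not_lt.mp hcon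
          have heq : δ (x + y) = δ m := le_antisymm (hmax _ ⟨H.add_mem hx hy, hxy⟩) hge
          have hd : D4 (0 : G) (x + y) y (y + (x + y)) := by
            refine ⟨Ne.symm hxy, Ne.symm hy0, ?_, ?_, ?_, ?_⟩
            · intro h
              have h5 : x + y = -y := by
                rw [eq_neg_iff_add_eq_zero, add_comm (x + y) y]
                exact h.symm
              rw [h5, hneg] at heq
              exact absurd heq hyR.ne
            · intro h
              rw [h] at heq
              exact absurd heq hyR.ne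
            · intro h
              exact hy0 (right_eq_add.mp h)
            · intro h
              exact hxy (left_eq_add.mp h)
          have h6 := h4 _ _ _ _ hd
          have e1 : (0 : G) - (x + y) = -(x + y) := zero_sub _
          have e2 : y - (y + (x + y)) = -(x + y) := by abel
          have e3 : (0 : G) - y = -y := zero_sub _
          have e4 : (x + y) - (y + (x + y)) = -y := by abel
          have e5 : (0 : G) - (y + (x + y)) = -(y + (x + y)) := zero_sub _
          have e6 : (x + y) - y = x := by abel
          rw [e1, e2, e3, e4, e5, e6, hneg, hneg, hneg, heq] at h6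
          have hy4 : y + (x + y) ≠ 0 := Ne.symm hd.2.2.1
          have h7 : δ (y + (x + y)) ≤ δ m :=
            hmax _ ⟨H.add_mem hy (H.add_mem hx hy), hy4⟩
          have h8 : δ y * δ y < δ m * δ m :=
            mul_lt_mul'' hyR hyR (hpos y).le (hpos y).le
          have h9 : δ (y + (x + y)) * δ x < δ m * δ m :=
            mul_lt_mul' h7 hxR (hpos x).le (hpos m)
          exact absurd h6 (not_le.mpr (max_lt h8 h9)) }
    have hlt : (H' : Set G).ncard < (H : Set G).ncard := by
      refine Set.ncard_lt_ncard ?_ (Set.toFinite _)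
      refine ⟨fun c hc => hc.1, fun hsub => ?_⟩
      have h3 : m ∈ (H' : Set G) := hsub hm.1
      rcases h3.2 with h3 | h3
      · exact hm.2 h3
      · exact lt_irrefl _ h3
    exact ih H' (by omega) s ⟨hs, Or.inr h1⟩ t ⟨ht, Or.inr h2⟩ hs0 ht0 hst0

end UltraFourAux

theorem ultra_of_four {G : Type} [AddCommGroup G] [Finite G] (δ : G → ℝ) (hpos : ∀ c, 0 < δ c)
    (hneg : ∀ c, δ (-c) = δ c)
    (h4 : ∀ i l a b, D4 i l a b →
      δ (i - l) * δ (a - b) ≤ max (δ (i - a) * δ (l - b)) (δ (i - b) * δ (l - a))) :
    Ultra δ := by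
  intro s t hs ht hst
  exact UltraFourAux.step δ hpos hneg h4 _ ⊤ le_rfl s (AddSubgroup.mem_top s) t
    (AddSubgroup.mem_top t) hs ht hst

end Pool.Agent.MP90787a.J
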