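import Mathlib
import Pool.Agent.Lib.MP_90787a_nt.J.Defs
import Pool.Agent.Lib.MP_90787a_nt.J.Preserve
import Pool.Agent.Lib.MP_90787a_nt.J.Separable
import Pool.Agent.Lib.MP_90787a_nt.J.Delta
import Pool.Agent.Lib.MP_90787a_nt.J.UltraFour
import Pool.Agent.Lib.MP_90787a_nt.J.BadPairs
import Pool.Agent.Lib.MP_90787a_nt.J.NearShift
import Pool.Agent.Lib.MP_90787a_nt.J.PTorsion
import Pool.Agent.Lib.MP_90787a_nt.J.IndexBound
import Pool.Agent.Lib.MP_90787a_nt.J.Chain

/-!
# MP_90787a_nt: the local theorem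

A cycle of a composition of `k` maps which are injective and non-contracting at `v` has length
`a p ^ j` with `a ≤ (q + 1) ^ (2 k + 2)`.
-/

set_option autoImplicit false

namespace Pool.Agent.MP90787a.J

namespace LocalAux

/-- `r'` is the next value of `δ` above `r`. -/
def IsSucc (V : Finset ℝ) (r r' : ℝ) : Prop := r' ∈ V ∧ r < r' ∧ ∀ s ∈ V, r < s → r' ≤ s

theorem exists_succ (V : Finset ℝ) (r s : ℝ) (hs : s ∈ V) (hrs : r < s) :
    ∃ r', IsSucc V r r' := by
  classical
  have hne : (V.filter (fun t => r < t)).Nonempty := ⟨s, by simp [hs, hrs]⟩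
  refine ⟨(V.filter (fun t => r < t)).min' hne, ?_, ?_, ?_⟩
  · exact (Finset.mem_filter.1 (Finset.min'_mem _ hne)).1
  · exact (Finset.mem_filter.1 (Finset.min'_mem _ hne)).2
  · intro t ht hrt
    exact Finset.min'_le _ _ (by simp [ht, hrt])

/-- the bad values of one stage -/
theorem card_bad {G : Type} [AddCommGroup G] (δ β : G → ℝ) (V : Finset ℝ)
    (hkey : ∀ r₁ r₁' r₂ r₂', BadPair δ β r₁ r₁' → BadPair δ β r₂ r₂' → r₁ ≤ r₂')
    (B : Finset ℝ) (hB : ∀ r ∈ B, ∃ r', IsSucc V r r' ∧ BadPair δ β r r') (hBV : B ⊆ V) :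
    B.card ≤ 2 := by
  classical
  by_contra hcon
  push Not at hcon
  obtain ⟨x, y, z, hx, hy, hz, hxy, hxz, hyz⟩ := Finset.two_lt_card_iff.1 hcon
  -- any two different elements are consecutive
  have hcons : ∀ r₁ ∈ B, ∀ r₂ ∈ B, r₂ < r₁ → IsSucc V r₂ r₁ := by
    intro r₁ h₁ r₂ h₂ h
    obtain ⟨r₁', -, hb₁⟩ := hB r₁ h₁
    obtain ⟨r₂', hs₂, hb₂⟩ := hB r₂ h₂
    have h3 := hkey r₁ r₁' r₂ r₂' hb₁ hb₂
    have h4 := hs₂.2.2 r₁ (hBV h₁) h
    have h5 : r₂' = r₁ := le_antisymm h4 h3
    rw [← h5]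
    exact hs₂
  have hthree : ∀ a ∈ B, ∀ b ∈ B, ∀ c ∈ B, a < b → b < c → False := by
    intro a ha b hb c hc hab hbc
    have h1 := hcons c hc a ha (hab.trans hbc)
    have h2 := h1.2.2 b (hBV hb) hab
    linarith
  rcases lt_or_gt_of_ne hxy with h1 | h1 <;> rcases lt_or_gt_of_ne hxz with h2 | h2 <;>
    rcases lt_or_gt_of_ne hyz with h3 | h3
  · exact hthree x hx y hy z hz h1 h3
  · exact hthree x hx z hz y hy h2 h3
  · exact hthree x hx y hy z hz h1 h3
  · exact hthree z hz x hx y hy h2 h1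
  · exact hthree y hy x hx z hz h1 h2
  · exact hthree y hy x hx z hz h1 h2
  · exact hthree y hy z hz x hx h3 h2
  · exact hthree z hz y hy x hx h3 h1

end LocalAux

open LocalAux

theorem local_period {K : Type} [Field K] (v : AbsoluteValue K ℝ) (hv : IsNonarchimedean v)
    (p q : ℕ) (hp : p.Prime) (hpv : v (p : K) < 1) (h2 : 2 ≤ q) (hq : ResBound v q)
    {N k : ℕ} (_hN : 0 < N) (X : CycData v N k) :
    ∃ a j : ℕ, N = a * p ^ j ∧ a ≤ (q + 1) ^ (2 * k + 2) := by
  classical
  by_cases hN4 : N < 4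
  · refine ⟨N, 0, by simp, ?_⟩
    have h1 : (q + 1) ^ 2 ≤ (q + 1) ^ (2 * k + 2) := Nat.pow_le_pow_right (by omega) (by omega)
    nlinarith
  push Not at hN4
  have : NeZero N := ⟨by omega⟩

  have hcard : 3 ≤ Nat.card (ZMod N) := by rw [Nat.card_zmod]; omega
  -- constants
  choose! c ρ hc hρ hstep using X.step
  obtain ⟨c', μ, hc', hμ, hlast⟩ := X.last
  have hsymW : ∀ j i l, v (X.W j i l) = v (X.W j l i) := by
    intro j i l
    rw [X.anti j i l, map_neg_eq_map]
  obtain ⟨hM4, hw4, hsh⟩ := preserved k (fun j i l => v (X.W j i l)) X.M X.e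
    (fun j => v (c j)) (fun j i => v (ρ j i)) (v c') (fun i => v (μ i)) X.he
    (fun j hj => v.pos (hc j hj)) (fun j hj i => v.pos (hρ j hj i)) (v.pos hc')
    (fun i => v.pos (hμ i)) (fun j hj i l hil => v.pos (X.ne j hj i l hil)) X.pos
    (fun j _ i l => hsymW j i l) X.Msymm
    (by
      intro j hj i l _
      show v (X.W (j + 1) i l) = _
      rw [hstep j hj i l, map_mul, map_mul, map_mul, map_mul, X.norm j hj i l])
    (fun j hj i l a b _ h => X.exch j hj i l a b h)
    (by
      intro i l _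
      show v (X.W k i l) = _
      rw [hlast i l, map_mul, map_mul, map_mul])
  obtain ⟨γ, δ, hγ, hδ, hneg, hW0⟩ := exists_delta hN4 (fun i l => v (X.W 0 i l))
    (fun i l hil => v.pos (X.ne 0 (Nat.zero_le _) i l hil)) (fun i l => hsymW 0 i l) hsh
  -- ultrametric inequality
  have hu : Ultra δ := by
    apply ultra_of_four δ hδ hneg
    intro i l a b hd
    obtain ⟨h1, h2', h3, h4, h5, h6⟩ := hd
    have hpl := X.pl i l a b
    have e1 : X.W 0 i l * X.W 0 a b = X.W 0 i a * X.W 0 l b + - (X.W 0 i b * X.W 0 l a) := by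
      linear_combination hpl
    have e2 : v (X.W 0 i l * X.W 0 a b) ≤
        max (v (X.W 0 i a * X.W 0 l b)) (v (X.W 0 i b * X.W 0 l a)) := by
      rw [e1]
      refine (hv _ _).trans ?_
      rw [map_neg_eq_map]
    simp only [map_mul] at e2
    rw [hW0 i l h1, hW0 a b h6, hW0 i a h2', hW0 l b h5, hW0 i b h3, hW0 l a h4] at e2
    have hpos : 0 < γ i * γ l * γ a * γ b :=
      mul_pos (mul_pos (mul_pos (hγ i) (hγ l)) (hγ a)) (hγ b)
    have q1 : γ i * γ l * δ (i - l) * (γ a * γ b * δ (a - b)) =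
        γ i * γ l * γ a * γ b * (δ (i - l) * δ (a - b)) := by ring
    have q2 : γ i * γ a * δ (i - a) * (γ l * γ b * δ (l - b)) =
        γ i * γ l * γ a * γ b * (δ (i - a) * δ (l - b)) := by ring
    have q3 : γ i * γ b * δ (i - b) * (γ l * γ a * δ (l - a)) =
        γ i * γ l * γ a * γ b * (δ (i - b) * δ (l - a)) := by ring
    rw [q1, q2, q3, ← mul_max_of_nonneg _ _ hpos.le] at e2
    exact le_of_mul_le_mul_left e2 hpos
  -- the stages
  have hγj : ∀ j, j < k → ∃ g : ZMod N → ℝ, (∀ i, 0 < g i) ∧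
      ∀ i l, i ≠ l → v (X.W j i l) = g i * g l * δ (i - l) := by
    intro j hj
    obtain ⟨f, hf, hfe⟩ := separable hcard
      (fun i l => if i = l then 1 else v (X.W j i l) / v (X.W 0 i l))
      (by
        intro i l hil
        simp only [hil, if_false]
        exact div_pos (v.pos (X.ne j hj.le i l hil)) (v.pos (X.ne 0 (Nat.zero_le _) i l hil)))
      (by
        intro i l
        by_cases h : i = l
        · subst h; rfl
        · simp only [h, Ne.symm h, if_false, hsymW j i l, hsymW 0 i l])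
      (by
        intro i l a b hd
        obtain ⟨h1, h2', h3, h4, h5, h6⟩ := id hd
        have hh := hw4 j hj.le i l a b hd
        simp only [h1, h6, h3, h4, if_false]
        have n1 := (v.pos (X.ne 0 (Nat.zero_le _) i l h1)).ne'
        have n2 := (v.pos (X.ne 0 (Nat.zero_le _) a b h6)).ne'
        have n3 := (v.pos (X.ne 0 (Nat.zero_le _) i b h3)).ne'
        have n4 := (v.pos (X.ne 0 (Nat.zero_le _) l a h4)).ne'
        rw [div_mul_div_comm, div_mul_div_comm, div_eq_div_iff (mul_ne_zero n1 n2)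
          (mul_ne_zero n3 n4)]
        exact hh)
    refine ⟨fun i => f i * γ i, fun i => mul_pos (hf i) (hγ i), ?_⟩
    intro i l hil
    have h3 := hfe i l hil
    simp only [hil, if_false] at h3
    have n1 := (v.pos (X.ne 0 (Nat.zero_le _) i l hil)).ne'
    rw [div_eq_iff n1, hW0 i l hil] at h3
    rw [h3]
    ring
  choose! g hg hgW using hγj
  have hhj : ∀ j, j < k → ∃ h : ZMod N → ℝ, (∀ i, 0 < h i) ∧
      ∀ i l, i ≠ l → X.M j i l = h i * h l := by
    intro j hj
    exact separable hcard (X.M j) (X.pos j hj) (X.Msymm j hj) (hM4 j hj)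
  choose! h hh hhM using hhj
  let β : ℕ → ZMod N → ℝ := fun j i => h j i / g j i
  have hβ : ∀ j, j < k → ∀ i, 0 < β j i := fun j hj i => div_pos (hh j hj i) (hg j hj i)
  have hlt : ∀ j, j < k → ∀ i l, i ≠ l →
      (v (X.W j i l) < X.M j i l ↔ δ (i - l) < β j i * β j l) := by
    intro j hj i l hil
    rw [hgW j hj i l hil, hhM j hj i l hil]
    have p1 := hg j hj i
    have p2 := hg j hj l
    show _ ↔ δ (i - l) < h j i / g j i * (h j l / g j l)
    rw [div_mul_div_comm, lt_div_iff₀ (mul_pos p1 p2)]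
    constructor <;> intro h' <;> linarith
  have hle : ∀ j, j < k → ∀ i l, i ≠ l → δ (i - l) ≤ β j i * β j l := by
    intro j hj i l hil
    have h1 := X.le j hj i l
    rw [hgW j hj i l hil, hhM j hj i l hil] at h1
    have p1 := hg j hj i
    have p2 := hg j hj l
    show δ (i - l) ≤ h j i / g j i * (h j l / g j l)
    rw [div_mul_div_comm, le_div_iff₀ (mul_pos p1 p2)]
    linarith
  have hkey : ∀ j, j < k → ∀ r₁ r₁' r₂ r₂', BadPair δ (β j) r₁ r₁' → BadPair δ (β j) r₂ r₂' →
      r₁ ≤ r₂' := by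
    intro j hj r₁ r₁' r₂ r₂' hb₁ hb₂
    refine bad_pairs δ (β j) hδ (hβ j hj) hneg hu (hle j hj) ?_ r₁ r₁' r₂ r₂' hb₁ hb₂
    intro i l a hil hla hia h1 h2'
    rw [← hlt j hj i a hia]
    exact X.trans j hj i l a ((hlt j hj i l hil).2 h1) ((hlt j hj l a hla).2 h2')
  -- the values
  let V : Finset ℝ := (Finset.univ.filter (fun x : ZMod N => x ≠ 0)).image δ
  have hV : ∀ r, r ∈ V ↔ ∃ x, x ≠ 0 ∧ δ x = r := by
    intro r
    simp [V]
  let Bj : ℕ → Finset ℝ := fun j => V.filter (fun r => ∃ r', IsSucc V r r' ∧ BadPair δ (β j) r r')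
  have hBj : ∀ j, j < k → (Bj j).card ≤ 2 := by
    intro j hj
    exact card_bad δ (β j) V (hkey j hj) (Bj j) (fun r hr => (Finset.mem_filter.1 hr).2)
      (Finset.filter_subset _ _)
  -- the two top values
  let T : Finset ℝ := V.filter (fun r => ¬ ∃ r' s, IsSucc V r r' ∧ s ∈ V ∧ r' < s)
  have hT : T.card ≤ 2 := by
    by_contra hcon
    push Not at hcon
    obtain ⟨x, y, z, hx, hy, hz, hxy, hxz, hyz⟩ := Finset.two_lt_card_iff.1 hcon
    have hthree : ∀ a ∈ T, ∀ b ∈ T, ∀ c ∈ T, a < b → b < c → False := by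
      intro a ha b hb c hc hab hbc
      have hbV : b ∈ V := (Finset.mem_filter.1 hb).1
      have hcV : c ∈ V := (Finset.mem_filter.1 hc).1
      obtain ⟨r', hr'⟩ := exists_succ V a b hbV hab
      exact (Finset.mem_filter.1 ha).2 ⟨r', c, hr', hcV, (hr'.2.2 b hbV hab).trans_lt hbc⟩
    rcases lt_or_gt_of_ne hxy with h1 | h1 <;> rcases lt_or_gt_of_ne hxz with h2 | h2 <;>
      rcases lt_or_gt_of_ne hyz with h3 | h3
    · exact hthree x hx y hy z hz h1 h3
    · exact hthree x hx z hz y hy h2 h3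
    · exact hthree x hx y hy z hz h1 h3
    · exact hthree z hz x hx y hy h2 h1
    · exact hthree y hy x hx z hz h1 h2
    · exact hthree y hy x hx z hz h1 h2
    · exact hthree y hy z hz x hx h3 h2
    · exact hthree z hz y hy x hx h3 h1
  let Bd : Finset ℝ := T ∪ (Finset.range k).biUnion Bj
  have hBd : Bd.card ≤ 2 * k + 2 := by
    have h1 := Finset.card_union_le T ((Finset.range k).biUnion Bj)
    have h2 : ((Finset.range k).biUnion Bj).card ≤ (Finset.range k).card * 2 :=
      Finset.card_biUnion_le_card_mul _ _ _ (fun j hj => hBj j (Finset.mem_range.1 hj))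
    rw [Finset.card_range] at h2
    show (T ∪ (Finset.range k).biUnion Bj).card ≤ _
    omega
  refine chain p q (2 * k + 2) hp δ hneg hu Bd hBd ?_ ?_
  · intro r T' hT'
    exact index_bound v q h2 hq (X.W 0) γ δ hγ hδ (X.anti 0) X.pl hW0 r T' hT'
  · intro r hr hrB
    have hrV : r ∈ V := (hV r).2 hr
    have hrT : r ∉ T := fun h' => hrB (Finset.mem_union_left _ h')
    have hrT' : ∃ r' s, IsSucc V r r' ∧ s ∈ V ∧ r' < s := by
      by_contra hcon
      exact hrT (Finset.mem_filter.2 ⟨hrV, hcon⟩)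
    obtain ⟨r', s, hs, hsV, hrs⟩ := hrT'
    obtain ⟨a, ha, har⟩ := (hV r').1 hs.1
    obtain ⟨z, hz, hzs⟩ := (hV s).1 hsV
    have hbad : ∀ j, j < k → ¬ BadPair δ (β j) r r' := by
      intro j hj hb
      apply hrB
      refine Finset.mem_union_right _ (Finset.mem_biUnion.2 ⟨j, Finset.mem_range.2 hj, ?_⟩)
      exact Finset.mem_filter.2 ⟨hrV, r', hs, hb⟩
    have hra : r < δ a := by rw [har]; exact hs.2.1
    have haz : δ a < δ z := by rw [har, hzs]; exact hrs
    intro x hx hxr
    refine p_torsion v hv p hpv (X.W 0) γ δ hγ hδ hneg hu (X.anti 0) X.pl hW0 r a z ha hz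
      hra haz ?_ x hx hxr
    intro b n hb hbr
    have hba : b ≠ a := by
      rintro rfl
      rw [hbr] at hra
      exact lt_irrefl _ hra
    have hbz : b ≠ z := by
      rintro rfl
      rw [hbr] at haz
      linarith
    have haz' : a ≠ z := by
      rintro rfl
      exact lt_irrefl _ haz
    have hd : D4 (0 : ZMod N) b a z := ⟨Ne.symm hb, Ne.symm ha, Ne.symm hz, hba, hbz, haz'⟩
    have hnear := near_shift v hv X 0 b a z hd (by
      intro j hj m
      by_contra hcon
      push Not at hcon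
      obtain ⟨h1, h3⟩ := hcon
      apply hbad j hj
      have hzm : (0 : ZMod N) + m ≠ z + m := fun h' => hz (add_right_cancel h').symm
      have hbam : b + m ≠ a + m := fun h' => hba (add_right_cancel h')
      have e1 : ¬ (δ (0 + m - (z + m)) < β j (0 + m) * β j (z + m)) := by
        rw [← hlt j hj _ _ hzm]
        exact not_lt.2 h1
      have e3 : ¬ (δ (b + m - (a + m)) < β j (b + m) * β j (a + m)) := by
        rw [← hlt j hj _ _ hbam]
        exact not_lt.2 h3
      have f1 := le_antisymm (not_lt.1 e1) (hle j hj _ _ hzm) 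
      have f3 := le_antisymm (not_lt.1 e3) (hle j hj _ _ hbam)
      have g1 : δ (0 + m - (z + m)) = δ z := by
        rw [show (0 : ZMod N) + m - (z + m) = -z by ring, hneg]
      have g3 : δ (b + m - (a + m)) = δ (a - b) := by
        rw [show b + m - (a + m) = -(a - b) by ring, hneg]
      refine ⟨m, b, a, z, hb, ha, hz, hbr, har, hs.2.1, ?_, ?_, ?_⟩
      · rw [hzs]; exact hrs
      · rw [← g1, ← f1, zero_add, add_comm z m]
      · rw [← g3, ← f3, add_comm b m, add_comm a m]) n.val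
    have hn : ((n.val : ℕ) : ZMod N) = n := ZMod.natCast_zmod_val n
    rw [hn] at hnear
    unfold CycData.cr at hnear
    rw [zero_add] at hnear
    rw [add_comm n b, add_comm n a, add_comm n z]
    exact hnear

end Pool.Agent.MP90787a.J
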