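import Mathlib
import Pool.Agent.Lib.MP_90787a_nt.J.Defs2

/-!
# MP_90787a_nt: normal form of compositions
-/

set_option autoImplicit false

namespace Pool.Agent.MP90787a.J

namespace NormalFormAux

/-- A Möbius transformation can be absorbed on the left of a normal form. -/
theorem nf_smul {K : Type} [Field K] [DecidableEq K] {D k d : ℕ} {F : OnePoint K → OnePoint K}
    (hF : NF D k d F) (g : GL (Fin 2) K) : NF D k d (fun x => g • F x) := by
  cases hF with
  | base g' =>
    have h : (fun x : OnePoint K => g • (g' • x)) = fun x => (g * g') • x := by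
      funext x
      rw [mul_smul]
    rw [h]
    exact NF.base (g * g')
  | snoc hF' hE g' =>
    rename_i k' d' m F' E
    have h : (fun x : OnePoint K => g • (g' • E (F' x))) = fun x => (g * g') • E (F' x) := by
      funext x
      rw [mul_smul]
    rw [h]
    exact NF.snoc hF' hE (g * g')

/-- Composition of normal forms. -/
theorem nf_comp {K : Type} [Field K] [DecidableEq K] {D k d : ℕ} {F : OnePoint K → OnePoint K}
    (hF : NF D k d F) {k' e : ℕ} {G : OnePoint K → OnePoint K} (hG : NF D k' e G) :
    ∃ n, NF D n (d * e) (F ∘ G) := by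
  induction hF with
  | base g =>
    refine ⟨k', ?_⟩
    rw [one_mul]
    exact nf_smul hG g
  | snoc hF' hE g' ih =>
    obtain ⟨n, hn⟩ := ih
    refine ⟨n + 1, ?_⟩
    rw [mul_assoc]
    exact NF.snoc hn hE g'

/-- Elementary maps have a normal form. -/
theorem nf_elem {K : Type} [Field K] [DecidableEq K] {D m : ℕ} {E : OnePoint K → OnePoint K}
    (hE : Elem D m E) : NF D 1 m E := by
  have h := NF.snoc (NF.base (D := D) (1 : GL (Fin 2) K)) hE (1 : GL (Fin 2) K)
  have h2 : (fun x : OnePoint K => (1 : GL (Fin 2) K) • E ((1 : GL (Fin 2) K) • x)) = E := by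
    funext x
    rw [one_smul, one_smul]
  rw [h2, mul_one] at h
  exact h

end NormalFormAux

theorem nf_of_comp {K : Type} [Field K] [DecidableEq K] (D d : ℕ) (F : OnePoint K → OnePoint K)
    (hF : Comp D d F) : ∃ k, NF D k d F := by
  induction hF with
  | mobius g => exact ⟨0, NF.base g⟩
  | power m hm h => exact ⟨1, NormalFormAux.nf_elem (Elem.power m hm h)⟩
  | dickson m a hm h => exact ⟨1, NormalFormAux.nf_elem (Elem.dickson m a hm h)⟩
  | redei m α hα hm h => exact ⟨1, NormalFormAux.nf_elem (Elem.redei m α hα hm h)⟩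
  | comp hF hG ihF ihG =>
    obtain ⟨k, hk⟩ := ihF
    obtain ⟨k', hk'⟩ := ihG
    exact NormalFormAux.nf_comp hk hk'

theorem nf_length {K : Type} [Field K] [DecidableEq K] (D k d : ℕ) (F : OnePoint K → OnePoint K)
    (hF : NF D k d F) : 2 ^ k ≤ d := by
  induction hF with
  | base g => simp
  | snoc hF' hE g ih =>
    rename_i k' d' m F' E
    have hm : 2 ≤ m := by
      cases hE with
      | power hm h => exact hm
      | dickson a hm h => exact hm
      | redei α hα hm h => exact hm
    calc 2 ^ (k' + 1) = 2 * 2 ^ k' := by ring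
      _ ≤ m * d' := Nat.mul_le_mul hm ih

theorem comp_iterate {K : Type} [Field K] [DecidableEq K] (D d : ℕ) (F : OnePoint K → OnePoint K)
    (hF : Comp D d F) (n : ℕ) : Comp D (d ^ n) (F^[n]) := by
  induction n with
  | zero =>
    have h : (F^[0]) = fun x : OnePoint K => (1 : GL (Fin 2) K) • x := by
      funext x
      rw [one_smul]
      rfl
    rw [pow_zero, h]
    exact Comp.mobius 1
  | succ n ih =>
    rw [pow_succ, Function.iterate_succ]
    exact Comp.comp ih hF

end Pool.Agent.MP90787a.J
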