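import Mathlib

/-!
MP_90787a_nt, project INJ: a prime which is a primitive root modulo all the prime divisors of `d`.
-/

set_option autoImplicit false

namespace Pool.Agent.MP90787a.J

namespace PrimesAux

theorem exists_gen (l : ℕ) (hl : l.Prime) : ∃ g : ℕ, IsUnit (g : ZMod l) ∧
    orderOf (g : ZMod l) = l - 1 := by
  have : Fact l.Prime := ⟨hl⟩
  obtain ⟨u, hu⟩ := IsCyclic.exists_generator (α := (ZMod l)ˣ)
  have h1 : orderOf u = l - 1 := by
    rw [orderOf_eq_card_of_forall_mem_zpowers hu, Nat.card_eq_fintype_card, ZMod.card_units]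
  refine ⟨(u : ZMod l).val, ?_, ?_⟩
  · rw [ZMod.natCast_zmod_val]
    exact u.isUnit
  · rw [ZMod.natCast_zmod_val, orderOf_units, h1]

end PrimesAux

open PrimesAux

theorem exists_primitive_prime (d B : ℕ) (hd : 0 < d) :
    ∃ p : ℕ, B < p ∧ p.Prime ∧ ∀ l : ℕ, l.Prime → l ∣ d →
      ∀ f : ℕ, 1 ≤ f → l ∣ p ^ f - 1 → l - 1 ∣ f := by
  classical
  have hg : ∀ l : ℕ, ∃ g : ℕ, l.Prime → IsUnit (g : ZMod l) ∧ orderOf (g : ZMod l) = l - 1 := by
    intro l
    by_cases hl : l.Prime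
    · obtain ⟨g, hg⟩ := exists_gen l hl
      exact ⟨g, fun _ => hg⟩
    · exact ⟨0, fun h => absurd h hl⟩
  choose g hg using hg
  obtain ⟨r, hr⟩ := Nat.chineseRemainderOfFinset g (fun l => l) d.primeFactors
    (fun l hl => (Nat.prime_of_mem_primeFactors hl).ne_zero)
    (fun a ha b hb hab => (Nat.coprime_primes (Nat.prime_of_mem_primeFactors ha)
      (Nat.prime_of_mem_primeFactors hb)).2 hab)
  have hL : (∏ l ∈ d.primeFactors, l) ≠ 0 :=
    Finset.prod_ne_zero_iff.2 fun l hl => (Nat.prime_of_mem_primeFactors hl).ne_zero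
  have : NeZero (∏ l ∈ d.primeFactors, l) := ⟨hL⟩
  have hcop : Nat.Coprime r (∏ l ∈ d.primeFactors, l) := by
    refine Nat.Coprime.prod_right fun l hl => ?_
    have hlp := Nat.prime_of_mem_primeFactors hl
    have h1 := (hg l hlp).1
    rw [← (ZMod.natCast_eq_natCast_iff r (g l) l).2 (hr l hl)] at h1
    exact (ZMod.isUnit_iff_coprime r l).1 h1
  obtain ⟨p, hpB, hp, hpr⟩ := Nat.forall_exists_prime_gt_and_eq_mod
    ((ZMod.isUnit_iff_coprime r (∏ l ∈ d.primeFactors, l)).2 hcop) B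
  refine ⟨p, hpB, hp, fun l hl hld f _ hlf => ?_⟩
  have hmem : l ∈ d.primeFactors := Nat.mem_primeFactors.2 ⟨hl, hld, hd.ne'⟩
  have h1 : p ≡ r [MOD l] :=
    ((ZMod.natCast_eq_natCast_iff p r _).1 hpr).of_dvd (Finset.dvd_prod_of_mem _ hmem)
  have h2 : (p : ZMod l) = (g l : ZMod l) :=
    (ZMod.natCast_eq_natCast_iff p (g l) l).2 (h1.trans (hr l hmem))
  have h3 : (p : ZMod l) ^ f = 1 := by
    have h4 : ((p ^ f - 1 : ℕ) : ZMod l) = 0 := (ZMod.natCast_eq_zero_iff _ _).2 hlf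
    rw [Nat.cast_sub (Nat.one_le_pow _ _ hp.pos), Nat.cast_pow, Nat.cast_one] at h4
    exact sub_eq_zero.1 h4
  rw [h2] at h3
  rw [← (hg l hl).2]
  exact orderOf_dvd_of_pow_eq_one h3

end Pool.Agent.MP90787a.J
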