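import Mathlib
import Pool.Agent.Lib.MP_90787a_nt.J.Defs2
import Pool.Agent.Lib.MP_90787a_nt.J.Local
import Pool.Agent.Lib.MP_90787a_nt.J.Primes
import Pool.Agent.Lib.MP_90787a_nt.J.NormalForm
import Pool.Agent.Lib.MP_90787a_nt.J.Fixed
import Pool.Agent.Lib.MP_90787a_nt.J.CycOfNF
import Pool.Agent.Lib.MP_90787a_nt.J.ExistsRes
import Pool.Agent.Lib.MP_90787a_nt.J.ResBasic
import Pool.Agent.Lib.MP_90787a_nt.J.LocOK

/-!
# MP_90787a_nt: the main theorem for the class `Comp`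
-/

set_option autoImplicit false

namespace Pool.Agent.MP90787a.J

namespace FinalAux

theorem le_of_two_primes (N p₁ p₂ a₁ a₂ j₁ j₂ A₁ A₂ : ℕ) (hp₁ : p₁.Prime) (hp₂ : p₂.Prime)
    (hne : p₁ ≠ p₂) (h₁ : N = a₁ * p₁ ^ j₁) (h₂ : N = a₂ * p₂ ^ j₂) (hA₁ : a₁ ≤ A₁)
    (hA₂ : a₂ ≤ A₂) (hN : 0 < N) : N ≤ A₁ * A₂ := by
  have hc : Nat.Coprime (p₁ ^ j₁) (p₂ ^ j₂) :=
    Nat.Coprime.pow _ _ ((Nat.coprime_primes hp₁ hp₂).2 hne)
  have hd : p₁ ^ j₁ ∣ a₂ * p₂ ^ j₂ := by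
    rw [← h₂, h₁]
    exact Dvd.intro_left _ rfl
  have hd' : p₁ ^ j₁ ∣ a₂ := hc.dvd_of_dvd_mul_right hd
  have ha₂ : 0 < a₂ := by
    rcases Nat.eq_zero_or_pos a₂ with h | h
    · rw [h, zero_mul] at h₂
      omega
    · exact h
  have hle : p₁ ^ j₁ ≤ a₂ := Nat.le_of_dvd ha₂ hd'
  calc N = a₁ * p₁ ^ j₁ := h₁
    _ ≤ A₁ * A₂ := Nat.mul_le_mul hA₁ (hle.trans hA₂)

/-- the local bound for the period of a periodic point -/
theorem period_local {K : Type} [Field K] [DecidableEq K] (v : AbsoluteValue K ℝ)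
    (hv : IsNonarchimedean v) (p q : ℕ) (hp : p.Prime) (hpv : v (p : K) < 1) (h2 : 2 ≤ q)
    (hq : ResBound v q) (D d k : ℕ) (F : OnePoint K → OnePoint K) (hF : NF D k d F)
    (hloc : LocOK v D d) (x : OnePoint K) (hx : x ∈ Function.periodicPts F) :
    ∃ a j : ℕ, Function.minimalPeriod F x = a * p ^ j ∧ a ≤ (q + 1) ^ (2 * k + 2) := by
  have hN : 0 < Function.minimalPeriod F x := Function.minimalPeriod_pos_of_mem_periodicPts hx
  set N := Function.minimalPeriod F x with hNdef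
  have : NeZero N := ⟨hN.ne'⟩
  let c : ZMod N → OnePoint K := fun i => F^[i.val] x
  have hc : Function.Injective c := by
    intro i l hil
    apply ZMod.val_injective N
    exact Function.iterate_injOn_Iio_minimalPeriod (ZMod.val_lt i) (ZMod.val_lt l) hil
  have hFc : ∀ i, F (c i) = c (i + 1) := by
    intro i
    show F (F^[i.val] x) = F^[(i + 1).val] x
    rw [← Function.iterate_succ_apply' F i.val x, ← Function.iterate_mod_minimalPeriod_eq,
      ← Function.iterate_mod_minimalPeriod_eq (n := (i + 1).val)]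
    congr 1
    rw [← hNdef]
    have h1 : ((i.val.succ : ℕ) : ZMod N) = (((i + 1).val : ℕ) : ZMod N) := by
      rw [ZMod.natCast_zmod_val, Nat.cast_succ, ZMod.natCast_zmod_val]
    exact (ZMod.natCast_eq_natCast_iff' _ _ _).1 h1
  obtain ⟨X⟩ := exists_cycData v hv D d k F hF hloc N hN c hc hFc
  exact local_period v hv p q hp hpv h2 hq hN X

end FinalAux

open FinalAux

theorem main (D d : ℕ) (hd : 2 ≤ d) :
    ∃ κ : ℕ, ∀ (K : Type) [Field K] [NumberField K] [DecidableEq K], Module.finrank ℚ K = D →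
      ∀ F : OnePoint K → OnePoint K, Comp D d F →
        {x : OnePoint K | ∃ i j : ℕ, j < i ∧ F^[i] x = F^[j] x}.encard ≤ κ := by
  obtain ⟨p₁, hdp₁, hp₁, hprim₁⟩ := exists_primitive_prime d d (by omega)
  obtain ⟨p₂, hpp₂, hp₂, hprim₂⟩ := exists_primitive_prime d p₁ (by omega)
  let A : ℕ → ℕ := fun p => (p ^ D + 1) ^ (2 * d + 2)
  let B : ℕ := A p₁ * A p₂
  refine ⟨d ^ B.factorial + 2, ?_⟩
  intro K _ _ _ hK F hF
  obtain ⟨k, hNF⟩ := nf_of_comp D d F hF
  have hkd : k ≤ d := by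
    have h1 := nf_length D k d F hNF
    have h2 := Nat.lt_two_pow_self (n := k)
    omega
  -- data at a prime
  have hdata : ∀ p : ℕ, d < p → p.Prime → (∀ l : ℕ, l.Prime → l ∣ d →
      ∀ f : ℕ, 1 ≤ f → l ∣ p ^ f - 1 → l - 1 ∣ f) →
      ∃ v : AbsoluteValue K ℝ, LocOK v D d ∧
        ∀ x ∈ Function.periodicPts F, ∃ a j : ℕ,
          Function.minimalPeriod F x = a * p ^ j ∧ a ≤ A p := by
    intro p hdp hp hprim
    obtain ⟨v, Fv, _, _, R, f, hv, hpv, hcard, hf, hfD, hext⟩ := exists_res K p hp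
    rw [hK] at hfD
    have hloc : LocOK v D d :=
      locOK_of_res v hv hext Fv R D d p f hp hdp (by omega) hcard hf hfD hprim
    refine ⟨v, hloc, ?_⟩
    intro x hx
    have hqp : p ^ f ≤ p ^ D := Nat.pow_le_pow_right hp.pos hfD
    have h2 : 2 ≤ p ^ f := by
      calc 2 ≤ p := hp.two_le
        _ = p ^ 1 := (pow_one p).symm
        _ ≤ p ^ f := Nat.pow_le_pow_right hp.pos hf
    have hres := resBound_of_res v Fv R
    rw [hcard] at hres
    obtain ⟨a, j, h1, h3⟩ := period_local v hv p (p ^ f) hp hpv h2 hres D d k F hNF hloc x hx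
    refine ⟨a, j, h1, h3.trans ?_⟩
    calc (p ^ f + 1) ^ (2 * k + 2) ≤ (p ^ D + 1) ^ (2 * k + 2) :=
          Nat.pow_le_pow_left (by omega) _
      _ ≤ (p ^ D + 1) ^ (2 * d + 2) := Nat.pow_le_pow_right (by omega) (by omega)
  obtain ⟨v₁, hloc₁, hper₁⟩ := hdata p₁ hdp₁ hp₁ hprim₁
  obtain ⟨v₂, -, hper₂⟩ := hdata p₂ (by omega) hp₂ hprim₂
  have hinj : Function.Injective F := nf_injective v₁ D d k F hNF hloc₁
  have hsub : {x : OnePoint K | ∃ i j : ℕ, j < i ∧ F^[i] x = F^[j] x} ⊆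
      {x | F^[B.factorial] x = x} := by
    rintro x ⟨i, j, hij, h⟩
    have h1 : F^[i - j] x = x := by
      apply hinj.iterate j
      rw [← Function.iterate_add_apply, Nat.add_sub_cancel' hij.le]
      exact h
    have hx : x ∈ Function.periodicPts F :=
      ⟨i - j, by omega, h1⟩
    have hN := Function.minimalPeriod_pos_of_mem_periodicPts hx
    obtain ⟨a₁, j₁, h₁, hA₁⟩ := hper₁ x hx
    obtain ⟨a₂, j₂, h₂, hA₂⟩ := hper₂ x hx
    have hle := le_of_two_primes _ p₁ p₂ a₁ a₂ j₁ j₂ (A p₁) (A p₂) hp₁ hp₂ (by omega) h₁ h₂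
      hA₁ hA₂ hN
    have hdvd : Function.minimalPeriod F x ∣ B.factorial := Nat.dvd_factorial hN hle
    exact (Function.isPeriodicPt_minimalPeriod F x).trans_dvd hdvd
  have hB : 2 ≤ d ^ B.factorial := by
    calc 2 ≤ d := hd
      _ = d ^ 1 := (pow_one d).symm
      _ ≤ d ^ B.factorial := Nat.pow_le_pow_right (by omega) (Nat.factorial_pos _)
  obtain ⟨k', hNF'⟩ := nf_of_comp D _ _ (comp_iterate D d F hF B.factorial)
  have h3 := fixed_le D k' _ _ hNF' hB
  refine (Set.encard_le_encard hsub).trans (h3.trans ?_)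
  push_cast
  exact le_refl _

end Pool.Agent.MP90787a.J
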