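import Mathlib
import Pool.Agent.Lib.MP_90787a_nt.J.Defs

/-!
# MP_90787a_nt: bicritical maps and polynomials which are invertible by radicals

A larger description of the class `Comp`: bicritical maps over `K` and polynomials over `K` which,
over an extension field, are compositions of linear polynomials, powers and Dickson polynomials.
-/

set_option autoImplicit false

namespace Pool.Agent.MP90787a.J

open Polynomial

/-- `PolyComp D d f`: the polynomial `f` over `L` is a composition of linear polynomials, of powers
`X ^ m` whose exponent `m ≥ 2` has only prime factors greater than `D + 1`, and of Dickson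
polynomials `D_m(X, a)`, `a ∈ L`, whose degree `m ≥ 2` has only prime factors greater than
`2 D + 1`; the number `d` is the product of the degrees `m`. -/
inductive PolyComp {L : Type} [Field L] (D : ℕ) : ℕ → L[X] → Prop
  | linear (a b : L) (ha : a ≠ 0) : PolyComp D 1 (C a * X + C b)
  | power (m : ℕ) (hm : 2 ≤ m) (h : ∀ l : ℕ, l.Prime → l ∣ m → D + 1 < l) :
      PolyComp D m (X ^ m)
  | dickson (m : ℕ) (a : L) (hm : 2 ≤ m) (h : ∀ l : ℕ, l.Prime → l ∣ m → 2 * D + 1 < l) :
      PolyComp D m (Polynomial.dickson 1 a m)
  | comp {d e : ℕ} {f g : L[X]} (hf : PolyComp D d f) (hg : PolyComp D e g) :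
      PolyComp D (d * e) (f.comp g)

/-- `CompG D d F`: the self-map `F` of `ℙ¹(K) = K ∪ {∞}` is a composition of
* Möbius transformations over `K`,
* bicritical maps over `K`: self-maps of `ℙ¹(K)` which over some extension field `L` of `K` have the
  form `x ↦ A • (B • x) ^ m` with `A, B ∈ GL₂(L)`, where `m ≥ 2` has only prime factors greater
  than `2 D + 1`,
* polynomials over `K` which over some extension field `L` of `K` are compositions of linear
  polynomials, powers and Dickson polynomials as in `PolyComp`;
the number `d` is the degree. -/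
inductive CompG {K : Type} [Field K] [DecidableEq K] (D : ℕ) :
    ℕ → (OnePoint K → OnePoint K) → Prop
  | mobius (g : GL (Fin 2) K) : CompG D 1 (fun x => g • x)
  | bicrit (m : ℕ) (hm : 2 ≤ m) (h : ∀ l : ℕ, l.Prime → l ∣ m → 2 * D + 1 < l)
      (F : OnePoint K → OnePoint K) (L : Type) [Field L] [DecidableEq L] [Algebra K L]
      (A B : GL (Fin 2) L)
      (hF : ∀ x : OnePoint K, OnePoint.map (algebraMap K L) (F x) =
        A • OnePoint.map (fun t : L => t ^ m) (B • OnePoint.map (algebraMap K L) x)) :
      CompG D m F
  | poly (d : ℕ) (p : K[X]) (L : Type) [Field L] [Algebra K L]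
      (hp : PolyComp D d (p.map (algebraMap K L))) :
      CompG D d (OnePoint.map (fun x => p.eval x))
  | comp {d e : ℕ} {F G : OnePoint K → OnePoint K} (hF : CompG D d F) (hG : CompG D e G) :
      CompG D (d * e) (F ∘ G)

end Pool.Agent.MP90787a.J
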