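import Mathlib
import Pool.Agent.Lib.MP_90787a_nt.J.Geom

/-!
# MP_90787a_nt: descent of polynomials from an extension field
-/

set_option autoImplicit false

namespace Pool.Agent.MP90787a.J.GeomAux

open Polynomial

variable {K L : Type} [Field K] [Field L] [Algebra K L]

/-- apply a linear functional to the coefficients -/
noncomputable def desc (φ : L →ₗ[K] K) (P : L[X]) : K[X] :=
  ∑ n ∈ P.support, monomial n (φ (P.coeff n))

theorem coeff_desc (φ : L →ₗ[K] K) (P : L[X]) (n : ℕ) : (desc φ P).coeff n = φ (P.coeff n) := by
  unfold desc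
  rw [finsetSum_coeff]
  simp only [coeff_monomial]
  rw [Finset.sum_ite_eq']
  split_ifs with h
  · rfl
  · rw [notMem_support_iff.1 h, map_zero]

theorem desc_add (φ : L →ₗ[K] K) (P Q : L[X]) : desc φ (P + Q) = desc φ P + desc φ Q := by
  ext n
  simp [coeff_desc]

theorem desc_map (φ : L →ₗ[K] K) (hφ : φ 1 = 1) (P : K[X]) :
    desc φ (P.map (algebraMap K L)) = P := by
  ext n
  rw [coeff_desc, coeff_map, Algebra.algebraMap_eq_smul_one, map_smul, hφ, smul_eq_mul, mul_one]

theorem desc_C_mul_map (φ : L →ₗ[K] K) (c : L) (P : K[X]) :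
    desc φ (C c * P.map (algebraMap K L)) = C (φ c) * P := by
  ext n
  rw [coeff_desc, coeff_C_mul, coeff_map, coeff_C_mul, mul_comm c, ← Algebra.smul_def, map_smul,
    smul_eq_mul, mul_comm]

theorem exists_functional : ∃ φ : L →ₗ[K] K, φ 1 = 1 := by
  obtain ⟨φ, hφ⟩ := LinearMap.exists_leftInverse_of_injective (Algebra.linearMap K L)
    (LinearMap.ker_eq_bot.2 (algebraMap K L).injective)
  refine ⟨φ, ?_⟩
  have := LinearMap.congr_fun hφ 1
  simpa using this

theorem desc_eval (φ : L →ₗ[K] K) (P : L[X]) (x : K) :
    (desc φ P).eval x = φ (P.eval (algebraMap K L x)) := by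
  induction P using Polynomial.induction_on' with
  | add p q hp hq => rw [desc_add, eval_add, eval_add, map_add, hp, hq]
  | monomial n a =>
    have h : desc φ (monomial n a) = monomial n (φ a) := by
      ext k
      rw [coeff_desc, coeff_monomial, coeff_monomial]
      split_ifs <;> simp
    rw [h, eval_monomial, eval_monomial, ← map_pow, mul_comm a, ← Algebra.smul_def, map_smul,
      smul_eq_mul, mul_comm]

/-- a quotient of polynomials over `L` whose values at points of `K` are in `ℙ¹(K)` has
coefficients in `K` -/
theorem descent_pair [Infinite K] (P Q : L[X]) (hP : P.Monic)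
    (hcop : IsCoprime P Q)
    (hval : ∀ x : K, ∃ u w : K, (u ≠ 0 ∨ w ≠ 0) ∧
      algebraMap K L u * Q.eval (algebraMap K L x) = algebraMap K L w * P.eval (algebraMap K L x)) :
    ∃ P₀ Q₀ : K[X], P₀.map (algebraMap K L) = P ∧ Q₀.map (algebraMap K L) = Q := by
  classical
  obtain ⟨φ, hφ⟩ := exists_functional (K := K) (L := L)
  set i := algebraMap K L with hi
  have hφi : ∀ (a : K) (b : L), φ (i a * b) = a * φ b := by
    intro a b
    rw [hi, ← Algebra.smul_def, map_smul, smul_eq_mul]
  have key : (desc φ P).map i * Q = (desc φ Q).map i * P := by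
    rw [← sub_eq_zero]
    apply Polynomial.eq_zero_of_infinite_isRoot
    apply Set.Infinite.mono (s := Set.range i)
    · rintro _ ⟨x, rfl⟩
      rw [Set.mem_ofPred_eq, IsRoot.def, eval_sub, eval_mul, eval_mul, eval_map_algebraMap,
        eval_map_algebraMap]
      have e1 : aeval (i x) (desc φ P) = i ((desc φ P).eval x) := by
        rw [hi, aeval_algebraMap_apply_eq_algebraMap_eval]
      have e2 : aeval (i x) (desc φ Q) = i ((desc φ Q).eval x) := by
        rw [hi, aeval_algebraMap_apply_eq_algebraMap_eval]
      rw [e1, e2, desc_eval, desc_eval]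
      obtain ⟨u, w, huw, h⟩ := hval x
      rw [← hi]
      by_cases hw : w = 0
      · have hu : u ≠ 0 := by
          rcases huw with h' | h'
          · exact h'
          · exact absurd hw h'
        have hiu : i u ≠ 0 := by
          rw [Ne, map_eq_zero]
          exact hu
        have hQ : Q.eval (i x) = 0 := by
          rw [hw, map_zero, zero_mul] at h
          rcases mul_eq_zero.1 h with h' | h'
          · exact absurd h' hiu
          · exact h'
        rw [hQ]
        simp
      · have hiw : i w ≠ 0 := by
          rw [Ne, map_eq_zero]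
          exact hw
        have hPx : P.eval (i x) = i (u / w) * Q.eval (i x) := by
          rw [map_div₀]
          field_simp
          rw [mul_comm, ← h]
        rw [hPx, hφi, map_mul]
        ring
    · exact Set.infinite_range_of_injective i.injective
  have hdvd : P ∣ (desc φ P).map i := by
    apply hcop.dvd_of_dvd_mul_right
    exact ⟨(desc φ Q).map i, by rw [key]; ring⟩
  have hmon : (desc φ P).map i = P := by
    have hcoeff : (desc φ P).coeff P.natDegree = 1 := by
      rw [coeff_desc, coeff_natDegree, hP.leadingCoeff, hφ]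
    have hdeg : (desc φ P).natDegree ≤ P.natDegree := by
      rw [natDegree_le_iff_coeff_eq_zero]
      intro n hn
      rw [coeff_desc, coeff_eq_zero_of_natDegree_lt hn, map_zero]
    have hm : (desc φ P).Monic := monic_of_natDegree_le_of_coeff_eq_one _ hdeg hcoeff
    have hm' : ((desc φ P).map i).Monic := hm.map i
    refine (eq_of_monic_of_dvd_of_natDegree_le hP hm' hdvd ?_)
    exact (natDegree_map_le).trans hdeg
  refine ⟨desc φ P, desc φ Q, hmon, ?_⟩
  rw [hmon] at key
  have hP0 : P ≠ 0 := hP.ne_zero
  apply mul_left_cancel₀ hP0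
  rw [key]
  ring

/-- if the high coefficients of `G ^ n` are in `K` then so are those of `G` -/
theorem descent_root [CharZero K] (G : L[X]) (hG : G.Monic) (n : ℕ) (hn : 1 ≤ n)
    (h : ∀ k, 1 ≤ k → (G ^ n).coeff ((n - 1) * G.natDegree + k) ∈ (algebraMap K L).range) :
    ∀ k, 1 ≤ k → G.coeff k ∈ (algebraMap K L).range := by
  set i := algebraMap K L with hi
  have : CharZero L := charZero_of_injective_algebraMap (algebraMap K L).injective
  -- downward induction
  have main : ∀ j k, 1 ≤ k → G.natDegree ≤ k + j → G.coeff k ∈ i.range := by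
    intro j
    induction j using Nat.strong_induction_on with
    | _ j ih =>
      intro k hk hkj
      by_cases hlt : G.natDegree < k
      · rw [coeff_eq_zero_of_natDegree_lt hlt]
        exact i.range.zero_mem
      rw [not_lt] at hlt
      by_cases heq : k = G.natDegree
      · rw [heq, coeff_natDegree, hG.leadingCoeff]
        exact i.range.one_mem
      have hke : k < G.natDegree := lt_of_le_of_ne hlt heq
      -- coefficients above `k`
      have hup : ∀ l, k < l → G.coeff l ∈ i.range := by
        intro l hl
        by_cases hj : j = 0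
        · subst hj
          omega
        · apply ih (j - 1) (by omega) l (by omega)
          omega
      -- the polynomial G1
      have hex : ∀ l, ∃ a : K, k < l → i a = G.coeff l := by
        intro l
        by_cases hl : k < l
        · obtain ⟨a, ha⟩ := hup l hl
          exact ⟨a, fun _ => ha⟩
        · exact ⟨0, fun h' => absurd h' hl⟩
      choose a ha using hex
      set G0 : K[X] := ∑ l ∈ Finset.Ioc k G.natDegree, monomial l (a l) with hG0
      have hG0c : ∀ l, (G0.map i).coeff l = if k < l then G.coeff l else 0 := by
        intro l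
        rw [coeff_map, hG0, finsetSum_coeff]
        simp only [coeff_monomial]
        rw [Finset.sum_ite_eq']
        by_cases hl : k < l
        · rw [if_pos hl]
          by_cases hl2 : l ≤ G.natDegree
          · rw [if_pos (Finset.mem_Ioc.2 ⟨hl, hl2⟩), ha l hl]
          · rw [if_neg (fun h' => hl2 (Finset.mem_Ioc.1 h').2), map_zero,
              coeff_eq_zero_of_natDegree_lt (by omega)]
        · rw [if_neg hl, if_neg (fun h' => hl (Finset.mem_Ioc.1 h').1), map_zero]
      set G1 : L[X] := G0.map i with hG1
      have hG1deg : G1.natDegree ≤ G.natDegree := by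
        rw [natDegree_le_iff_coeff_eq_zero]
        intro l hl
        rw [hG0c l]
        split_ifs
        · exact coeff_eq_zero_of_natDegree_lt hl
        · rfl
      have hG1top : G1.coeff G.natDegree = 1 := by
        rw [hG0c, if_pos hke, coeff_natDegree, hG.leadingCoeff]
      set R : L[X] := G - G1 with hR
      have hRdeg : R.natDegree ≤ k := by
        rw [natDegree_le_iff_coeff_eq_zero]
        intro l hl
        rw [hR, coeff_sub, hG0c l, if_pos hl, sub_self]
      have hRk : R.coeff k = G.coeff k := by
        rw [hR, coeff_sub, hG0c k, if_neg (lt_irrefl k), sub_zero]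
      set S : L[X] := ∑ l ∈ Finset.range n, G ^ l * G1 ^ (n - 1 - l) with hS
      have hterm : ∀ l ∈ Finset.range n, (G ^ l * G1 ^ (n - 1 - l)).natDegree ≤
          (n - 1) * G.natDegree := by
        intro l hl
        have hl' : l < n := Finset.mem_range.1 hl
        refine natDegree_mul_le.trans ?_
        have e1 : (G ^ l).natDegree ≤ l * G.natDegree := natDegree_pow_le
        have e2 : (G1 ^ (n - 1 - l)).natDegree ≤ (n - 1 - l) * G.natDegree :=
          natDegree_pow_le.trans (Nat.mul_le_mul_left _ hG1deg)
        calc (G ^ l).natDegree + (G1 ^ (n - 1 - l)).natDegree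
            ≤ l * G.natDegree + (n - 1 - l) * G.natDegree := add_le_add e1 e2
          _ = (l + (n - 1 - l)) * G.natDegree := by ring
          _ = (n - 1) * G.natDegree := by
              congr 1
              omega
      have hSdeg : S.natDegree ≤ (n - 1) * G.natDegree := by
        rw [hS]
        exact natDegree_sum_le_of_forall_le _ _ hterm
      have hScoeff : S.coeff ((n - 1) * G.natDegree) = (n : L) := by
        rw [hS, finsetSum_coeff]
        have : ∀ l ∈ Finset.range n,
            (G ^ l * G1 ^ (n - 1 - l)).coeff ((n - 1) * G.natDegree) = 1 := by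
          intro l hl
          have hl' : l < n := Finset.mem_range.1 hl
          have e0 : (n - 1) * G.natDegree = l * G.natDegree + (n - 1 - l) * G.natDegree := by
            rw [← add_mul]
            congr 1
            omega
          rw [e0, coeff_mul_add_eq_of_natDegree_le natDegree_pow_le
            (natDegree_pow_le.trans (Nat.mul_le_mul_left _ hG1deg)),
            coeff_pow_of_natDegree_le le_rfl, coeff_natDegree, hG.leadingCoeff, one_pow,
            coeff_pow_of_natDegree_le hG1deg, hG1top, one_pow, one_mul]
        rw [Finset.sum_congr rfl this]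
        simp
      have hRS : G ^ n - G1 ^ n = R * S := by
        rw [hR, hS, ← (Commute.all G G1).mul_geom_sum₂ n]
      have hc : (G ^ n).coeff ((n - 1) * G.natDegree + k) -
          (G1 ^ n).coeff ((n - 1) * G.natDegree + k) = G.coeff k * (n : L) := by
        rw [← coeff_sub, hRS, mul_comm R S, coeff_mul_add_eq_of_natDegree_le hSdeg hRdeg, hScoeff, hRk,
          mul_comm]
      have hmem : G.coeff k * (n : L) ∈ i.range := by
        rw [← hc]
        apply i.range.sub_mem (h k hk)
        rw [hG1, ← Polynomial.map_pow, coeff_map]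
        exact ⟨_, rfl⟩
      obtain ⟨b, hb⟩ := hmem
      refine ⟨b / n, ?_⟩
      have hn0 : (n : L) ≠ 0 := by
        rw [Ne, Nat.cast_eq_zero]
        omega
      rw [map_div₀, map_natCast, hb]
      field_simp
  intro k hk
  exact main G.natDegree k hk (by omega)

theorem mem_of_coeff {P : L[X]} (h : ∀ k, P.coeff k ∈ (algebraMap K L).range) :
    ∃ P₀ : K[X], P₀.map (algebraMap K L) = P := by
  have : P ∈ Polynomial.lifts (algebraMap K L) := by
    rw [Polynomial.lifts_iff_coeff_lifts]
    intro n
    exact h n
  obtain ⟨Q, hQ⟩ := (Polynomial.mem_lifts P).1 this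
  exact ⟨Q, hQ⟩

/-- descent of a decomposition -/
theorem descent_comp [CharZero K] (p : K[X]) (f g : L[X]) (hf : 1 ≤ f.natDegree)
    (hg : g.Monic) (hg1 : 1 ≤ g.natDegree) (hg0 : g.coeff 0 = 0)
    (h : f.comp g = p.map (algebraMap K L)) :
    ∃ f₀ g₀ : K[X], f₀.map (algebraMap K L) = f ∧ g₀.map (algebraMap K L) = g ∧
      f₀.comp g₀ = p := by
  classical
  set i := algebraMap K L with hi
  set n := f.natDegree with hn
  have hlead : f.leadingCoeff ∈ i.range := by
    have h1 : (f.comp g).leadingCoeff = f.leadingCoeff := by
      rw [leadingCoeff_comp (by omega), hg.leadingCoeff, one_pow, mul_one]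
    rw [← h1, h, ← coeff_natDegree, coeff_map]
    exact ⟨_, rfl⟩
  have hf0 : f.leadingCoeff ≠ 0 := by
    rw [Ne, leadingCoeff_eq_zero]
    intro h0
    rw [h0] at hn
    simp at hn
    omega
  -- coefficients of `g ^ n`
  have hpow : ∀ k, 1 ≤ k → (g ^ n).coeff ((n - 1) * g.natDegree + k) ∈ i.range := by
    intro k hk
    have e1 : f.comp g = C f.leadingCoeff * g ^ n + (f.eraseLead).comp g := by
      conv_lhs => rw [← eraseLead_add_C_mul_X_pow f]
      rw [add_comp, mul_comp, C_comp, X_pow_comp, add_comm]
    have e2 : ((f.eraseLead).comp g).coeff ((n - 1) * g.natDegree + k) = 0 := by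
      apply coeff_eq_zero_of_natDegree_lt
      rw [natDegree_comp]
      have : f.eraseLead.natDegree ≤ n - 1 := eraseLead_natDegree_le f
      calc f.eraseLead.natDegree * g.natDegree ≤ (n - 1) * g.natDegree :=
            Nat.mul_le_mul_right _ this
        _ < (n - 1) * g.natDegree + k := by omega
    have e3 : f.leadingCoeff * (g ^ n).coeff ((n - 1) * g.natDegree + k) =
        i (p.coeff ((n - 1) * g.natDegree + k)) := by
      rw [← coeff_map, ← h, e1, coeff_add, e2, add_zero, coeff_C_mul]
    obtain ⟨b, hb⟩ := hlead
    refine ⟨p.coeff ((n - 1) * g.natDegree + k) / b, ?_⟩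
    rw [map_div₀, ← e3, hb]
    field_simp
  have hgc : ∀ k, g.coeff k ∈ i.range := by
    intro k
    by_cases hk : k = 0
    · rw [hk, hg0]
      exact i.range.zero_mem
    · exact descent_root g hg n hf hpow k (by omega)
  obtain ⟨g₀, hg₀⟩ := mem_of_coeff hgc
  obtain ⟨φ, hφ⟩ := exists_functional (K := K) (L := L)
  -- compatibility of desc with composition
  have hdesc : ∀ q : L[X], desc φ (q.comp g) = (desc φ q).comp g₀ := by
    intro q
    induction q using Polynomial.induction_on' with
    | add q r hq hr => rw [add_comp, desc_add, desc_add, add_comp, hq, hr]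
    | monomial m a =>
      have h1 : desc φ (monomial m a) = C (φ a) * X ^ m := by
        ext k
        rw [coeff_desc, coeff_monomial, coeff_C_mul_X_pow]
        split_ifs with h1 h2 h2
        · rfl
        · exact absurd h1.symm h2
        · exact absurd h2.symm h1
        · simp
      rw [h1, mul_comp, C_comp, X_pow_comp, monomial_comp, ← hg₀, ← Polynomial.map_pow,
        desc_C_mul_map]
  have hp : (desc φ f).comp g₀ = p := by
    rw [← hdesc, h, desc_map φ hφ]
  refine ⟨desc φ f, g₀, ?_, hg₀, hp⟩
  have h2 : ((desc φ f).map i - f).comp g = 0 := by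
    rw [sub_comp, h, ← hg₀, ← Polynomial.map_comp, hp, sub_self]
  rcases comp_eq_zero_iff.1 h2 with h3 | ⟨-, h3⟩
  · exact sub_eq_zero.1 h3
  · exfalso
    rw [h3, natDegree_C] at hg1
    omega

end Pool.Agent.MP90787a.J.GeomAux
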