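import Mathlib
import Pool.Agent.Lib.MP_90787a_nt.J.GeomDesc

/-!
# MP_90787a_nt: bicritical maps over `K` are Möbius equivalent to Rédei functions
-/

set_option autoImplicit false

namespace Pool.Agent.MP90787a.J.GeomAux

open Polynomial

section coords

variable {K L : Type} [Field K] [Field L] [DecidableEq K] [DecidableEq L]

theorem pt_some {z : K × K} (h : z.2 ≠ 0) : pt z = ((z.1 / z.2 : K) : OnePoint K) := by
  unfold pt
  exact if_neg h

theorem pt_infty {z : K × K} (h : z.2 = 0) : pt z = OnePoint.infty := by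
  unfold pt
  exact if_pos h

theorem pt_vec (x : OnePoint K) : pt (vec x) = x := by
  cases x with
  | infty => exact pt_infty rfl
  | coe x =>
    have : vec (x : OnePoint K) = (x, 1) := rfl
    rw [this, pt_some (by simp)]
    simp

theorem map_pt (i : K →+* L) (z : K × K) : OnePoint.map i (pt z) = pt (i z.1, i z.2) := by
  by_cases h : z.2 = 0
  · rw [pt_infty h, pt_infty (by simp [h])]
    rfl
  · rw [pt_some h, pt_some (by simpa using h), OnePoint.map_some, map_div₀]

theorem map_pow_pt (m : ℕ) (hm : m ≠ 0) (z : K × K) :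
    OnePoint.map (fun t : K => t ^ m) (pt z) = pt (z.1 ^ m, z.2 ^ m) := by
  by_cases h : z.2 = 0
  · rw [pt_infty h, pt_infty (by simp [h, hm])]
    rfl
  · rw [pt_some h, pt_some (by simpa using fun h' => absurd h' h), OnePoint.map_some, div_pow]

omit [DecidableEq K] in
theorem det_ne (g : GL (Fin 2) K) : g 0 0 * g 1 1 - g 0 1 * g 1 0 ≠ 0 := by
  have := g.det_ne_zero
  rwa [Matrix.det_fin_two] at this

/-- action of a matrix on pairs -/
def act (g : GL (Fin 2) K) (z : K × K) : K × K :=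
  (g 0 0 * z.1 + g 0 1 * z.2, g 1 0 * z.1 + g 1 1 * z.2)

theorem act_ne (g : GL (Fin 2) K) {z : K × K} (hz : z.1 ≠ 0 ∨ z.2 ≠ 0) :
    (act g z).1 ≠ 0 ∨ (act g z).2 ≠ 0 := by
  by_contra hcon
  push Not at hcon
  obtain ⟨h1, h2⟩ := hcon
  have hd := det_ne g
  simp only [act] at h1 h2
  have e1 : (g 0 0 * g 1 1 - g 0 1 * g 1 0) * z.1 = 0 := by
    linear_combination g 1 1 * h1 - g 0 1 * h2
  have e2 : (g 0 0 * g 1 1 - g 0 1 * g 1 0) * z.2 = 0 := by
    linear_combination g 0 0 * h2 - g 1 0 * h1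
  rcases hz with hz | hz
  · exact (mul_ne_zero hd hz) e1
  · exact (mul_ne_zero hd hz) e2

theorem smul_pt (g : GL (Fin 2) K) (z : K × K) (hz : z.1 ≠ 0 ∨ z.2 ≠ 0) :
    g • pt z = pt (act g z) := by
  by_cases h : z.2 = 0
  · have h1 : z.1 ≠ 0 := by
      rcases hz with h' | h'
      · exact h'
      · exact absurd h h'
    rw [pt_infty h, OnePoint.smul_infty_eq_ite]
    by_cases hg : g 1 0 = 0
    · rw [if_pos hg, pt_infty (by simp [act, h, hg])]
    · rw [if_neg hg, pt_some (by simp [act, h, hg, h1])]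
      simp only [act, h, mul_zero, add_zero]
      rw [mul_div_mul_right _ _ h1]
  · rw [pt_some h, OnePoint.smul_some_eq_ite]
    have e1 : g 1 0 * (z.1 / z.2) + g 1 1 = (act g z).2 / z.2 := by
      simp only [act]
      field_simp
    have e2 : g 0 0 * (z.1 / z.2) + g 0 1 = (act g z).1 / z.2 := by
      simp only [act]
      field_simp
    by_cases hg : (act g z).2 = 0
    · rw [if_pos (by rw [e1, hg, zero_div]), pt_infty hg]
    · rw [if_neg (by rw [e1]; exact div_ne_zero hg h), pt_some hg, e1, e2,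
        div_div_div_cancel_right₀ h]

theorem wd_of_pt_eq {z w : K × K} (h : pt z = pt w) : z.1 * w.2 = z.2 * w.1 := by
  by_cases h1 : z.2 = 0
  · by_cases h2 : w.2 = 0
    · rw [h1, h2]
      ring
    · rw [pt_infty h1, pt_some h2] at h
      exact absurd h (OnePoint.infty_ne_coe _)
  · by_cases h2 : w.2 = 0
    · rw [pt_infty h2, pt_some h1] at h
      exact absurd h (OnePoint.coe_ne_infty _)
    · rw [pt_some h1, pt_some h2, OnePoint.coe_eq_coe] at h
      rw [div_eq_div_iff h1 h2] at h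
      rw [h]
      ring

theorem pt_eq_of_wd {z w : K × K} (hz : z.1 ≠ 0 ∨ z.2 ≠ 0) (hw : w.1 ≠ 0 ∨ w.2 ≠ 0)
    (h : z.1 * w.2 = z.2 * w.1) : pt z = pt w := by
  by_cases h1 : z.2 = 0
  · have hz1 : z.1 ≠ 0 := by
      rcases hz with h' | h'
      · exact h'
      · exact absurd h1 h'
    have h2 : w.2 = 0 := by
      rw [h1, zero_mul] at h
      rcases mul_eq_zero.1 h with h' | h'
      · exact absurd h' hz1
      · exact h'
    rw [pt_infty h1, pt_infty h2]
  · by_cases h2 : w.2 = 0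
    · exfalso
      rw [h2, mul_zero] at h
      rcases mul_eq_zero.1 h.symm with h' | h'
      · exact h1 h'
      · rcases hw with h'' | h''
        · exact h'' h'
        · exact h'' h2
    · rw [pt_some h1, pt_some h2, OnePoint.coe_eq_coe, div_eq_div_iff h1 h2, h]
      ring

omit [DecidableEq K] in
theorem vec_ne (x : OnePoint K) : (vec x).1 ≠ 0 ∨ (vec x).2 ≠ 0 := by
  cases x with
  | infty => exact Or.inl one_ne_zero
  | coe x => exact Or.inr one_ne_zero

end coords

section bicritical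

variable {K L : Type} [Field K] [Field L] [Algebra K L] [DecidableEq K] [DecidableEq L]

omit [DecidableEq K] [DecidableEq L] in
theorem redei_spec (α : K) (c : L) (hc : c ^ 2 = algebraMap K L α) (n : ℕ) (y : K × K) :
    (algebraMap K L y.1 + c * algebraMap K L y.2) ^ n =
      algebraMap K L (redei α n y).1 + c * algebraMap K L (redei α n y).2 := by
  induction n with
  | zero => simp [redei]
  | succ n ih =>
    rw [pow_succ, ih]
    simp only [redei, map_add, map_mul]
    rw [← hc]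
    ring

theorem redei_ne [CharZero K] (α : K) (hα : α ≠ 0) (n : ℕ) (y : K × K)
    (hy : y.1 ≠ 0 ∨ y.2 ≠ 0) : (redei α n y).1 ≠ 0 ∨ (redei α n y).2 ≠ 0 := by
  classical
  obtain ⟨c, hc⟩ := IsAlgClosed.exists_pow_nat_eq (algebraMap K (AlgebraicClosure K) α)
    (n := 2) (by norm_num)
  have hc' : (- c) ^ 2 = algebraMap K (AlgebraicClosure K) α := by rw [neg_sq, hc]
  have : CharZero (AlgebraicClosure K) := charZero_of_injective_algebraMap
    (algebraMap K (AlgebraicClosure K)).injective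
  by_contra hcon
  push Not at hcon
  obtain ⟨h1, h2⟩ := hcon
  have e1 := redei_spec α c hc n y
  have e2 := redei_spec α (-c) hc' n y
  rw [h1, h2, map_zero, mul_zero, add_zero] at e1 e2
  have e3 := eq_zero_of_pow_eq_zero e1
  have e4 := eq_zero_of_pow_eq_zero e2
  have hc0 : c ≠ 0 := by
    intro h0
    rw [h0] at hc
    simp at hc
    exact hα ((map_eq_zero _).1 hc.symm)
  have e5 : algebraMap K (AlgebraicClosure K) y.1 = 0 := by linear_combination (e3 + e4) / 2
  have e6 : algebraMap K (AlgebraicClosure K) y.2 = 0 := by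
    have : c * algebraMap K (AlgebraicClosure K) y.2 = 0 := by linear_combination (e3 - e4) / 2
    rcases mul_eq_zero.1 this with h | h
    · exact absurd h hc0
    · exact h
  rw [map_eq_zero] at e5 e6
  rcases hy with h | h
  · exact h e5
  · exact h e6

/-- the composition of a power map with Möbius transformations in coordinates -/
theorem block_pt (A B : GL (Fin 2) L) (m : ℕ) (hm : m ≠ 0) (z : L × L)
    (hz : z.1 ≠ 0 ∨ z.2 ≠ 0) :
    A • OnePoint.map (fun t : L => t ^ m) (B • pt z) =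
      pt (act A ((act B z).1 ^ m, (act B z).2 ^ m)) ∧
    ((act A ((act B z).1 ^ m, (act B z).2 ^ m)).1 ≠ 0 ∨
      (act A ((act B z).1 ^ m, (act B z).2 ^ m)).2 ≠ 0) := by
  have h1 := act_ne B hz
  have h2 : ((act B z).1 ^ m, (act B z).2 ^ m).1 ≠ 0 ∨ ((act B z).1 ^ m, (act B z).2 ^ m).2 ≠ 0 := by
    rcases h1 with h | h
    · exact Or.inl (pow_ne_zero _ h)
    · exact Or.inr (pow_ne_zero _ h)
  refine ⟨?_, act_ne A h2⟩
  rw [smul_pt B z hz, map_pow_pt m hm, smul_pt A _ h2]

omit [DecidableEq L] in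
theorem coeff_X_sub_C_pow (r : L) (n k : ℕ) :
    ((X - C r : L[X]) ^ n).coeff k = (- r) ^ (n - k) * (n.choose k : L) := by
  rw [sub_eq_add_neg, ← C_neg, coeff_X_add_C_pow]

omit [DecidableEq L] in
/-- coefficients of the difference of two powers -/
theorem coeff_diff (b c₁ c₂ : L) (m k : ℕ) :
    (C b * ((X - C c₁) ^ m - (X - C c₂) ^ m)).coeff k =
      b * ((- c₁) ^ (m - k) - (- c₂) ^ (m - k)) * (m.choose k : L) := by
  rw [coeff_C_mul, coeff_sub, coeff_X_sub_C_pow, coeff_X_sub_C_pow]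
  ring

/-- the normalised case -/
theorem bi_normal [CharZero K] {D m : ℕ} (hm : 3 ≤ m)
    (h : ∀ l : ℕ, l.Prime → l ∣ m → 2 * D + 1 < l) (F : OnePoint K → OnePoint K)
    (A B : GL (Fin 2) L)
    (hF : ∀ x : OnePoint K, OnePoint.map (algebraMap K L) (F x) =
        A • OnePoint.map (fun t : L => t ^ m) (B • OnePoint.map (algebraMap K L) x))
    (hinf : F OnePoint.infty = OnePoint.infty) (hB1 : B 0 0 ≠ 0) (hB2 : B 1 0 ≠ 0) :
    Comp D m F := by
  set i := algebraMap K L with hi
  have : CharZero L := charZero_of_injective_algebraMap i.injective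
  have hm0 : m ≠ 0 := by omega
  have hmL : (m : L) ≠ 0 := by exact_mod_cast hm0
  set c₁ : L := - B 0 1 / B 0 0 with hc₁
  set c₂ : L := - B 1 1 / B 1 0 with hc₂
  have hdB := det_ne B
  have hdA := det_ne A
  have hc12 : c₁ - c₂ ≠ 0 := by
    intro h0
    apply hdB
    rw [hc₁, hc₂] at h0
    field_simp at h0
    linear_combination h0
  set α₁ : L := A 0 0 * B 0 0 ^ m with hα₁
  set α₂ : L := A 0 1 * B 1 0 ^ m with hα₂
  set β₁ : L := A 1 0 * B 0 0 ^ m with hβ₁
  set β₂ : L := A 1 1 * B 1 0 ^ m with hβ₂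
  -- the formula at infinity
  have hz1 : ((1 : L), (0 : L)).1 ≠ 0 ∨ ((1 : L), (0 : L)).2 ≠ 0 := Or.inl one_ne_zero
  have hinf1 : β₁ + β₂ = 0 := by
    have h1 := hF OnePoint.infty
    rw [hinf, OnePoint.map_infty] at h1
    have h2 : (OnePoint.infty : OnePoint L) = pt ((1 : L), (0 : L)) := (pt_infty rfl).symm
    rw [h2, (block_pt A B m hm0 _ hz1).1] at h1
    have h3 := wd_of_pt_eq h1
    simp only [act, mul_one, mul_zero, add_zero, zero_mul] at h3
    rw [hβ₁, hβ₂]
    linear_combination h3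
  have hβ₂' : β₂ = - β₁ := by linear_combination hinf1
  have hdet : α₁ * β₂ - α₂ * β₁ ≠ 0 := by
    have : α₁ * β₂ - α₂ * β₁ = (A 0 0 * A 1 1 - A 0 1 * A 1 0) * (B 0 0 ^ m * B 1 0 ^ m) := by
      rw [hα₁, hα₂, hβ₁, hβ₂]
      ring
    rw [this]
    exact mul_ne_zero hdA (mul_ne_zero (pow_ne_zero _ hB1) (pow_ne_zero _ hB2))
  have hprod : - β₁ * (α₁ + α₂) ≠ 0 := by
    intro h0
    apply hdet
    rw [hβ₂']
    linear_combination h0
  have hβne : β₁ ≠ 0 := by
    intro h0
    apply hprod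
    rw [h0]
    ring
  have hs : α₁ + α₂ ≠ 0 := right_ne_zero_of_mul hprod
  set s : L := α₁ + α₂ with hsdef
  set a : L := α₁ / s with ha
  set b : L := β₁ / s with hb
  have hbne : b ≠ 0 := div_ne_zero hβne hs
  have ha2 : α₂ = s * (1 - a) := by
    rw [ha]
    field_simp
    rw [hsdef]
    ring
  have ha1 : α₁ = s * a := by
    rw [ha]
    field_simp
  have hb1 : β₁ = s * b := by
    rw [hb]
    field_simp
  -- the formula at finite points
  have hfin : ∀ x : K, (vec (F x)).1 ≠ 0 ∨ (vec (F x)).2 ≠ 0 := fun x => vec_ne _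
  have hval : ∀ x : K, i (vec (F x)).1 * (b * ((i x - c₁) ^ m - (i x - c₂) ^ m)) =
      i (vec (F x)).2 * (a * (i x - c₁) ^ m + (1 - a) * (i x - c₂) ^ m) := by
    intro x
    have h1 := hF (x : OnePoint K)
    have hz : ((i x, (1 : L)) : L × L).1 ≠ 0 ∨ ((i x, (1 : L)) : L × L).2 ≠ 0 :=
      Or.inr one_ne_zero
    have h2 : OnePoint.map i (x : OnePoint K) = pt (i x, (1 : L)) := by
      rw [pt_some (by simp)]
      simp
    have h3 : OnePoint.map i (F x) = pt (i (vec (F x)).1, i (vec (F x)).2) := by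
      conv_lhs => rw [← pt_vec (F x)]
      rw [map_pt]
    rw [h2, h3, (block_pt A B m hm0 _ hz).1] at h1
    have h4 := wd_of_pt_eq h1
    simp only [act, mul_one] at h4
    have e1 : B 0 0 * i x + B 0 1 = B 0 0 * (i x - c₁) := by
      rw [hc₁]
      field_simp
      ring
    have e2 : B 1 0 * i x + B 1 1 = B 1 0 * (i x - c₂) := by
      rw [hc₂]
      field_simp
      ring
    rw [e1, e2, mul_pow, mul_pow] at h4
    have h5 : i (vec (F x)).1 * (β₁ * (i x - c₁) ^ m + β₂ * (i x - c₂) ^ m) =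
        i (vec (F x)).2 * (α₁ * (i x - c₁) ^ m + α₂ * (i x - c₂) ^ m) := by
      rw [hα₁, hα₂, hβ₁, hβ₂]
      linear_combination h4
    rw [hβ₂', hb1, ha1, ha2] at h5
    apply mul_left_cancel₀ hs
    linear_combination h5
  -- polynomials
  set U₁ : L[X] := (X - C c₁) ^ m with hU₁
  set U₂ : L[X] := (X - C c₂) ^ m with hU₂
  set P : L[X] := C a * U₁ + C (1 - a) * U₂ with hP
  set Q : L[X] := C b * (U₁ - U₂) with hQ
  have hcop : IsCoprime P Q := by
    have h1 : IsCoprime U₁ U₂ := by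
      rw [hU₁, hU₂]
      exact (isCoprime_X_sub_C_of_isUnit_sub (isUnit_iff_ne_zero.2 hc12)).pow
    obtain ⟨r, t, hrt⟩ := h1
    have e1 : U₁ = P + C ((1 - a) / b) * Q := by
      rw [hP, hQ, ← mul_assoc, ← C_mul, div_mul_cancel₀ _ hbne, C_sub, C_1]
      ring
    have e2 : U₂ = P - C (a / b) * Q := by
      rw [hP, hQ, ← mul_assoc, ← C_mul, div_mul_cancel₀ _ hbne, C_sub, C_1]
      ring
    refine ⟨r + t, r * C ((1 - a) / b) - t * C (a / b), ?_⟩
    rw [← hrt]
    conv_rhs => rw [e1, e2]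
    ring
  have hPc : ∀ k, P.coeff k = (a * (- c₁) ^ (m - k) + (1 - a) * (- c₂) ^ (m - k)) *
      (m.choose k : L) := by
    intro k
    rw [hP, hU₁, hU₂, coeff_add, coeff_C_mul, coeff_C_mul, coeff_X_sub_C_pow, coeff_X_sub_C_pow]
    ring
  have hPmon : P.Monic := by
    apply monic_of_natDegree_le_of_coeff_eq_one m
    · rw [natDegree_le_iff_coeff_eq_zero]
      intro k hk
      rw [hPc, Nat.choose_eq_zero_of_lt hk]
      simp
    · rw [hPc]
      simp
  have hval' : ∀ x : K, ∃ u w : K, (u ≠ 0 ∨ w ≠ 0) ∧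
      algebraMap K L u * Q.eval (algebraMap K L x) =
        algebraMap K L w * P.eval (algebraMap K L x) := by
    intro x
    refine ⟨(vec (F x)).1, (vec (F x)).2, vec_ne _, ?_⟩
    have := hval x
    rw [hQ, hP, hU₁, hU₂]
    simp only [eval_mul, eval_C, eval_sub, eval_add, eval_pow, eval_X]
    rw [← hi]
    exact this
  obtain ⟨P₀, Q₀, hP₀, hQ₀⟩ := descent_pair P Q hPmon hcop hval'
  rw [← hi] at hP₀ hQ₀
  -- coefficients
  have hQc : ∀ k, i (Q₀.coeff k) = b * ((- c₁) ^ (m - k) - (- c₂) ^ (m - k)) *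
      (m.choose k : L) := by
    intro k
    rw [← coeff_map, hQ₀, hQ, hU₁, hU₂, coeff_diff]
  have hch1 : m.choose (m - 1) = m := by
    rw [Nat.choose_symm (show 1 ≤ m by omega)]
    simp
  have hq1 : i (Q₀.coeff (m - 1)) = - (m : L) * b * (c₁ - c₂) := by
    rw [hQc, show m - (m - 1) = 1 by omega, hch1]
    ring
  have hq1ne : - (m : L) * b * (c₁ - c₂) ≠ 0 :=
    mul_ne_zero (mul_ne_zero (neg_ne_zero.2 hmL) hbne) hc12
  have hq2 : i (Q₀.coeff (m - 2)) = b * (c₁ ^ 2 - c₂ ^ 2) * (m.choose (m - 2) : L) := by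
    rw [hQc, show m - (m - 2) = 2 by omega]
    ring
  have hq3 : i (Q₀.coeff (m - 3)) = - b * (c₁ ^ 3 - c₂ ^ 3) * (m.choose (m - 3) : L) := by
    rw [hQc, show m - (m - 3) = 3 by omega]
    ring
  have hch2 : (m.choose (m - 2) : L) ≠ 0 := by
    exact_mod_cast (Nat.choose_pos (show m - 2 ≤ m by omega)).ne'
  have hch3 : (m.choose (m - 3) : L) ≠ 0 := by
    exact_mod_cast (Nat.choose_pos (show m - 3 ≤ m by omega)).ne'
  set e₀ : K := - ((m : K) * Q₀.coeff (m - 2)) / ((m.choose (m - 2) : K) * Q₀.coeff (m - 1))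
    with he₀
  have he : i e₀ = c₁ + c₂ := by
    rw [he₀, map_div₀, map_neg, map_mul, map_mul, map_natCast, map_natCast, hq1, hq2]
    rw [div_eq_iff (mul_ne_zero hch2 hq1ne)]
    ring
  set n₀ : K := ((m : K) * Q₀.coeff (m - 3)) / ((m.choose (m - 3) : K) * Q₀.coeff (m - 1))
    with hn₀
  have hn : i n₀ = c₁ ^ 2 + c₁ * c₂ + c₂ ^ 2 := by
    rw [hn₀, map_div₀, map_mul, map_mul, map_natCast, map_natCast, hq1, hq3]
    rw [div_eq_iff (mul_ne_zero hch3 hq1ne)]
    ring
  set s₀ : K := e₀ / 2 with hs₀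
  have hs0 : i s₀ = (c₁ + c₂) / 2 := by
    rw [hs₀, map_div₀, he, map_ofNat]
  set c : L := (c₁ - c₂) / 2 with hc
  have hcne : c ≠ 0 := div_ne_zero hc12 (by norm_num)
  set α₀ : K := n₀ - 3 * e₀ ^ 2 / 4 with hα₀
  have hα : c ^ 2 = i α₀ := by
    have e1 : i (3 * e₀ ^ 2 / 4) = 3 * (c₁ + c₂) ^ 2 / 4 := by
      rw [map_div₀, map_mul, map_pow, he, map_ofNat, map_ofNat]
    rw [hα₀, map_sub, hn, e1, hc]
    ring
  have hα0 : α₀ ≠ 0 := by
    intro h0
    rw [h0, map_zero] at hα
    exact hcne (eq_zero_of_pow_eq_zero hα)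
  set γ₀ : K := Q₀.coeff (m - 1) / m with hγ₀
  have hγ : i γ₀ = - 2 * b * c := by
    rw [hγ₀, map_div₀, map_natCast, hq1, hc]
    field_simp
  have hγ0 : γ₀ ≠ 0 := by
    intro h0
    rw [h0, map_zero] at hγ
    have : - 2 * b * c ≠ 0 := mul_ne_zero (mul_ne_zero (by norm_num) hbne) hcne
    exact this hγ.symm
  set δ₀ : K := P₀.coeff (m - 1) / m + s₀ with hδ₀
  have hδ : i δ₀ = (1 - 2 * a) * c := by
    have h1 : i (P₀.coeff (m - 1)) = (a * (- c₁) + (1 - a) * (- c₂)) * m := by
      rw [← coeff_map, hP₀, hPc, show m - (m - 1) = 1 by omega, hch1, pow_one, pow_one]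
    rw [hδ₀, map_add, map_div₀, map_natCast, h1, hs0, hc]
    field_simp
    ring
  -- final formula
  set h₀ : GL (Fin 2) K := Matrix.GeneralLinearGroup.mkOfDetNeZero !![1, - s₀; 0, 1]
    (by simp [Matrix.det_fin_two]) with hh₀
  set g₀ : GL (Fin 2) K := Matrix.GeneralLinearGroup.mkOfDetNeZero !![1, δ₀; 0, γ₀]
    (by simpa [Matrix.det_fin_two] using hγ0) with hg₀
  have hform : F = (fun x => g₀ • x) ∘ ((fun x => pt (redei α₀ m (vec x))) ∘
      (fun x => h₀ • x)) := by
    funext x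
    cases x with
    | infty =>
      rw [hinf]
      simp only [Function.comp_apply]
      have e1 : h₀ • (OnePoint.infty : OnePoint K) = OnePoint.infty := by
        rw [OnePoint.smul_infty_eq_self_iff]
        simp [hh₀, Matrix.GeneralLinearGroup.mkOfDetNeZero]
      have e2 : ∀ n : ℕ, redei α₀ n ((1 : K), (0 : K)) = (1, 0) := by
        intro n
        induction n with
        | zero => rfl
        | succ n ih => simp [redei, ih]
      have e3 : vec (OnePoint.infty : OnePoint K) = (1, 0) := rfl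
      rw [e1, e3, e2, pt_infty rfl, eq_comm, OnePoint.smul_infty_eq_self_iff]
      simp [hg₀, Matrix.GeneralLinearGroup.mkOfDetNeZero]
    | coe x =>
      simp only [Function.comp_apply]
      have e1 : h₀ • (x : OnePoint K) = ((x - s₀ : K) : OnePoint K) := by
        rw [OnePoint.smul_some_eq_ite]
        simp [hh₀, Matrix.GeneralLinearGroup.mkOfDetNeZero, sub_eq_add_neg]
      have e3 : vec ((x - s₀ : K) : OnePoint K) = (x - s₀, 1) := rfl
      rw [e1, e3]
      have hy : ((x - s₀, (1 : K)) : K × K).1 ≠ 0 ∨ ((x - s₀, (1 : K)) : K × K).2 ≠ 0 :=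
        Or.inr one_ne_zero
      have hr := redei_ne α₀ hα0 m (x - s₀, 1) hy
      have r1 := redei_spec (L := L) α₀ c hα m (x - s₀, 1)
      have r2 := redei_spec (L := L) α₀ (-c) (by rw [neg_sq, hα]) m (x - s₀, 1)
      set UV := redei α₀ m (x - s₀, 1) with hUV
      rw [smul_pt g₀ UV hr]
      conv_lhs => rw [← pt_vec (F x)]
      apply pt_eq_of_wd (vec_ne _) (act_ne g₀ hr)
      apply i.injective
      rw [map_mul, map_mul]
      have f1 : i x - c₁ = i (x - s₀, (1 : K)).1 + -c * i (x - s₀, (1 : K)).2 := by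
        simp only [map_sub, map_one, hs0, hc]
        ring
      have f2 : i x - c₂ = i (x - s₀, (1 : K)).1 + c * i (x - s₀, (1 : K)).2 := by
        simp only [map_sub, map_one, hs0, hc]
        ring
      have h6 := hval x
      rw [f1, f2, hi, r1, r2, ← hi] at h6
      have g1 : i (act g₀ UV).1 = i UV.1 + (1 - 2 * a) * c * i UV.2 := by
        rw [← hδ, ← map_mul, ← map_add]
        simp [act, hg₀, Matrix.GeneralLinearGroup.mkOfDetNeZero]
      have g2 : i (act g₀ UV).2 = - 2 * b * c * i UV.2 := by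
        rw [← hγ, ← map_mul]
        simp [act, hg₀, Matrix.GeneralLinearGroup.mkOfDetNeZero]
      rw [g1, g2]
      linear_combination h6
  rw [hform]
  have hc1 := Comp.comp (Comp.mobius (D := D) g₀)
    (Comp.comp (Comp.redei (D := D) m α₀ hα0 (by omega) h) (Comp.mobius (D := D) h₀))
  rwa [one_mul, mul_one] at hc1

/-- bicritical maps over `K` are Möbius equivalent over `K` to Rédei functions -/
theorem comp_of_bicrit [CharZero K] {D m : ℕ} (hm : 3 ≤ m)
    (h : ∀ l : ℕ, l.Prime → l ∣ m → 2 * D + 1 < l) (F : OnePoint K → OnePoint K)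
    (A B : GL (Fin 2) L)
    (hF : ∀ x : OnePoint K, OnePoint.map (algebraMap K L) (F x) =
        A • OnePoint.map (fun t : L => t ^ m) (B • OnePoint.map (algebraMap K L) x)) :
    Comp D m F := by
  set i := algebraMap K L with hi
  have hdB := det_ne B
  -- a point of `K` which is not critical
  obtain ⟨x₀, hx1, hx2⟩ : ∃ x₀ : K, B 0 0 * i x₀ + B 0 1 ≠ 0 ∧ B 1 0 * i x₀ + B 1 1 ≠ 0 := by
    by_contra hcon
    push Not at hcon
    set R : L[X] := (C (B 0 0) * X + C (B 0 1)) * (C (B 1 0) * X + C (B 1 1)) with hR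
    have hR0 : R = 0 := by
      apply Polynomial.eq_zero_of_infinite_isRoot
      apply Set.Infinite.mono (s := Set.range i)
      · rintro _ ⟨x, rfl⟩
        rw [Set.mem_ofPred_eq, IsRoot.def, hR]
        simp only [eval_mul, eval_add, eval_C, eval_X]
        by_cases h1 : B 0 0 * i x + B 0 1 = 0
        · rw [h1, zero_mul]
        · rw [hcon x h1, mul_zero]
      · exact Set.infinite_range_of_injective i.injective
    rw [hR] at hR0
    rcases mul_eq_zero.1 hR0 with h1 | h1
    · have e1 : B 0 0 = 0 := by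
        have := congrArg (fun q : L[X] => q.coeff 1) h1
        simpa using this
      have e2 : B 0 1 = 0 := by
        have := congrArg (fun q : L[X] => q.coeff 0) h1
        simpa using this
      apply hdB
      rw [e1, e2]
      ring
    · have e1 : B 1 0 = 0 := by
        have := congrArg (fun q : L[X] => q.coeff 1) h1
        simpa using this
      have e2 : B 1 1 = 0 := by
        have := congrArg (fun q : L[X] => q.coeff 0) h1
        simpa using this
      apply hdB
      rw [e1, e2]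
      ring
  set k : GL (Fin 2) K := Matrix.GeneralLinearGroup.mkOfDetNeZero !![x₀, 1; 1, 0]
    (by simp [Matrix.det_fin_two]) with hk
  have hk_inf : k • (OnePoint.infty : OnePoint K) = (x₀ : OnePoint K) := by
    rw [OnePoint.smul_infty_eq_ite]
    simp [hk, Matrix.GeneralLinearGroup.mkOfDetNeZero]
  obtain ⟨g, hg⟩ : ∃ g : GL (Fin 2) K, g • F (x₀ : OnePoint K) = OnePoint.infty := by
    generalize F (x₀ : OnePoint K) = y
    cases y with
    | infty => exact ⟨1, one_smul _ _⟩
    | coe t =>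
      refine ⟨Matrix.GeneralLinearGroup.mkOfDetNeZero !![0, 1; 1, -t]
        (by simp [Matrix.det_fin_two]), ?_⟩
      rw [OnePoint.smul_some_eq_ite]
      simp [Matrix.GeneralLinearGroup.mkOfDetNeZero]
  set F2 : OnePoint K → OnePoint K := fun x => g • F (k • x) with hF2
  have hF2' : ∀ x : OnePoint K, OnePoint.map (algebraMap K L) (F2 x) =
      (g.map (algebraMap K L) * A) • OnePoint.map (fun t : L => t ^ m)
        ((B * k.map (algebraMap K L)) • OnePoint.map (algebraMap K L) x) := by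
    intro x
    rw [hF2]
    simp only
    rw [OnePoint.map_smul, ← hi, hF, OnePoint.map_smul, mul_smul, mul_smul]
  have hB00 : (B * k.map (algebraMap K L)) 0 0 = B 0 0 * i x₀ + B 0 1 := by
    rw [Matrix.GeneralLinearGroup.coe_mul, Matrix.mul_apply, Fin.sum_univ_two]
    simp [hk, Matrix.GeneralLinearGroup.mkOfDetNeZero, hi]
  have hB10 : (B * k.map (algebraMap K L)) 1 0 = B 1 0 * i x₀ + B 1 1 := by
    rw [Matrix.GeneralLinearGroup.coe_mul, Matrix.mul_apply, Fin.sum_univ_two]
    simp [hk, Matrix.GeneralLinearGroup.mkOfDetNeZero, hi]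
  have hinf : F2 OnePoint.infty = OnePoint.infty := by
    rw [hF2]
    simp only
    rw [hk_inf, hg]
  have hmain := bi_normal (D := D) hm h F2 (g.map (algebraMap K L) * A)
    (B * k.map (algebraMap K L)) hF2' hinf (by rw [hB00]; exact hx1) (by rw [hB10]; exact hx2)
  have hform : F = (fun x => g⁻¹ • x) ∘ (F2 ∘ (fun x => k⁻¹ • x)) := by
    funext x
    simp only [Function.comp_apply, hF2]
    rw [smul_inv_smul, inv_smul_smul]
  rw [hform]
  have hc1 := Comp.comp (Comp.mobius (D := D) g⁻¹)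
    (Comp.comp hmain (Comp.mobius (D := D) k⁻¹))
  rwa [one_mul, mul_one] at hc1

end bicritical

end Pool.Agent.MP90787a.J.GeomAux
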