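import Mathlib
import Pool.Agent.Lib.MP_90787a_nt.J.GeomDesc

/-!
# MP_90787a_nt: polynomials over `K` which are compositions of powers and Dickson polynomials over
an extension field
-/

set_option autoImplicit false

namespace Pool.Agent.MP90787a.J.GeomAux

open Polynomial

/-! ### affine maps -/

section aff

variable {K : Type} [Field K] [DecidableEq K]

/-- an affine map as an element of `GL₂` -/
noncomputable def aff (a b : K) (ha : a ≠ 0) : GL (Fin 2) K :=
  Matrix.GeneralLinearGroup.mkOfDetNeZero !![a, b; 0, 1] (by simpa [Matrix.det_fin_two] using ha)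

theorem aff_smul (a b : K) (ha : a ≠ 0) (x : OnePoint K) :
    aff a b ha • x = OnePoint.map (fun t => a * t + b) x := by
  cases x with
  | infty =>
    rw [OnePoint.smul_infty_eq_self_iff.2]
    · rfl
    · simp [aff, Matrix.GeneralLinearGroup.mkOfDetNeZero]
  | coe x =>
    rw [OnePoint.smul_some_eq_ite]
    simp [aff, Matrix.GeneralLinearGroup.mkOfDetNeZero]

theorem comp_affine (D : ℕ) (a b : K) (ha : a ≠ 0) :
    Comp D 1 (OnePoint.map (fun t : K => a * t + b)) := by
  have := Comp.mobius (D := D) (aff a b ha)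
  have e : (fun x : OnePoint K => aff a b ha • x) = OnePoint.map (fun t : K => a * t + b) := by
    funext x
    exact aff_smul a b ha x
  rwa [e] at this

theorem comp_conj {D d : ℕ} {f : K → K} (hf : Comp D d (OnePoint.map f)) (a b c e : K)
    (ha : a ≠ 0) (hc : c ≠ 0) : Comp D d (OnePoint.map (fun t : K => a * f (c * t + e) + b)) := by
  have h1 := Comp.comp (comp_affine D a b ha) (Comp.comp hf (comp_affine D c e hc))
  rw [one_mul, mul_one, ← OnePoint.map_comp, ← OnePoint.map_comp] at h1
  exact h1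

end aff

/-! ### Dickson polynomials -/

section dick

variable {L : Type} [Field L]

theorem dickson_coeffs (a : L) (n : ℕ) :
    ((dickson 1 a (n + 1)).natDegree ≤ n + 1 ∧ (dickson 1 a (n + 1)).coeff (n + 1) = 1) ∧
    ((dickson 1 a (n + 2)).natDegree ≤ n + 2 ∧ (dickson 1 a (n + 2)).coeff (n + 2) = 1) ∧
    (dickson 1 a (n + 1)).coeff n = 0 ∧ (dickson 1 a (n + 2)).coeff (n + 1) = 0 ∧
    (dickson 1 a (n + 2)).coeff n = - ((n + 2 : ℕ) : L) * a := by
  induction n with
  | zero =>
    have h2 : dickson 1 a 2 = X ^ 2 - C (2 * a) := by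
      rw [dickson_two, C_mul]
      have : (3 - ((1 : ℕ) : L[X])) = C (2 : L) := by
        rw [show (C (2 : L) : L[X]) = ((2 : ℕ) : L[X]) by
          rw [← C_eq_natCast]; norm_num]
        norm_num
      rw [this]
      ring
    refine ⟨⟨?_, ?_⟩, ⟨?_, ?_⟩, ?_, ?_, ?_⟩
    · simp [dickson_one]
    · simp [dickson_one]
    · rw [zero_add, h2]
      exact natDegree_X_pow_sub_C.le
    · rw [zero_add, h2]
      simp
    · simp [dickson_one]
    · rw [zero_add, zero_add, h2]
      simp [coeff_X_pow]
    · rw [zero_add, h2]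
      simp
  | succ n ih =>
    obtain ⟨⟨h1, h2⟩, ⟨h3, h4⟩, h5, h6, h7⟩ := ih
    have hrec : dickson 1 a (n + 3) = X * dickson 1 a (n + 2) - C a * dickson 1 a (n + 1) :=
      dickson_add_two 1 a (n + 1)
    refine ⟨⟨h3, h4⟩, ⟨?_, ?_⟩, h6, ?_, ?_⟩
    · show (dickson 1 a (n + 3)).natDegree ≤ n + 3
      rw [hrec]
      refine (natDegree_sub_le _ _).trans (max_le ?_ ?_)
      · refine natDegree_mul_le.trans ?_
        have := natDegree_X_le (R := L)
        omega
      · refine (natDegree_C_mul_le _ _).trans ?_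
        omega
    · show (dickson 1 a (n + 3)).coeff (n + 3) = 1
      rw [hrec, coeff_sub, show n + 3 = (n + 2) + 1 from rfl, coeff_X_mul, h4, coeff_C_mul,
        coeff_eq_zero_of_natDegree_lt (show (dickson 1 a (n + 1)).natDegree < n + 2 + 1 by omega)]
      simp
    · show (dickson 1 a (n + 3)).coeff (n + 2) = 0
      rw [hrec, coeff_sub, show n + 2 = (n + 1) + 1 from rfl, coeff_X_mul, coeff_C_mul]
      rw [show n + 1 + 1 = n + 2 from rfl, h6,
        coeff_eq_zero_of_natDegree_lt (show (dickson 1 a (n + 1)).natDegree < n + 2 by omega)]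
      simp
    · show (dickson 1 a (n + 3)).coeff (n + 1) = - ((n + 3 : ℕ) : L) * a
      rw [hrec, coeff_sub, coeff_X_mul, coeff_C_mul, h7, h2]
      push_cast
      ring

theorem dickson_natDegree (a : L) (m : ℕ) (hm : 1 ≤ m) : (dickson 1 a m).natDegree = m := by
  obtain ⟨n, rfl⟩ := Nat.exists_eq_add_of_le' hm
  obtain ⟨⟨h1, h2⟩, -⟩ := dickson_coeffs a n
  apply le_antisymm h1
  apply le_natDegree_of_ne_zero
  rw [h2]
  exact one_ne_zero

/-- homogeneity of Dickson polynomials -/
theorem dickson_scale (a c : L) : ∀ n : ℕ,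
    (dickson 1 (c ^ 2 * a) n).comp (C c * X) = C (c ^ n) * dickson 1 a n ∧
    (dickson 1 (c ^ 2 * a) (n + 1)).comp (C c * X) = C (c ^ (n + 1)) * dickson 1 a (n + 1) := by
  intro n
  induction n with
  | zero =>
    constructor
    · rw [dickson_zero, dickson_zero, sub_comp, natCast_comp, pow_zero, C_1, one_mul]
      congr 1
      exact natCast_comp (n := 3)
    · rw [zero_add, dickson_one, dickson_one, X_comp, pow_one]
  | succ n ih =>
    refine ⟨ih.2, ?_⟩
    rw [show n + 1 + 1 = n + 2 from rfl, dickson_add_two, dickson_add_two, sub_comp, mul_comp,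
      mul_comp, X_comp, C_comp, ih.1, ih.2, pow_succ c (n + 1), pow_succ c n]
    simp only [C_mul, C_pow]
    ring

end dick

/-! ### main induction -/

section main

variable {K L : Type} [Field K] [Field L] [Algebra K L]

theorem polyComp_natDegree {D d : ℕ} {f : L[X]} (hf : PolyComp D d f) :
    f.natDegree = d ∧ 1 ≤ d := by
  induction hf with
  | linear a b ha => exact ⟨natDegree_linear ha, le_rfl⟩
  | power m hm h => exact ⟨natDegree_X_pow m, by omega⟩
  | dickson m a hm h => exact ⟨dickson_natDegree a m (by omega), by omega⟩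
  | comp hf hg ihf ihg =>
    refine ⟨?_, Nat.mul_pos ihf.2 ihg.2⟩
    rw [natDegree_comp, ihf.1, ihg.1]

theorem map_linear_comp (a b c e : L) (f : L[X]) :
    (C a * X + C b).comp (f.comp (C c * X + C e)) = C a * f.comp (C c * X + C e) + C b := by
  simp

/-- coefficients of `E * (X + t) ^ m` plus a polynomial of degree at most `m - 2` -/
theorem top_coeffs (E t : L) (m : ℕ) (hm : 2 ≤ m) (R : L[X]) (hR : R.natDegree ≤ m - 2) :
    (C E * (X + C t) ^ m + R).coeff m = E ∧
    (C E * (X + C t) ^ m + R).coeff (m - 1) = E * (m * t) := by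
  constructor
  · rw [coeff_add, coeff_C_mul, coeff_X_add_C_pow,
      coeff_eq_zero_of_natDegree_lt (show R.natDegree < m by omega)]
    simp
  · rw [coeff_add, coeff_C_mul, coeff_X_add_C_pow,
      coeff_eq_zero_of_natDegree_lt (show R.natDegree < m - 1 by omega),
      show m - (m - 1) = 1 by omega]
    have : m.choose (m - 1) = m := by
      rw [Nat.choose_symm (show 1 ≤ m by omega)]
      simp
    rw [this, pow_one, add_zero]
    ring

theorem descend_power [CharZero K] [DecidableEq K] {D m : ℕ} (hm : 2 ≤ m)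
    (h : ∀ l : ℕ, l.Prime → l ∣ m → D + 1 < l) (a b c e : L) (ha : a ≠ 0) (hc : c ≠ 0) (p : K[X])
    (hp : p.map (algebraMap K L) = C a * (C c * X + C e) ^ m + C b) :
    Comp D m (OnePoint.map (fun x => p.eval x)) := by
  set i := algebraMap K L with hi
  have : CharZero L := charZero_of_injective_algebraMap i.injective
  have hm0 : (m : L) ≠ 0 := by
    rw [Ne, Nat.cast_eq_zero]
    omega
  have e1 : p.map i = C (a * c ^ m) * (X + C (e / c)) ^ m + C b := by
    rw [hp]
    have : (C c * X + C e : L[X]) = C c * (X + C (e / c)) := by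
      rw [mul_add, ← C_mul]
      congr 2
      field_simp
    rw [this, mul_pow, C_mul, C_pow]
    ring
  obtain ⟨h1, h2⟩ := top_coeffs (a * c ^ m) (e / c) m hm (C b) (by simp)
  rw [← e1, coeff_map] at h1 h2
  have hE : a * c ^ m ≠ 0 := mul_ne_zero ha (pow_ne_zero _ hc)
  have hE0 : p.coeff m ≠ 0 := by
    intro h0
    rw [h0, map_zero] at h1
    exact hE h1.symm
  set t₀ : K := p.coeff (m - 1) / (m * p.coeff m) with ht₀
  have ht : i t₀ = e / c := by
    rw [ht₀, map_div₀, map_mul, map_natCast, h1, h2]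
    field_simp
  have hb : i (p.eval (- t₀)) = b := by
    have e2 : (p.map i).eval (- (e / c)) = b := by
      rw [e1]
      simp [show m ≠ 0 by omega]
    rw [← e2, ← ht, ← map_neg, eval_map_algebraMap, aeval_algebraMap_apply_eq_algebraMap_eval]
  set b₀ := p.eval (- t₀) with hb₀
  have e3 : p = C (p.coeff m) * (X + C t₀) ^ m + C b₀ := by
    apply Polynomial.map_injective i i.injective
    rw [e1]
    simp [h1, ht, hb]
  have e4 : (fun x => p.eval x) = fun x : K => p.coeff m * ((1 * x + t₀) ^ m) + b₀ := by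
    funext x
    conv_lhs => rw [e3]
    simp
  rw [e4]
  exact comp_conj (f := fun x => x ^ m) (Comp.power m hm h) _ _ _ _ hE0 one_ne_zero

theorem descend_dickson [CharZero K] [DecidableEq K] {D m : ℕ} (hD : 1 ≤ D) (hm : 2 ≤ m)
    (h : ∀ l : ℕ, l.Prime → l ∣ m → 2 * D + 1 < l) (a' : L) (a b c e : L) (ha : a ≠ 0)
    (hc : c ≠ 0) (p : K[X])
    (hp : p.map (algebraMap K L) = C a * (dickson 1 a' m).comp (C c * X + C e) + C b) :
    Comp D m (OnePoint.map (fun x => p.eval x)) := by
  set i := algebraMap K L with hi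
  have : CharZero L := charZero_of_injective_algebraMap i.injective
  have hm0 : (m : L) ≠ 0 := by
    rw [Ne, Nat.cast_eq_zero]
    omega
  have hm3 : 3 ≤ m := by
    have h2 : m ≠ 2 := by
      intro h2
      have := h 2 Nat.prime_two (by rw [h2])
      omega
    omega
  obtain ⟨k, rfl⟩ := Nat.exists_eq_add_of_le' hm
  -- normalise
  set a1 : L := a' / c ^ 2 with ha1
  have hs : (dickson 1 a' (k + 2)).comp (C c * X + C e) =
      C (c ^ (k + 2)) * (dickson 1 a1 (k + 2)).comp (X + C (e / c)) := by
    have e0 : (C c * X + C e : L[X]) = (C c * X).comp (X + C (e / c)) := by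
      rw [mul_comp, C_comp, X_comp, mul_add, ← C_mul]
      congr 2
      field_simp
    have e1 : a' = c ^ 2 * a1 := by
      rw [ha1]
      field_simp
    rw [e0, ← comp_assoc]
    conv_lhs => rw [e1]
    rw [(dickson_scale a1 c (k + 2)).1, mul_comp, C_comp]
  obtain ⟨-, ⟨hd1, hd2⟩, -, hd3, hd4⟩ := dickson_coeffs a1 k
  set R : L[X] := dickson 1 a1 (k + 2) - X ^ (k + 2) with hR
  have hRdeg : R.natDegree ≤ k := by
    rw [natDegree_le_iff_coeff_eq_zero]
    intro n hn
    rw [hR, coeff_sub, coeff_X_pow]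
    by_cases h1 : n = k + 1
    · rw [h1, hd3]
      simp
    · by_cases h2 : n = k + 2
      · rw [h2, hd2]
        simp
      · rw [if_neg h2, coeff_eq_zero_of_natDegree_lt (by omega), sub_zero]
  have e1 : p.map i = C (a * c ^ (k + 2)) * (X + C (e / c)) ^ (k + 2) +
      (C (a * c ^ (k + 2)) * R.comp (X + C (e / c)) + C b) := by
    rw [hp, hs, hR, sub_comp, X_pow_comp, C_mul]
    ring
  have hE : a * c ^ (k + 2) ≠ 0 := mul_ne_zero ha (pow_ne_zero _ hc)
  obtain ⟨h1, h2⟩ := top_coeffs (a * c ^ (k + 2)) (e / c) (k + 2) hm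
    (C (a * c ^ (k + 2)) * R.comp (X + C (e / c)) + C b) (by
      refine (natDegree_add_le _ _).trans (max_le ?_ ?_)
      · refine (natDegree_C_mul_le _ _).trans ?_
        rw [natDegree_comp, natDegree_X_add_C, mul_one]
        simpa using hRdeg
      · simp)
  rw [← e1, coeff_map] at h1 h2
  have hE0 : p.coeff (k + 2) ≠ 0 := by
    intro h0
    rw [h0, map_zero] at h1
    exact hE h1.symm
  set t₀ : K := p.coeff (k + 2 - 1) / ((k + 2 : ℕ) * p.coeff (k + 2)) with ht₀
  have ht : i t₀ = e / c := by
    rw [ht₀, map_div₀, map_mul, map_natCast, h1, h2]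
    field_simp
  -- translate
  have e2 : (p.comp (X - C t₀)).map i = C (a * c ^ (k + 2)) * dickson 1 a1 (k + 2) + C b := by
    rw [Polynomial.map_comp, hp, hs, ← ht]
    simp only [add_comp, mul_comp, C_comp, comp_assoc, Polynomial.map_sub, map_X, map_C, X_comp,
      sub_add_cancel, comp_X]
    rw [C_mul]
    ring
  have hk1 : 1 ≤ k := by omega
  have h3 : i ((p.comp (X - C t₀)).coeff k) = a * c ^ (k + 2) * (- ((k + 2 : ℕ) : L) * a1) := by
    rw [← coeff_map, e2, coeff_add, coeff_C_mul, hd4, coeff_C_of_ne_zero (by omega), add_zero]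
  set a₀ : K := - (p.comp (X - C t₀)).coeff k / ((k + 2 : ℕ) * p.coeff (k + 2)) with ha₀
  have hA : i a₀ = a1 := by
    rw [ha₀, map_div₀, map_neg, map_mul, map_natCast, h1, h3]
    field_simp
  set b₀ : K := (p.comp (X - C t₀)).eval 0 - p.coeff (k + 2) * (dickson 1 a₀ (k + 2)).eval 0
    with hb₀
  have hb : i b₀ = b := by
    have e3 : ∀ q : K[X], i (q.eval 0) = (q.map i).eval 0 := by
      intro q
      rw [← coeff_zero_eq_eval_zero, ← coeff_zero_eq_eval_zero, coeff_map]
    rw [hb₀, map_sub, map_mul, e3, e3, e2, map_dickson, hA, h1]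
    simp
  have e3 : p.comp (X - C t₀) = C (p.coeff (k + 2)) * dickson 1 a₀ (k + 2) + C b₀ := by
    apply Polynomial.map_injective i i.injective
    rw [e2]
    simp [h1, hA, hb, map_dickson]
  have e4 : (fun x => p.eval x) =
      fun x : K => p.coeff (k + 2) * ((dickson 1 a₀ (k + 2)).eval (1 * x + t₀)) + b₀ := by
    funext x
    have e5 : p.eval x = (p.comp (X - C t₀)).eval (x + t₀) := by
      rw [eval_comp]
      simp
    rw [e5, e3]
    simp
  rw [e4]
  exact comp_conj (f := fun x => (dickson 1 a₀ (k + 2)).eval x) (Comp.dickson (k + 2) a₀ hm h)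
    _ _ _ _ hE0 one_ne_zero

theorem poly_main [CharZero K] [DecidableEq K] {D : ℕ} (hD : 1 ≤ D) {d : ℕ} {f : L[X]}
    (hf : PolyComp D d f) : ∀ (a b c e : L), a ≠ 0 → c ≠ 0 → ∀ p : K[X],
    p.map (algebraMap K L) = C a * f.comp (C c * X + C e) + C b →
    Comp D d (OnePoint.map (fun x => p.eval x)) := by
  set i := algebraMap K L with hi
  induction hf with
  | linear a' b' ha' =>
    intro a b c e ha hc p hp
    have h1 : p.natDegree = 1 := by
      rw [← natDegree_map i, hp]
      have : (C a * (C a' * X + C b').comp (C c * X + C e) + C b : L[X]) =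
          C (a * (a' * c)) * X + C (a * (a' * e + b') + b) := by
        simp only [add_comp, mul_comp, C_comp, X_comp, C_add, C_mul]
        ring
      rw [this]
      exact natDegree_linear (mul_ne_zero ha (mul_ne_zero ha' hc))
    obtain ⟨u, v, huv⟩ := exists_eq_X_add_C_of_natDegree_le_one h1.le
    have hu : u ≠ 0 := by
      intro hu
      rw [huv, hu, C_0, zero_mul, zero_add, natDegree_C] at h1
      omega
    have e4 : (fun x => p.eval x) = fun x : K => u * x + v := by
      funext x
      rw [huv]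
      simp
    rw [e4]
    exact comp_affine D u v hu
  | power m hm h =>
    intro a b c e ha hc p hp
    rw [X_pow_comp] at hp
    exact descend_power hm h a b c e ha hc p hp
  | dickson m a' hm h =>
    intro a b c e ha hc p hp
    exact descend_dickson hD hm h a' a b c e ha hc p hp
  | @comp d1 d2 f g hf hg ihf ihg =>
    intro a b c e ha hc p hp
    obtain ⟨hdf, hdf1⟩ := polyComp_natDegree hf
    obtain ⟨hdg, hdg1⟩ := polyComp_natDegree hg
    set g1 : L[X] := g.comp (C c * X + C e) with hg1
    have hlin : (C c * X + C e : L[X]).natDegree = 1 := natDegree_linear hc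
    have hg1deg : g1.natDegree = d2 := by
      rw [hg1, natDegree_comp, hlin, mul_one, hdg]
    have hlc : g1.leadingCoeff ≠ 0 := by
      rw [Ne, leadingCoeff_eq_zero]
      intro h0
      rw [h0, natDegree_zero] at hg1deg
      omega
    set lam := g1.leadingCoeff with hlam
    set mu := g1.coeff 0 with hmu
    set g2 : L[X] := C lam⁻¹ * g1 + C (- (lam⁻¹ * mu)) with hg2
    set f2 : L[X] := C a * f.comp (C lam * X + C mu) + C b with hf2
    have hg2deg : g2.natDegree = d2 := by
      rw [hg2, natDegree_add_C, natDegree_C_mul (inv_ne_zero hlc), hg1deg]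
    have hg2mon : g2.Monic := by
      rw [Monic, leadingCoeff, hg2deg, hg2, coeff_add, coeff_C_mul, coeff_C_of_ne_zero (by omega),
        add_zero, ← hg1deg, coeff_natDegree, ← hlam, inv_mul_cancel₀ hlc]
    have hg20 : g2.coeff 0 = 0 := by
      rw [hg2, coeff_add, coeff_C_mul, coeff_C_zero, ← hmu]
      ring
    have hf2deg : f2.natDegree = d1 := by
      rw [hf2, natDegree_add_C, natDegree_C_mul ha, natDegree_comp, natDegree_linear hlc, mul_one,
        hdf]
    have hback : (C lam * X + C mu : L[X]).comp g2 = g1 := by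
      rw [hg2]
      simp only [add_comp, mul_comp, C_comp, X_comp, mul_add, ← C_mul, ← mul_assoc]
      rw [mul_inv_cancel₀ hlc, C_1, one_mul, add_assoc, ← C_add]
      rw [show lam * -(lam⁻¹ * mu) + mu = 0 by field_simp; ring, C_0, add_zero]
    have hcomp : f2.comp g2 = p.map i := by
      rw [hf2, add_comp, mul_comp, C_comp, C_comp, comp_assoc, hback, hp, hg1, comp_assoc]
    obtain ⟨f₀, g₀, hf₀, hg₀, hfg⟩ := descent_comp p f2 g2 (by omega) hg2mon (by omega) hg20 hcomp
    have c1 : Comp D d1 (OnePoint.map (fun x => f₀.eval x)) := by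
      apply ihf a b lam mu ha hlc f₀
      rw [← hi] at hf₀
      rw [hf₀]
    have c2 : Comp D d2 (OnePoint.map (fun x => g₀.eval x)) := by
      apply ihg lam⁻¹ (- (lam⁻¹ * mu)) c e (inv_ne_zero hlc) hc g₀
      rw [← hi] at hg₀
      rw [hg₀]
    have c3 := Comp.comp c1 c2
    rw [← OnePoint.map_comp] at c3
    have e5 : (fun x => f₀.eval x) ∘ (fun x => g₀.eval x) = fun x => p.eval x := by
      funext x
      rw [← hfg, eval_comp]
      rfl
    rwa [e5] at c3

theorem comp_of_poly [CharZero K] [DecidableEq K] {D d : ℕ} (hD : 1 ≤ D) (p : K[X])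
    (hp : PolyComp D d (p.map (algebraMap K L))) : Comp D d (OnePoint.map (fun x => p.eval x)) := by
  apply poly_main hD hp 1 0 1 0 one_ne_zero one_ne_zero p
  simp

end main

end Pool.Agent.MP90787a.J.GeomAux
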