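import Mathlib
import Pool.Agent.Lib.MP_90787a_nt.J.GeomBi
import Pool.Agent.Lib.MP_90787a_nt.J.GeomPoly

/-!
# MP_90787a_nt: the class `CompG` is contained in the class `Comp`
-/

set_option autoImplicit false

namespace Pool.Agent.MP90787a.J

open GeomAux

theorem comp_of_compG {K : Type} [Field K] [CharZero K] [DecidableEq K] (D d : ℕ) (hD : 1 ≤ D)
    (F : OnePoint K → OnePoint K) (hF : CompG D d F) : Comp D d F := by
  induction hF with
  | mobius g => exact Comp.mobius g
  | bicrit m hm h F L A B hF =>
    have hm3 : 3 ≤ m := by
      have h2 : m ≠ 2 := by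
        intro h2
        have := h 2 Nat.prime_two (by rw [h2])
        omega
      omega
    exact comp_of_bicrit hm3 h F A B hF
  | poly d p L hp => exact comp_of_poly hD p hp
  | comp hF hG ihF ihG => exact Comp.comp ihF ihG

end Pool.Agent.MP90787a.J
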